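import Mathlib
import Pool.Agent.Lib.MP_20db89_co.Defs

set_option autoImplicit false

/-!
Definitions for the second half of Q1 of MP_20db89_co: the `k`-absolute order, fusion rings and
roots with coefficients in a fusion ring, representations of a quiver through the two-term
complex, factorizations of a Coxeter element.
-/

namespace Pool.Agent.Lib.MP_20db89_co

universe u v

/-! ### The `k`-absolute order -/

section AbsOrder

variable {B : Type u} {W : Type v} [Group W] {M : CoxeterMatrix B} (cs : CoxeterSystem M W)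

/-- The arrows `a → b` of the directed graph `Ω^k`: `a b⁻¹ ∈ T_k` and `a < b` in Bruhat order. -/
def absArrow (k : ℕ) (a b : W) : Prop := a * b⁻¹ ∈ reflLE cs k ∧ bruhatLT cs a b

/-- `absPath cs k m a b`: there is a directed path of length `m` from `a` to `b` in `Ω^k`. -/
def absPath (k : ℕ) : ℕ → W → W → Prop
  | 0, a, b => a = b
  | m + 1, a, b => ∃ x : W, absArrow cs k a x ∧ absPath k m x b

/-- `ℓ_k(w)`: the length of a shortest directed path from `e` to `w` in `Ω^k`. -/
noncomputable def absLen (k : ℕ) (w : W) : ℕ := sInf {m : ℕ | absPath cs k m 1 w}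

/-- The left `k`-absolute order: `u ≼_k v` iff `ℓ_k(v) = ℓ_k(u) + ℓ_k(v u⁻¹)`. -/
def absLE (k : ℕ) (x y : W) : Prop := absLen cs k y = absLen cs k x + absLen cs k (y * x⁻¹)

/-- The interval `[x, y]_{ak}` of the left `k`-absolute order. -/
def absInterval (k : ℕ) (x y : W) : Set W := {w : W | absLE cs k x w ∧ absLE cs k w y}

end AbsOrder

namespace AK

/-! ### Fusion rings -/

/-- A commutative ring with a finite `ℤ`-basis, which contains `1`, with non-negative structure
constants, and orthonormal for the form `(a, b) ↦` coefficient of `1` in `a b`. -/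
structure FRing (A I : Type) [CommRing A] [Fintype I] [DecidableEq I] where
  b : Module.Basis I ℤ A
  one : I
  b_one : b one = 1
  nonneg : ∀ u v w : I, 0 ≤ b.repr (b u * b v) w
  dual : ∀ u v : I, b.repr (b u * b v) one = if u = v then 1 else 0

/-- `a` has non-negative coefficients. -/
def FRing.Nn {A I : Type} [CommRing A] [Fintype I] [DecidableEq I] (R : FRing A I) (a : A) : Prop :=
  ∀ i : I, 0 ≤ R.b.repr a i

/-- The vector `x` has coordinates with non-negative coefficients. -/
def FRing.PV {A I : Type} [CommRing A] [Fintype I] [DecidableEq I] (R : FRing A I) {B : Type u}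
    (x : B → A) : Prop := ∀ s : B, R.Nn (x s)

/-- The Chebyshev sequence `1, x, x² - 1, x³ - 2 x, ...`. -/
def ch {A : Type} [CommRing A] (x : A) : ℕ → A
  | 0 => 1
  | 1 => x
  | n + 2 => x * ch x (n + 1) - ch x n

/-! ### The root module `B → A` -/

section Root

variable {B : Type u} [Fintype B] [DecidableEq B] {A : Type} [CommRing A]

/-- the simple root `α_s` -/
def al (s : B) : B → A := Pi.single s 1

/-- the symmetric form `2 B(x, y)`: `2` on the diagonal and `- X s t` off it -/
def bil (X : B → B → A) (x y : B → A) : A :=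
  ∑ s, 2 * x s * y s - ∑ s, ∑ t, if s = t then 0 else X s t * x s * y t

/-- the reflection `x ↦ x - 2 B(α_s, x) α_s` -/
def sgm (X : B → B → A) (s : B) : Module.End A (B → A) where
  toFun x := x - bil X (al s) x • (al s : B → A)
  map_add' x y := by
    have h : bil X (al s) (x + y) = bil X (al s) x + bil X (al s) y := by
      simp only [bil, Pi.add_apply, mul_add, Finset.sum_add_distrib]
      have : ∀ i j : B, (if i = j then 0 else X i j * (al s : B → A) i * x j +
          X i j * (al s : B → A) i * y j) = (if i = j then 0 else X i j * (al s : B → A) i * x j) +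
          (if i = j then 0 else X i j * (al s : B → A) i * y j) := by
        intro i j; split_ifs <;> simp
      simp only [this, Finset.sum_add_distrib]
      ring
    rw [h, add_smul]; abel
  map_smul' a x := by
    have h : bil X (al s) (a • x) = a * bil X (al s) x := by
      simp only [bil, Pi.smul_apply, smul_eq_mul, mul_sub, Finset.mul_sum, mul_ite, mul_zero]
      congr 1
      · exact Finset.sum_congr rfl fun i _ => by ring
      · exact Finset.sum_congr rfl fun i _ => Finset.sum_congr rfl fun j _ => by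
          split_ifs <;> ring
    simp only [h, RingHom.id_apply, smul_sub, mul_smul]

/-- the Euler form of the word `ω`: `1` on the diagonal and `- X s t` for `s` before `t` in `ω` -/
def eA (X : B → B → A) (ω : List B) (x y : B → A) : A :=
  ∑ s, x s * y s - ∑ s, ∑ t, if ω.idxOf s < ω.idxOf t then X s t * x s * y t else 0

end Root

/-- A Coxeter system `cs` together with a fusion ring `A`, elements `X s t = 2 cos (π / m_st)` of
`A` and the reflection representation of `W` on `B → A`. -/
structure RD {B W : Type u} [Fintype B] [DecidableEq B] [Group W] {M : CoxeterMatrix B}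
    (cs : CoxeterSystem M W) (A I : Type) [CommRing A] [Fintype I] [DecidableEq I] where
  R : FRing A I
  X : B → B → A
  symm : ∀ s t : B, X s t = X t s
  nn : ∀ s t : B, s ≠ t → ∀ j : ℕ, (M s t = 0 ∨ j < M s t) → R.Nn (ch (X s t) j)
  zero : ∀ s t : B, s ≠ t → M s t ≠ 0 → ch (X s t) (M s t - 1) = 0
  rho : W →* Module.End A (B → A)
  rho_simple : ∀ s : B, rho (cs.simple s) = sgm X s

section RootVectors

variable {B W : Type u} [Fintype B] [DecidableEq B] [Group W] {M : CoxeterMatrix B}
    {cs : CoxeterSystem M W} {A I : Type} [CommRing A] [Fintype I] [DecidableEq I]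

/-- `x` is a root vector of the reflection `t`. -/
def RD.IsRt (r : RD cs A I) (t : W) (x : B → A) : Prop :=
  ∃ (w : W) (s : B), t = w * cs.simple s * w⁻¹ ∧ x = r.rho w (al s)

open Classical in
/-- a positive root vector of the reflection `t` -/
noncomputable def RD.rt (r : RD cs A I) (t : W) : B → A :=
  if h : ∃ x : B → A, r.IsRt t x ∧ r.R.PV x then h.choose else 0

/-- `Hm a b`: the Euler form of the positive roots of `a` and `b` is positive (`Hom`-type) -/
def RD.Hm (r : RD cs A I) (ω : List B) (a b : W) : Prop :=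
  r.R.Nn (eA r.X ω (r.rt a) (r.rt b)) ∧ eA r.X ω (r.rt a) (r.rt b) ≠ 0

/-- `Ex a b`: the Euler form of the positive roots of `a` and `b` is negative (`Ext`-type) -/
def RD.Ex (r : RD cs A I) (ω : List B) (a b : W) : Prop :=
  r.R.Nn (- eA r.X ω (r.rt a) (r.rt b)) ∧ eA r.X ω (r.rt a) (r.rt b) ≠ 0

/-- the number of arrows from `(s, i)` to `(t, j)` in the unfolded quiver -/
noncomputable def RD.mu (r : RD cs A I) (ω : List B) (p q : B × I) : ℕ :=
  if ω.idxOf p.1 < ω.idxOf q.1 then (r.R.b.repr (r.X p.1 q.1 * r.R.b p.2) q.2).toNat else 0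

/-- the block of a vector -/
noncomputable def RD.blk (r : RD cs A I) (x : B → A) : List (B × I → ℤ) :=
  (Finset.univ : Finset I).toList.map
    (fun i => (fun p : B × I => r.R.b.repr (r.R.b i * x p.1) p.2))

/-- the integral coordinates of a vector of `B → A` -/
noncomputable def RD.co (r : RD cs A I) (x : B → A) : B × I → ℤ := fun p => r.R.b.repr (x p.1) p.2

end RootVectors

/-! ### Factorizations into reflections -/

section Fac

variable {B W : Type u} [Group W] {M : CoxeterMatrix B} (cs : CoxeterSystem M W)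

/-- `L` is a factorization of `c` into `n` reflections. -/
def IsFac (c : W) (n : ℕ) (L : List W) : Prop :=
  (∀ t ∈ L, cs.IsReflection t) ∧ L.prod = c ∧ L.length = n

/-- One Hurwitz move. -/
inductive HM : List W → List W → Prop
  | left (P Q : List W) (a b : W) : HM (P ++ a :: b :: Q) (P ++ (a * b * a⁻¹) :: a :: Q)
  | right (P Q : List W) (a b : W) : HM (P ++ a :: b :: Q) (P ++ b :: (b⁻¹ * a * b) :: Q)

open Classical in
/-- the chain `e, t_n, t_{n-1} t_n, ..., t_1 ... t_n` of a factorization: the products of its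
final segments -/
noncomputable def vs (L : List W) : Finset W :=
  (Finset.range (L.length + 1)).image (fun i => (L.drop i).prod)

/-- the total length of the entries -/
noncomputable def sl (L : List W) : ℕ := (L.map cs.length).sum

/-- The combinatorial axioms which the relations `Ex` (`Ext ≠ 0`) and `Hm` (`Hom ≠ 0`) on
reflections satisfy; they imply shellability. -/
structure Ax (c : W) (n : ℕ) (Ex Hm : W → W → Prop) : Prop where
  /-- there is a factorization into simple reflections -/
  base : ∃ L : List W, IsFac cs c n L ∧ ∀ t ∈ L, cs.length t = 1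
  /-- `c` is not a product of fewer than `n` reflections -/
  minlen : ∀ L : List W, (∀ t ∈ L, cs.IsReflection t) → L.prod = c → n ≤ L.length
  /-- trichotomy -/
  tri : ∀ L : List W, IsFac cs c n L → L.Pairwise (fun a b => ¬ Ex b a ∧ ¬ Hm b a ∧
    ((Ex a b ∧ ¬ Hm a b) ∨ (Hm a b ∧ ¬ Ex a b) ∨ (a * b = b * a ∧ ¬ Ex a b ∧ ¬ Hm a b)))
  /-- Happel-Ringel: a nonzero map `E_a → E_b` is mono or epi -/
  hr : ∀ (L₁ L₂ L₃ : List W) (a b : W), IsFac cs c n (L₁ ++ a :: L₂ ++ b :: L₃) → Hm a b →
    ((∀ x ∈ L₂, ¬ Ex a x) ∧ (∀ x ∈ L₃, Ex a x → Ex b x) ∧ (∀ x ∈ L₁, Hm x a → Hm x b)) ∨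
    ((∀ x ∈ L₂, ¬ Ex x b) ∧ (∀ x ∈ L₁, Ex x b → Ex x a) ∧ (∀ x ∈ L₃, Hm b x → Hm a x))
  /-- a Hurwitz move on an adjacent `Hom` pair makes the moved reflection shorter -/
  srt : ∀ (L₁ L₂ : List W) (a b : W), IsFac cs c n (L₁ ++ a :: b :: L₂) → Hm a b →
    cs.length (a * b * a⁻¹) < cs.length b ∨ cs.length (b⁻¹ * a * b) < cs.length a
  /-- uniqueness of the canonical factorization -/
  uniq : ∀ F₁ F₂ G : List W, IsFac cs c n (F₁ ++ G) → IsFac cs c n (F₂ ++ G) →
    F₁.prod = F₂.prod → F₁.Pairwise (fun a b => ¬ Hm a b) → F₂.Pairwise (fun a b => ¬ Hm a b) →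
    F₁.Perm F₂
  /-- a canonical factorization is an increasing path -/
  incr : ∀ (a : W) (F G : List W), IsFac cs c n (a :: F ++ G) →
    (a :: F).Pairwise (fun a b => ¬ Hm a b) → cs.length F.prod < cs.length (a * F.prod)
  /-- the relations are irreflexive -/
  irr : ∀ x : W, ¬ Ex x x ∧ ¬ Hm x x

end Fac

/-! ### Representations of a quiver -/

/-- A finite dimensional representation over `ℚ` of the quiver with vertices `Q` and `mu x y`
arrows from `x` to `y`. -/
structure Rp (Q : Type u) (mu : Q → Q → ℕ) where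
  V : Q → Type
  acg : ∀ x : Q, AddCommGroup (V x)
  mod : ∀ x : Q, Module ℚ (V x)
  fin : ∀ x : Q, Module.Finite ℚ (V x)
  map : ∀ x y : Q, Fin (mu x y) → (V x →ₗ[ℚ] V y)

attribute [instance] Rp.acg Rp.mod Rp.fin

section Reps

variable {Q : Type u} {mu : Q → Q → ℕ}

/-- degree zero part of the complex computing `Hom` and `Ext` -/
abbrev H0 (E F : Rp Q mu) : Type u := ∀ x : Q, E.V x →ₗ[ℚ] F.V x

/-- degree one part of the complex computing `Hom` and `Ext` -/
abbrev H1 (E F : Rp Q mu) : Type u := ∀ x y : Q, Fin (mu x y) → (E.V x →ₗ[ℚ] F.V y)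

/-- the differential; its kernel is `Hom(E, F)`, its cokernel is `Ext(E, F)` -/
def dl (E F : Rp Q mu) : H0 E F →ₗ[ℚ] H1 E F where
  toFun f := fun x y k => f y ∘ₗ E.map x y k - F.map x y k ∘ₗ f x
  map_add' f g := by
    funext x y k
    simp only [Pi.add_apply, LinearMap.add_comp, LinearMap.comp_add]
    abel
  map_smul' c f := by
    funext x y k
    simp only [Pi.smul_apply, LinearMap.smul_comp, LinearMap.comp_smul, RingHom.id_apply, smul_sub]

/-- `dim Hom(E, F)` -/
noncomputable def hd (E F : Rp Q mu) : ℕ := Module.finrank ℚ (LinearMap.ker (dl E F))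

/-- `dim Ext(E, F)` -/
noncomputable def xd (E F : Rp Q mu) : ℕ := Module.finrank ℚ (H1 E F ⧸ LinearMap.range (dl E F))

/-- the dimension vector -/
noncomputable def dm (E : Rp Q mu) : Q → ℤ := fun x => (Module.finrank ℚ (E.V x) : ℤ)

/-- the Euler form -/
def eul [Fintype Q] (mu : Q → Q → ℕ) (d e : Q → ℤ) : ℤ :=
  ∑ x, d x * e x - ∑ x, ∑ y, (mu x y : ℤ) * d x * e y

/-- there is a short exact sequence `0 → E → F → G → 0` -/
def Ses (E F G : Rp Q mu) : Prop :=
  ∃ (i : H0 E F) (p : H0 F G), dl E F i = 0 ∧ dl F G p = 0 ∧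
    (∀ x, Function.Injective (i x)) ∧ (∀ x, Function.Surjective (p x)) ∧
    ∀ x, LinearMap.range (i x) = LinearMap.ker (p x)

/-- `E` and `F` are isomorphic -/
def Iso (E F : Rp Q mu) : Prop :=
  ∃ f : H0 E F, dl E F f = 0 ∧ ∀ x, Function.Bijective (f x)

/-- `P` behaves like the direct sum of `n` copies of `E` -/
def IsPw (E : Rp Q mu) (n : ℕ) (P : Rp Q mu) : Prop :=
  dm P = (n : ℤ) • dm E ∧ ∀ Z : Rp Q mu,
    hd Z P = n * hd Z E ∧ xd Z P = n * xd Z E ∧ hd P Z = n * hd E Z ∧ xd P Z = n * xd E Z

/-- `E` is an exceptional brick -/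
def Brk (E : Rp Q mu) : Prop := hd E E = 1 ∧ xd E E = 0

/-- `(E, F)` is an exceptional pair: no `Hom` and no `Ext` from `F` to `E` -/
def Xp (E F : Rp Q mu) : Prop := hd F E = 0 ∧ xd F E = 0

/-- there is an exceptional sequence whose dimension vectors are, up to sign, the entries of
`L` -/
def Exc (mu : Q → Q → ℕ) (L : List (Q → ℤ)) : Prop :=
  ∃ Es : List (Rp Q mu), List.Forall₂ (fun E d => dm E = d ∨ dm E = - d) Es L ∧
    (∀ E ∈ Es, Brk E) ∧ Es.Pairwise Xp

end Reps

/-- `E` is a family of exceptional bricks attached to the entries of the factorization `L`. -/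
def IsFam {B W : Type u} [Fintype B] [DecidableEq B] [Group W] {M : CoxeterMatrix B}
    {cs : CoxeterSystem M W} {A I : Type} [CommRing A] [Fintype I] [DecidableEq I]
    (r : RD cs A I) (ω : List B) (L : List W) (E : W → I → Rp (B × I) (r.mu ω)) : Prop :=
  (∀ t ∈ L, ∀ i : I, dm (E t i) = r.co (r.R.b i • r.rt t) ∧ Brk (E t i)) ∧
  (∀ t ∈ L, ∀ i j : I, i ≠ j → Xp (E t i) (E t j)) ∧
  L.Pairwise (fun a b => ∀ i j : I, Xp (E a i) (E b j))

end AK

end Pool.Agent.Lib.MP_20db89_co
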