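import Mathlib
import Pool.Agent.Lib.MP_20db89_co.AK.Defs

set_option autoImplicit false

/-!
# Specs: the interval `[e, c]_{ak}` of the `k`-absolute order is shellable

PLAN. Roots of `W` have coordinates in a fusion ring `A` (`X s t` plays the role of
`2 cos (pi / m_st)`, `A = ℤ` if all `m_st` are `2, 3, ∞`). A factorization `c = t_1 ... t_n` into
reflections gives, by Hurwitz moves from the simple one, an exceptional sequence of
representations of the unfolded quiver on `B × I` (blocks `i • root`, `i` in the basis of `A`).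
Happel-Ringel (a nonzero map in an exceptional pair is mono or epi) gives the axioms `Ax` for the
two relations `Ex` (Euler form of the roots `< 0`) and `Hm` (`> 0`). The axioms `Ax` give the
shelling: facets = factorizations with letters in `T_k`, ordered by the sum of the lengths, then
by the label set, then lexicographically for a numbering of the label set.

CONVENTIONS. `ω : List B` is the word of `c`, without repetition and containing all of `B`.
`Xp E F` : `hd F E = 0` and `xd F E = 0` (the later member has no Hom and no Ext to the earlier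
one). In a factorization `L = [t_1, ..., t_n]` the product is `t_1 * ... * t_n = c`.

Every module proves `theorem specX : SpecX.{u}` (or `: SpecX`) in `AK/X.lean`, namespace
`Pool.Agent.Lib.MP_20db89_co.AK`, with the needed modules as hypotheses, own lemmas in the
namespace `...AK.XM`. `AK/Bas.lean` contains bilinearity of `bil`, `eA`, `eul` and list lemmas.
-/

namespace Pool.Agent.Lib.MP_20db89_co.AK

universe u

/-! ## Group R: the fusion ring and the root representation -/

/-- RNG. Basic facts on a fusion ring.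
PROOF. (1) `a = ∑ a_j b_j`, `repr (b_j b_i) one = δ_ij`. (2)-(6) expand in the basis.
(7) `y = ∑ y_i b_i` with `y_i ≥ 0`: `repr (y y) one = ∑ y_i ^ 2 ≥ 1`, the other coefficients are
`≥ 0`. (8) `a ≠ 0 ≠ b` non-negative: some `a_i ≥ 1`, `b_j ≥ 1`, so `a b - b_i b_j` is `Nn`, and
`(b_i b_j) (b_i b_j) = (b_i b_i) (b_j b_j)` has coefficient of `one` at least `1` (both factors
are `1 +` non-negative by (7)), so `b_i b_j ≠ 0`; conclude with (5). (9) `z b_i` is `Nn`, write
`z b_i = ∑ c_v b_v`; then `b_i = ∑ c_v (z' b_v)` where every `z' b_v` is `Nn` and nonzero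
(multiply by `z`); the coefficients of `b_i` are `1` and `0`, so exactly one `c_v` is nonzero and it
is `1`: `z b_i = b_(σ i)`; the same for `z'` gives the inverse permutation. -/
def SpecRNG : Prop := ∀ (A I : Type) [CommRing A] [Fintype I] [DecidableEq I] (R : FRing A I),
  (∀ (a : A) (i : I), R.b.repr a i = R.b.repr (a * R.b i) R.one) ∧
  (∀ a b : A, R.Nn a → R.Nn b → R.Nn (a * b)) ∧
  (∀ a b : A, R.Nn a → R.Nn b → R.Nn (a + b)) ∧
  ((∀ i : I, R.Nn (R.b i)) ∧ R.Nn 1 ∧ R.Nn 0) ∧
  (∀ a : A, R.Nn a → R.Nn (-a) → a = 0) ∧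
  ((∀ a : A, 2 * a = 0 → a = 0) ∧ (1 : A) ≠ 0) ∧
  (∀ y : A, R.Nn y → y ≠ 0 → R.Nn (y * y - 1)) ∧
  (∀ a b : A, R.Nn a → R.Nn b → a ≠ 0 → b ≠ 0 → a * b ≠ 0) ∧
  (∀ z z' : A, R.Nn z → R.Nn z' → z * z' = 1 →
    ∃ σ : Equiv.Perm I, ∀ i : I, z * R.b i = R.b (σ i))

/-- FRS. The fusion ring of type `A_(m-1)`.
PROOF. `A = ℤ[x] / (ch x (m - 1))` (`AdjoinRoot` of the monic polynomial `ch X (m - 1)` of degree
`m - 1`), basis `ch x j`, `j : Fin (m - 1)` (unitriangular over the power basis; or: it spans, and a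
spanning family of `m - 1` elements of a free module of rank `m - 1` is a basis). Put
`N i j k = 1` if `|i - j| ≤ k`, `k ≤ i + j`, `i + j + k ≤ 2 (m - 2)`, `i + j + k` even, and
`N i j k = 0` otherwise. Then `ch x i * ch x j = ∑_k N i j k * ch x k` for `i, j ≤ m - 2`:
induction on `i` with `x * ch x k = ch x (k + 1) + ch x (k - 1)` (`ch x (-1) = 0`,
`ch x (m - 1) = 0`), because `N (i+1) j k = N i j (k-1) + N i j (k+1) - N (i-1) j k`
(`omega` after splitting the conditions; the formula also gives `0` for `i + 1 = m - 1`).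
`N i j 0 = δ_ij`. The coefficients of `ch x j`, `j ≤ m - 2`, are those of a basis vector, and
`ch x (m - 1) = 0`. (For `m = 2`: `A = ℤ`, `x = 0`.) -/
def SpecFRS : Prop := ∀ m : ℕ, 2 ≤ m →
  ∃ (A I : Type) (_ : CommRing A) (_ : Fintype I) (_ : DecidableEq I) (R : FRing A I) (x : A),
    ch x (m - 1) = 0 ∧ ∀ j : ℕ, j < m → R.Nn (ch x j)

/-- FRT. Tensor product of fusion rings.
PROOF. `C = A ⊗[ℤ] A'` with the basis `Module.Basis.tensorProduct`, `f a = a ⊗ 1`,
`g a' = 1 ⊗ a'`; `repr (a ⊗ a') (i, j) = repr a i * repr a' j`. -/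
def SpecFRT : Prop := ∀ (A I A' I' : Type) [CommRing A] [Fintype I] [DecidableEq I]
  [CommRing A'] [Fintype I'] [DecidableEq I'] (R : FRing A I) (R' : FRing A' I'),
  ∃ (C : Type) (_ : CommRing C) (S : FRing C (I × I')) (f : A →+* C) (g : A' →+* C),
    (∀ a : A, R.Nn a → S.Nn (f a)) ∧ (∀ a : A', R'.Nn a → S.Nn (g a))

/-- FR. One fusion ring for all `m ≤ N`.
PROOF. Induction on `N` with FRT and FRS; `ch` commutes with ring homomorphisms. `X 0 = 2`:
`ch 2 j = j + 1`. Start with `A = ℤ`, `I = Unit`. Uses FRS, FRT. -/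
def SpecFR : Prop := ∀ N : ℕ,
  ∃ (A I : Type) (_ : CommRing A) (_ : Fintype I) (_ : DecidableEq I) (R : FRing A I)
    (X : ℕ → A), (∀ j : ℕ, R.Nn (ch (X 0) j)) ∧
    ∀ m : ℕ, 2 ≤ m → m ≤ N → ch (X m) (m - 1) = 0 ∧ ∀ j : ℕ, j < m → R.Nn (ch (X m) j)

/-- BRD. The braid relation.
PROOF. Put `y = X s t`, `p = bil (α_s, x)`, `q = bil (α_t, x)`, `S k = ch y k`, `S (-1) = 0`. One has
`σ_s (x + c α_s + d α_t) = x + (- c + y d - p) α_s + d α_t` and
`σ_t (x + c α_s + d α_t) = x + c α_s + (- d + y c - q) α_t`. By induction on `k ≥ 1`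
`(σ_s σ_t)^k x = x - S (k-1) (S (k-1) p + S k q) α_s - S (k-1) (S (k-2) p + S (k-1) q) α_t`
(uses `S k ^ 2 - S (k+1) S (k-1) = 1`). For `k = m` this is `x`. -/
def SpecBRD : Prop := ∀ (B : Type u) [Fintype B] [DecidableEq B] (A : Type) [CommRing A]
  (X : B → B → A) (s t : B) (m : ℕ), (∀ a b : B, X a b = X b a) → s ≠ t → 2 ≤ m →
  ch (X s t) (m - 1) = 0 → (sgm X s * sgm X t) ^ m = 1

/-- RDE. Existence of the root data.
PROOF. `N` = maximum of the finitely many `M s t`; FR; `X s t = X (M s t)`; `rho = cs.lift` of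
`sgm X`, the relations are BRD (`M s t = 0`: nothing to prove, `s = t`: `sgm X s ^ 2 = 1`).
Uses FR, BRD. -/
def SpecRDE : Prop := ∀ (B W : Type u) [Fintype B] [DecidableEq B] [Group W]
  (M : CoxeterMatrix B) (cs : CoxeterSystem M W),
  ∃ (A I : Type) (_ : CommRing A) (_ : Fintype I) (_ : DecidableEq I), Nonempty (RD cs A I)

/-- POS. Positivity of roots.
PROOF. Strong induction on `ℓ(w)`. `w = 1`: clear. Otherwise let `t` be a right descent of `w`,
`t ≠ s`. Strip letters from the right of `w`, alternately `t, s, t, ...`, as long as the length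
decreases: `w = v * d`, `d` the alternating word of length `k ≥ 1` in `s, t` ending in `t`,
`ℓ(w) = ℓ(v) + k`, `k` maximal. Both `ℓ(v s), ℓ(v t) > ℓ(v)`: for the letter which would be stripped
next by maximality, for the first letter of `d` since `v *` (first letter) is an initial
segment of a reduced expression `v * d`. If `m = M s t ≠ 0` then `k < m`: otherwise
`d = d' * (alternating word of length m ending in t) = d' * (alternating word of length m ending
in s)` (braid relation), so `ℓ(w s) < ℓ(w)`. Finally `rho d α_s = S (k) α_s + S (k-1) α_t` or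
`S (k-1) α_s + S (k) α_t` with `S = ch (X s t)` (according to the parity of `k`; `t α_s = α_s +
X α_t`), these coefficients are `Nn` (`r.nn`, `k < m`), and `rho v α_s`, `rho v α_t` are positive by
induction. Uses RNG (products and sums of `Nn` are `Nn`). -/
def SpecPOS : Prop := ∀ (B W : Type u) [Fintype B] [DecidableEq B] [Group W]
  (M : CoxeterMatrix B) (cs : CoxeterSystem M W) (A I : Type) [CommRing A] [Fintype I]
  [DecidableEq I] (r : RD cs A I) (w : W) (s : B),
  cs.length w < cs.length (w * cs.simple s) → r.R.PV (r.rho w (al s))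

/-- RTF. Formal facts on root vectors.
PROOF. (1) for simple reflections from `bil (α_s, α_s) = 2`, then induction. (2) `t = w s w⁻¹`,
`x = w α_s`: `t y = w (w⁻¹ y - bil (α_s, w⁻¹ y) α_s)` and (1). (3) (4) clear.
(5) `- x = rho (w s) α_s`. -/
def SpecRTF : Prop := ∀ (B W : Type u) [Fintype B] [DecidableEq B] [Group W]
  (M : CoxeterMatrix B) (cs : CoxeterSystem M W) (A I : Type) [CommRing A] [Fintype I]
  [DecidableEq I] (r : RD cs A I),
  (∀ (w : W) (x y : B → A), bil r.X (r.rho w x) (r.rho w y) = bil r.X x y) ∧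
  (∀ (t : W) (x : B → A), r.IsRt t x → ∀ y : B → A, r.rho t y = y - bil r.X x y • x) ∧
  (∀ (t : W) (x : B → A), r.IsRt t x → bil r.X x x = 2) ∧
  (∀ (t w : W) (x : B → A), r.IsRt t x → r.IsRt (w * t * w⁻¹) (r.rho w x)) ∧
  (∀ (t : W) (x : B → A), r.IsRt t x → r.IsRt t (-x))

/-- SGN. Signs of root vectors.
PROOF. (1) `x = w α_s`: POS for `w`, or for `w s` if `ℓ(w s) < ℓ(w)`, and `w α_s = - (w s) α_s`.
(2) `bil x x = 2 ≠ 0` (RNG). (3) by definition of `rt`, (1) and RTF (5).
(4) First part of an auxiliary claim: if `ℓ(w t) < ℓ(w)` then `- w x` is `PV`. Let `w = s_1 ... s_p`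
reduced; by strong exchange (`strong_exchange_right`) `t = h s_i h⁻¹` with
`h = s_p ... s_(i+1)`; `x' = h α_(s_i)` is a positive root vector of `t` (POS), so `x = z x'` with
`z` `Nn` by (6), and `w x' = s_1 ... s_i α_(s_i) = - s_1 ... s_(i-1) α_(s_i)` is negative (POS).
If `ℓ(w) < ℓ(w t)`, apply the claim to `w t`: `- (w t) x = w x` is `PV`.
(5) `w ≠ 1` has a right descent `s`: `- w α_s` is `PV`, but `w α_s = α_s`.
(6) `t y = - y` (RTF) and `t y = y - bil (x, y) x`, so `2 y = bil (x, y) x`. With `x = w α_s` the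
vector `y' = w⁻¹ y` satisfies `2 y' = c α_s`, so `y' = z α_s`, `z = y' s`, and `y = z x`;
`z α_s` is a root vector, so `z` or `- z` is `Nn`; `- z` `Nn` and `PV x`, `PV y` would give `y = 0`.
By symmetry `x = z' y` with `z'` `Nn`, and `z z' = 1` (look at `α_s = z' z α_s`).
Uses RNG, POS, RTF. -/
def SpecSGN : Prop := ∀ (B W : Type u) [Fintype B] [DecidableEq B] [Group W]
  (M : CoxeterMatrix B) (cs : CoxeterSystem M W) (A I : Type) [CommRing A] [Fintype I]
  [DecidableEq I] (r : RD cs A I),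
  (∀ (t : W) (x : B → A), r.IsRt t x → r.R.PV x ∨ r.R.PV (-x)) ∧
  (∀ (t : W) (x : B → A), r.IsRt t x → x ≠ 0) ∧
  (∀ t : W, cs.IsReflection t → r.IsRt t (r.rt t) ∧ r.R.PV (r.rt t)) ∧
  (∀ (t : W) (x : B → A), r.IsRt t x → r.R.PV x → ∀ w : W,
    (cs.length w < cs.length (w * t) → r.R.PV (r.rho w x)) ∧
    (cs.length (w * t) < cs.length w → r.R.PV (-(r.rho w x)))) ∧
  (∀ w : W, r.rho w = 1 → w = 1) ∧
  (∀ (t : W) (x y : B → A), r.IsRt t x → r.IsRt t y → r.R.PV x → r.R.PV y →
    ∃ z z' : A, r.R.Nn z ∧ r.R.Nn z' ∧ z * z' = 1 ∧ y = z • x)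

/-! ## Group W: words -/

/-- HUR. Every reflection factorization of `c` of length `n` is Hurwitz equivalent to the simple
one, and none is shorter.
PROOF. For a list `L` of reflections put `x_i` = product of the last `i` entries and
`Φ(L) = ∑ ℓ(x_i)`. Strong induction on `(length, Φ)`. PEAK: `L = P ++ a :: b :: Q`,
`x = (b :: Q).prod`, `ℓ(Q.prod) < ℓ(x) > ℓ(a x)`. Let `x = s_1 ... s_p` be reduced; by
`exchange_left`, `b x = s_1 .. (no s_i) .. s_p`, `b = s_1 .. s_i .. s_1`, and `a x` deletes `s_j`. If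
`i = j` then `a = b`, delete both: a factorization with two entries less. If `j < i`:
`a (b x) = s_1 .. (no s_j) .. (no s_i) .. s_p` has length `≤ p - 2`, and the move
`(a, b) → (a b a⁻¹, a)` replaces the partial product `x` by `a * Q.prod = a b x`. If `i < j`:
`b (a x)` has length `≤ p - 2` and the move `(a, b) → (b, b⁻¹ a b)` replaces `x` by
`b a b * Q.prod = b a x`. NO PEAK: the path starts at `1` (length `0`), so it is increasing. Claim:
if the path is increasing and `L.prod = wordProd ω`, `ω` without repetition, then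
`L.length = ω.length` and `L` is equivalent to `ω.map simple`: `L = t :: L'`,
`ℓ(t * wordProd ω) < ℓ(wordProd ω) = ω.length` (`nodup_isReduced`), so
`L'.prod = wordProd (ω.eraseIdx i)`, `t = s_1 ... s_i ... s_1`; induction for `L'`; then
`t :: (ω.eraseIdx i).map simple` goes to `ω.map simple` by moving `t` to the right with
`(t, s_1) → (s_1, s_1 t s_1)` etc. `HM` is symmetric (`left` and `right` are inverse to each
other). -/
def SpecHUR : Prop := ∀ (B W : Type u) [Group W] (M : CoxeterMatrix B) (cs : CoxeterSystem M W),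
  Function.Injective cs.simple → ∀ (ω : List B), ω.Nodup → ∀ L : List W,
  (∀ t ∈ L, cs.IsReflection t) → L.prod = cs.wordProd ω →
  ω.length ≤ L.length ∧
    (L.length = ω.length → Relation.ReflTransGen HM (ω.map cs.simple) L)

/-- PAL. Conjugating a reflection by one of its inversions.
PROOF. Let `a = s_1 ... s_p` be reduced, `τ_j = s_1 .. s_j .. s_1` the left inversions of `a`. `a`
itself is one of them (`ℓ(a a) = 0 < ℓ(a)`): `a = τ_i`, so
`s_(i+1) ... s_p = s_(i-1) ... s_1`; both are reduced, so `p - i = i - 1`, `p = 2 i - 1`. Also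
`ℓ(b a) < ℓ(a)` (inverse), so `b = τ_j`, `j ≠ i`. If `j < i`: `b a b = s_1 .. (no s_j) .. s_i ..
(no s_j) .. s_1` has length `≤ 2 i - 3 < p`. If `j > i`: `a b a = s_p .. s_j .. s_p` has length
`≤ 2 (p - j) + 1 < p`. -/
def SpecPAL : Prop := ∀ (B W : Type u) [Group W] (M : CoxeterMatrix B) (cs : CoxeterSystem M W)
  (a b : W), cs.IsReflection a → cs.IsReflection b → a ≠ b →
  cs.length (a * b) < cs.length a →
  cs.length (b * a * b) < cs.length a ∨ cs.length (a * b * a) < cs.length a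

/-! ## Group T: representations -/

/-- EUL. `dim Hom - dim Ext` is the Euler form. PROOF. Rank-nullity, `finrank (Hom(V, W))`. -/
def SpecEUL : Prop := ∀ (Q : Type u) [Fintype Q] (mu : Q → Q → ℕ) (E F : Rp Q mu),
  (hd E F : ℤ) - (xd E F : ℤ) = eul mu (dm E) (dm F)

/-- SES. Inequalities from a short exact sequence `0 → A → C → D → 0`.
PROOF. Every sequence of vector spaces splits at every vertex. `Hom(Z, A) → Hom(Z, C)` is injective;
its image is the kernel of `Hom(Z, C) → Hom(Z, D)`; `H1(Z, C) → H1(Z, D)` is surjective, so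
`Ext(Z, C) → Ext(Z, D)` is. The same in the first variable (restriction of linear maps to a
subspace is surjective). -/
def SpecSES : Prop := ∀ (Q : Type u) [Fintype Q] (mu : Q → Q → ℕ) (A C D : Rp Q mu),
  Ses A C D → (dm C = dm A + dm D) ∧ ∀ Z : Rp Q mu,
    hd Z A ≤ hd Z C ∧ hd Z C ≤ hd Z A + hd Z D ∧ xd Z D ≤ xd Z C ∧
    hd D Z ≤ hd C Z ∧ hd C Z ≤ hd A Z + hd D Z ∧ xd A Z ≤ xd C Z

/-- KIC. Kernel, image and cokernel of a morphism. PROOF. Take them at every vertex. -/
def SpecKIC : Prop := ∀ (Q : Type u) [Fintype Q] (mu : Q → Q → ℕ) (E F : Rp Q mu) (f : H0 E F),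
  dl E F f = 0 → f ≠ 0 → ∃ K J C : Rp Q mu, Ses K E J ∧ Ses J F C ∧ dm J ≠ 0

/-- SUB. A brick is not isomorphic to... : a nonzero map from a brick `E` to a subobject `K` of `E`
forces `K = E`. PROOF. `E → K → E` is nonzero, hence a nonzero scalar, hence onto. -/
def SpecSUB : Prop := ∀ (Q : Type u) [Fintype Q] (mu : Q → Q → ℕ) (K E J : Rp Q mu),
  Brk E → Ses K E J → hd E K ≠ 0 → dm J = 0

/-- HRL. Happel-Ringel. PROOF. Let `f : E → F` be a nonzero morphism, `J = im f` (submodules of the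
`F.V x`), `K = ker f`, and assume `f` is neither injective nor surjective. Choose linear sections
`ρ_x : J_x → E_x` of `f_x` and linear retractions `π_x : F_x → J_x`. `dl ρ` has values in `K`
(since `f ρ = 1`). Put `ζ = (dl ρ) ∘ π` in `H1(F, E)`, with values in `K`. As `xd F E = 0`,
`ζ = dl η`, `η` in `H0(F, E)`. Then `ρ' = ρ - η|_J` is a morphism `J → E` and `q = f η : F → J` is a
morphism (`dl (f η) = f ζ = 0`), and `f ρ' + q|_J = 1_J`. `ρ' f` is an endomorphism of the brick `E`,
a scalar, not injective, so `0`; `q` followed by `J ⊂ F` is an endomorphism of `F`, a scalar, not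
surjective, so `q = 0` as a map to `F`. Put `a = f ρ'`, `b = q|_J`, endomorphisms of `J`:
`a a = f (ρ' f) ρ' = 0`, `b = 0`, `a + b = 1`: so `1 = a = a a = 0` on `J`, `J = 0`, `f = 0`. So `f`
is injective (then `C` = cokernel) or surjective (then `K` = kernel). -/
def SpecHRL : Prop := ∀ (Q : Type u) [Fintype Q] (mu : Q → Q → ℕ) (E F : Rp Q mu),
  Brk E → Brk F → Xp E F → hd E F ≠ 0 → (∃ C : Rp Q mu, Ses E F C) ∨ (∃ K : Rp Q mu, Ses K E F)

/-- HRN. Numerical form of HRL. PROOF. SES; for `xd E F = 0`: `xd E F ≤ xd F F = 0` (mono) or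
`xd E F ≤ xd E E = 0` (epi). Uses SES, HRL. -/
def SpecHRN : Prop := ∀ (Q : Type u) [Fintype Q] (mu : Q → Q → ℕ) (E F : Rp Q mu),
  Brk E → Brk F → Xp E F → hd E F ≠ 0 → xd E F = 0 ∧
    (((∀ Z : Rp Q mu, xd E Z ≤ xd F Z ∧ hd Z E ≤ hd Z F) ∧ ∀ x, dm E x ≤ dm F x) ∨
    ((∀ Z : Rp Q mu, xd Z F ≤ xd Z E ∧ hd F Z ≤ hd E Z) ∧ ∀ x, dm F x ≤ dm E x))

/-- UEX. Universal extension. PROOF. `e = xd E F`, `ξ_1, ..., ξ_e` in `H1(E, F)` whose classes form
a basis of `Ext(E, F)`. `P = E^e`, `L_x = F_x × (Fin e → E_x)`, with the maps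
`(y, (z_j)) ↦ (F y + ∑ ξ_j z_j, (E z_j))`. A morphism `E → L` is `(f_0, (f_j))` with `f_j` in
`End E = ℚ`, `f_j = c_j`, and `dl f_0 = ∑ c_j ξ_j` (up to sign), so `c = 0`, and `f_0 = 0` as
`hd E F = 0`. -/
def SpecUEX : Prop := ∀ (Q : Type u) [Fintype Q] (mu : Q → Q → ℕ) (E F : Rp Q mu),
  Brk E → hd E F = 0 → ∃ P L : Rp Q mu, IsPw E (xd E F) P ∧ Ses F L P ∧ hd E L = 0

/-- EVM. The evaluation map `E^h → F`, `h = hd E F`, is mono or epi.
PROOF. `f_1, ..., f_h` a basis of `Hom(E, F)`, `P = E^h`, `ev (z_j) = ∑ f_j z_j`, `J = im ev`. If `ev`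
is onto, `L` = kernel, and a morphism `E → L ⊂ E^h` is `(c_j)` with `∑ c_j f_j = 0`, so `0`. If not:
as in HRL (with `xd F P = h * xd F E = 0`) there are morphisms `ρ' : J → P`, `q : F → J` with
`ev ρ' + q|_J = 1_J`, and `q = 0` since `F` is a brick and `J ≠ F`. So `ev ρ' = 1_J` and
`e = ρ' ev` is an endomorphism of `P = E^h` with `ker e = ker ev`; `End (E^h) = M_h(ℚ)`, `e` is a
matrix of scalars, if it is not invertible there is `c ≠ 0` in `ℚ^h` with `e (c_j z) = 0` for all
`z`, so `∑ c_j f_j = 0`, contradiction. So `ev` is injective, `L` = cokernel. -/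
def SpecEVM : Prop := ∀ (Q : Type u) [Fintype Q] (mu : Q → Q → ℕ) (E F : Rp Q mu),
  Brk E → Brk F → Xp E F → hd E F ≠ 0 → ∃ P L : Rp Q mu, IsPw E (hd E F) P ∧
    (Ses P F L ∨ (Ses L P F ∧ hd E L = 0))

/-- LMU. Left mutation. PROOF. Write `x, y` for the dimension vectors, `h = hd E F`, `e = xd E F`,
`ε = h - e = eul x y`; `eul x x = eul y y = 1`, `eul y x = 0` (EUL). By HRN `h = 0` or `e = 0`.
All facts below are from SES, EUL and additivity of `eul`; in a sequence `0 → A → C → D → 0` one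
gets in addition `xd Z C ≤ xd Z A + xd Z D`, `xd C Z ≤ xd A Z + xd D Z` (from the `hd` inequality
and EUL) and `hd A Z ≤ hd C Z + xd D Z`.
CASE `h = 0` (UEX, `0 → F → L → P → 0`, `P = E^e`): `hd E L = 0`, `xd E L = - eul x (y + e x) = 0`.
`hd L L ≤ hd F L + hd P L = hd F L ≤ hd F F + hd F P = 1`, `xd L L = 0` likewise, `hd L L ≥ 1` as
`dm L ≠ 0`. CASE `h > 0`, `0 → P → F → L → 0`: `xd E L ≤ xd E F = 0`, `hd E L = eul x (y - h x) = 0`,
`hd L L ≤ hd F L = eul y (y - h x) + xd F L = 1`, (`xd F L ≤ xd F F = 0`), `dm L ≠ 0` (otherwise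
`y = h x`, `eul y x = h ≠ 0`), `xd L L = hd L L - eul l l = 0`. CASE `0 → L → P → F → 0`: `hd E L = 0`
by EVM, `xd E L = - eul x (h x - y) = 0`; `hd L L ≤ hd P L + xd F L = xd F L = hd F L + 1 = 1`
(`hd F L ≤ hd F P = 0`), `dm L ≠ 0` as before, `xd L L = 0`.
The relations with `Z` (before or after both): all three cases by SES and EUL, e.g. for
`Xp E Z`, `Xp F Z` (`Z` after): `hd Z L, xd Z L` are `0` (`0 → P → F → L`: `xd Z L ≤ xd Z F = 0`,
`hd Z L = eul z l = 0`). Uses EUL, SES, HRN, UEX, EVM. -/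
def SpecLMU : Prop := ∀ (Q : Type u) [Fintype Q] (mu : Q → Q → ℕ) (E F : Rp Q mu),
  Brk E → Brk F → Xp E F → ∃ L : Rp Q mu, Brk L ∧
    (dm L = dm F - eul mu (dm E) (dm F) • dm E ∨ dm L = -(dm F - eul mu (dm E) (dm F) • dm E)) ∧
    Xp L E ∧ (∀ Z : Rp Q mu, Xp E Z → Xp F Z → Xp L Z) ∧ (∀ Z : Rp Q mu, Xp Z E → Xp Z F → Xp Z L)

/-- `F` (a representation of the opposite quiver) is dual to `E`. -/
def IsDu {Q : Type u} {mu : Q → Q → ℕ} (E : Rp Q mu) (F : Rp Q (fun x y => mu y x)) : Prop :=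
  ∃ φ : ∀ x, E.V x ≃ₗ[ℚ] Module.Dual ℚ (F.V x),
    ∀ (x y : Q) (k : Fin (mu x y)) (e : E.V x) (f : F.V y),
      φ y (E.map x y k e) f = φ x e (F.map y x k f)

/-- DUA. Duality. PROOF. `F_x` = dual of `E_x` with transposed maps, and conversely. A morphism
`g : E → E'` gives `g* : F' → F` by `φ' (g e) f' = φ e (g* f')`, a linear isomorphism
`H0 E E' ≃ H0 F' F`, `H1 E E' ≃ H1 F' F` compatible with `dl` (up to sign). -/
def SpecDUA : Prop := ∀ (Q : Type u) [Fintype Q] (mu : Q → Q → ℕ),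
  (∀ E : Rp Q mu, ∃ F : Rp Q (fun x y => mu y x), IsDu E F) ∧
  (∀ F : Rp Q (fun x y => mu y x), ∃ E : Rp Q mu, IsDu E F) ∧
  ∀ (E : Rp Q mu) (F : Rp Q (fun x y => mu y x)), IsDu E F → dm F = dm E ∧
    ∀ (E' : Rp Q mu) (F' : Rp Q (fun x y => mu y x)), IsDu E' F' →
      hd F' F = hd E E' ∧ xd F' F = xd E E'

/-- RMU. Right mutation. PROOF. LMU for the opposite quiver and the pair (dual of `F`, dual of
`E`); `eul (fun x y => mu y x) a b = eul mu b a`. Uses LMU, DUA. -/
def SpecRMU : Prop := ∀ (Q : Type u) [Fintype Q] (mu : Q → Q → ℕ) (E F : Rp Q mu),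
  Brk E → Brk F → Xp E F → ∃ L : Rp Q mu, Brk L ∧
    (dm L = dm E - eul mu (dm E) (dm F) • dm F ∨ dm L = -(dm E - eul mu (dm E) (dm F) • dm F)) ∧
    Xp F L ∧ (∀ Z : Rp Q mu, Xp E Z → Xp F Z → Xp L Z) ∧ (∀ Z : Rp Q mu, Xp Z E → Xp Z F → Xp Z L)

/-- MUT. Mutation of exceptional sequences (dimension vectors up to sign).
PROOF. LMU and RMU; split the list `Es` according to `P, x, y, R`. Uses LMU, RMU. -/
def SpecMUT : Prop := ∀ (Q : Type u) [Fintype Q] (mu : Q → Q → ℕ) (P R : List (Q → ℤ))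
  (x y : Q → ℤ), Exc mu (P ++ x :: y :: R) →
    Exc mu (P ++ (y - eul mu x y • x) :: x :: R) ∧ Exc mu (P ++ y :: (x - eul mu x y • y) :: R)

/-- SIM. The simple representations. PROOF. `S_x` has `ℚ` at `x` and `0` elsewhere (e.g. `V y` =
`Fin (if y = x then 1 else 0) → ℚ`, zero maps). `hd S_x S_y = δ_xy`, `xd S_x S_y = mu x y` by EUL.
Uses EUL. -/
def SpecSIM : Prop := ∀ (Q : Type u) [Fintype Q] [DecidableEq Q] (mu : Q → Q → ℕ) (l : List Q),
  l.Nodup → l.Pairwise (fun x y => mu y x = 0) → (∀ x ∈ l, mu x x = 0) →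
  Exc mu (l.map (fun x => Pi.single x (1 : ℤ)))

/-- ISO. Isomorphic representations have the same invariants. -/
def SpecISO : Prop := ∀ (Q : Type u) [Fintype Q] (mu : Q → Q → ℕ) (E F : Rp Q mu), Iso E F →
  dm E = dm F ∧ ∀ Z : Rp Q mu, hd Z E = hd Z F ∧ xd Z E = xd Z F ∧ hd E Z = hd F Z ∧
    xd E Z = xd F Z

/-- PEN. An exceptional brick is determined by its dimension vector.
PROOF. Choose linear isomorphisms `F.V x ≃ E.V x` and transport: so `F` is given by maps `F_a` on
the spaces of `E`. For `λ` in `ℚ` let `M_λ` have the maps `(1 - λ) E_a + λ F_a`. CLAIM: the set of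
`λ` for which `M_λ` is not isomorphic to `E` is finite. By symmetry the same holds for `F`, so
there is a common `λ` and `E ≅ M_λ ≅ F`. PROOF OF THE CLAIM. Let `τ : H0 E E → ℚ` be linear with
`τ 1 = 1`. `D_λ = (f ↦ (f E_a - (M_λ)_a f, τ f)) : H0 → H1 × ℚ` is affine in `λ`, the two sides have
the same dimension (EUL: `dim H0 - dim H1 = 1`) and `D_0` is bijective (`xd E E = 0`, kernel of `dl`
= scalars). In bases `det D_λ` is a polynomial in `λ`, nonzero at `0`, and
`g_λ = adj (D_λ) (0, 1)` has polynomial coordinates, `D_λ g_λ = det D_λ (0, 1)`, `g_0 = det D_0 • 1`.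
`∏_x det (g_λ)_x` is a polynomial in `λ`, nonzero at `0`, so nonzero outside a finite set; there
`g_λ` is an isomorphism `E → M_λ`. Uses EUL. -/
def SpecPEN : Prop := ∀ (Q : Type u) [Fintype Q] (mu : Q → Q → ℕ) (E F : Rp Q mu),
  dm E = dm F → Brk E → Brk F → Iso E F

/-- LIN. The dimension vectors of an exceptional sequence are linearly independent, and span
(rationally) if there are enough of them. PROOF. (1) `eul (e_j) (e_i) = 0` for `j > i`,
`eul e_i e_i = 1` (EUL): apply `eul (e_j) (·)` to `∑ c_i e_i = 0`, starting with the last `j`. (2)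
`card Q` linearly independent vectors of `ℚ^Q` form a basis; clear denominators. Uses EUL. -/
def SpecLIN : Prop := ∀ (Q : Type u) [Fintype Q] (mu : Q → Q → ℕ) (Es : List (Rp Q mu)),
  (∀ E ∈ Es, Brk E) → Es.Pairwise Xp →
  (∀ c : Fin Es.length → ℤ, ∑ i, c i • dm (Es.get i) = 0 → ∀ i, c i = 0) ∧
  (Es.length = Fintype.card Q → ∀ d : Q → ℤ, ∃ (N : ℤ) (c : Fin Es.length → ℤ), N ≠ 0 ∧
    N • d = ∑ i, c i • dm (Es.get i))

/-- FLT. Let `Es ++ Gs` be a complete exceptional sequence with no Hom between different members of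
`Es`. Then every `Z` with no Hom and no Ext from `Gs` has a filtration by members of `Es`.
PROOF. CLAIM: if `dm Z ≠ 0` then `hd E Z ≠ 0` for some `E` in `Es`. By LIN
`N dm Z = ∑ m_i dm E_i + ∑ n_j dm G_j`, `N > 0` wlog. `eul (G_j) (dm Z) = 0` and
`eul G_j E_i = 0`, so all `n_j = 0` (start with the last `j`). If all `hd E_i Z = 0` then
`eul E_i (dm Z) = - xd E_i Z ≤ 0`, and `N eul E_i (dm Z) = m_i + ∑_(j > i) m_j eul E_i E_j` with
`eul E_i E_j = - xd ≤ 0` for `i < j`; by descending induction all `m_i ≤ 0`, so `N dm Z ≤ 0`,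
`dm Z = 0`. Now induct on the total dimension of `Z`: take `E` in `Es`, `f : E → Z` nonzero,
KIC: `0 → K → E → J → 0`, `0 → J → Z → C → 0`. `K`, `J`, `C` have no Hom, Ext from `Gs` (SES and
EUL: `xd G J ≤ xd G E = 0`, `hd G J ≤ hd G Z = 0`, `hd G K ≤ hd G E = 0`, `xd G K = - eul G K = 0`,
`xd G C ≤ xd G Z = 0`, `hd G C = eul G C = 0`). If `dm K ≠ 0` there is `E'` in `Es` with
`hd E' K ≠ 0`, so `hd E' E ≠ 0`, so `E' = E` as members of the list (the sequence is exceptional and
`Es` is Hom-orthogonal), SUB gives `dm J = 0`, contradiction. So `dm J = dm E`, and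
`dm Z = dm E + dm C`; induction for `C`. Uses EUL, SES, KIC, SUB, LIN. -/
def SpecFLT : Prop := ∀ (Q : Type u) [Fintype Q] (mu : Q → Q → ℕ) (Es Gs : List (Rp Q mu)),
  (∀ E ∈ Es ++ Gs, Brk E) → (Es ++ Gs).Pairwise Xp → Es.Pairwise (fun E F => hd E F = 0) →
  (Es ++ Gs).length = Fintype.card Q → ∀ Z : Rp Q mu, (∀ G ∈ Gs, hd G Z = 0 ∧ xd G Z = 0) →
  ∃ c : Fin Es.length → ℕ, dm Z = ∑ i, (c i : ℤ) • dm (Es.get i)

/-! ## Group L: the link -/

/-- COE. The Euler form of the unfolded quiver. PROOF. Expand `x s = ∑_i (co x (s, i)) b_i`;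
`repr (b_i b_j) one = δ_ij`, `repr (X s t b_i b_j) one = repr (X s t b_i) j` (RNG), which is
`≥ 0` for `s ≠ t` (`X s t = ch (X s t) 1`, `r.nn` with `j = 1`, as `M s t ≠ 1`). Uses RNG. -/
def SpecCOE : Prop := ∀ (B W : Type u) [Fintype B] [DecidableEq B] [Group W]
  (M : CoxeterMatrix B) (cs : CoxeterSystem M W) (A I : Type) [CommRing A] [Fintype I]
  [DecidableEq I] (r : RD cs A I) (ω : List B) (x y : B → A),
  eul (r.mu ω) (r.co x) (r.co y) = r.R.b.repr (eA r.X ω x y) r.R.one

/-- BLK. Mutation of blocks. PROOF. (1) General: if `D` is a list of vectors with `eul d d' = 0` for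
different positions and `eul d d = 1`, then `Exc (P ++ D ++ e :: Q)` implies
`Exc (P ++ (e - ∑_(d in D) eul d e • d) :: D ++ Q)` (MUT past the last element of `D`, and so on).
(2) `D = blk x`: `eul (co (i x)) (co (j x)) = repr (b_i b_j) one = δ_ij` (COE, `eA x x = 1`);
`e = co (b_j y)`: `∑_i eul (co (i x)) (co (j y)) co (i x) = co (b_j (eA x y) x)` (RNG (1):
`z = ∑_i repr (z b_i) one b_i`), so the new vector is `co (b_j (y - eA x y x))`. Do this for all
elements of `blk y`, in order. (3) The other direction in the same way. Uses RNG, COE, MUT. -/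
def SpecBLK : Prop := ∀ (B W : Type u) [Fintype B] [DecidableEq B] [Group W]
  (M : CoxeterMatrix B) (cs : CoxeterSystem M W) (A I : Type) [CommRing A] [Fintype I]
  [DecidableEq I] (r : RD cs A I) (ω : List B) (P R : List (B × I → ℤ)) (x y : B → A),
  eA r.X ω x x = 1 → eA r.X ω y y = 1 → eA r.X ω y x = 0 →
  Exc (r.mu ω) (P ++ r.blk x ++ r.blk y ++ R) →
  Exc (r.mu ω) (P ++ r.blk (y - eA r.X ω x y • x) ++ r.blk x ++ R) ∧
  Exc (r.mu ω) (P ++ r.blk y ++ r.blk (x - eA r.X ω x y • y) ++ R)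

/-- FAM. Every factorization of `c` carries a family of exceptional bricks.
PROOF. `Good L` : `IsFac L` and `Exc (concatenation of the blk (rt t), t in L)`. Start: `L` = simple
factorization; `rt s = z α_s` with `z` a positive unit (SGN (6)), `blk (z x)` is a permutation of
`blk x` (RNG (9)); the list of all `Pi.single (s, i) 1`, `s` in the order of `ω`, is exceptional
(SIM: `mu = 0` unless the first index is strictly before the second). PERMUTATIONS inside a block
are allowed: MUT with `eul = 0` is a swap. SIGNS are free in `Exc`. STEP: `L = P ++ a :: b :: R`,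
`x = rt a`, `y = rt b`. `eA y x = 0`: `Exc` gives `eul (co (j y)) (co (i x)) = 0` for all `i, j`
(EUL for the members of the sequence), so `repr (b_i b_j eA (y, x)) one = 0`; `2 eA x x = bil x x =
2`. `y - eA x y x = y - bil x y x = rho a y` is a root vector of `a b a⁻¹`, so it is `± z rt (a b a⁻¹)`
(SGN). Use BLK; the same for the `right` moves. By HUR all factorizations are good. FINALLY: from
`Exc` one gets a list of representations; the entries of `L` are different (if `t` occurs twice,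
`eul (co rt t) (co rt t)` would be `0` and `1`), so the representations can be indexed by
`(t, i)`; the dimension vector is `± co (b_i rt t)` and `co (b_i rt t) ≥ 0`, so it is
`co (b_i rt t)`. In one block `Xp` holds in both directions: reorder the block (swap) — or use HRN:
`hd E F - xd E F = 0` and `hd * xd = 0`. Uses RNG, RTF, SGN, HUR, EUL, HRN, MUT, SIM, COE, BLK. -/
def SpecFAM : Prop := ∀ (B W : Type u) [Fintype B] [DecidableEq B] [Group W]
  (M : CoxeterMatrix B) (cs : CoxeterSystem M W) (A I : Type) [CommRing A] [Fintype I]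
  [DecidableEq I] (r : RD cs A I), Function.Injective cs.simple → ∀ ω : List B, ω.Nodup →
  (∀ s : B, s ∈ ω) → ∀ L : List W, IsFac cs (cs.wordProd ω) ω.length L →
  ∃ E : W → I → Rp (B × I) (r.mu ω), IsFam r ω L E

/-- TRI. Signs of the Euler form. PROOF. Let `a` be before `b` in `L`, `x = rt a`, `y = rt b`,
`E` the family. `eul (co (j y)) (co (i x)) = 0` for all `i, j` gives `eA y x = 0` (COE, RNG (1)).
Put `e = eA x y = ∑ e_i b_i`; `eul (co (i x)) (co (j y)) = repr (b_i b_j e) one`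
`= hd (E a i) (E b j) - xd (E a i) (E b j)`; in particular it is `e_i` for `(i, one)` and for
`(one, i)`. Assume `e_i > 0` and `e_j < 0`. `hd (E a one) (E b i) > 0`: HRN; if mono,
`xd (E a one) (E b j) ≤ xd (E b i) (E b j) = 0`, but `e_j < 0`. So epi: `co (b_i y) ≤ co x`
(coordinatewise). `hd (E a i) (E b one) > 0`; if epi, `xd (E a j) (E b one) ≤ xd (E a j) (E a i) = 0`,
but `e_j < 0` (if `j = i` impossible). So mono: `co (b_i x) ≤ co y`. Multiplication by `b_i`
preserves the order and `b_i b_i - 1` is `Nn` (RNG (7)): `x ≥ b_i y ≥ b_i b_i x ≥ x`, so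
`x = b_i y`, and `y ≥ b_i x`, `b_i x = b_i b_i y ≥ y`: `y = b_i x`. Then
`e = eA x y = b_i eA x x = b_i` (`2 eA x x = bil x x = 2`), but `e_j < 0`. Uses RNG, RTF, SGN, EUL,
HRN, COE, FAM. -/
def SpecTRI : Prop := ∀ (B W : Type u) [Fintype B] [DecidableEq B] [Group W]
  (M : CoxeterMatrix B) (cs : CoxeterSystem M W) (A I : Type) [CommRing A] [Fintype I]
  [DecidableEq I] (r : RD cs A I), Function.Injective cs.simple → ∀ ω : List B, ω.Nodup →
  (∀ s : B, s ∈ ω) → ∀ L : List W, IsFac cs (cs.wordProd ω) ω.length L →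
  L.Pairwise (fun a b => eA r.X ω (r.rt b) (r.rt a) = 0 ∧
    (r.R.Nn (eA r.X ω (r.rt a) (r.rt b)) ∨ r.R.Nn (- eA r.X ω (r.rt a) (r.rt b))))

/-- HRB. The axiom `hr` for `Ex` and `Hm`. PROOF. `E` the family of `L`. As `Hm a b`, there is `i`
with `e_i > 0`, `e = eA (rt a) (rt b)`, so `hd (E a one) (E b i) > 0`. HRN. For members `c, d` of
`L`, `c` before `d`: `Ex c d` iff some `xd (E c j) (E d k) > 0` iff for every `j` there is `k` iff for
every `k` there is `j`; same for `Hm` and `hd` (the numbers `repr (b_j b_k e) one = hd - xd` have one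
sign, `hd * xd = 0` by HRN, and `b_j e ≠ 0` if `e ≠ 0`, RNG (8)); and `hd`, `xd` from a later to an
earlier block vanish. MONO: `xd (E a one) Z ≤ xd (E b i) Z`, `hd Z (E a one) ≤ hd Z (E b i)`: `x` in
`L₂`: `Ex a x` gives `xd (E a one) (E x k) > 0`, so `xd (E b i) (E x k) > 0`, but `x` is before `b`;
`x` in `L₃`: `Ex a x` gives `Ex b x`; `x` in `L₁`: `Hm x a` gives `Hm x b`. EPI: in the same way.
Uses RNG, RTF, SGN, EUL, HRN, COE, FAM, TRI. -/
def SpecHRB : Prop := ∀ (B W : Type u) [Fintype B] [DecidableEq B] [Group W]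
  (M : CoxeterMatrix B) (cs : CoxeterSystem M W) (A I : Type) [CommRing A] [Fintype I]
  [DecidableEq I] (r : RD cs A I), Function.Injective cs.simple → ∀ ω : List B, ω.Nodup →
  (∀ s : B, s ∈ ω) → ∀ (L₁ L₂ L₃ : List W) (a b : W),
  IsFac cs (cs.wordProd ω) ω.length (L₁ ++ a :: L₂ ++ b :: L₃) → r.Hm ω a b →
    ((∀ x ∈ L₂, ¬ r.Ex ω a x) ∧ (∀ x ∈ L₃, r.Ex ω a x → r.Ex ω b x) ∧
      (∀ x ∈ L₁, r.Hm ω x a → r.Hm ω x b)) ∨
    ((∀ x ∈ L₂, ¬ r.Ex ω x b) ∧ (∀ x ∈ L₁, r.Ex ω x b → r.Ex ω x a) ∧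
      (∀ x ∈ L₃, r.Hm ω b x → r.Hm ω a x))

/-- SRT. The axiom `srt`. PROOF. `x = rt a`, `y = rt b`, `e = eA x y = bil x y` (TRI: `eA y x = 0`),
`e` is `Nn` and `≠ 0`. CASE 1: `g = rho a y = y - e x` is `PV` (it is `±`, SGN (1)). It is a
root vector of `t = a b a⁻¹`. `rho t x = x - bil g x g = x + e g` is `PV`, so `ℓ(t) < ℓ(t a)`
(SGN (4)), and `rho (a t) x = rho a (x + e g) = - x + e y = (e e - 1) x + e g` is `PV` (RNG (7)), so
`ℓ(a t) < ℓ(a t a) = ℓ(b)`; `ℓ(a t) = ℓ(t a) > ℓ(t)`. So `ℓ(a b a⁻¹) < ℓ(b)`. CASE 2: `rho b x` is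
`PV`: symmetric, `ℓ(b⁻¹ a b) < ℓ(a)`. CASE 3: both are negative: `ℓ(a b) < ℓ(a)` and
`ℓ(b a) < ℓ(b)` (SGN (4)). PAL for `(a, b)`: `ℓ(b a b) < ℓ(a)` (done) or `ℓ(a b a) < ℓ(a)`. PAL for
`(b, a)`: `ℓ(a b a) < ℓ(b)` (done) or `ℓ(b a b) < ℓ(b)`. In the remaining case either
`ℓ(a) ≤ ℓ(b)`, and then `ℓ(a b a) < ℓ(a) ≤ ℓ(b)`, or `ℓ(b) < ℓ(a)`, and then
`ℓ(b a b) < ℓ(b) < ℓ(a)`. Uses RNG, RTF, SGN, PAL, TRI. -/
def SpecSRT : Prop := ∀ (B W : Type u) [Fintype B] [DecidableEq B] [Group W]
  (M : CoxeterMatrix B) (cs : CoxeterSystem M W) (A I : Type) [CommRing A] [Fintype I]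
  [DecidableEq I] (r : RD cs A I), Function.Injective cs.simple → ∀ ω : List B, ω.Nodup →
  (∀ s : B, s ∈ ω) → ∀ (L₁ L₂ : List W) (a b : W),
  IsFac cs (cs.wordProd ω) ω.length (L₁ ++ a :: b :: L₂) → r.Hm ω a b →
    cs.length (a * b * a⁻¹) < cs.length b ∨ cs.length (b⁻¹ * a * b) < cs.length a

/-- UNI. The axiom `uniq`. PROOF. `E` the family of `F₁ ++ G`, `E'` the family of `F₂ ++ G`. For `g`
in `G`: `E g i ≅ E' g i` (PEN), so (ISO) `E' t j`, `t` in `F₂`, has no Hom and no Ext from the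
`E g i`. The list `Es` of all `E t i`, `t` in `F₁`, and `Gs` of all `E g i`, satisfy the hypotheses
of FLT (`(Es ++ Gs).length = ω.length * card I = card (B × I)`; `hd (E s i) (E t j) = 0` for `s`
before `t` in `F₁`, because `eul ≤ 0` for all `i, j` by `¬ Hm` and TRI, and `hd * xd = 0`, HRN). So
`co (b_j rt t)`, `t` in `F₂`, is a combination with coefficients in `ℕ` of the `co (b_i rt s)`, `s` in
`F₁`, and conversely. As both families are linearly independent (LIN), every member of one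
family is a member of the other: if `v = ∑ c_p u_p`, `u_p = ∑ d_pq v_q`, then
`∑_p c_p d_pq = 0` for `v_q ≠ v`, so for a `p` with `c_p > 0`: `u_p = d v`, `c_p d ≤ 1`. So for `t` in
`F₂` there are `s` in `F₁`, `i` with `rt t = b_i rt s` (take `j = one`), then
`2 = bil (rt t) (rt t) = b_i b_i 2`, `b_i b_i = 1`, `rho t = rho s` (RTF (2)), `t = s` (SGN (5)).
So `F₁` and `F₂` have the same members; they have no repetition (`F₁ ++ G` has none: see FAM, or
TRI: `eA (rt t) (rt t) = 1 ≠ 0`). Uses RNG, RTF, SGN, EUL, HRN, PEN, ISO, LIN, FLT, COE, FAM,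
TRI. -/
def SpecUNI : Prop := ∀ (B W : Type u) [Fintype B] [DecidableEq B] [Group W]
  (M : CoxeterMatrix B) (cs : CoxeterSystem M W) (A I : Type) [CommRing A] [Fintype I]
  [DecidableEq I] (r : RD cs A I), Function.Injective cs.simple → ∀ ω : List B, ω.Nodup →
  (∀ s : B, s ∈ ω) → ∀ F₁ F₂ G : List W, IsFac cs (cs.wordProd ω) ω.length (F₁ ++ G) →
  IsFac cs (cs.wordProd ω) ω.length (F₂ ++ G) →
    F₁.prod = F₂.prod → F₁.Pairwise (fun a b => ¬ r.Hm ω a b) →
    F₂.Pairwise (fun a b => ¬ r.Hm ω a b) → F₁.Perm F₂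

/-- INC. The axiom `incr`. PROOF. `F = [t_2, ..., t_m]`, `a = t_1`. `ℓ(F.prod) < ℓ(a F.prod)` iff
`ℓ(F.prod⁻¹) < ℓ(F.prod⁻¹ a)`, so by SGN (4) it is enough that `rho (t_m ... t_2) (rt a)` is `PV` (it
would be `-PV` otherwise, and it is nonzero). By induction `x_j = rho (t_j ... t_2) (rt a) =
rt a + ∑_(1 < l ≤ j) c_l rt t_l` with `Nn` coefficients: `bil (rt t_(j+1)) x_j` is minus an `Nn`
element, since `bil (rt t_l) (rt t_(j+1)) = eA (rt t_l) (rt t_(j+1))` is minus `Nn` for
`l < j + 1` (TRI and `¬ Hm`). Uses RNG, RTF, SGN, TRI. -/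
def SpecINC : Prop := ∀ (B W : Type u) [Fintype B] [DecidableEq B] [Group W]
  (M : CoxeterMatrix B) (cs : CoxeterSystem M W) (A I : Type) [CommRing A] [Fintype I]
  [DecidableEq I] (r : RD cs A I), Function.Injective cs.simple → ∀ ω : List B, ω.Nodup →
  (∀ s : B, s ∈ ω) → ∀ (a : W) (F G : List W),
  IsFac cs (cs.wordProd ω) ω.length (a :: F ++ G) →
    (a :: F).Pairwise (fun a b => ¬ r.Hm ω a b) → cs.length F.prod < cs.length (a * F.prod)

/-- AXM. The axioms hold. PROOF. RDE gives `r`; `Ex a b = (a ≠ b and r.Ex ω a b)`,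
`Hm a b = (a ≠ b and r.Hm ω a b)`. `tri`: TRI, and if
`eA = 0` in both orders then `bil = 0` and the reflections commute (RTF (2), SGN (5)). Uses RNG, RDE,
RTF, SGN, HUR, TRI, HRB, SRT, UNI, INC. -/
def SpecAXM : Prop := ∀ (B W : Type u) [Fintype B] [DecidableEq B] [Group W]
  (M : CoxeterMatrix B) (cs : CoxeterSystem M W), Function.Injective cs.simple →
  ∀ ω : List B, ω.Nodup → (∀ s : B, s ∈ ω) →
  ∃ Ex Hm : W → W → Prop, Ax cs (cs.wordProd ω) ω.length Ex Hm

/-! ## Group C: the combinatorics of the axioms -/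

/-- ADJ. If a segment of a factorization is not canonical, it can be reordered by commutations
so that two adjacent entries form an `Hm` pair. PROOF. Choose `F = F₁ ++ a :: F₂ ++ b :: F₃` with
`Hm a b` and `F₂` of minimal length. `hr` with `L₁ = P ++ F₁`, `L₃ = F₃ ++ Q`. In the first case
`¬ Ex a x` for `x` in `F₂`, `¬ Hm a x` by minimality, so `a` commutes with all `x` in `F₂` (`tri`):
take `A = F₁ ++ F₂`, `D = F₃`. In the second case `b` commutes with all `x` in `F₂`: `A = F₁`,
`D = F₂ ++ F₃`. -/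
def SpecADJ : Prop := ∀ (B W : Type u) [Group W] (M : CoxeterMatrix B) (cs : CoxeterSystem M W)
  (c : W) (n : ℕ) (Ex Hm : W → W → Prop), Ax cs c n Ex Hm → ∀ P F Q : List W,
  IsFac cs c n (P ++ F ++ Q) → ¬ F.Pairwise (fun a b => ¬ Hm a b) →
  ∃ (A D : List W) (a b : W), (A ++ a :: b :: D).Perm F ∧ Hm a b ∧
    (A ++ a :: b :: D).prod = F.prod

/-- RED. Reduction to a canonical factorization. PROOF. Strong induction on `sl F`: if `F` is
canonical take `K = F`. Otherwise ADJ, then `srt` for `P ++ A ++ a :: b :: (D ++ Q)`: one of the two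
Hurwitz moves gives `F'` with the same product and length, `sl F' < sl F`, and the new entry is
shorter than the entry which it replaces. Uses ADJ. -/
def SpecRED : Prop := ∀ (B W : Type u) [Group W] (M : CoxeterMatrix B) (cs : CoxeterSystem M W)
  (c : W) (n : ℕ) (Ex Hm : W → W → Prop), Ax cs c n Ex Hm → ∀ P F Q : List W,
  IsFac cs c n (P ++ F ++ Q) → ∃ K : List W, IsFac cs c n (P ++ K ++ Q) ∧ K.prod = F.prod ∧
    K.length = F.length ∧ K.Pairwise (fun a b => ¬ Hm a b) ∧
    (∀ t ∈ K, ∃ g ∈ F, cs.length t ≤ cs.length g) ∧ (K.Perm F ∨ sl cs K < sl cs F)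

/-- CMP. A canonical factorization of a segment is the smallest. PROOF. RED for `F'` gives `K`.
`F.prod = F'.prod = K.prod`. Move `P` to the right: `F ++ (P.map (fun t => F.prod⁻¹ * t * F.prod)) ++ Q`
and the same with `K` are factorizations of `c`; `uniq` gives `F.Perm K`, so `sl F = sl K`.
Uses RED. -/
def SpecCMP : Prop := ∀ (B W : Type u) [Group W] (M : CoxeterMatrix B) (cs : CoxeterSystem M W)
  (c : W) (n : ℕ) (Ex Hm : W → W → Prop), Ax cs c n Ex Hm → ∀ P F F' Q : List W,
  IsFac cs c n (P ++ F ++ Q) → IsFac cs c n (P ++ F' ++ Q) →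
  F.Pairwise (fun a b => ¬ Hm a b) → sl cs F < sl cs F' ∨ F.Perm F'

/-- ORD. A numbering of the labels of a factorization. PROOF. Put `O x y` : `x, y` in `L` and
(`Ex x y` or `Hm y x`). Positions: by `tri`, `Ex x y` implies `x` before `y` and `Hm y x` implies `y`
before `x`. (`L` has no repetition: if `L = P ++ x :: Q ++ x :: R` then `P ++ (Q conjugated by x) ++ R`
has product `c` and length `n - 2`.) CLAIM: `O` has no cycle. Let `Wk k x y` : there is an
`O`-path of length `k` from `x` to `y`; take a closed one, `Wk k x x`, `k ≥ 1` minimal over all `x`.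
Not all edges go forward, so there is a backward edge: `O v w` with `Hm w v`, `w` before `v`, and
`Wk (k - 1) w v` (rotate the cycle); `k ≥ 2`. `hr` for `a = w`, `b = v`. FIRST CASE: every
`O`-successor `z` of `w` is an `O`-successor of `v` (`z` after `w`: `Ex w z`; `z` in `L₂` is excluded,
`z = v` is excluded by `tri`, `z` in `L₃` gives `Ex v z`; `z` before `w`: `Hm z w` gives `Hm z v`). So
`Wk (k - 1) v v`, contradiction. SECOND CASE: every predecessor of `v` is a predecessor of `w`, so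
`Wk (k - 1) w w`, contradiction. Hence `x ↦` number of `y` in `L` with a nonempty path from `y` to
`x` is strictly increasing along `O`; combine it with the position to make it injective. -/
def SpecORD : Prop := ∀ (B W : Type u) [Group W] (M : CoxeterMatrix B) (cs : CoxeterSystem M W)
  (c : W) (n : ℕ) (Ex Hm : W → W → Prop), Ax cs c n Ex Hm → ∀ L : List W, IsFac cs c n L →
  ∃ f : W → ℕ, (∀ x ∈ L, ∀ y ∈ L, f x = f y → x = y) ∧
    ∀ x ∈ L, ∀ y ∈ L, (Ex x y ∨ Hm y x) → f x < f y

/-- GAP. If `L` has no descent at the elements of its chain outside the chain of `L'`, then `L` is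
at most `L'`. PROOF. Generalize: `L = P ++ F`, `L' = P ++ F'`, the hypothesis only for splittings
inside `F`. Common points: `(L.drop i).prod = (L'.drop i).prod` iff
`(L.take i).prod = (L'.take i).prod`. Strong induction on `F.length`. `F = []`: clear. Let `i ≥ 1` be
minimal with `(F.take i).prod = (F'.take i).prod`, `F₁ = F.take i`, `F₁' = F'.take i`. No interior
point of `F₁` is in `vs L'` (if `(L.drop p).prod = (L'.drop q).prod` then `p = q` by `minlen`:
`L.take p ++ L'.drop q` and `L'.take q ++ L.drop p` have product `c`), so for adjacent `a, b` in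
`F₁`: `¬ Hm a b` and (`Ex a b` or `f a < f b`), hence always `f a < f b`. So `f` is strictly
increasing on `F₁`, and for `a` before `b` in `F₁` not `Hm a b` (it would give `f b < f a`). CMP:
`sl F₁ < sl F₁'` or `F₁.Perm F₁'`. Induction for `P ++ F₁`, `F.drop i`, `F'.drop i`. If all the
blocks are permuted then `L.Perm L'`, and in the first block where `F₁ ≠ F₁'`, `F₁.map f` is
strictly increasing, so it is lexicographically smaller than `F₁'.map f`. Uses CMP. -/
def SpecGAP : Prop := ∀ (B W : Type u) [Group W] (M : CoxeterMatrix B) (cs : CoxeterSystem M W)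
  (c : W) (n : ℕ) (Ex Hm : W → W → Prop), Ax cs c n Ex Hm → ∀ (L L' : List W) (f : W → ℕ),
  IsFac cs c n L → IsFac cs c n L' → (∀ x ∈ L, ∀ y ∈ L, f x = f y → x = y) →
  (∀ x ∈ L, ∀ y ∈ L, (Ex x y ∨ Hm y x) → f x < f y) →
  (∀ (P Q : List W) (a b : W), L = P ++ a :: b :: Q → (b :: Q).prod ∉ vs L' →
    ¬ Hm a b ∧ (¬ Ex a b → f a < f b)) →
  sl cs L < sl cs L' ∨ (L.Perm L' ∧ (L = L' ∨ L.map f < L'.map f))

/-- VSL. Elementary facts on the chain `vs L` of a factorization. PROOF. (1) `i ↦ (L.drop i).prod` is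
injective on `i ≤ n` by `minlen` (`L.take i ++ L.drop j` for `i < j` would have product `c`), more
generally (2). (3) `vs L` determines the elements `u_i = (L.drop i).prod`: by (2)
`u_i (L) = u_i (L')`, so the quotients `L_i` agree. (4) only `(b :: Q).prod` changes. -/
def SpecVSL : Prop := ∀ (B W : Type u) [Group W] (M : CoxeterMatrix B) (cs : CoxeterSystem M W)
  (c : W) (n : ℕ) (Ex Hm : W → W → Prop), Ax cs c n Ex Hm →
  (∀ L : List W, IsFac cs c n L → (vs L).card = n + 1) ∧
  (∀ L L' : List W, IsFac cs c n L → IsFac cs c n L' → ∀ i j : ℕ, i ≤ n → j ≤ n →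
    (L.drop i).prod = (L'.drop j).prod → i = j) ∧
  (∀ L L' : List W, IsFac cs c n L → IsFac cs c n L' → vs L = vs L' → L = L') ∧
  (∀ (P Q : List W) (a b a' b' : W), a * b = a' * b' → ∀ x ∈ vs (P ++ a :: b :: Q),
    x ≠ (b :: Q).prod → x ∈ vs (P ++ a' :: b' :: Q))

/-- SHG. A general criterion. PROOF. Sort `s` by `key`: a bijection `Fin s.card → s`, strictly
increasing for `key`. The facets are the `v i` (same cardinality, injective). If `G ⊆ v i ∩ v j` with
`key i < key j`, take `H = (v j).erase x`. -/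
def SpecSHG : Prop := ∀ (W ι : Type u) (κ : Type) [LinearOrder κ] [DecidableEq W] (s : Finset ι)
  (v : ι → Finset W) (key : ι → κ), (∀ i ∈ s, ∀ j ∈ s, key i = key j → i = j) →
  (∀ i ∈ s, ∀ j ∈ s, v i = v j → i = j) → (∀ i ∈ s, ∀ j ∈ s, (v i).card = (v j).card) →
  (∀ i ∈ s, ∀ j ∈ s, key j < key i → ∃ l ∈ s, key l < key i ∧ ∃ x ∈ v i, x ∉ v j ∧
    (v i).erase x ⊆ v l) →
  Shellable {G : Finset W | ∃ i ∈ s, G ⊆ v i}

/-- SHL. Shellability of the complex of chains of factorizations. PROOF. `s` = the finite set of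
factorizations with letters in `T_k`. For a set `S` of labels of a factorization choose `f_S` by
ORD (it depends only on the set). `key L = (sl L, number of the label set, L.map f_S)` in
`ℕ ×ₗ ℕ ×ₗ List ℕ`, for an injective numbering of the label sets. It is injective. Let
`key L' < key L`. If `L` had no descent outside `vs L'`, GAP would give `key L ≤ key L'`. So
`L = P ++ a :: b :: Q`, `x = (b :: Q).prod ∉ vs L'`, and either `Hm a b`: a Hurwitz move (`srt`) gives
`L''` with smaller `sl`, letters in `T_k`; or `¬ Hm a b`, `¬ Ex a b`, `f b ≤ f a`: `a, b` commute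
(`tri`), are different, swap them: same label set, lexicographically smaller. Use SHG and VSL.
Uses ORD, GAP, VSL, SHG. -/
def SpecSHL : Prop := ∀ (B W : Type u) [Group W] (M : CoxeterMatrix B) (cs : CoxeterSystem M W)
  (c : W) (n : ℕ) (Ex Hm : W → W → Prop), Ax cs c n Ex Hm → ∀ k : ℕ, (reflLE cs k).Finite →
  Shellable {G : Finset W | ∃ L : List W, (IsFac cs c n L ∧ ∀ t ∈ L, t ∈ reflLE cs k) ∧ G ⊆ vs L}

/-- ALE. Values of `ℓ_k`. PROOF. A directed path of length `m` from `1` to `w` is a list of `m`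
elements of `T_k` with product `w` (and conversely if the partial products increase). (1) paths
exist (reduced words, `T_0` contains the simple reflections). (2) If `F` is a segment of a
factorization with letters in `T_k`, then `ℓ_k (F.prod) = F.length`: `≥` by `minlen` (a shorter list
with the same product would give a shorter factorization of `c`); `≤`: RED gives a canonical `K`
with letters in `T_k` (`ℓ(t) ≤ ℓ(g) ≤ 2 k + 1`), and by `incr` for all final segments `t :: K'` of
`K` (move the rest to the right of it, conjugated) the partial products of `K` from the right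
increase. Uses RED. -/
def SpecALE : Prop := ∀ (B W : Type u) [Group W] (M : CoxeterMatrix B) (cs : CoxeterSystem M W)
  (c : W) (n : ℕ) (Ex Hm : W → W → Prop), Ax cs c n Ex Hm → ∀ k : ℕ,
  (∀ w : W, ∃ L : List W, (∀ t ∈ L, t ∈ reflLE cs k) ∧ L.prod = w ∧ L.length = absLen cs k w) ∧
  (∀ P F Q : List W, IsFac cs c n (P ++ F ++ Q) → (∀ t ∈ F, t ∈ reflLE cs k) →
    absLen cs k F.prod = F.length)

/-- ABS. The order complex of `[e, c]_{ak}`. PROOF. `ℓ_k(c) = n` (ALE (2) for the simple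
factorization, `Ax.base`). For a factorization `L` with letters in `T_k`, `u_i = (L.drop i).prod`:
`ℓ_k(u_j u_i⁻¹)` = number of letters between, so all `u_i` are in the interval and form a chain.
CONVERSELY let `x_1, ..., x_m` be elements of the interval with `x_1 ≼ x_2 ≼ ... ≼ x_m` (a finite
chain can be ordered like this: different comparable elements have different `ℓ_k`, order by
`ℓ_k`). `ℓ_k(c) = ℓ_k(x_m) + ℓ_k(c x_m⁻¹)`, `ℓ_k(x_(i+1)) = ℓ_k(x_i) + ℓ_k(x_(i+1) x_i⁻¹)`, so the
concatenation of the lists of ALE (1) for `c x_m⁻¹`, `x_m x_(m-1)⁻¹`, ..., `x_1` is a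
factorization of `c` of length `n` with letters in `T_k` whose chain contains all `x_i`. Transitivity
and antisymmetry on the interval follow (three elements are enough). Uses VSL, ALE. -/
def SpecABS : Prop := ∀ (B W : Type u) [Group W] (M : CoxeterMatrix B) (cs : CoxeterSystem M W)
  (c : W) (n : ℕ) (Ex Hm : W → W → Prop), Ax cs c n Ex Hm → ∀ k : ℕ,
  orderComplex (absLE cs k) (absInterval cs k 1 c) =
    {G : Finset W | ∃ L : List W, (IsFac cs c n L ∧ ∀ t ∈ L, t ∈ reflLE cs k) ∧ G ⊆ vs L} ∧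
  (∀ w : W, w ∈ absInterval cs k 1 c ↔
    ∃ L : List W, (IsFac cs c n L ∧ ∀ t ∈ L, t ∈ reflLE cs k) ∧ w ∈ vs L) ∧
  (∀ x ∈ absInterval cs k 1 c, ∀ y ∈ absInterval cs k 1 c, absLE cs k x y → absLE cs k y x →
    x = y) ∧
  (∀ x ∈ absInterval cs k 1 c, ∀ y ∈ absInterval cs k 1 c, ∀ z ∈ absInterval cs k 1 c,
    absLE cs k x y → absLE cs k y z → absLE cs k x z)

/-- FIN. Finitely many elements of bounded length. PROOF. Words of length `≤ m` in a finite
alphabet. -/
def SpecFIN : Prop := ∀ (B W : Type u) [Finite B] [Group W] (M : CoxeterMatrix B)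
  (cs : CoxeterSystem M W) (k : ℕ), (reflLE cs k).Finite

end Pool.Agent.Lib.MP_20db89_co.AK
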