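import Mathlib
import Pool.Agent.Lib.MP_20db89_co.AK.Spec

set_option autoImplicit false

/-!
Module DUA: duality.
-/

namespace Pool.Agent.Lib.MP_20db89_co.AK

universe u

namespace DUAM

open Module

theorem absd {U V U' V' : Type*} [AddCommGroup U] [AddCommGroup V] [AddCommGroup U']
    [AddCommGroup V'] [Module ℚ U] [Module ℚ V] [Module ℚ U'] [Module ℚ V']
    (α : U →ₗ[ℚ] U') (β : V →ₗ[ℚ] V') (e0 : U ≃ₗ[ℚ] V) (e1 : U' ≃ₗ[ℚ] V')
    (h : ∀ x, β (e0 x) = - e1 (α x)) :
    finrank ℚ (LinearMap.ker β) = finrank ℚ (LinearMap.ker α) ∧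
    finrank ℚ (V' ⧸ LinearMap.range β) = finrank ℚ (U' ⧸ LinearMap.range α) := by
  constructor
  · have h1 : (LinearMap.ker α).map (e0 : U →ₗ[ℚ] V) = LinearMap.ker β := by
      ext v
      rw [Submodule.mem_map, LinearMap.mem_ker]
      constructor
      · rintro ⟨x, hx, rfl⟩
        rw [LinearMap.mem_ker] at hx
        rw [LinearEquiv.coe_coe, h, hx, map_zero, neg_zero]
      · intro hv
        refine ⟨e0.symm v, ?_, e0.apply_symm_apply v⟩
        rw [LinearMap.mem_ker]
        apply e1.injective
        rw [map_zero, ← neg_eq_zero, ← h, e0.apply_symm_apply, hv]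
    rw [← h1]
    exact LinearEquiv.finrank_map_eq e0 _
  · have h1 : (LinearMap.range α).map (e1 : U' →ₗ[ℚ] V') = LinearMap.range β := by
      ext v
      rw [Submodule.mem_map]
      constructor
      · rintro ⟨_, ⟨x, rfl⟩, rfl⟩
        refine ⟨e0 (-x), ?_⟩
        rw [h, map_neg, map_neg, neg_neg]
        rfl
      · rintro ⟨y, rfl⟩
        refine ⟨α (-(e0.symm y)), ⟨_, rfl⟩, ?_⟩
        rw [LinearEquiv.coe_coe, map_neg, map_neg, ← h, e0.apply_symm_apply]
    exact (LinearEquiv.finrank_eq (Submodule.Quotient.equiv _ _ e1 h1)).symm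

section transport

variable {U V U' V' : Type*} [AddCommGroup U] [AddCommGroup V] [AddCommGroup U']
    [AddCommGroup V'] [Module ℚ U] [Module ℚ V] [Module ℚ U'] [Module ℚ V'] [Module.Finite ℚ V]
    [Module.Finite ℚ V']

/-- the flipped pairing -/
noncomputable def psi (φ : U ≃ₗ[ℚ] Dual ℚ V) : V ≃ₗ[ℚ] Dual ℚ U :=
  (evalEquiv ℚ V).trans φ.dualMap

omit [Module.Finite ℚ V'] in
theorem psi_apply (φ : U ≃ₗ[ℚ] Dual ℚ V) (v : V) (u : U) : psi φ v u = φ u v := rfl

/-- transport of linear maps to the duals -/
noncomputable def S (φ : U ≃ₗ[ℚ] Dual ℚ V) (φ' : U' ≃ₗ[ℚ] Dual ℚ V') :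
    (U →ₗ[ℚ] U') ≃ₗ[ℚ] (V' →ₗ[ℚ] V) where
  toFun h := (psi φ).symm.toLinearMap ∘ₗ (h.dualMap ∘ₗ (psi φ').toLinearMap)
  invFun l := φ'.symm.toLinearMap ∘ₗ (l.dualMap ∘ₗ φ.toLinearMap)
  map_add' g h := by
    apply LinearMap.ext
    intro v
    apply (psi φ).injective
    apply LinearMap.ext
    intro u
    simp [psi_apply, LinearMap.dualMap_apply]
  map_smul' c h := by
    apply LinearMap.ext
    intro v
    apply (psi φ).injective
    apply LinearMap.ext
    intro u
    simp [psi_apply, LinearMap.dualMap_apply]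
  left_inv h := by
    apply LinearMap.ext
    intro u
    apply φ'.injective
    apply LinearMap.ext
    intro v
    simp only [LinearMap.comp_apply, LinearEquiv.coe_coe, LinearEquiv.apply_symm_apply,
      LinearMap.dualMap_apply]
    rw [← psi_apply φ, LinearEquiv.apply_symm_apply, LinearMap.dualMap_apply, psi_apply]
  right_inv l := by
    apply LinearMap.ext
    intro v
    apply (psi φ).injective
    apply LinearMap.ext
    intro u
    simp only [LinearMap.comp_apply, LinearEquiv.coe_coe, LinearEquiv.apply_symm_apply,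
      LinearMap.dualMap_apply]
    rw [psi_apply, LinearEquiv.apply_symm_apply, LinearMap.dualMap_apply, psi_apply]

theorem S_rel (φ : U ≃ₗ[ℚ] Dual ℚ V) (φ' : U' ≃ₗ[ℚ] Dual ℚ V') (h : U →ₗ[ℚ] U') (u : U)
    (v' : V') : φ u (S φ φ' h v') = φ' (h u) v' := by
  rw [← psi_apply φ]
  show psi φ ((psi φ).symm (h.dualMap (psi φ' v'))) u = _
  rw [LinearEquiv.apply_symm_apply, LinearMap.dualMap_apply, psi_apply]

end transport

end DUAM

open DUAM Module in
theorem specDUA : SpecDUA.{u} := by
  intro Q _ mu
  refine ⟨?_, ?_, ?_⟩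
  · intro E
    refine ⟨{ V := fun x => Dual ℚ (E.V x)
              acg := fun x => inferInstance
              mod := fun x => inferInstance
              fin := fun x => inferInstance
              map := fun x y k => (E.map y x k).dualMap }, fun x => evalEquiv ℚ (E.V x), ?_⟩
    intro x y k e f
    rfl
  · intro F
    refine ⟨{ V := fun x => Dual ℚ (F.V x)
              acg := fun x => inferInstance
              mod := fun x => inferInstance
              fin := fun x => inferInstance
              map := fun x y k => (F.map y x k).dualMap }, fun x => LinearEquiv.refl ℚ _, ?_⟩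
    intro x y k e f
    rfl
  · intro E F ⟨φ, hφ⟩
    refine ⟨?_, ?_⟩
    · funext x
      show (finrank ℚ (F.V x) : ℤ) = (finrank ℚ (E.V x) : ℤ)
      rw [LinearEquiv.finrank_eq (φ x), Subspace.dual_finrank_eq]
    · intro E' F' ⟨φ', hφ'⟩
      let e0 : H0 E E' ≃ₗ[ℚ] H0 F' F := LinearEquiv.piCongrRight (fun x => S (φ x) (φ' x))
      let e1 : H1 E E' ≃ₗ[ℚ] H1 F' F :=
        { toFun := fun ζ a b k => S (φ b) (φ' a) (ζ b a k)
          invFun := fun ξ a b k => (S (φ a) (φ' b)).symm (ξ b a k)
          map_add' := fun ζ ξ => by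
            funext a b k
            exact map_add (S (φ b) (φ' a)) _ _
          map_smul' := fun c ζ => by
            funext a b k
            exact map_smul (S (φ b) (φ' a)) _ _
          left_inv := fun ζ => by
            funext a b k
            exact LinearEquiv.symm_apply_apply _ _
          right_inv := fun ξ => by
            funext a b k
            exact LinearEquiv.apply_symm_apply _ _ }
      have key : ∀ g : H0 E E', dl F' F (e0 g) = - e1 (dl E E' g) := by
        intro g
        funext a b k
        apply LinearMap.ext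
        intro f
        apply (psi (φ b)).injective
        apply LinearMap.ext
        intro e
        have r0 : ∀ x, (e0 g) x = S (φ x) (φ' x) (g x) := fun x => rfl
        have r1 : (e1 (dl E E' g)) a b k = S (φ b) (φ' a) (dl E E' g b a k) := rfl
        have l1 : dl F' F (e0 g) a b k f =
            (e0 g) b (F'.map a b k f) - F.map a b k ((e0 g) a f) := rfl
        have l2 : dl E E' g b a k e = g a (E.map b a k e) - E'.map b a k (g b e) := rfl
        have l3 : (- e1 (dl E E' g)) a b k f = - ((e1 (dl E E' g)) a b k f) := rfl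
        rw [l3, map_neg, LinearMap.neg_apply, psi_apply, psi_apply, l1, map_sub, r0, r0, r1, S_rel,
          S_rel, l2, map_sub, LinearMap.sub_apply]
        have m1 := hφ b a k e (S (φ a) (φ' a) (g a) f)
        have m2 := hφ' b a k (g b e) f
        rw [← m1, ← m2, S_rel]
        ring
      exact absd (dl E E') (dl F' F) e0 e1 key

end Pool.Agent.Lib.MP_20db89_co.AK
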