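import Mathlib
import Pool.Agent.Lib.MP_20db89_co.AK.Spec

set_option autoImplicit false

namespace Pool.Agent.Lib.MP_20db89_co.AK

namespace FRSM

open Polynomial

/-- structure constants -/
def Nf (n i j k : ℤ) : ℤ :=
  if i - j ≤ k ∧ j - i ≤ k ∧ k ≤ i + j ∧ i + j + k ≤ 2 * (n - 1) ∧ (i + j + k) % 2 = 0
  then 1 else 0

theorem Nf_nonneg (n i j k : ℤ) : 0 ≤ Nf n i j k := by
  unfold Nf
  split_ifs <;> norm_num

theorem Nf_rec {n i j k : ℤ} (hi : 0 ≤ i) (hi' : i < n) (_hj : 0 ≤ j) (hj' : j < n)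
    (hk : 0 ≤ k) (hk' : k < n) :
    Nf n i j (k - 1) + Nf n i j (k + 1) = Nf n (i + 1) j k + Nf n (i - 1) j k := by
  unfold Nf
  split_ifs <;> omega

/-- extension by zero -/
def ext {n : ℕ} (v : Fin n → ℤ) (k : ℤ) : ℤ :=
  if h : 0 ≤ k ∧ k < n then v ⟨k.toNat, by omega⟩ else 0

theorem ext_add {n : ℕ} (v w : Fin n → ℤ) (k : ℤ) : ext (v + w) k = ext v k + ext w k := by
  unfold ext
  split_ifs <;> simp

theorem ext_smul {n : ℕ} (c : ℤ) (v : Fin n → ℤ) (k : ℤ) : ext (c • v) k = c * ext v k := by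
  unfold ext
  split_ifs <;> simp

/-- the adjacency operator of the path -/
def T (n : ℕ) : Module.End ℤ (Fin n → ℤ) where
  toFun v := fun i => ext v ((i : ℤ) - 1) + ext v ((i : ℤ) + 1)
  map_add' v w := by
    funext i
    simp only [ext_add, Pi.add_apply]
    ring
  map_smul' c v := by
    funext i
    simp only [ext_smul, Pi.smul_apply, smul_eq_mul, RingHom.id_apply]
    ring

/-- the columns of the fusion matrices -/
def w (n : ℕ) (i j : ℤ) : Fin n → ℤ := fun k => Nf n i j (k : ℤ)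

theorem ext_w {n : ℕ} {i j k : ℤ} (_hi : 0 ≤ i) (_hi' : i < n) (_hj : 0 ≤ j) (_hj' : j < n)
    (hk : -1 ≤ k) (hk' : k ≤ n) : ext (w n i j) k = Nf n i j k := by
  unfold ext w
  by_cases h : 0 ≤ k ∧ k < n
  · rw [dif_pos h]
    have : ((⟨k.toNat, by omega⟩ : Fin n) : ℤ) = k := by
      simp only
      omega
    rw [this]
  · rw [dif_neg h]
    unfold Nf
    split_ifs <;> omega

theorem T_w {n : ℕ} {i j : ℤ} (hi : 0 ≤ i) (hi' : i < n) (hj : 0 ≤ j) (hj' : j < n) :
    T n (w n i j) = w n (i + 1) j + w n (i - 1) j := by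
  funext k
  have hk := k.2
  show ext (w n i j) ((k : ℤ) - 1) + ext (w n i j) ((k : ℤ) + 1) = _
  rw [ext_w hi hi' hj hj' (by omega) (by omega), ext_w hi hi' hj hj' (by omega) (by omega),
    Nf_rec hi hi' hj hj' (by omega) (by omega)]
  rfl

theorem ch_two {A : Type} [CommRing A] (x : A) (n : ℕ) :
    ch x (n + 2) = x * ch x (n + 1) - ch x n := rfl

theorem ch_w {n : ℕ} {j : ℤ} (hj : 0 ≤ j) (hj' : j < n) (i : ℕ) (hi : i ≤ n) :
    aeval (T n) (ch (X : ℤ[X]) i) (w n 0 j) = w n i j := by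
  induction i using Nat.twoStepInduction with
  | zero =>
    show aeval (T n) (1 : ℤ[X]) (w n 0 j) = w n ((0 : ℕ) : ℤ) j
    rw [map_one]
    rfl
  | one =>
    show aeval (T n) (X : ℤ[X]) (w n 0 j) = w n ((1 : ℕ) : ℤ) j
    rw [aeval_X, T_w le_rfl (by omega) hj hj']
    have h : w n (0 - 1) j = 0 := by
      funext k
      show Nf n (0 - 1) j k = 0
      unfold Nf
      split_ifs <;> omega
    rw [h, add_zero]
    rfl
  | more i h1 h2 =>
    rw [ch_two, map_sub, map_mul, aeval_X, LinearMap.sub_apply, Module.End.mul_apply,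
      h1 (by omega), h2 (by omega), T_w (by omega) (by omega) hj hj']
    have e1 : (((i + 1 : ℕ) : ℤ) + 1) = ((i + 2 : ℕ) : ℤ) := by push_cast; ring
    have e2 : (((i + 1 : ℕ) : ℤ) - 1) = ((i : ℕ) : ℤ) := by push_cast; ring
    rw [e1, e2]
    abel

theorem w_single {n : ℕ} (j : Fin n) : w n (j : ℤ) 0 = Pi.single j 1 := by
  funext k
  have hk := k.2
  have hj := j.2
  show Nf n j 0 k = _
  by_cases h : k = j
  · subst h
    rw [Pi.single_eq_same]
    unfold Nf
    rw [if_pos]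
    omega
  · rw [Pi.single_eq_of_ne h]
    have : (k : ℕ) ≠ j := fun e => h (Fin.ext e)
    unfold Nf
    rw [if_neg]
    omega

theorem w_comm {n : ℕ} (i j : ℤ) : w n i j = w n j i := by
  funext k
  show Nf n i j k = Nf n j i k
  unfold Nf
  by_cases h : i - j ≤ k ∧ j - i ≤ k ∧ (k : ℤ) ≤ i + j ∧ i + j + k ≤ 2 * (n - 1) ∧
      (i + j + k) % 2 = 0
  · rw [if_pos h, if_pos]
    omega
  · rw [if_neg h, if_neg]
    omega

/-- a polynomial in `T` which kills the first vector is zero -/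
theorem eq_zero {n : ℕ} (hn : 1 ≤ n) (q : ℤ[X]) (h : aeval (T n) q (w n 0 0) = 0) :
    aeval (T n) q = 0 := by
  apply (Pi.basisFun ℤ (Fin n)).ext
  intro j
  rw [Pi.basisFun_apply, ← w_single, LinearMap.zero_apply]
  have h1 := ch_w (n := n) (j := 0) le_rfl (by omega) (j : ℕ) (by omega)
  rw [← h1, ← Module.End.mul_apply, ← map_mul, mul_comm, map_mul, Module.End.mul_apply, h,
    map_zero]

/-- the ideal -/
noncomputable def J (n : ℕ) : Ideal ℤ[X] := RingHom.ker (aeval (T n) : ℤ[X] →ₐ[ℤ] _)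

theorem mem_J {n : ℕ} {q : ℤ[X]} : q ∈ J n ↔ aeval (T n) q = 0 := RingHom.mem_ker

theorem ch_map {A C : Type} [CommRing A] [CommRing C] (f : A →+* C) (x : A) (j : ℕ) :
    f (ch x j) = ch (f x) j := by
  induction j using Nat.twoStepInduction with
  | zero => exact map_one f
  | one => rfl
  | more i h1 h2 => rw [ch_two, ch_two, map_sub, map_mul, h1, h2]

/-- the map onto the ring -/
noncomputable def psi (n : ℕ) : (Fin n → ℤ) →ₗ[ℤ] (ℤ[X] ⧸ J n) :=
  Fintype.linearCombination ℤ (fun j : Fin n => ch (Ideal.Quotient.mk (J n) X) j)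

theorem psi_apply {n : ℕ} (v : Fin n → ℤ) :
    psi n v = Ideal.Quotient.mk (J n) (∑ j : Fin n, C (v j) * ch X j) := by
  unfold psi
  rw [Fintype.linearCombination_apply, map_sum]
  refine Finset.sum_congr rfl fun j _ => ?_
  rw [map_mul, ← ch_map, zsmul_eq_mul]
  congr 1

theorem sum_apply {n : ℕ} (hn : 1 ≤ n) (v : Fin n → ℤ) :
    aeval (T n) (∑ j : Fin n, C (v j) * ch (X : ℤ[X]) j) (w n 0 0) = v := by
  rw [map_sum, LinearMap.sum_apply]
  have : ∀ j : Fin n, aeval (T n) (C (v j) * ch (X : ℤ[X]) j) (w n 0 0) =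
      v j • (Pi.single j 1 : Fin n → ℤ) := by
    intro j
    rw [map_mul, aeval_C, Module.End.mul_apply,
      ch_w (n := n) (j := 0) le_rfl (by omega) (j : ℕ) (by omega)]
    rw [show ((j : ℕ) : ℤ) = (j : ℤ) from rfl, w_single]
    rfl
  rw [Finset.sum_congr rfl fun j _ => this j]
  funext k
  rw [Finset.sum_apply]
  simp [Pi.single_apply]

theorem psi_bij {n : ℕ} (hn : 1 ≤ n) : Function.Bijective (psi n) := by
  constructor
  · rw [← LinearMap.ker_eq_bot, LinearMap.ker_eq_bot']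
    intro v hv
    rw [psi_apply, Ideal.Quotient.eq_zero_iff_mem, mem_J] at hv
    have := sum_apply hn v
    rw [hv] at this
    exact this.symm
  · intro a
    obtain ⟨p, rfl⟩ := Ideal.Quotient.mk_surjective a
    refine ⟨aeval (T n) p (w n 0 0), ?_⟩
    rw [psi_apply, Ideal.Quotient.mk_eq_mk_iff_sub_mem, mem_J]
    apply eq_zero hn
    rw [map_sub, LinearMap.sub_apply, sum_apply hn, sub_self]

/-- the basis -/
noncomputable def bs {n : ℕ} (hn : 1 ≤ n) : Module.Basis (Fin n) ℤ (ℤ[X] ⧸ J n) :=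
  Module.Basis.ofEquivFun (LinearEquiv.ofBijective (psi n) (psi_bij hn)).symm

theorem bs_repr {n : ℕ} (hn : 1 ≤ n) (p : ℤ[X]) (k : Fin n) :
    (bs hn).repr (Ideal.Quotient.mk (J n) p) k = aeval (T n) p (w n 0 0) k := by
  have h : Ideal.Quotient.mk (J n) p =
      (LinearEquiv.ofBijective (psi n) (psi_bij hn)) (aeval (T n) p (w n 0 0)) := by
    rw [LinearEquiv.ofBijective_apply, psi_apply, Ideal.Quotient.mk_eq_mk_iff_sub_mem, mem_J]
    apply eq_zero hn
    rw [map_sub, LinearMap.sub_apply, sum_apply hn, sub_self]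
  have h2 : (bs hn).equivFun (Ideal.Quotient.mk (J n) p) = aeval (T n) p (w n 0 0) := by
    unfold bs
    rw [Module.Basis.equivFun_ofEquivFun, h, LinearEquiv.symm_apply_apply]
  have h3 := congrFun h2 k
  rw [Module.Basis.equivFun_apply] at h3
  exact h3

theorem bs_apply {n : ℕ} (hn : 1 ≤ n) (j : Fin n) :
    bs hn j = Ideal.Quotient.mk (J n) (ch X j) := by
  apply (bs hn).repr.injective
  ext k
  rw [bs_repr, (bs hn).repr_self, ch_w (n := n) (j := 0) le_rfl (by omega) (j : ℕ) (by omega),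
    show ((j : ℕ) : ℤ) = (j : ℤ) from rfl, w_single, Finsupp.single_apply, Pi.single_apply]
  simp only [eq_comm]

theorem mul_repr {n : ℕ} (hn : 1 ≤ n) (u v k : Fin n) :
    (bs hn).repr (bs hn u * bs hn v) k = Nf n u v k := by
  rw [bs_apply, bs_apply, ← map_mul, bs_repr, map_mul, Module.End.mul_apply,
    ch_w (n := n) (j := 0) le_rfl (by omega) (v : ℕ) (by omega), w_comm,
    ch_w (n := n) (j := ((v : ℕ) : ℤ)) (by omega) (by omega) (u : ℕ) (by omega)]
  rfl

/-- the fusion ring -/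
noncomputable def RR {n : ℕ} (hn : 1 ≤ n) : FRing (ℤ[X] ⧸ J n) (Fin n) where
  b := bs hn
  one := ⟨0, hn⟩
  b_one := by
    rw [bs_apply]
    exact map_one _
  nonneg u v k := by
    rw [mul_repr]
    exact Nf_nonneg _ _ _ _
  dual u v := by
    rw [mul_repr]
    have hu := u.2
    have hv := v.2
    show Nf n u v ((0 : ℕ) : ℤ) = _
    by_cases h : u = v
    · subst h
      rw [if_pos rfl]
      unfold Nf
      rw [if_pos]
      omega
    · have : (u : ℕ) ≠ v := fun e => h (Fin.ext e)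
      rw [if_neg h]
      unfold Nf
      rw [if_neg]
      omega

theorem ch_n {n : ℕ} (hn : 1 ≤ n) : ch (Ideal.Quotient.mk (J n) X) n = 0 := by
  rw [← ch_map, Ideal.Quotient.eq_zero_iff_mem, mem_J]
  apply eq_zero hn
  rw [ch_w (n := n) (j := 0) le_rfl (by omega) n le_rfl]
  funext k
  have hk := k.2
  show Nf n n 0 k = 0
  unfold Nf
  rw [if_neg]
  omega

end FRSM

theorem specFRS : SpecFRS := by
  intro m hm
  obtain ⟨n, rfl⟩ : ∃ n, m = n + 1 := ⟨m - 1, by omega⟩
  have hn : 1 ≤ n := by omega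
  refine ⟨_, Fin n, inferInstance, inferInstance, inferInstance, FRSM.RR hn,
    Ideal.Quotient.mk (FRSM.J n) Polynomial.X, ?_, ?_⟩
  · exact FRSM.ch_n hn
  · intro j hj
    by_cases h : j < n
    · intro k
      have e : ch (Ideal.Quotient.mk (FRSM.J n) Polynomial.X) j = FRSM.bs hn ⟨j, h⟩ := by
        rw [FRSM.bs_apply, FRSM.ch_map]
      rw [e]
      show 0 ≤ (FRSM.bs hn).repr (FRSM.bs hn ⟨j, h⟩) k
      rw [Module.Basis.repr_self, Finsupp.single_apply]
      split_ifs <;> norm_num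
    · have : j = n := by omega
      subst this
      rw [FRSM.ch_n hn]
      intro k
      simp

end Pool.Agent.Lib.MP_20db89_co.AK
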