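import Mathlib
import Pool.Agent.Lib.MP_20db89_co.AK.Spec
import Pool.Agent.Lib.MP_20db89_co.AK.FRS

section
set_option autoImplicit false

/-!
The strong exchange property for Coxeter systems, through the signed permutation
action of the group on `W × ZMod 2`.
-/

namespace Pool.Agent.Lib.MP_20db89_co

open CoxeterSystem

section

variable {B : Type*} {W : Type*} [Group W] {M : CoxeterMatrix B} (cs : CoxeterSystem M W)

open Classical in
/-- indicator of a proposition with values in `ZMod 2` -/
noncomputable def ind (p : Prop) : ZMod 2 := if p then 1 else 0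

lemma ind_true {p : Prop} (h : p) : ind p = 1 := if_pos h
lemma ind_false {p : Prop} (h : ¬ p) : ind p = 0 := if_neg h
lemma ind_congr {p q : Prop} (h : p ↔ q) : ind p = ind q := by
  rw [propext h]

lemma two_mul_zmod2 (a : ZMod 2) : a + a = 0 := by
  exact CharTwo.add_self_eq_zero a

/-- the signed action of a simple reflection -/
noncomputable def phi (i : B) : Equiv.Perm (W × ZMod 2) where
  toFun p := (cs.simple i * p.1 * cs.simple i, p.2 + ind (p.1 = cs.simple i))
  invFun p := (cs.simple i * p.1 * cs.simple i, p.2 + ind (p.1 = cs.simple i))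
  left_inv := by
    rintro ⟨t, e⟩
    have h1 : cs.simple i * (cs.simple i * t * cs.simple i) * cs.simple i = t := by
      simp [mul_assoc]
    have h2 : (cs.simple i * t * cs.simple i = cs.simple i) ↔ t = cs.simple i := by
      constructor
      · intro h
        have := congrArg (fun z => cs.simple i * z * cs.simple i) h
        simpa [mul_assoc] using this
      · rintro rfl
        simp [mul_assoc]
    ext
    · exact h1
    · simp only [ind_congr h2]
      rw [add_assoc, two_mul_zmod2, add_zero]
  right_inv := by
    rintro ⟨t, e⟩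
    have h1 : cs.simple i * (cs.simple i * t * cs.simple i) * cs.simple i = t := by
      simp [mul_assoc]
    have h2 : (cs.simple i * t * cs.simple i = cs.simple i) ↔ t = cs.simple i := by
      constructor
      · intro h
        have := congrArg (fun z => cs.simple i * z * cs.simple i) h
        simpa [mul_assoc] using this
      · rintro rfl
        simp [mul_assoc]
    ext
    · exact h1
    · simp only [ind_congr h2]
      rw [add_assoc, two_mul_zmod2, add_zero]

lemma phi_apply (i : B) (t : W) (e : ZMod 2) :
    phi cs i (t, e) = (cs.simple i * t * cs.simple i, e + ind (t = cs.simple i)) := rfl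

lemma phi_pow (i j : B) (n : ℕ) (t : W) (e : ZMod 2) :
    ((phi cs i * phi cs j) ^ n) (t, e) =
      ((cs.simple i * cs.simple j) ^ n * t * ((cs.simple i * cs.simple j) ^ n)⁻¹,
        e + ∑ p ∈ Finset.range (2 * n), ind (t = cs.simple j * (cs.simple i * cs.simple j) ^ p)) := by
  induction n generalizing t e with
  | zero => simp
  | succ n ih =>
    rw [pow_succ, Equiv.Perm.mul_apply, Equiv.Perm.mul_apply, phi_apply, phi_apply, ih]
    set a := cs.simple i with ha
    set b := cs.simple j with hb
    have haa : a * a = 1 := cs.simple_mul_simple_self i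
    have hbb : b * b = 1 := cs.simple_mul_simple_self j
    have hai : a⁻¹ = a := cs.inv_simple i
    have hbi : b⁻¹ = b := cs.inv_simple j
    have hconj : ∀ p : ℕ, (a * b)⁻¹ * (b * (a * b) ^ p) * (a * b) = b * (a * b) ^ (p + 2) := by
      intro p
      have h1 : (a * b)⁻¹ * b = b * (a * b) := by
        rw [mul_inv_rev, hai, hbi]
        group
      rw [← mul_assoc, ← mul_assoc, mul_assoc _ a b, h1, pow_succ, pow_succ]
      have h2 : (a * b) * (a * b) ^ p = (a * b) ^ p * (a * b) := by
        rw [← pow_succ, ← pow_succ']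
      calc b * (a * b) * (a * b) ^ p * (a * b) = b * ((a * b) * (a * b) ^ p) * (a * b) := by
            simp only [mul_assoc]
        _ = b * ((a * b) ^ p * (a * b)) * (a * b) := by rw [h2]
        _ = _ := by simp only [mul_assoc]
    ext
    · show (a * b) ^ n * (a * (b * t * b) * a) * ((a * b) ^ n)⁻¹ = (a * b) ^ (n + 1) * t * ((a * b) ^ (n + 1))⁻¹
      rw [pow_succ, mul_inv_rev, mul_inv_rev, hai, hbi]
      simp only [mul_assoc]
    · show e + ind (t = b) + ind (b * t * b = a) +
        ∑ p ∈ Finset.range (2 * n), ind (a * (b * t * b) * a = b * (a * b) ^ p) =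
        e + ∑ p ∈ Finset.range (2 * (n + 1)), ind (t = b * (a * b) ^ p)
      have hr : 2 * (n + 1) = 2 * n + 1 + 1 := by ring
      rw [hr, Finset.sum_range_succ', Finset.sum_range_succ']
      have e0 : ind (t = b * (a * b) ^ 0) = ind (t = b) := by simp
      have e1 : ind (t = b * (a * b) ^ (0 + 1)) = ind (b * t * b = a) := by
        apply ind_congr
        constructor
        · intro h
          rw [h]
          simp only [zero_add, pow_one]
          calc b * (b * (a * b)) * b = (b * b) * a * (b * b) := by simp only [mul_assoc]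
            _ = a := by rw [hbb]; simp
        · intro h
          have := congrArg (fun z => b * z * b) h
          calc t = (b * b) * t * (b * b) := by rw [hbb]; simp
            _ = b * (b * t * b) * b := by simp only [mul_assoc]
            _ = b * a * b := by rw [h]
            _ = _ := by simp [mul_assoc]
      have e2 : ∀ p, ind (a * (b * t * b) * a = b * (a * b) ^ p) = ind (t = b * (a * b) ^ (p + 1 + 1)) := by
        intro p
        apply ind_congr
        rw [show p + 1 + 1 = p + 2 from rfl, ← hconj p]
        constructor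
        · intro h
          rw [← h, mul_inv_rev, hai, hbi]
          calc t = (b * (a * a) * b) * t * (b * (a * a) * b) := by rw [haa, mul_one, hbb]; simp
            _ = _ := by simp only [mul_assoc]
        · intro h
          rw [h, mul_inv_rev, hai, hbi]
          calc a * (b * (b * a * (b * (a * b) ^ p) * (a * b)) * b) * a
              = a * ((b * b) * a * (b * (a * b) ^ p) * a * (b * b)) * a := by simp only [mul_assoc]
            _ = (a * a) * (b * (a * b) ^ p) * (a * a) := by rw [hbb]; simp [mul_assoc]
            _ = _ := by rw [haa]; simp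
      simp only [e2, e0, e1]
      ring

lemma phi_liftable : M.IsLiftable (phi cs) := by
  intro i j
  apply Equiv.ext
  rintro ⟨t, e⟩
  rw [phi_pow, cs.simple_mul_simple_pow i j]
  have h : ∑ p ∈ Finset.range (2 * M i j), ind (t = cs.simple j * (cs.simple i * cs.simple j) ^ p) = 0 := by
    rw [two_mul, Finset.sum_range_add]
    have : ∀ p, ind (t = cs.simple j * (cs.simple i * cs.simple j) ^ (M i j + p)) =
        ind (t = cs.simple j * (cs.simple i * cs.simple j) ^ p) := by
      intro p
      rw [pow_add, cs.simple_mul_simple_pow i j, one_mul]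
    simp only [this]
    exact two_mul_zmod2 _
  rw [h]
  simp

/-- the signed permutation representation -/
noncomputable def Phi : W →* Equiv.Perm (W × ZMod 2) := cs.lift ⟨phi cs, phi_liftable cs⟩

lemma Phi_simple (i : B) : Phi cs (cs.simple i) = phi cs i := by
  simp [Phi, cs.lift_apply_simple (phi_liftable cs)]

/-- the inversion parity -/
noncomputable def par (w t : W) : ZMod 2 := (Phi cs w (t, 0)).2

lemma Phi_apply (w t : W) (e : ZMod 2) :
    Phi cs w (t, e) = (w * t * w⁻¹, e + par cs w t) := by
  have key : ∀ w : W, ∀ t : W, ∃ a : ZMod 2, ∀ e, Phi cs w (t, e) = (w * t * w⁻¹, e + a) := by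
    intro w
    induction w using cs.simple_induction_left with
    | one =>
      intro t
      exact ⟨0, fun e => by simp⟩
    | mul_simple_left w i ih =>
      intro t
      obtain ⟨a, ha⟩ := ih t
      refine ⟨a + ind (w * t * w⁻¹ = cs.simple i), fun e => ?_⟩
      rw [map_mul, Equiv.Perm.mul_apply, ha, Phi_simple, phi_apply]
      ext
      · simp [mul_assoc]
      · simp [add_assoc]
  obtain ⟨a, ha⟩ := key w t
  have : par cs w t = a := by simp [par, ha]
  rw [this, ha]

lemma par_one (t : W) : par cs 1 t = 0 := by simp [par]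

lemma par_mul (a b t : W) : par cs (a * b) t = par cs b t + par cs a (b * t * b⁻¹) := by
  have h1 := Phi_apply cs (a * b) t 0
  rw [map_mul, Equiv.Perm.mul_apply, Phi_apply, Phi_apply] at h1
  have := congrArg Prod.snd h1
  simpa using this.symm

lemma par_simple (i : B) (t : W) : par cs (cs.simple i) t = ind (t = cs.simple i) := by
  simp [par, Phi_simple, phi_apply]

lemma par_refl {t : W} (ht : cs.IsReflection t) : par cs t t = 1 := by
  obtain ⟨v, i, rfl⟩ := ht
  have h0 : par cs (v * v⁻¹) (v * cs.simple i * v⁻¹) = 0 := by simp [par_one]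
  rw [par_mul] at h0
  have e1 : v⁻¹ * (v * cs.simple i * v⁻¹) * v⁻¹⁻¹ = cs.simple i := by group
  rw [e1] at h0
  rw [par_mul, e1, par_mul, par_simple, ind_true rfl]
  have e2 : cs.simple i * cs.simple i * (cs.simple i)⁻¹ = cs.simple i := by group
  rw [e2]
  calc par cs v⁻¹ (v * cs.simple i * v⁻¹) + (1 + par cs v (cs.simple i))
      = (par cs v⁻¹ (v * cs.simple i * v⁻¹) + par cs v (cs.simple i)) + 1 := by ring
    _ = 1 := by rw [h0, zero_add]

lemma par_word (ω : List B) (t : W) (h : t ∉ cs.rightInvSeq ω) : par cs (cs.wordProd ω) t = 0 := by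
  induction ω with
  | nil => simp [par_one]
  | cons i ω ih =>
    rw [CoxeterSystem.rightInvSeq, List.mem_cons, not_or] at h
    rw [cs.wordProd_cons, par_mul, ih h.2, zero_add, par_simple]
    apply ind_false
    intro h2
    apply h.1
    rw [← h2]
    group

/-- strong exchange, right version -/
lemma strong_exchange_right (ω : List B) {t : W} (ht : cs.IsReflection t)
    (h : cs.length (cs.wordProd ω * t) < cs.length (cs.wordProd ω)) : t ∈ cs.rightInvSeq ω := by
  by_contra hn
  have h0 : par cs (cs.wordProd ω) t = 0 := par_word cs ω t hn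
  have h1 : par cs (cs.wordProd ω * t) t = 1 := by
    rw [par_mul, par_refl cs ht]
    have : t * t * t⁻¹ = t := by group
    rw [this, h0, add_zero]
  obtain ⟨ω', hred, hω'⟩ := cs.exists_isReduced (cs.wordProd ω * t)
  have h2 : t ∈ cs.rightInvSeq ω' := by
    by_contra hn'
    have := par_word cs ω' t hn'
    rw [← hω', h1] at this
    exact one_ne_zero this
  have h3 := (cs.isRightInversion_of_mem_rightInvSeq hred h2).2
  rw [← hω', mul_assoc, ht.mul_self, mul_one] at h3
  omega

/-- strong exchange, left version -/
lemma strong_exchange_left (ω : List B) {t : W} (ht : cs.IsReflection t)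
    (h : cs.length (t * cs.wordProd ω) < cs.length (cs.wordProd ω)) : t ∈ cs.leftInvSeq ω := by
  have h' : cs.length (cs.wordProd ω.reverse * t) < cs.length (cs.wordProd ω.reverse) := by
    rw [cs.wordProd_reverse]
    have e : (cs.wordProd ω)⁻¹ * t = (t * cs.wordProd ω)⁻¹ := by rw [mul_inv_rev, ht.inv]
    rw [e, cs.length_inv, cs.length_inv]
    exact h
  have := strong_exchange_right cs ω.reverse ht h'
  rw [cs.rightInvSeq_reverse] at this
  simpa using this

/-- strong exchange, deleting a letter on the left -/
lemma exchange_left (ω : List B) {t : W} (ht : cs.IsReflection t)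
    (h : cs.length (t * cs.wordProd ω) < cs.length (cs.wordProd ω)) :
    ∃ q, ∃ hq : q < ω.length, t = cs.wordProd (ω.take q) * cs.simple ω[q] * (cs.wordProd (ω.take q))⁻¹ ∧
      t * cs.wordProd ω = cs.wordProd (ω.eraseIdx q) := by
  have h1 := strong_exchange_left cs ω ht h
  obtain ⟨q, hq, hqt⟩ := List.mem_iff_getElem.1 h1
  have hq' : q < ω.length := by simpa using hq
  refine ⟨q, hq', ?_, ?_⟩
  · rw [← hqt, cs.getElem_leftInvSeq ω q hq']
  · have := cs.getD_leftInvSeq_mul_wordProd ω q
    rw [← this, ← hqt, List.getD_eq_getElem _ _ hq]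

lemma exchange_right (ω : List B) {t : W} (ht : cs.IsReflection t)
    (h : cs.length (cs.wordProd ω * t) < cs.length (cs.wordProd ω)) :
    ∃ q, q < ω.length ∧ cs.wordProd ω * t = cs.wordProd (ω.eraseIdx q) := by
  have h1 := strong_exchange_right cs ω ht h
  obtain ⟨q, hq, hqt⟩ := List.mem_iff_getElem.1 h1
  have hq' : q < ω.length := by simpa using hq
  refine ⟨q, hq', ?_⟩
  have := cs.wordProd_mul_getD_rightInvSeq ω q
  rw [← this, ← hqt, List.getD_eq_getElem _ _ hq]

end

end Pool.Agent.Lib.MP_20db89_co
end

section
set_option autoImplicit false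

/-!
Words with distinct letters in a Coxeter system, and the length of the reflections
obtained by conjugating a simple reflection by such a word.
-/

namespace Pool.Agent.Lib.MP_20db89_co

open CoxeterSystem

section

variable {B : Type*} {W : Type*} [Group W] {M : CoxeterMatrix B} (cs : CoxeterSystem M W)

lemma exists_reduced_sublist (ω : List B) :
    ∃ ω' : List B, ω'.Sublist ω ∧ cs.IsReduced ω' ∧ cs.wordProd ω' = cs.wordProd ω := by
  induction ω with
  | nil => exact ⟨[], List.Sublist.refl _, by simp [CoxeterSystem.IsReduced], rfl⟩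
  | cons i ω ih =>
    obtain ⟨ω', hs, hr, hp⟩ := ih
    rcases cs.length_simple_mul (cs.wordProd ω') i with h | h
    · refine ⟨i :: ω', hs.cons_cons i, ?_, ?_⟩
      · unfold CoxeterSystem.IsReduced
        rw [cs.wordProd_cons, h, hr.eq, List.length_cons]
      · rw [cs.wordProd_cons, cs.wordProd_cons, hp]
    · obtain ⟨q, hq, -, hdel⟩ := exchange_left cs ω' (cs.isReflection_simple i) (by omega)
      refine ⟨ω'.eraseIdx q, ((List.eraseIdx_sublist ω' q).trans hs).cons i, ?_, ?_⟩
      · unfold CoxeterSystem.IsReduced
        rw [← hdel]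
        have h1 := hr.eq
        have h2 := List.length_eraseIdx_of_lt hq
        omega
      · rw [← hdel, hp, cs.wordProd_cons]

variable (hinj : Function.Injective cs.simple)

include hinj

lemma length_simple_mul_of_notMem {ω : List B} {j : B} (hj : j ∉ ω) :
    cs.length (cs.simple j * cs.wordProd ω) = cs.length (cs.wordProd ω) + 1 := by
  obtain ⟨ω', hs, hr, hp⟩ := exists_reduced_sublist cs ω
  rcases cs.length_simple_mul (cs.wordProd ω) j with h | h
  · exact h
  · exfalso
    rw [← hp] at h
    obtain ⟨q, hq, ht, -⟩ := exchange_left cs ω' (cs.isReflection_simple j) (by omega)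
    have ht' : cs.simple j = cs.wordProd (ω'.take q ++ ω'[q] :: (ω'.take q).reverse) := by
      rw [cs.wordProd_append, cs.wordProd_cons, cs.wordProd_reverse, ht]
      simp only [mul_assoc]
    obtain ⟨β, hβs, hβr, hβp⟩ := exists_reduced_sublist cs (ω'.take q ++ ω'[q] :: (ω'.take q).reverse)
    rw [← ht'] at hβp
    have hlen : β.length = 1 := by rw [← hβr.eq, hβp, cs.length_simple]
    obtain ⟨b, rfl⟩ := List.length_eq_one_iff.1 hlen
    rw [cs.wordProd_singleton] at hβp
    have hb : b = j := hinj hβp
    subst hb
    have : b ∈ ω'.take q ++ ω'[q] :: (ω'.take q).reverse := hβs.subset (by simp)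
    have hb' : b ∈ ω' := by
      rcases List.mem_append.1 this with h1 | h1
      · exact List.mem_of_mem_take h1
      · rcases List.mem_cons.1 h1 with h1 | h1
        · rw [h1]; exact List.getElem_mem hq
        · exact List.mem_of_mem_take (List.mem_reverse.1 h1)
    exact hj (hs.subset hb')

lemma length_mul_simple_of_notMem {ω : List B} {j : B} (hj : j ∉ ω) :
    cs.length (cs.wordProd ω * cs.simple j) = cs.length (cs.wordProd ω) + 1 := by
  have h := length_simple_mul_of_notMem cs hinj (ω := ω.reverse) (j := j) (by simpa using hj)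
  rw [cs.wordProd_reverse, cs.length_inv] at h
  have e : (cs.wordProd ω * cs.simple j)⁻¹ = cs.simple j * (cs.wordProd ω)⁻¹ := by
    rw [mul_inv_rev, cs.inv_simple]
  rw [← cs.length_inv, e, h]

lemma nodup_isReduced {ω : List B} (h : ω.Nodup) : cs.IsReduced ω := by
  induction ω with
  | nil => simp [CoxeterSystem.IsReduced]
  | cons i ω ih =>
    rw [List.nodup_cons] at h
    unfold CoxeterSystem.IsReduced
    rw [cs.wordProd_cons, length_simple_mul_of_notMem cs hinj h.1, (ih h.2).eq, List.length_cons]

lemma length_conj_of_notMem {ω : List B} {j : B} (hj : j ∉ ω)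
    (hne : cs.simple j * cs.wordProd ω ≠ cs.wordProd ω * cs.simple j) :
    cs.length (cs.simple j * cs.wordProd ω * cs.simple j) = cs.length (cs.wordProd ω) + 2 := by
  obtain ⟨ω', hs, hr, hp⟩ := exists_reduced_sublist cs ω
  have hj' : j ∉ ω' := fun h => hj (hs.subset h)
  rw [← hp] at hne ⊢
  have h1 := length_simple_mul_of_notMem cs hinj hj'
  have h2 := length_mul_simple_of_notMem cs hinj hj'
  rcases cs.length_mul_simple (cs.simple j * cs.wordProd ω') j with h | h
  · omega
  · exfalso
    have e : cs.simple j * cs.wordProd ω' = cs.wordProd (j :: ω') := (cs.wordProd_cons j ω').symm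
    rw [e] at h
    obtain ⟨q, hq, hdel⟩ := exchange_right cs (j :: ω') (cs.isReflection_simple j) (by omega)
    rcases q with _ | q
    · apply hne
      rw [e]
      have := congrArg (fun z => z * cs.simple j) hdel
      simpa [mul_assoc] using this
    · rw [List.eraseIdx_cons_succ, cs.wordProd_cons, cs.wordProd_cons, mul_assoc] at hdel
      have h3 := mul_left_cancel hdel
      have hq' : q < ω'.length := by simpa using hq
      have h4 := cs.length_wordProd_le (ω'.eraseIdx q)
      have h5 := List.length_eraseIdx_of_lt hq'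
      rw [← h3] at h4
      rw [hr.eq] at h2
      omega

lemma commute_of_reduced {ω : List B} (hr : cs.IsReduced ω) {j : B} (hj : j ∉ ω)
    (hc : cs.simple j * cs.wordProd ω = cs.wordProd ω * cs.simple j) :
    ∀ y ∈ ω, cs.simple j * cs.simple y = cs.simple y * cs.simple j := by
  induction ω with
  | nil => intro y hy; simp at hy
  | cons y ω ih =>
    rw [List.mem_cons, not_or] at hj
    have hr' : cs.IsReduced ω := by simpa using hr.drop 1
    have hl : cs.length (cs.wordProd (y :: ω)) = ω.length + 1 := by rw [hr.eq, List.length_cons]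
    -- the element `w = s_j x = x s_j`
    have hw : cs.length (cs.wordProd (j :: y :: ω)) = ω.length + 2 := by
      rw [cs.wordProd_cons, length_simple_mul_of_notMem cs hinj (by simp [hj.1, hj.2]), hl]
    have hdesc : cs.length (cs.simple y * cs.wordProd (j :: y :: ω)) < cs.length (cs.wordProd (j :: y :: ω)) := by
      rw [hw, cs.wordProd_cons, hc, cs.wordProd_cons]
      have : cs.simple y * (cs.simple y * cs.wordProd ω * cs.simple j) = cs.wordProd (ω ++ [j]) := by
        rw [cs.wordProd_append, cs.wordProd_singleton]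
        simp [mul_assoc]
      rw [this]
      have := cs.length_wordProd_le (ω ++ [j])
      simp at this
      omega
    obtain ⟨q, hq, -, hdel⟩ := exchange_left cs (j :: y :: ω) (cs.isReflection_simple y) hdesc
    have hsx : cs.simple j * cs.wordProd ω = cs.wordProd ω * cs.simple j := by
      by_contra hne
      have h2 := length_conj_of_notMem cs hinj hj.2 hne
      rcases q with _ | q
      · -- then s_y = s_j
        rw [List.eraseIdx_cons_zero, cs.wordProd_cons j] at hdel
        have : cs.simple y * cs.simple j = 1 := by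
          have h3 : cs.simple y * cs.simple j * cs.wordProd (y :: ω) = 1 * cs.wordProd (y :: ω) := by
            rw [one_mul, mul_assoc, hdel]
          exact mul_right_cancel h3
        have h4 : cs.simple y = cs.simple j := by
          rw [mul_eq_one_iff_eq_inv, cs.inv_simple] at this
          exact this
        exact hj.1 (hinj h4).symm
      · rw [List.eraseIdx_cons_succ, cs.wordProd_cons j, cs.wordProd_cons j, hc, cs.wordProd_cons y] at hdel
        have h3 : cs.wordProd ω * cs.simple j = cs.simple j * cs.wordProd ((y :: ω).eraseIdx q) := by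
          rw [← hdel]
          simp [mul_assoc]
        have h4 : cs.simple j * cs.wordProd ω * cs.simple j = cs.wordProd ((y :: ω).eraseIdx q) := by
          rw [mul_assoc, h3]
          simp
        have h5 := cs.length_wordProd_le ((y :: ω).eraseIdx q)
        have hq' : q < (y :: ω).length := by simpa using hq
        have h6 := List.length_eraseIdx_of_lt hq'
        rw [← h4, h2, hr'.eq] at h5
        rw [List.length_cons] at h6
        omega
    intro z hz
    rcases List.mem_cons.1 hz with rfl | hz
    · rw [cs.wordProd_cons] at hc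
      have : cs.simple j * cs.simple z * cs.wordProd ω = cs.simple z * cs.simple j * cs.wordProd ω := by
        rw [mul_assoc, hc, mul_assoc, mul_assoc, hsx]
      exact mul_right_cancel this
    · exact ih hr' hj.2 hsx z hz

lemma letters_of_reduced {α β : List B} (hr : cs.IsReduced α)
    (h : cs.wordProd α = cs.wordProd β) : ∀ x ∈ α, x ∈ β := by
  induction α generalizing β with
  | nil => intro x hx; simp at hx
  | cons i α ih =>
    have hr' : cs.IsReduced α := by simpa using hr.drop 1
    have hdesc : cs.length (cs.simple i * cs.wordProd β) < cs.length (cs.wordProd β) := by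
      rw [← h, hr.eq, cs.wordProd_cons]
      simp only [simple_mul_simple_cancel_left]
      rw [hr'.eq]; simp
    have hi : i ∈ β := by
      by_contra hi
      have := length_simple_mul_of_notMem cs hinj hi
      omega
    obtain ⟨q, hq, -, hdel⟩ := exchange_left cs β (cs.isReflection_simple i) hdesc
    intro x hx
    rcases List.mem_cons.1 hx with rfl | hx
    · exact hi
    · have h2 : cs.wordProd α = cs.wordProd (β.eraseIdx q) := by
        rw [← hdel, ← h, cs.wordProd_cons]
        simp
      exact List.mem_of_mem_eraseIdx (ih hr' h2 x hx)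

omit hinj in
open Classical in
/-- the palindromic word for the reflection `π ω * s_i * (π ω)⁻¹` -/
noncomputable def pal (i : B) : List B → List B
  | [] => [i]
  | j :: ω => if (∀ y ∈ pal i ω, cs.simple j * cs.simple y = cs.simple y * cs.simple j) then pal i ω
      else j :: (pal i ω ++ [j])

omit hinj in
lemma pal_subset (i : B) (ω : List B) : ∀ y ∈ pal cs i ω, y = i ∨ y ∈ ω := by
  induction ω with
  | nil => intro y hy; simp [pal] at hy; exact Or.inl hy
  | cons j ω ih =>
    intro y hy
    unfold pal at hy
    split_ifs at hy with h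
    · rcases ih y hy with h1 | h1
      · exact Or.inl h1
      · exact Or.inr (List.mem_cons_of_mem _ h1)
    · simp only [List.mem_cons, List.mem_append, List.not_mem_nil, or_false] at hy
      rcases hy with h1 | h1 | h1
      · exact Or.inr (by simp [h1])
      · rcases ih y h1 with h2 | h2
        · exact Or.inl h2
        · exact Or.inr (List.mem_cons_of_mem _ h2)
      · exact Or.inr (by simp [h1])

omit hinj in
/-- the reflection obtained by conjugating `s_i` by the word `ω` -/
def conjRefl (i : B) (ω : List B) : W := cs.wordProd ω * cs.simple i * (cs.wordProd ω)⁻¹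

omit hinj in
lemma conjRefl_cons (i j : B) (ω : List B) :
    conjRefl cs i (j :: ω) = cs.simple j * conjRefl cs i ω * cs.simple j := by
  unfold conjRefl
  rw [cs.wordProd_cons, mul_inv_rev, cs.inv_simple]
  simp only [mul_assoc]

omit hinj in
lemma commute_wordProd {j : B} {ω : List B}
    (h : ∀ y ∈ ω, cs.simple j * cs.simple y = cs.simple y * cs.simple j) :
    cs.simple j * cs.wordProd ω = cs.wordProd ω * cs.simple j := by
  induction ω with
  | nil => simp
  | cons y ω ih =>
    rw [cs.wordProd_cons, ← mul_assoc, h y (by simp), mul_assoc, ih (fun z hz => h z (by simp [hz])),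
      mul_assoc]

lemma pal_spec (i : B) (ω : List B) (hn : (i :: ω).Nodup) :
    cs.wordProd (pal cs i ω) = conjRefl cs i ω ∧ cs.IsReduced (pal cs i ω) := by
  induction ω with
  | nil => 
    constructor
    · simp [pal, conjRefl]
    · simp [pal, CoxeterSystem.IsReduced]
  | cons j ω ih =>
    have hn' : (i :: ω).Nodup := by
      rw [List.nodup_cons, List.nodup_cons] at hn
      rw [List.nodup_cons]
      exact ⟨fun h => hn.1 (List.mem_cons_of_mem _ h), hn.2.2⟩
    obtain ⟨h1, h2⟩ := ih hn'
    rw [conjRefl_cons]
    unfold pal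
    split_ifs with h
    · refine ⟨?_, h2⟩
      have := commute_wordProd cs h
      rw [← h1, this]
      simp
    · have hj : j ∉ pal cs i ω := by
        intro hj
        rw [List.nodup_cons, List.nodup_cons] at hn
        rcases pal_subset cs i ω j hj with h3 | h3
        · exact hn.1 (by simp [h3])
        · exact hn.2.1 h3
      have hne : cs.simple j * cs.wordProd (pal cs i ω) ≠ cs.wordProd (pal cs i ω) * cs.simple j :=
        fun hc => h (commute_of_reduced cs hinj h2 hj hc)
      have hp : cs.wordProd (j :: (pal cs i ω ++ [j])) = cs.simple j * cs.wordProd (pal cs i ω) * cs.simple j := by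
        rw [cs.wordProd_cons, cs.wordProd_append, cs.wordProd_singleton, mul_assoc]
      refine ⟨by rw [hp, h1], ?_⟩
      unfold CoxeterSystem.IsReduced
      rw [hp, length_conj_of_notMem cs hinj hj hne, h2.eq]
      simp

lemma length_conjRefl (i : B) (ω : List B) (hn : (i :: ω).Nodup) :
    cs.length (conjRefl cs i ω) = (pal cs i ω).length := by
  obtain ⟨h1, h2⟩ := pal_spec cs hinj i ω hn
  rw [← h1, h2.eq]

omit hinj in
lemma pal_mono (i : B) {ω₁ ω₂ : List B} (h : ω₁.Sublist ω₂) :
    (∀ y ∈ pal cs i ω₁, y ∈ pal cs i ω₂) ∧ (pal cs i ω₁).length ≤ (pal cs i ω₂).length := by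
  induction h with
  | slnil => exact ⟨fun y hy => hy, le_refl _⟩
  | @cons l₁ l₂ a h ih =>
    have h3 : (∀ y ∈ pal cs i l₂, y ∈ pal cs i (a :: l₂)) ∧
        (pal cs i l₂).length ≤ (pal cs i (a :: l₂)).length := by
      rw [pal]
      split_ifs
      · exact ⟨fun y hy => hy, le_refl _⟩
      · exact ⟨fun y hy => by simp [hy], by simp; omega⟩
    exact ⟨fun y hy => h3.1 y (ih.1 y hy), ih.2.trans h3.2⟩
  | @cons_cons l₁ l₂ a h ih =>
    rw [pal, pal]
    by_cases h2 : ∀ y ∈ pal cs i l₂, cs.simple a * cs.simple y = cs.simple y * cs.simple a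
    · have h1 : ∀ y ∈ pal cs i l₁, cs.simple a * cs.simple y = cs.simple y * cs.simple a :=
        fun y hy => h2 y (ih.1 y hy)
      rw [if_pos h1, if_pos h2]
      exact ih
    · rw [if_neg h2]
      split_ifs with h1
      · exact ⟨fun y hy => by simp [ih.1 y hy], by simp; omega⟩
      · refine ⟨fun y hy => ?_, by simp; omega⟩
        simp only [List.mem_cons, List.mem_append, List.not_mem_nil, or_false] at hy ⊢
        rcases hy with h4 | h4 | h4
        · exact Or.inl h4
        · exact Or.inr (Or.inl (ih.1 y h4))
        · exact Or.inl h4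

/-- deleting letters from the conjugating word does not increase the length -/
lemma length_conjRefl_mono (i : B) {ω₁ ω₂ : List B} (h : ω₁.Sublist ω₂) (hn : (i :: ω₂).Nodup) :
    cs.length (conjRefl cs i ω₁) ≤ cs.length (conjRefl cs i ω₂) := by
  have hn' : (i :: ω₁).Nodup := (h.cons_cons i).nodup hn
  rw [length_conjRefl cs hinj i ω₁ hn', length_conjRefl cs hinj i ω₂ hn]
  exact (pal_mono cs i h).2

end

end Pool.Agent.Lib.MP_20db89_co
end

section
set_option autoImplicit false

/-!
Shared elementary lemmas: bilinearity of `bil`, `eA`, `eul`; lists.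
-/

namespace Pool.Agent.Lib.MP_20db89_co.AK

universe u

section forms

variable {B : Type u} [Fintype B] [DecidableEq B] {A : Type} [CommRing A] (X : B → B → A)
  (ω : List B)

lemma bil_add_left (x y z : B → A) : bil X (x + y) z = bil X x z + bil X y z := by
  simp only [bil, Pi.add_apply]
  rw [sub_add_sub_comm, ← Finset.sum_add_distrib, ← Finset.sum_add_distrib]
  congr 1
  · exact Finset.sum_congr rfl fun i _ => by ring
  · refine Finset.sum_congr rfl fun i _ => ?_
    rw [← Finset.sum_add_distrib]
    exact Finset.sum_congr rfl fun j _ => by split_ifs <;> ring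

lemma bil_smul_left (a : A) (x z : B → A) : bil X (a • x) z = a * bil X x z := by
  simp only [bil, Pi.smul_apply, smul_eq_mul, mul_sub, Finset.mul_sum]
  congr 1
  · exact Finset.sum_congr rfl fun i _ => by ring
  · exact Finset.sum_congr rfl fun i _ => Finset.sum_congr rfl fun j _ => by split_ifs <;> ring

lemma bil_add_right (x y z : B → A) : bil X x (y + z) = bil X x y + bil X x z := by
  simp only [bil, Pi.add_apply]
  rw [sub_add_sub_comm, ← Finset.sum_add_distrib, ← Finset.sum_add_distrib]
  congr 1
  · exact Finset.sum_congr rfl fun i _ => by ring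
  · refine Finset.sum_congr rfl fun i _ => ?_
    rw [← Finset.sum_add_distrib]
    exact Finset.sum_congr rfl fun j _ => by split_ifs <;> ring

lemma bil_smul_right (a : A) (x z : B → A) : bil X x (a • z) = a * bil X x z := by
  simp only [bil, Pi.smul_apply, smul_eq_mul, mul_sub, Finset.mul_sum]
  congr 1
  · exact Finset.sum_congr rfl fun i _ => by ring
  · exact Finset.sum_congr rfl fun i _ => Finset.sum_congr rfl fun j _ => by split_ifs <;> ring

lemma bil_neg_left (x z : B → A) : bil X (-x) z = - bil X x z := by
  have := bil_smul_left X (-1) x z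
  simpa using this

lemma bil_neg_right (x z : B → A) : bil X x (-z) = - bil X x z := by
  have := bil_smul_right X (-1) x z
  simpa using this

lemma bil_sub_left (x y z : B → A) : bil X (x - y) z = bil X x z - bil X y z := by
  rw [sub_eq_add_neg, bil_add_left, bil_neg_left, sub_eq_add_neg]

lemma bil_sub_right (x y z : B → A) : bil X x (y - z) = bil X x y - bil X x z := by
  rw [sub_eq_add_neg, bil_add_right, bil_neg_right, sub_eq_add_neg]

lemma bil_zero_left (z : B → A) : bil X 0 z = 0 := by simp [bil]

lemma bil_zero_right (z : B → A) : bil X z 0 = 0 := by simp [bil]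

lemma bil_comm (h : ∀ s t, X s t = X t s) (x y : B → A) : bil X x y = bil X y x := by
  unfold bil
  congr 1
  · exact Finset.sum_congr rfl fun i _ => by ring
  · rw [Finset.sum_comm]
    refine Finset.sum_congr rfl fun i _ => Finset.sum_congr rfl fun j _ => ?_
    by_cases hij : i = j
    · rw [if_pos hij, if_pos hij.symm]
    · rw [if_neg hij, if_neg (fun h' => hij h'.symm), h]
      ring

lemma bil_al_left (s : B) (x : B → A) :
    bil X (al s) x = 2 * x s - ∑ t, if s = t then 0 else X s t * x t := by
  unfold bil al
  congr 1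
  · rw [Finset.sum_eq_single s]
    · simp
    · intro b _ hb
      simp [Pi.single_eq_of_ne hb]
    · simp
  · rw [Finset.sum_eq_single s]
    · simp
    · intro b _ hb
      exact Finset.sum_eq_zero fun t _ => by simp [Pi.single_eq_of_ne hb]
    · simp

lemma bil_al_same (s : B) : bil X (al s) (al s) = 2 := by
  rw [bil_al_left]
  have : ∑ t, (if s = t then 0 else X s t * (al s : B → A) t) = 0 := by
    refine Finset.sum_eq_zero fun t _ => ?_
    by_cases h : s = t
    · rw [if_pos h]
    · rw [if_neg h, al, Pi.single_eq_of_ne (fun h' => h h'.symm), mul_zero]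
  rw [this]
  simp [al]

lemma bil_al_al {s t : B} (h : s ≠ t) : bil X (al s) (al t) = - X s t := by
  rw [bil_al_left]
  have h1 : (al t : B → A) s = 0 := by rw [al, Pi.single_eq_of_ne h]
  rw [h1, Finset.sum_eq_single t]
  · rw [if_neg h]
    simp [al]
  · intro b _ hb
    by_cases h' : s = b
    · rw [if_pos h']
    · rw [if_neg h', al, Pi.single_eq_of_ne hb, mul_zero]
  · simp

lemma sgm_apply (s : B) (x : B → A) : sgm X s x = x - bil X (al s) x • (al s : B → A) := rfl

lemma eA_add_left (x y z : B → A) : eA X ω (x + y) z = eA X ω x z + eA X ω y z := by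
  simp only [eA, Pi.add_apply]
  rw [sub_add_sub_comm, ← Finset.sum_add_distrib, ← Finset.sum_add_distrib]
  congr 1
  · exact Finset.sum_congr rfl fun i _ => by ring
  · refine Finset.sum_congr rfl fun i _ => ?_
    rw [← Finset.sum_add_distrib]
    exact Finset.sum_congr rfl fun j _ => by split_ifs <;> ring

lemma eA_smul_left (a : A) (x z : B → A) : eA X ω (a • x) z = a * eA X ω x z := by
  simp only [eA, Pi.smul_apply, smul_eq_mul, mul_sub, Finset.mul_sum]
  congr 1
  · exact Finset.sum_congr rfl fun i _ => by ring
  · exact Finset.sum_congr rfl fun i _ => Finset.sum_congr rfl fun j _ => by split_ifs <;> ring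

lemma eA_add_right (x y z : B → A) : eA X ω x (y + z) = eA X ω x y + eA X ω x z := by
  simp only [eA, Pi.add_apply]
  rw [sub_add_sub_comm, ← Finset.sum_add_distrib, ← Finset.sum_add_distrib]
  congr 1
  · exact Finset.sum_congr rfl fun i _ => by ring
  · refine Finset.sum_congr rfl fun i _ => ?_
    rw [← Finset.sum_add_distrib]
    exact Finset.sum_congr rfl fun j _ => by split_ifs <;> ring

lemma eA_smul_right (a : A) (x z : B → A) : eA X ω x (a • z) = a * eA X ω x z := by
  simp only [eA, Pi.smul_apply, smul_eq_mul, mul_sub, Finset.mul_sum]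
  congr 1
  · exact Finset.sum_congr rfl fun i _ => by ring
  · exact Finset.sum_congr rfl fun i _ => Finset.sum_congr rfl fun j _ => by split_ifs <;> ring

lemma eA_neg_left (x z : B → A) : eA X ω (-x) z = - eA X ω x z := by
  have := eA_smul_left X ω (-1) x z
  simpa using this

lemma eA_neg_right (x z : B → A) : eA X ω x (-z) = - eA X ω x z := by
  have := eA_smul_right X ω (-1) x z
  simpa using this

lemma eA_sub_left (x y z : B → A) : eA X ω (x - y) z = eA X ω x z - eA X ω y z := by
  rw [sub_eq_add_neg, eA_add_left, eA_neg_left, sub_eq_add_neg]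

lemma eA_sub_right (x y z : B → A) : eA X ω x (y - z) = eA X ω x y - eA X ω x z := by
  rw [sub_eq_add_neg, eA_add_right, eA_neg_right, sub_eq_add_neg]

lemma eA_zero_left (z : B → A) : eA X ω 0 z = 0 := by simp [eA]

lemma eA_zero_right (z : B → A) : eA X ω z 0 = 0 := by simp [eA]

/-- the symmetric form is the symmetrization of the Euler form -/
lemma bil_eq_eA (h : ∀ s t, X s t = X t s) (hall : ∀ s, s ∈ ω) (x y : B → A) :
    bil X x y = eA X ω x y + eA X ω y x := by
  unfold bil eA
  rw [sub_add_sub_comm, ← Finset.sum_add_distrib]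
  congr 1
  · exact Finset.sum_congr rfl fun i _ => by ring
  · have e1 : ∑ s, ∑ t, (if ω.idxOf s < ω.idxOf t then X s t * y s * x t else 0) =
        ∑ s, ∑ t, (if ω.idxOf t < ω.idxOf s then X t s * y t * x s else 0) :=
      Finset.sum_comm
    rw [e1, ← Finset.sum_add_distrib]
    refine Finset.sum_congr rfl fun i _ => ?_
    rw [← Finset.sum_add_distrib]
    refine Finset.sum_congr rfl fun j _ => ?_
    by_cases hij : i = j
    · subst hij
      simp
    · have hne : ω.idxOf i ≠ ω.idxOf j := fun h' => hij ((List.idxOf_inj (hall i)).1 h')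
      rw [if_neg hij]
      rcases lt_or_gt_of_ne hne with h1 | h1
      · rw [if_pos h1, if_neg (by omega), add_zero]
      · rw [if_neg (by omega), if_pos h1, zero_add, h]
        ring

end forms

section eul

variable {Q : Type u} [Fintype Q] (mu : Q → Q → ℕ)

lemma eul_add_left (x y z : Q → ℤ) : eul mu (x + y) z = eul mu x z + eul mu y z := by
  simp only [eul, Pi.add_apply]
  rw [sub_add_sub_comm, ← Finset.sum_add_distrib, ← Finset.sum_add_distrib]
  congr 1
  · exact Finset.sum_congr rfl fun i _ => by ring
  · refine Finset.sum_congr rfl fun i _ => ?_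
    rw [← Finset.sum_add_distrib]
    exact Finset.sum_congr rfl fun j _ => by ring

lemma eul_add_right (x y z : Q → ℤ) : eul mu x (y + z) = eul mu x y + eul mu x z := by
  simp only [eul, Pi.add_apply]
  rw [sub_add_sub_comm, ← Finset.sum_add_distrib, ← Finset.sum_add_distrib]
  congr 1
  · exact Finset.sum_congr rfl fun i _ => by ring
  · refine Finset.sum_congr rfl fun i _ => ?_
    rw [← Finset.sum_add_distrib]
    exact Finset.sum_congr rfl fun j _ => by ring

lemma eul_smul_left (a : ℤ) (x z : Q → ℤ) : eul mu (a • x) z = a * eul mu x z := by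
  simp only [eul, Pi.smul_apply, smul_eq_mul, mul_sub, Finset.mul_sum]
  congr 1
  · exact Finset.sum_congr rfl fun i _ => by ring
  · exact Finset.sum_congr rfl fun i _ => Finset.sum_congr rfl fun j _ => by ring

lemma eul_smul_right (a : ℤ) (x z : Q → ℤ) : eul mu x (a • z) = a * eul mu x z := by
  simp only [eul, Pi.smul_apply, smul_eq_mul, mul_sub, Finset.mul_sum]
  congr 1
  · exact Finset.sum_congr rfl fun i _ => by ring
  · exact Finset.sum_congr rfl fun i _ => Finset.sum_congr rfl fun j _ => by ring

lemma eul_neg_left (x z : Q → ℤ) : eul mu (-x) z = - eul mu x z := by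
  have := eul_smul_left mu (-1) x z
  simpa using this

lemma eul_neg_right (x z : Q → ℤ) : eul mu x (-z) = - eul mu x z := by
  have := eul_smul_right mu (-1) x z
  simpa using this

lemma eul_sub_left (x y z : Q → ℤ) : eul mu (x - y) z = eul mu x z - eul mu y z := by
  rw [sub_eq_add_neg, eul_add_left, eul_neg_left, sub_eq_add_neg]

lemma eul_sub_right (x y z : Q → ℤ) : eul mu x (y - z) = eul mu x y - eul mu x z := by
  rw [sub_eq_add_neg, eul_add_right, eul_neg_right, sub_eq_add_neg]

lemma eul_zero_left (z : Q → ℤ) : eul mu 0 z = 0 := by simp [eul]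

lemma eul_zero_right (z : Q → ℤ) : eul mu z 0 = 0 := by simp [eul]

end eul

section fac

variable {B W : Type u} [Group W] {M : CoxeterMatrix B} {cs : CoxeterSystem M W}

lemma isReflection_conj' {t : W} (w : W) (ht : cs.IsReflection t) :
    cs.IsReflection (w⁻¹ * t * w) := by
  have := ht.conj w⁻¹
  simpa using this

lemma prod_map_conj (x : W) (P : List W) : (P.map (fun t => x⁻¹ * t * x)).prod = x⁻¹ * P.prod * x := by
  induction P with
  | nil => simp
  | cons a P ih =>
    rw [List.map_cons, List.prod_cons, ih, List.prod_cons]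
    group

/-- replace a segment by another one with the same product and length -/
lemma isFac_replace {c : W} {n : ℕ} {P F K Q : List W} (h : IsFac cs c n (P ++ F ++ Q))
    (hK : ∀ t ∈ K, cs.IsReflection t) (hp : K.prod = F.prod) (hl : K.length = F.length) :
    IsFac cs c n (P ++ K ++ Q) := by
  obtain ⟨h1, h2, h3⟩ := h
  refine ⟨?_, ?_, ?_⟩
  · intro t ht
    rcases List.mem_append.1 ht with ht | ht
    · rcases List.mem_append.1 ht with ht | ht
      · exact h1 t (by simp [ht])
      · exact hK t ht
    · exact h1 t (by simp [ht])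
  · rw [← h2]
    simp only [List.prod_append, hp]
  · rw [← h3]
    simp only [List.length_append, hl]

/-- move the beginning of a factorization to the right of a segment, conjugated -/
lemma isFac_move {c : W} {n : ℕ} {P F Q : List W} (h : IsFac cs c n (P ++ F ++ Q)) :
    IsFac cs c n (F ++ (P.map (fun t => F.prod⁻¹ * t * F.prod) ++ Q)) := by
  obtain ⟨h1, h2, h3⟩ := h
  refine ⟨?_, ?_, ?_⟩
  · intro t ht
    rcases List.mem_append.1 ht with ht | ht
    · exact h1 t (by simp [ht])
    · rcases List.mem_append.1 ht with ht | ht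
      · obtain ⟨s, hs, rfl⟩ := List.mem_map.1 ht
        exact isReflection_conj' _ (h1 s (by simp [hs]))
      · exact h1 t (by simp [ht])
  · rw [← h2]
    simp only [List.prod_append, prod_map_conj]
    group
  · rw [← h3]
    simp only [List.length_append, List.length_map]
    omega

lemma HM.symm {L L' : List W} (h : HM L L') : HM L' L := by
  cases h with
  | left P Q a b =>
    have := HM.right P Q (a * b * a⁻¹) a
    have e : a⁻¹ * (a * b * a⁻¹) * a = b := by group
    rw [e] at this
    exact this
  | right P Q a b =>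
    have := HM.left P Q b (b⁻¹ * a * b)
    have e : b * (b⁻¹ * a * b) * b⁻¹ = a := by group
    rw [e] at this
    exact this

lemma HM.prod_eq {L L' : List W} (h : HM L L') : L'.prod = L.prod := by
  cases h with
  | left P Q a b => simp only [List.prod_append, List.prod_cons]; group
  | right P Q a b => simp only [List.prod_append, List.prod_cons]; group

lemma HM.length_eq {L L' : List W} (h : HM L L') : L'.length = L.length := by
  cases h with
  | left P Q a b => simp
  | right P Q a b => simp

lemma HM.isReflection {L L' : List W} (h : HM L L') (hL : ∀ t ∈ L, cs.IsReflection t) :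
    ∀ t ∈ L', cs.IsReflection t := by
  cases h with
  | left P Q a b =>
    intro t ht
    simp only [List.mem_append, List.mem_cons] at ht
    rcases ht with ht | rfl | rfl | ht
    · exact hL t (by simp [ht])
    · exact (hL b (by simp)).conj a
    · exact hL _ (by simp)
    · exact hL t (by simp [ht])
  | right P Q a b =>
    intro t ht
    simp only [List.mem_append, List.mem_cons] at ht
    rcases ht with ht | rfl | rfl | ht
    · exact hL t (by simp [ht])
    · exact hL _ (by simp)
    · exact isReflection_conj' b (hL a (by simp))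
    · exact hL t (by simp [ht])

lemma mem_reflLE' {k : ℕ} {t : W} :
    t ∈ reflLE cs k ↔ cs.IsReflection t ∧ cs.length t ≤ 2 * k + 1 := by
  unfold reflLE
  rw [Set.mem_ofPred_eq]
  apply and_congr_right
  intro _
  rw [div_le_iff₀ (by norm_num), sub_le_iff_le_add]
  constructor
  · intro h
    have h2 : ((cs.length t : ℕ) : ℚ) ≤ ((2 * k + 1 : ℕ) : ℚ) := by push_cast; linarith
    exact_mod_cast h2
  · intro h
    have h2 : ((cs.length t : ℕ) : ℚ) ≤ ((2 * k + 1 : ℕ) : ℚ) := by exact_mod_cast h
    push_cast at h2
    linarith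

end fac

end Pool.Agent.Lib.MP_20db89_co.AK
end

section
set_option autoImplicit false

/-!
MP_20db89_co, AK, module ALE: values of the `k`-absolute length
-/

namespace Pool.Agent.Lib.MP_20db89_co.AK

universe u

namespace ALEM

variable {B W : Type u} [Group W] {M : CoxeterMatrix B} {cs : CoxeterSystem M W}

/-- add an arrow at the end of a path -/
theorem path_snoc {k m : ℕ} {a b x : W} (h : absPath cs k m a b) (h2 : absArrow cs k b x) :
    absPath cs k (m + 1) a x := by
  induction m generalizing a with
  | zero =>
    cases h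
    exact ⟨x, h2, rfl⟩
  | succ m ih =>
    obtain ⟨y, hy, h3⟩ := h
    exact ⟨y, hy, ih h3⟩

/-- an arrow given by a reflection which increases the length -/
theorem arrow_of {k : ℕ} {a t : W} (ht : t ∈ reflLE cs k)
    (h : cs.length a < cs.length (t * a)) : absArrow cs k a (t * a) := by
  refine ⟨?_, Relation.TransGen.single ⟨t, ht.1, rfl, h⟩⟩
  have e : a * (t * a)⁻¹ = t := by
    rw [mul_inv_rev, ht.1.inv]
    group
  rw [e]
  exact ht

/-- a path is a list of elements of `T_k` -/
theorem path_list {k m : ℕ} {a b : W} (h : absPath cs k m a b) :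
    ∃ L : List W, (∀ t ∈ L, t ∈ reflLE cs k) ∧ L.length = m ∧ L.prod * a = b := by
  induction m generalizing a with
  | zero =>
    cases h
    exact ⟨[], by simp, rfl, by simp⟩
  | succ m ih =>
    obtain ⟨x, ⟨hx, -⟩, h3⟩ := h
    obtain ⟨L, h4, h5, h6⟩ := ih h3
    refine ⟨L ++ [a * x⁻¹], ?_, by simp [h5], ?_⟩
    · intro t ht
      rcases List.mem_append.1 ht with ht | ht
      · exact h4 t ht
      · rw [List.mem_singleton] at ht
        rw [ht]
        exact hx
    · have h7 : (a * x⁻¹)⁻¹ = a * x⁻¹ := hx.1.inv
      have h8 : a * x⁻¹ * a = x := by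
        rw [← h7]
        group
      rw [List.prod_append, List.prod_singleton, mul_assoc, h8, h6]

theorem list_path {k : ℕ} (K : List W) (hK : ∀ t ∈ K, t ∈ reflLE cs k)
    (hinc : ∀ (K₁ K' : List W) (a : W), K = K₁ ++ a :: K' →
      cs.length K'.prod < cs.length (a * K'.prod)) : absPath cs k K.length 1 K.prod := by
  induction K with
  | nil => rfl
  | cons t K ih =>
    have h1 := ih (fun s hs => hK s (by simp [hs])) (fun K₁ K' a h => hinc (t :: K₁) K' a (by
      rw [h]; rfl))
    rw [List.length_cons, List.prod_cons]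
    exact path_snoc h1 (arrow_of (hK t (by simp)) (hinc [] K t rfl))

theorem simple_mem (k : ℕ) (i : B) : cs.simple i ∈ reflLE cs k := by
  rw [mem_reflLE']
  refine ⟨cs.isReflection_simple i, ?_⟩
  rw [cs.length_simple]
  omega

/-- paths exist -/
theorem exists_path (k : ℕ) (w : W) : ∃ m, absPath cs k m 1 w := by
  induction hl : cs.length w using Nat.strong_induction_on generalizing w with
  | _ l ih =>
    by_cases hw : w = 1
    · exact ⟨0, hw.symm⟩
    · obtain ⟨i, hi⟩ := cs.exists_leftDescent_of_ne_one hw
      have hi' : cs.length (cs.simple i * w) < cs.length w := hi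
      obtain ⟨m, hm⟩ := ih (cs.length (cs.simple i * w)) (by omega) (cs.simple i * w) rfl
      have e : cs.simple i * (cs.simple i * w) = w := by
        rw [← mul_assoc, cs.simple_mul_simple_self, one_mul]
      refine ⟨m + 1, ?_⟩
      have := path_snoc hm (arrow_of (simple_mem k i) (by rw [e]; exact hi'))
      rwa [e] at this

theorem absLen_path (k : ℕ) (w : W) : absPath cs k (absLen cs k w) 1 w := by
  have h : {m : ℕ | absPath cs k m 1 w}.Nonempty := exists_path k w
  exact Nat.sInf_mem h

theorem absLen_le {k m : ℕ} {w : W} (h : absPath cs k m 1 w) : absLen cs k w ≤ m :=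
  Nat.sInf_le h

/-- part (1) -/
theorem exists_list (k : ℕ) (w : W) :
    ∃ L : List W, (∀ t ∈ L, t ∈ reflLE cs k) ∧ L.prod = w ∧ L.length = absLen cs k w := by
  obtain ⟨L, h1, h2, h3⟩ := path_list (absLen_path (cs := cs) k w)
  refine ⟨L, h1, ?_, h2⟩
  rwa [mul_one] at h3

end ALEM

theorem specALE (hRED : SpecRED.{u}) : SpecALE.{u} := by
  intro B W _ M cs c n Ex Hm hAx k
  refine ⟨ALEM.exists_list k, ?_⟩
  intro P F Q hF hFk
  apply le_antisymm
  · obtain ⟨K, hK1, hK2, hK3, hK4, hK5, -⟩ := hRED B W M cs c n Ex Hm hAx P F Q hF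
    have hKk : ∀ t ∈ K, t ∈ reflLE cs k := by
      intro t ht
      obtain ⟨g, hg, hle⟩ := hK5 t ht
      have h1 := hFk g hg
      rw [mem_reflLE'] at h1 ⊢
      exact ⟨hK1.1 t (by simp [ht]), hle.trans h1.2⟩
    rw [← hK2, ← hK3]
    apply ALEM.absLen_le
    apply ALEM.list_path K hKk
    intro K₁ K' a hKe
    have h2 : IsFac cs c n ((P ++ K₁) ++ (a :: K') ++ Q) := by
      rw [hKe] at hK1
      simpa using hK1
    have h3 := isFac_move h2
    refine hAx.incr a K' _ h3 ?_
    rw [hKe] at hK4
    exact (List.pairwise_append.1 hK4).2.1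
  · obtain ⟨L, h1, h2, h3⟩ := ALEM.exists_list (cs := cs) k F.prod
    rw [← h3]
    have h4 := hAx.minlen (P ++ L ++ Q) (by
      intro t ht
      simp only [List.mem_append] at ht
      rcases ht with (ht | ht) | ht
      · exact hF.1 t (by simp [ht])
      · exact (h1 t ht).1
      · exact hF.1 t (by simp [ht])) (by
      rw [← hF.2.1]
      simp only [List.prod_append, h2])
    have h5 := hF.2.2
    simp only [List.length_append] at h4 h5
    omega

end Pool.Agent.Lib.MP_20db89_co.AK
end

section
/-!
# Module VSL: elementary facts on the chain of a factorization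
-/
set_option autoImplicit false

namespace Pool.Agent.Lib.MP_20db89_co.AK

universe u

namespace VSLM

variable {B W : Type u} [Group W] {M : CoxeterMatrix B} {cs : CoxeterSystem M W} {c : W} {n : ℕ}
  {Ex Hm : W → W → Prop}

theorem isFac_append {L L' : List W} (hL : IsFac cs c n L) (hL' : IsFac cs c n L') {i j : ℕ}
    (h : (L.drop i).prod = (L'.drop j).prod) :
    (∀ t ∈ L.take i ++ L'.drop j, cs.IsReflection t) ∧ (L.take i ++ L'.drop j).prod = c := by
  refine ⟨?_, ?_⟩
  · intro t ht
    rcases List.mem_append.1 ht with ht | ht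
    · exact hL.1 t (List.mem_of_mem_take ht)
    · exact hL'.1 t (List.mem_of_mem_drop ht)
  · rw [List.prod_append, ← h, List.prod_take_mul_prod_drop, hL.2.1]

theorem le_of_drop (hA : Ax cs c n Ex Hm) {L L' : List W} (hL : IsFac cs c n L)
    (hL' : IsFac cs c n L') {i j : ℕ} (hi : i ≤ n) (hj : j ≤ n)
    (h : (L.drop i).prod = (L'.drop j).prod) : j ≤ i := by
  obtain ⟨h1, h2⟩ := isFac_append hL hL' h
  have h3 := hA.minlen _ h1 h2
  rw [List.length_append, List.length_take, List.length_drop, hL.2.2, hL'.2.2] at h3
  omega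

theorem eq_of_drop (hA : Ax cs c n Ex Hm) {L L' : List W} (hL : IsFac cs c n L)
    (hL' : IsFac cs c n L') {i j : ℕ} (hi : i ≤ n) (hj : j ≤ n)
    (h : (L.drop i).prod = (L'.drop j).prod) : i = j :=
  le_antisymm (le_of_drop hA hL' hL hj hi h.symm) (le_of_drop hA hL hL' hi hj h)

theorem mem_vs {L : List W} {x : W} :
    x ∈ vs L ↔ ∃ i, i ≤ L.length ∧ (L.drop i).prod = x := by
  classical
  unfold vs
  rw [Finset.mem_image]
  constructor
  · rintro ⟨i, hi, h⟩
    rw [Finset.mem_range] at hi
    exact ⟨i, by omega, h⟩
  · rintro ⟨i, hi, h⟩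
    exact ⟨i, by rw [Finset.mem_range]; omega, h⟩

theorem eq_of_drops {L L' : List W} (hlen : L.length = L'.length)
    (h : ∀ i, i ≤ L.length → (L.drop i).prod = (L'.drop i).prod) : L = L' := by
  apply List.ext_getElem hlen
  intro i h1 h2
  have e1 := h i (by omega)
  have e2 := h (i + 1) (by omega)
  rw [List.drop_eq_getElem_cons h1, List.drop_eq_getElem_cons h2, List.prod_cons,
    List.prod_cons, e2] at e1
  exact mul_right_cancel e1

end VSLM

open VSLM in
theorem specVSL : SpecVSL := by
  classical
  intro B W _ M cs c n Ex Hm hA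
  refine ⟨?_, ?_, ?_, ?_⟩
  · intro L hL
    unfold vs
    rw [Finset.card_image_of_injOn, Finset.card_range, hL.2.2]
    intro i hi j hj h
    rw [Finset.mem_coe, Finset.mem_range, hL.2.2] at hi hj
    exact eq_of_drop hA hL hL (by omega) (by omega) h
  · intro L L' hL hL' i j hi hj h
    exact eq_of_drop hA hL hL' hi hj h
  · intro L L' hL hL' h
    apply eq_of_drops (hL.2.2.trans hL'.2.2.symm)
    intro i hi
    have h1 : (L.drop i).prod ∈ vs L' := by
      rw [← h, mem_vs]
      exact ⟨i, hi, rfl⟩
    rw [mem_vs] at h1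
    obtain ⟨j, hj, hj2⟩ := h1
    have h2 := hL.2.2
    have h3 := hL'.2.2
    have := eq_of_drop hA hL hL' (by omega) (by omega) hj2.symm
    rw [← this] at hj2
    exact hj2.symm
  · intro P Q a b a' b' hab x hx hne
    rw [mem_vs] at hx ⊢
    obtain ⟨i, hi, rfl⟩ := hx
    rw [List.length_append, List.length_cons, List.length_cons] at hi
    refine ⟨i, by rw [List.length_append, List.length_cons, List.length_cons]; exact hi, ?_⟩
    rcases Nat.lt_or_ge P.length i with h | h
    · obtain ⟨m, rfl⟩ : ∃ m, i = P.length + m := ⟨i - P.length, by omega⟩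
      have e0 : ∀ R : List W, (P ++ R).drop (P.length + m) = R.drop m := by
        intro R
        rw [List.drop_append, List.drop_eq_nil_of_le (by omega : P.length ≤ P.length + m),
          List.nil_append, Nat.add_sub_cancel_left]
      rw [e0] at hne
      rw [e0, e0]
      rcases m with _ | _ | m
      · omega
      · exact absurd rfl hne
      · rfl
    · rw [List.drop_append_of_le_length h, List.drop_append_of_le_length h, List.prod_append,
        List.prod_append, List.prod_cons, List.prod_cons, List.prod_cons, List.prod_cons,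
        ← mul_assoc a, ← mul_assoc a', hab]

end Pool.Agent.Lib.MP_20db89_co.AK
end

section
set_option autoImplicit false

/-!
MP_20db89_co, AK, module ABS: the order complex of the interval `[e, c]_{ak}`
-/

namespace Pool.Agent.Lib.MP_20db89_co.AK

universe u

namespace ABSM

variable {B W : Type u} [Group W] {M : CoxeterMatrix B} {cs : CoxeterSystem M W}

theorem absLen_one (k : ℕ) : absLen cs k 1 = 0 :=
  Nat.le_zero.1 (ALEM.absLen_le (m := 0) rfl)

theorem eq_one_of_absLen {k : ℕ} {w : W} (h : absLen cs k w = 0) : w = 1 := by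
  obtain ⟨L, -, h2, h3⟩ := ALEM.exists_list (cs := cs) k w
  rw [h] at h3
  rw [List.length_eq_zero_iff.1 h3] at h2
  exact h2.symm

theorem absLE_one (k : ℕ) (w : W) : absLE cs k 1 w := by
  unfold absLE
  rw [absLen_one, inv_one, mul_one, zero_add]

theorem absLE_antisymm {k : ℕ} {x y : W} (h1 : absLE cs k x y) (h2 : absLE cs k y x) : x = y := by
  unfold absLE at h1 h2
  have h3 : absLen cs k (y * x⁻¹) = 0 := by omega
  have h4 := eq_one_of_absLen h3
  exact (mul_inv_eq_one.1 h4).symm

theorem absLE_lt {k : ℕ} {x y : W} (h1 : absLE cs k x y) (hne : x ≠ y) :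
    absLen cs k x < absLen cs k y := by
  unfold absLE at h1
  rcases Nat.eq_zero_or_pos (absLen cs k (y * x⁻¹)) with h | h
  · have h4 := eq_one_of_absLen h
    exact absurd (mul_inv_eq_one.1 h4).symm hne
  · omega

theorem mem_interval {k : ℕ} {c w : W} : w ∈ absInterval cs k 1 c ↔ absLE cs k w c :=
  ⟨fun h => h.2, fun h => ⟨absLE_one k w, h⟩⟩

/-- a chain below `y` is contained in the chain of a list -/
theorem chain_list {k : ℕ} : ∀ (m : ℕ) (F : Finset W) (y : W), F.card = m →
    (∀ x ∈ F, absLE cs k x y) → IsChain (absLE cs k) (F : Set W) →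
    ∃ L : List W, (∀ t ∈ L, t ∈ reflLE cs k) ∧ L.prod = y ∧ L.length = absLen cs k y ∧
      ∀ x ∈ F, ∃ i, i ≤ L.length ∧ (L.drop i).prod = x := by
  classical
  intro m
  induction m with
  | zero =>
    intro F y hF _ _
    obtain ⟨L, h1, h2, h3⟩ := ALEM.exists_list (cs := cs) k y
    refine ⟨L, h1, h2, h3, ?_⟩
    rw [Finset.card_eq_zero.1 hF]
    intro x hx
    exact absurd hx (Finset.notMem_empty x)
  | succ m ih =>
    intro F y hF hle hch
    have hne : F.Nonempty := by
      rw [← Finset.card_pos, hF]
      omega
    obtain ⟨x, hx, hmax⟩ := Finset.exists_max_image F (fun x => absLen cs k x) hne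
    obtain ⟨L', h1, h2, h3, h4⟩ := ih (F.erase x) x (by rw [Finset.card_erase_of_mem hx, hF]; rfl)
      (by
        intro x' hx'
        rw [Finset.mem_erase] at hx'
        rcases hch (Finset.mem_coe.2 hx'.2) (Finset.mem_coe.2 hx) hx'.1 with h | h
        · exact h
        · have h5 := absLE_lt h (Ne.symm hx'.1)
          have h6 := hmax x' hx'.2
          omega)
      (hch.mono (by
        intro z hz
        exact Finset.mem_coe.2 (Finset.mem_of_mem_erase (Finset.mem_coe.1 hz))))
    obtain ⟨L'', g1, g2, g3⟩ := ALEM.exists_list (cs := cs) k (y * x⁻¹)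
    refine ⟨L'' ++ L', ?_, ?_, ?_, ?_⟩
    · intro t ht
      rcases List.mem_append.1 ht with ht | ht
      · exact g1 t ht
      · exact h1 t ht
    · rw [List.prod_append, h2, g2]
      group
    · have h5 : absLen cs k y = absLen cs k x + absLen cs k (y * x⁻¹) := hle x hx
      rw [List.length_append, g3, h3, h5]
      omega
    · intro z hz
      by_cases hzx : z = x
      · refine ⟨L''.length, by simp, ?_⟩
        rw [List.drop_left, h2, hzx]
      · obtain ⟨i, hi, hi2⟩ := h4 z (Finset.mem_erase.2 ⟨hzx, hz⟩)
        refine ⟨L''.length + i, by simp [hi], ?_⟩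
        rw [List.drop_append, List.drop_eq_nil_of_le (by omega : L''.length ≤ L''.length + i),
          List.nil_append, Nat.add_sub_cancel_left, hi2]

end ABSM

open ABSM in
theorem specABS (hALE : SpecALE.{u}) : SpecABS.{u} := by
  classical
  intro B W _ M cs c n Ex Hm hAx k
  obtain ⟨-, hale⟩ := hALE B W M cs c n Ex Hm hAx k
  -- the length of `c`
  have hc : absLen cs k c = n := by
    obtain ⟨L, hL, h1⟩ := hAx.base
    have h2 := hale [] L [] (by simpa using hL) (by
      intro t ht
      rw [mem_reflLE']
      exact ⟨hL.1 t ht, by rw [h1 t ht]; omega⟩)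
    rw [hL.2.1, hL.2.2] at h2
    exact h2
  -- the elements of the chain of a factorization
  have hdrop : ∀ L : List W, IsFac cs c n L → (∀ t ∈ L, t ∈ reflLE cs k) → ∀ i j : ℕ, i ≤ j →
      j ≤ L.length → absLE cs k (L.drop j).prod (L.drop i).prod := by
    intro L hL hk i j hij hj
    have e1 : L.drop i = (L.drop i).take (j - i) ++ L.drop j := by
      conv_lhs => rw [← List.take_append_drop (j - i) (L.drop i)]
      rw [List.drop_drop]
      congr 2
      omega
    have e2 : L = L.take i ++ (L.drop i).take (j - i) ++ L.drop j := by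
      rw [List.append_assoc, ← e1, List.take_append_drop]
    have h1 := hale (L.take i) ((L.drop i).take (j - i)) (L.drop j) (by rw [← e2]; exact hL)
      (fun t ht => hk t (List.mem_of_mem_drop (List.mem_of_mem_take ht)))
    have h2 := hale (L.take i) (L.drop i) [] (by
      rw [List.append_nil, List.take_append_drop]; exact hL)
      (fun t ht => hk t (List.mem_of_mem_drop ht))
    have h3 := hale (L.take j) (L.drop j) [] (by
      rw [List.append_nil, List.take_append_drop]; exact hL)
      (fun t ht => hk t (List.mem_of_mem_drop ht))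
    have h4 : (L.drop i).prod * (L.drop j).prod⁻¹ = ((L.drop i).take (j - i)).prod := by
      conv_lhs => rw [e1]
      rw [List.prod_append]
      group
    unfold absLE
    rw [h4, h1, h2, h3, List.length_take, List.length_drop, List.length_drop]
    omega
  have hbelow : ∀ L : List W, IsFac cs c n L → (∀ t ∈ L, t ∈ reflLE cs k) → ∀ i : ℕ,
      i ≤ L.length → absLE cs k (L.drop i).prod c := by
    intro L hL hk i hi
    have h1 := hdrop L hL hk 0 i (Nat.zero_le i) hi
    rwa [List.drop_zero, hL.2.1] at h1
  have hfac : ∀ L : List W, (∀ t ∈ L, t ∈ reflLE cs k) → L.prod = c → L.length = n →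
      IsFac cs c n L := fun L h1 h2 h3 => ⟨fun t ht => (h1 t ht).1, h2, h3⟩
  refine ⟨?_, ?_, ?_, ?_⟩
  · ext G
    constructor
    · rintro ⟨hG, hch⟩
      obtain ⟨L, h1, h2, h3, h4⟩ := chain_list (cs := cs) (k := k) G.card G c rfl
        (fun x hx => (hG (Finset.mem_coe.2 hx)).2) hch
      rw [hc] at h3
      refine ⟨L, ⟨hfac L h1 h2 h3, h1⟩, ?_⟩
      intro x hx
      rw [VSLM.mem_vs]
      exact h4 x hx
    · rintro ⟨L, ⟨hL, hk⟩, hG⟩
      constructor
      · intro x hx
        obtain ⟨i, hi, rfl⟩ := VSLM.mem_vs.1 (hG (Finset.mem_coe.1 hx))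
        exact mem_interval.2 (hbelow L hL hk i hi)
      · intro x hx y hy _
        obtain ⟨i, hi, rfl⟩ := VSLM.mem_vs.1 (hG (Finset.mem_coe.1 hx))
        obtain ⟨j, hj, rfl⟩ := VSLM.mem_vs.1 (hG (Finset.mem_coe.1 hy))
        rcases le_total i j with h | h
        · exact Or.inr (hdrop L hL hk i j h hj)
        · exact Or.inl (hdrop L hL hk j i h hi)
  · intro w
    rw [mem_interval]
    constructor
    · intro hw
      obtain ⟨L, h1, h2, h3, h4⟩ := chain_list (cs := cs) (k := k) 1 {w} c rfl
        (fun x hx => by rw [Finset.mem_singleton] at hx; rw [hx]; exact hw) (by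
          rw [Finset.coe_singleton]
          exact IsChain.singleton)
      rw [hc] at h3
      refine ⟨L, ⟨hfac L h1 h2 h3, h1⟩, ?_⟩
      rw [VSLM.mem_vs]
      exact h4 w (Finset.mem_singleton_self w)
    · rintro ⟨L, ⟨hL, hk⟩, hw⟩
      obtain ⟨i, hi, rfl⟩ := VSLM.mem_vs.1 hw
      exact hbelow L hL hk i hi
  · intro x _ y _ h1 h2
    exact absLE_antisymm h1 h2
  · intro x _ y _ z hz h1 h2
    rw [mem_interval] at hz
    obtain ⟨L1, a1, a2, a3⟩ := ALEM.exists_list (cs := cs) k x
    obtain ⟨L2, b1, b2, b3⟩ := ALEM.exists_list (cs := cs) k (y * x⁻¹)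
    obtain ⟨L3, c1, c2, c3⟩ := ALEM.exists_list (cs := cs) k (z * y⁻¹)
    obtain ⟨L4, d1, d2, d3⟩ := ALEM.exists_list (cs := cs) k (c * z⁻¹)
    have hk : ∀ t ∈ L4 ++ (L3 ++ (L2 ++ L1)), t ∈ reflLE cs k := by
      intro t ht
      simp only [List.mem_append] at ht
      rcases ht with ht | ht | ht | ht
      · exact d1 t ht
      · exact c1 t ht
      · exact b1 t ht
      · exact a1 t ht
    have hp : (L4 ++ (L3 ++ (L2 ++ L1))).prod = c := by
      simp only [List.prod_append, a2, b2, c2, d2]
      group
    have hl : (L4 ++ (L3 ++ (L2 ++ L1))).length = n := by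
      unfold absLE at h1 h2 hz
      simp only [List.length_append, a3, b3, c3, d3]
      rw [← hc]
      omega
    have hL := hfac _ hk hp hl
    have h5 := hdrop _ hL hk L4.length (L4.length + (L3.length + L2.length)) (by omega) (by
      simp only [List.length_append]
      omega)
    have e1 : ((L4 ++ (L3 ++ (L2 ++ L1))).drop L4.length).prod = z := by
      rw [List.drop_left]
      simp only [List.prod_append, a2, b2, c2]
      group
    have e2 : ((L4 ++ (L3 ++ (L2 ++ L1))).drop (L4.length + (L3.length + L2.length))).prod = x := by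
      have e3 : L4 ++ (L3 ++ (L2 ++ L1)) = (L4 ++ (L3 ++ L2)) ++ L1 := by simp
      have e4 : L4.length + (L3.length + L2.length) = (L4 ++ (L3 ++ L2)).length := by simp
      rw [e3, e4, List.drop_left, a2]
    rw [e1, e2] at h5
    exact h5

end Pool.Agent.Lib.MP_20db89_co.AK
end

section
set_option autoImplicit false

/-!
# Module BLK
-/

namespace Pool.Agent.Lib.MP_20db89_co.AK

universe u

namespace BLKM

section general

variable {Q : Type u} [Fintype Q] {mu : Q → Q → ℕ}

/-- move `e` to the left past `D` -/
lemma mvL (hMUT : SpecMUT.{u}) (D : List (Q → ℤ)) : ∀ (P R : List (Q → ℤ)) (e : Q → ℤ),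
    D.Pairwise (fun d d' => eul mu d d' = 0) → Exc mu (P ++ D ++ e :: R) →
    Exc mu (P ++ (e - (D.map fun d => eul mu d e • d).sum) :: (D ++ R)) := by
  induction D using List.reverseRecOn with
  | nil =>
    intro P R e _ h
    simpa using h
  | append_singleton D d ih =>
    intro P R e hD h
    rw [List.pairwise_append] at hD
    have h1 : Exc mu ((P ++ D) ++ d :: e :: R) := by
      have e1 : P ++ (D ++ [d]) ++ e :: R = (P ++ D) ++ d :: e :: R := by simp
      rw [← e1]
      exact h
    have h2 := (hMUT Q mu (P ++ D) R d e h1).1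
    have h3 := ih P (d :: R) (e - eul mu d e • d) hD.1 h2
    have e2 : (D.map fun x => eul mu x (e - eul mu d e • d) • x) = D.map fun x => eul mu x e • x := by
      refine List.map_congr_left fun x hx => ?_
      have h4 : eul mu x d = 0 := hD.2.2 x hx d (by simp)
      rw [eul_sub_right, eul_smul_right, h4, mul_zero, sub_zero]
    rw [e2] at h3
    have e3 : e - ((D ++ [d]).map fun x => eul mu x e • x).sum =
        e - eul mu d e • d - (D.map fun x => eul mu x e • x).sum := by
      rw [List.map_append, List.sum_append]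
      simp only [List.map_cons, List.map_nil, List.sum_cons, List.sum_nil, add_zero]
      abel
    have e4 : (D ++ [d]) ++ R = D ++ d :: R := by simp
    rw [e3, e4]
    exact h3

/-- move the list `E` to the left past `D` -/
lemma mvLL (hMUT : SpecMUT.{u}) (D : List (Q → ℤ)) (hD : D.Pairwise (fun d d' => eul mu d d' = 0))
    (E : List (Q → ℤ)) : ∀ (P R : List (Q → ℤ)), Exc mu (P ++ D ++ (E ++ R)) →
    Exc mu (P ++ (E.map fun e => e - (D.map fun d => eul mu d e • d).sum) ++ (D ++ R)) := by
  induction E with
  | nil =>
    intro P R h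
    simpa using h
  | cons e E ih =>
    intro P R h
    have h1 := mvL hMUT D P (E ++ R) e hD h
    have h2 := ih (P ++ [e - (D.map fun d => eul mu d e • d).sum]) R (by
      have e1 : P ++ [e - (D.map fun d => eul mu d e • d).sum] ++ D ++ (E ++ R) =
        P ++ (e - (D.map fun d => eul mu d e • d).sum) :: (D ++ (E ++ R)) := by simp
      rw [e1]
      exact h1)
    have e2 : P ++ ((e :: E).map fun e => e - (D.map fun d => eul mu d e • d).sum) ++ (D ++ R) =
        P ++ [e - (D.map fun d => eul mu d e • d).sum] ++
          (E.map fun e => e - (D.map fun d => eul mu d e • d).sum) ++ (D ++ R) := by simp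
    rw [e2]
    exact h2

/-- move `e` to the right past `D` -/
lemma mvR (hMUT : SpecMUT.{u}) (D : List (Q → ℤ)) : ∀ (P R : List (Q → ℤ)) (e : Q → ℤ),
    D.Pairwise (fun d d' => eul mu d d' = 0) → Exc mu (P ++ e :: (D ++ R)) →
    Exc mu (P ++ D ++ (e - (D.map fun d => eul mu e d • d).sum) :: R) := by
  induction D with
  | nil =>
    intro P R e _ h
    simpa using h
  | cons d D ih =>
    intro P R e hD h
    rw [List.pairwise_cons] at hD
    have h2 := (hMUT Q mu P (D ++ R) e d h).2
    have h3 := ih (P ++ [d]) R (e - eul mu e d • d) hD.2 (by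
      have e1 : P ++ [d] ++ (e - eul mu e d • d) :: (D ++ R) =
        P ++ d :: (e - eul mu e d • d) :: (D ++ R) := by simp
      rw [e1]
      exact h2)
    have e2 : (D.map fun x => eul mu (e - eul mu e d • d) x • x) = D.map fun x => eul mu e x • x := by
      refine List.map_congr_left fun x hx => ?_
      have h4 : eul mu d x = 0 := hD.1 x hx
      rw [eul_sub_left, eul_smul_left, h4, mul_zero, sub_zero]
    rw [e2] at h3
    have e3 : e - ((d :: D).map fun x => eul mu e x • x).sum =
        e - eul mu e d • d - (D.map fun x => eul mu e x • x).sum := by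
      rw [List.map_cons, List.sum_cons]
      abel
    have e4 : P ++ (d :: D) ++ (e - ((d :: D).map fun x => eul mu e x • x).sum) :: R =
        P ++ [d] ++ D ++ (e - ((d :: D).map fun x => eul mu e x • x).sum) :: R := by simp
    rw [e4, e3]
    exact h3

/-- move the list `E` to the right past `D` -/
lemma mvRR (hMUT : SpecMUT.{u}) (D : List (Q → ℤ)) (hD : D.Pairwise (fun d d' => eul mu d d' = 0))
    (E : List (Q → ℤ)) : ∀ (P R : List (Q → ℤ)), Exc mu (P ++ E ++ (D ++ R)) →
    Exc mu (P ++ D ++ ((E.map fun e => e - (D.map fun d => eul mu e d • d).sum) ++ R)) := by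
  induction E using List.reverseRecOn with
  | nil =>
    intro P R h
    simpa using h
  | append_singleton E e ih =>
    intro P R h
    have h1 := mvR hMUT D (P ++ E) R e hD (by
      have e1 : P ++ E ++ e :: (D ++ R) = P ++ (E ++ [e]) ++ (D ++ R) := by simp
      rw [e1]
      exact h)
    have h2 := ih P ((e - (D.map fun d => eul mu e d • d).sum) :: R) (by
      have e1 : P ++ E ++ (D ++ (e - (D.map fun d => eul mu e d • d).sum) :: R) =
        P ++ E ++ D ++ (e - (D.map fun d => eul mu e d • d).sum) :: R := by simp
      rw [e1]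
      exact h1)
    have e2 : P ++ D ++ (((E ++ [e]).map fun e => e - (D.map fun d => eul mu e d • d).sum) ++ R) =
        P ++ D ++ ((E.map fun e => e - (D.map fun d => eul mu e d • d).sum) ++
          (e - (D.map fun d => eul mu e d • d).sum) :: R) := by simp
    rw [e2]
    exact h2

end general

section blocks

variable {B W : Type u} [Fintype B] [DecidableEq B] [Group W] {M : CoxeterMatrix B}
  {cs : CoxeterSystem M W} {A I : Type} [CommRing A] [Fintype I] [DecidableEq I] (r : RD cs A I)
  (ω : List B)

lemma blk_eq (x : B → A) : r.blk x =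
    (Finset.univ : Finset I).toList.map (fun i => r.co (r.R.b i • x)) := rfl

lemma co_sub (x y : B → A) : r.co (x - y) = r.co x - r.co y := by
  funext p
  show r.R.b.repr (x p.1 - y p.1) p.2 = r.R.b.repr (x p.1) p.2 - r.R.b.repr (y p.1) p.2
  rw [map_sub, Finsupp.sub_apply]

lemma co_smul (z : A) (x : B → A) :
    r.co (z • x) = ∑ i, r.R.b.repr z i • r.co (r.R.b i • x) := by
  funext p
  rw [Finset.sum_apply]
  show r.R.b.repr (z * x p.1) p.2 = ∑ i, r.R.b.repr z i * r.R.b.repr (r.R.b i * x p.1) p.2
  conv_lhs => rw [← r.R.b.sum_repr z, Finset.sum_mul, map_sum, Finsupp.finsetSum_apply]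
  refine Finset.sum_congr rfl fun i _ => ?_
  rw [smul_mul_assoc, map_smul, Finsupp.smul_apply, smul_eq_mul]

variable {r ω}

lemma eul_co (hRNG : SpecRNG) (hCOE : SpecCOE.{u}) (x y : B → A) (i : I) (z : A) :
    eul (r.mu ω) (r.co (r.R.b i • x)) (r.co (z • y)) = r.R.b.repr (z * eA r.X ω x y) i := by
  rw [hCOE, eA_smul_left, eA_smul_right, (hRNG A I r.R).1 (z * eA r.X ω x y) i]
  congr 2
  ring

lemma eul_co' (hRNG : SpecRNG) (hCOE : SpecCOE.{u}) (x y : B → A) (i : I) (z : A) :
    eul (r.mu ω) (r.co (z • x)) (r.co (r.R.b i • y)) = r.R.b.repr (z * eA r.X ω x y) i := by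
  rw [hCOE, eA_smul_left, eA_smul_right, (hRNG A I r.R).1 (z * eA r.X ω x y) i]
  congr 2
  ring

lemma pw_blk (hRNG : SpecRNG) (hCOE : SpecCOE.{u}) {x : B → A} (hx : eA r.X ω x x = 1) :
    (r.blk x).Pairwise (fun d d' => eul (r.mu ω) d d' = 0) := by
  rw [blk_eq, List.pairwise_map]
  refine List.Pairwise.imp ?_ (Finset.nodup_toList (Finset.univ : Finset I))
  intro i j hij
  rw [eul_co hRNG hCOE, hx, mul_one, r.R.b.repr_self, Finsupp.single_eq_of_ne (by
    exact hij)]

lemma sum_blk (f : (B × I → ℤ) → (B × I → ℤ)) (x : B → A) :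
    ((r.blk x).map f).sum = ∑ i, f (r.co (r.R.b i • x)) := by
  rw [blk_eq, List.map_map]
  exact Finset.sum_map_toList _ _

end blocks

end BLKM

open BLKM in
theorem specBLK (hRNG : SpecRNG) (hCOE : SpecCOE.{u}) (hMUT : SpecMUT.{u}) : SpecBLK.{u} := by
  intro B W _ _ _ M cs A I _ _ _ r ω P R x y hx hy _ hExc
  constructor
  · have h1 := mvLL hMUT (r.blk x) (pw_blk hRNG hCOE hx) (r.blk y) P R (by
      simpa only [List.append_assoc] using hExc)
    have e1 : ((r.blk y).map fun e => e - ((r.blk x).map fun d => eul (r.mu ω) d e • d).sum) =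
        r.blk (y - eA r.X ω x y • x) := by
      rw [blk_eq r y, blk_eq r (y - eA r.X ω x y • x), List.map_map]
      refine List.map_congr_left fun j _ => ?_
      show r.co (r.R.b j • y) - ((r.blk x).map fun d =>
        eul (r.mu ω) d (r.co (r.R.b j • y)) • d).sum = _
      rw [sum_blk, smul_sub, smul_smul, co_sub, co_smul r (r.R.b j * eA r.X ω x y) x]
      congr 1
      exact Finset.sum_congr rfl fun i _ => by rw [eul_co hRNG hCOE]
    rw [e1] at h1
    simpa only [List.append_assoc] using h1
  · have h1 := mvRR hMUT (r.blk y) (pw_blk hRNG hCOE hy) (r.blk x) P R (by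
      simpa only [List.append_assoc] using hExc)
    have e1 : ((r.blk x).map fun e => e - ((r.blk y).map fun d => eul (r.mu ω) e d • d).sum) =
        r.blk (x - eA r.X ω x y • y) := by
      rw [blk_eq r x, blk_eq r (x - eA r.X ω x y • y), List.map_map]
      refine List.map_congr_left fun j _ => ?_
      show r.co (r.R.b j • x) - ((r.blk y).map fun d =>
        eul (r.mu ω) (r.co (r.R.b j • x)) d • d).sum = _
      rw [sum_blk, smul_sub, smul_smul, co_sub, co_smul r (r.R.b j * eA r.X ω x y) y]
      congr 1
      exact Finset.sum_congr rfl fun i _ => by rw [eul_co' hRNG hCOE]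
    rw [e1] at h1
    simpa only [List.append_assoc] using h1

end Pool.Agent.Lib.MP_20db89_co.AK
end

section
set_option autoImplicit false

namespace Pool.Agent.Lib.MP_20db89_co.AK

universe u

namespace BRDM

variable {A : Type} [CommRing A]

/-- `cm y k` is `ch y (k - 1)`, and `0` for `k = 0` -/
def cm (y : A) : ℕ → A
  | 0 => 0
  | k + 1 => ch y k

lemma cm_zero (y : A) : cm y 0 = 0 := rfl
lemma cm_one (y : A) : cm y 1 = 1 := rfl
lemma cm_succ (y : A) (k : ℕ) : cm y (k + 1) = ch y k := rfl

lemma cm_add_two (y : A) (k : ℕ) : cm y (k + 2) = y * cm y (k + 1) - cm y k := by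
  cases k with
  | zero => simp [cm, ch]
  | succ k => rfl

lemma casorati (y : A) (k : ℕ) :
    cm y (k + 1) ^ 2 - y * cm y (k + 1) * cm y k + cm y k ^ 2 = 1 := by
  induction k with
  | zero => simp [cm_zero, cm_one]
  | succ k ih =>
    rw [show k + 1 + 1 = k + 2 from rfl, cm_add_two]
    linear_combination ih

variable {B : Type u} [Fintype B] [DecidableEq B] {X : B → B → A}

lemma sgm_add_al {s t : B} (hX : ∀ a b : B, X a b = X b a) (h : s ≠ t) (x : B → A) (c d : A) :
    sgm X s (x + c • (al s : B → A) + d • (al t : B → A)) =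
      x + (-c + X s t * d - bil X (al s) x) • (al s : B → A) + d • (al t : B → A) := by
  rw [sgm_apply, bil_add_right, bil_add_right, bil_smul_right, bil_smul_right, bil_al_same,
    bil_al_al _ h]
  module

lemma sgm_add_al' {s t : B} (hX : ∀ a b : B, X a b = X b a) (h : s ≠ t) (x : B → A) (c d : A) :
    sgm X t (x + c • (al s : B → A) + d • (al t : B → A)) =
      x + c • (al s : B → A) + (-d + X s t * c - bil X (al t) x) • (al t : B → A) := by
  rw [sgm_apply, bil_add_right, bil_add_right, bil_smul_right, bil_smul_right, bil_al_same,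
    bil_al_al _ h.symm, hX t s]
  module

lemma pow_formula {s t : B} (hX : ∀ a b : B, X a b = X b a) (h : s ≠ t) (x : B → A) (k : ℕ) :
    ((sgm X s * sgm X t) ^ k) x = x +
      (-(cm (X s t) k * (cm (X s t) k * bil X (al s) x + cm (X s t) (k + 1) * bil X (al t) x))) •
        (al s : B → A) +
      (-(cm (X s t) k * ((X s t * cm (X s t) k - cm (X s t) (k + 1)) * bil X (al s) x +
        cm (X s t) k * bil X (al t) x))) • (al t : B → A) := by
  induction k with
  | zero => simp [cm_zero]
  | succ k ih =>
    rw [pow_succ', Module.End.mul_apply, ih, Module.End.mul_apply, sgm_add_al' hX h,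
      sgm_add_al hX h]
    have hc := casorati (X s t) k
    rw [show k + 1 + 1 = k + 2 from rfl, cm_add_two]
    set a := cm (X s t) (k + 1)
    set b := cm (X s t) k
    set p := bil X (al s) x
    set q := bil X (al t) x
    set y := X s t
    congr 1
    · congr 1
      congr 1
      linear_combination (p + y * q) * hc
    · congr 1
      linear_combination q * hc

end BRDM

theorem specBRD : SpecBRD.{u} := by
  intro B _ _ A _ X s t m hX hst hm h0
  refine LinearMap.ext fun x => ?_
  rw [BRDM.pow_formula hX hst]
  have h1 : BRDM.cm (X s t) m = 0 := by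
    obtain ⟨k, rfl⟩ : ∃ k, m = k + 1 := ⟨m - 1, by omega⟩
    exact h0
  rw [h1]
  simp

end Pool.Agent.Lib.MP_20db89_co.AK
end

section
set_option autoImplicit false

/-!
# Module COE
-/

namespace Pool.Agent.Lib.MP_20db89_co.AK

universe u

namespace COEM

variable {A I : Type} [CommRing A] [Fintype I] [DecidableEq I]

/-- the trace form in coordinates -/
lemma tr_mul (R : FRing A I) (x y : A) :
    R.b.repr (x * y) R.one = ∑ i, R.b.repr x i * R.b.repr y i := by
  conv_lhs => rw [← R.b.sum_repr x, ← R.b.sum_repr y]
  rw [Finset.sum_mul_sum]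
  simp only [smul_mul_smul_comm, map_sum, map_smul, Finsupp.coe_finsetSum, Finset.sum_apply,
    Finsupp.coe_smul, Pi.smul_apply, smul_eq_mul, R.dual]
  refine Finset.sum_congr rfl fun i _ => ?_
  rw [Finset.sum_eq_single i]
  · rw [if_pos rfl, mul_one]
  · intro j _ hj
    rw [if_neg hj.symm, mul_zero]
  · intro h
    exact absurd (Finset.mem_univ i) h

end COEM

theorem specCOE (hRNG : SpecRNG) : SpecCOE.{u} := by
  intro B W _ _ _ M cs A I _ _ _ r ω x y
  obtain ⟨h1, h2, h3, h4, -⟩ := hRNG A I r.R
  have hXn : ∀ s t : B, s ≠ t → r.R.Nn (r.X s t) := by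
    intro s t hst
    have h5 := r.nn s t hst 1 (by
      have := M.off_diagonal s t hst
      omega)
    exact h5
  -- the term of one arrow
  have hterm : ∀ s t : B, ω.idxOf s < ω.idxOf t →
      r.R.b.repr (r.X s t * x s * y t) r.R.one =
        ∑ i, ∑ j, (r.mu ω (s, i) (t, j) : ℤ) * r.co x (s, i) * r.co y (t, j) := by
    intro s t hst
    have hne : s ≠ t := by
      rintro rfl
      exact lt_irrefl _ hst
    have e1 : r.X s t * x s * y t = ∑ i, r.co x (s, i) • (r.X s t * r.R.b i * y t) := by
      conv_lhs => rw [← r.R.b.sum_repr (x s), Finset.mul_sum, Finset.sum_mul]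
      refine Finset.sum_congr rfl fun i _ => ?_
      show r.X s t * (r.co x (s, i) • r.R.b i) * y t = _
      rw [mul_smul_comm, smul_mul_assoc]
    rw [e1, map_sum, Finsupp.finsetSum_apply]
    refine Finset.sum_congr rfl fun i _ => ?_
    rw [map_smul, Finsupp.smul_apply, COEM.tr_mul, smul_eq_mul, Finset.mul_sum]
    refine Finset.sum_congr rfl fun j _ => ?_
    have e2 : (r.mu ω (s, i) (t, j) : ℤ) = r.R.b.repr (r.X s t * r.R.b i) j := by
      unfold RD.mu
      rw [if_pos hst, Int.toNat_of_nonneg]
      exact h2 _ _ (hXn s t hne) (h4.1 i) j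
    rw [e2]
    show _ = _ * _ * r.R.b.repr (y t) j
    ring
  unfold eul eA
  rw [map_sub, Finsupp.sub_apply, map_sum, map_sum, Finsupp.finsetSum_apply,
    Finsupp.finsetSum_apply]
  congr 1
  · rw [Fintype.sum_prod_type]
    refine Finset.sum_congr rfl fun s _ => ?_
    rw [COEM.tr_mul]
    rfl
  · rw [Fintype.sum_prod_type]
    refine Finset.sum_congr rfl fun s _ => ?_
    rw [map_sum, Finsupp.finsetSum_apply]
    have e3 : ∑ i, ∑ q : B × I, (r.mu ω (s, i) q : ℤ) * r.co x (s, i) * r.co y q =
        ∑ t, ∑ i, ∑ j, (r.mu ω (s, i) (t, j) : ℤ) * r.co x (s, i) * r.co y (t, j) := by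
      rw [Finset.sum_comm, Fintype.sum_prod_type]
      exact Finset.sum_congr rfl fun t _ => Finset.sum_comm
    rw [e3]
    refine Finset.sum_congr rfl fun t _ => ?_
    by_cases hst : ω.idxOf s < ω.idxOf t
    · rw [if_pos hst, hterm s t hst]
    · rw [if_neg hst, map_zero, Finsupp.zero_apply]
      refine Finset.sum_eq_zero fun i _ => Finset.sum_eq_zero fun j _ => ?_
      have e2 : r.mu ω (s, i) (t, j) = 0 := by
        unfold RD.mu
        rw [if_neg hst]
      rw [e2]
      simp

end Pool.Agent.Lib.MP_20db89_co.AK
end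

section
/-!
# MP_20db89, module EUL: `dim Hom - dim Ext` is the Euler form
-/
set_option autoImplicit false

namespace Pool.Agent.Lib.MP_20db89_co.AK

universe u

theorem specEUL : SpecEUL.{u} := by
  intro Q _ mu E F
  have h1 := LinearMap.finrank_range_add_finrank_ker (dl E F)
  have h2 := Submodule.finrank_quotient_add_finrank (LinearMap.range (dl E F))
  have h0 : Module.finrank ℚ (H0 E F) = ∑ x, Module.finrank ℚ (E.V x) * Module.finrank ℚ (F.V x) := by
    unfold H0
    rw [Module.finrank_pi_fintype]
    exact Finset.sum_congr rfl fun x _ => Module.finrank_linearMap ℚ ℚ _ _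
  have h3 : Module.finrank ℚ (H1 E F) =
      ∑ x, ∑ y, mu x y * (Module.finrank ℚ (E.V x) * Module.finrank ℚ (F.V y)) := by
    unfold H1
    rw [Module.finrank_pi_fintype]
    refine Finset.sum_congr rfl fun x _ => ?_
    rw [Module.finrank_pi_fintype]
    refine Finset.sum_congr rfl fun y _ => ?_
    rw [Module.finrank_pi_fintype, Finset.sum_const, Finset.card_univ, Fintype.card_fin,
      Module.finrank_linearMap, smul_eq_mul]
  have h4 : (hd E F : ℤ) - (xd E F : ℤ) =
      (Module.finrank ℚ (H0 E F) : ℤ) - (Module.finrank ℚ (H1 E F) : ℤ) := by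
    unfold hd xd
    rw [← h1, ← h2]
    push_cast
    ring
  rw [h4, h0, h3]
  unfold eul dm
  push_cast
  congr 1
  exact Finset.sum_congr rfl fun x _ => Finset.sum_congr rfl fun y _ => by ring

end Pool.Agent.Lib.MP_20db89_co.AK
end

section
set_option autoImplicit false

/-!
# MP_20db89_co, module HRL: Happel-Ringel
-/

namespace Pool.Agent.Lib.MP_20db89_co.AK

universe u

namespace HRLM

variable {Q : Type u} {mu : Q → Q → ℕ}

theorem dl_apply (E F : Rp Q mu) (f : H0 E F) (x y : Q) (k : Fin (mu x y)) :
    dl E F f x y k = f y ∘ₗ E.map x y k - F.map x y k ∘ₗ f x := rfl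

/-- a morphism commutes with the maps -/
theorem mor {E F : Rp Q mu} {f : H0 E F} (hf : dl E F f = 0) (x y : Q) (k : Fin (mu x y)) :
    f y ∘ₗ E.map x y k = F.map x y k ∘ₗ f x := by
  have h1 : dl E F f x y k = 0 := by
    rw [hf]
    rfl
  rw [dl_apply, sub_eq_zero] at h1
  exact h1

theorem mor' {E F : Rp Q mu} {f : H0 E F}
    (h : ∀ (x y : Q) (k : Fin (mu x y)), f y ∘ₗ E.map x y k = F.map x y k ∘ₗ f x) :
    dl E F f = 0 := by
  funext x y k
  rw [dl_apply, h x y k, sub_self]
  rfl

/-- the identity -/
def idm (E : Rp Q mu) : H0 E E := fun _ => LinearMap.id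

theorem idm_mor (E : Rp Q mu) : dl E E (idm E) = 0 := by
  apply mor'
  intro x y k
  change LinearMap.id ∘ₗ _ = _ ∘ₗ LinearMap.id
  rw [LinearMap.id_comp, LinearMap.comp_id]

/-- endomorphisms of a brick are scalars -/
theorem brick_scalar {E : Rp Q mu} (hE : hd E E = 1) {g : H0 E E} (hg : dl E E g = 0) :
    ∃ c : ℚ, ∀ x, g x = c • (LinearMap.id : E.V x →ₗ[ℚ] E.V x) := by
  have hid : (⟨idm E, idm_mor E⟩ : LinearMap.ker (dl E E)) ≠ 0 := by
    intro h0
    have h1 : idm E = 0 := congrArg Subtype.val h0
    have h2 : Subsingleton (LinearMap.ker (dl E E)) := by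
      refine ⟨fun a b => ?_⟩
      apply Subtype.ext
      funext x
      ext v
      have h3 : v = 0 := by
        have h4 : idm E x v = (0 : H0 E E) x v := by rw [h1]
        exact h4
      rw [h3, map_zero, map_zero]
    have h5 : hd E E = 0 := Module.finrank_zero_of_subsingleton
    omega
  have h6 := (finrank_eq_one_iff_of_nonzero' _ hid).1 hE ⟨g, hg⟩
  obtain ⟨c, hc⟩ := h6
  refine ⟨c, fun x => ?_⟩
  have h7 : c • idm E = g := congrArg Subtype.val hc
  rw [← h7]
  rfl

/-- a reflexive generalized inverse -/
theorem exists_ginv {V W : Type} [AddCommGroup V] [Module ℚ V] [AddCommGroup W] [Module ℚ W]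
    (f : V →ₗ[ℚ] W) : ∃ r : W →ₗ[ℚ] V, f ∘ₗ r ∘ₗ f = f := by
  obtain ⟨ρ, hρ⟩ := (f.rangeRestrict).exists_rightInverse_of_surjective
    (LinearMap.range_rangeRestrict f)
  obtain ⟨π, hπ⟩ := (LinearMap.range f).subtype.exists_leftInverse_of_injective
    (Submodule.ker_subtype _)
  refine ⟨ρ ∘ₗ π, ?_⟩
  ext v
  have h1 : π (f v) = f.rangeRestrict v := by
    have := LinearMap.congr_fun hπ (f.rangeRestrict v)
    exact this
  have h2 : f.rangeRestrict (ρ (f.rangeRestrict v)) = f.rangeRestrict v := by
    have := LinearMap.congr_fun hρ (f.rangeRestrict v)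
    exact this
  change f (ρ (π (f v))) = f v
  rw [h1]
  exact congrArg Subtype.val h2

/-- the main point -/
theorem mono_or_epi [Fintype Q] {E F : Rp Q mu} (hE : hd E E = 1) (hF : hd F F = 1)
    (hx : xd F E = 0) {f : H0 E F} (hf : dl E F f = 0) (hf0 : f ≠ 0) :
    (∀ x, Function.Injective (f x)) ∨ (∀ x, Function.Surjective (f x)) := by
  by_contra hcon
  rw [not_or] at hcon
  obtain ⟨h1, h2⟩ := hcon
  rw [not_forall] at h1 h2
  obtain ⟨a, ha⟩ := h1
  obtain ⟨b, hb⟩ := h2
  choose r hr using fun x => exists_ginv (f x)
  -- the cocycle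
  let ζ : H1 F E := fun x y k => r y ∘ₗ f y ∘ₗ E.map x y k ∘ₗ r x - E.map x y k ∘ₗ r x
  have hrange : LinearMap.range (dl F E) = ⊤ := by
    have h3 : Subsingleton (H1 F E ⧸ LinearMap.range (dl F E)) :=
      Module.finrank_zero_iff.1 hx
    exact Submodule.Quotient.subsingleton_iff.1 h3
  obtain ⟨η, hη⟩ : ∃ η, dl F E η = ζ := by
    have : ζ ∈ LinearMap.range (dl F E) := by
      rw [hrange]
      trivial
    exact this
  have hη' : ∀ x y (k : Fin (mu x y)), η y ∘ₗ F.map x y k - E.map x y k ∘ₗ η x =
      r y ∘ₗ f y ∘ₗ E.map x y k ∘ₗ r x - E.map x y k ∘ₗ r x := by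
    intro x y k
    have : dl F E η x y k = ζ x y k := by rw [hη]
    exact this
  have hηe : ∀ x y (k : Fin (mu x y)) (v : F.V x), η y (F.map x y k v) - E.map x y k (η x v) =
      r y (f y (E.map x y k (r x v))) - E.map x y k (r x v) := by
    intro x y k v
    exact LinearMap.congr_fun (hη' x y k) v
  have hre : ∀ x (v : E.V x), f x (r x (f x v)) = f x v := fun x v =>
    LinearMap.congr_fun (hr x) v
  have hfe : ∀ x y (k : Fin (mu x y)) (v : E.V x), f y (E.map x y k v) = F.map x y k (f x v) := by
    intro x y k v
    exact LinearMap.congr_fun (mor hf x y k) v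
  -- the endomorphism of `E`
  let g : H0 E E := fun x => (r x - η x) ∘ₗ f x
  have hg : dl E E g = 0 := by
    apply mor'
    intro x y k
    ext v
    change r y (f y (E.map x y k v)) - η y (f y (E.map x y k v)) =
      E.map x y k (r x (f x v) - η x (f x v))
    have h3 := hηe x y k (f x v)
    rw [map_sub, hfe x y k v]
    have h4 : f y (E.map x y k (r x (f x v))) = F.map x y k (f x v) := by
      rw [hfe, hre]
    rw [h4] at h3
    have h5 : η y (F.map x y k (f x v)) = E.map x y k (η x (f x v)) +
        (r y (F.map x y k (f x v)) - E.map x y k (r x (f x v))) := by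
      rw [← h3]
      abel
    rw [h5]
    abel
  obtain ⟨c, hc⟩ := brick_scalar hE hg
  -- the endomorphism of `F`
  let q : H0 F F := fun x => f x ∘ₗ η x
  have hq : dl F F q = 0 := by
    apply mor'
    intro x y k
    ext v
    change f y (η y (F.map x y k v)) = F.map x y k (f x (η x v))
    have h3 := congrArg (f y) (hηe x y k v)
    rw [map_sub, map_sub, hre, sub_self, hfe, sub_eq_zero] at h3
    exact h3
  obtain ⟨c', hc'⟩ := brick_scalar hF hq
  -- `c = 0`
  have hc0 : c = 0 := by
    rw [injective_iff_map_eq_zero] at ha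
    push Not at ha
    obtain ⟨v, hv, hv0⟩ := ha
    have h3 : g a v = c • v := by
      rw [hc a]
      rfl
    have h4 : g a v = 0 := by
      change (r a - η a) (f a v) = 0
      rw [hv, map_zero]
    rw [h4] at h3
    rcases smul_eq_zero.1 h3.symm with h5 | h5
    · exact h5
    · exact absurd h5 hv0
  have hc0' : c' = 0 := by
    unfold Function.Surjective at hb
    push Not at hb
    obtain ⟨v, hv⟩ := hb
    by_contra hne
    have h3 : q b v = c' • v := by
      rw [hc' b]
      rfl
    have h4 : f b (c'⁻¹ • η b v) = v := by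
      rw [map_smul]
      change c'⁻¹ • q b v = v
      rw [h3, smul_smul, inv_mul_cancel₀ hne, one_smul]
    exact hv _ h4
  apply hf0
  funext x
  ext v
  have h3 : g x v = 0 := by
    rw [hc x, hc0, zero_smul]
    rfl
  have h4 : q x (f x v) = 0 := by
    rw [hc' x, hc0', zero_smul]
    rfl
  have h5 : r x (f x v) - η x (f x v) = 0 := h3
  have h6 : f x (η x (f x v)) = 0 := h4
  change f x v = 0
  rw [← hre x v, sub_eq_zero.1 h5, h6]

/-- the cokernel -/
def cok {E F : Rp Q mu} (f : H0 E F) (hf : dl E F f = 0) : Rp Q mu where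
  V x := F.V x ⧸ LinearMap.range (f x)
  acg x := inferInstance
  mod x := inferInstance
  fin x := inferInstance
  map x y k := Submodule.mapQ _ _ (F.map x y k) (by
    rintro _ ⟨v, rfl⟩
    rw [Submodule.mem_comap]
    have := LinearMap.congr_fun (mor hf x y k) v
    exact ⟨E.map x y k v, this⟩)

theorem ses_cok {E F : Rp Q mu} (f : H0 E F) (hf : dl E F f = 0)
    (hinj : ∀ x, Function.Injective (f x)) : Ses E F (cok f hf) := by
  refine ⟨f, fun x => (LinearMap.range (f x)).mkQ, hf, ?_, hinj, ?_, ?_⟩
  · apply mor'
    intro x y k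
    rfl
  · intro x
    exact Submodule.mkQ_surjective _
  · intro x
    exact (Submodule.ker_mkQ _).symm

/-- the kernel -/
def kern {E F : Rp Q mu} (f : H0 E F) (hf : dl E F f = 0) : Rp Q mu where
  V x := LinearMap.ker (f x)
  acg x := inferInstance
  mod x := inferInstance
  fin x := inferInstance
  map x y k := (E.map x y k).restrict (by
    intro v hv
    rw [LinearMap.mem_ker] at hv ⊢
    have := LinearMap.congr_fun (mor hf x y k) v
    change f y (E.map x y k v) = F.map x y k (f x v) at this
    rw [this, hv, map_zero])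

theorem ses_kern {E F : Rp Q mu} (f : H0 E F) (hf : dl E F f = 0)
    (hsurj : ∀ x, Function.Surjective (f x)) : Ses (kern f hf) E F := by
  refine ⟨fun x => (LinearMap.ker (f x)).subtype, f, ?_, hf, ?_, hsurj, ?_⟩
  · apply mor'
    intro x y k
    rfl
  · intro x
    exact Subtype.val_injective
  · intro x
    exact Submodule.range_subtype _

end HRLM

open HRLM

theorem specHRL : SpecHRL.{u} := by
  intro Q _ mu E F hE hF hEF hne
  obtain ⟨f, hf, hf0⟩ : ∃ f : H0 E F, dl E F f = 0 ∧ f ≠ 0 := by
    by_contra hcon
    push Not at hcon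
    apply hne
    have : LinearMap.ker (dl E F) = ⊥ := by
      rw [LinearMap.ker_eq_bot']
      exact hcon
    unfold hd
    rw [this]
    exact finrank_bot ℚ _
  rcases mono_or_epi hE.1 hF.1 hEF.2 hf hf0 with h | h
  · exact Or.inl ⟨_, ses_cok f hf h⟩
  · exact Or.inr ⟨_, ses_kern f hf h⟩

end Pool.Agent.Lib.MP_20db89_co.AK
end

section
set_option autoImplicit false

/-!
# MP_20db89_co, module EVM: the evaluation map `E^h → F` is mono or epi
-/

namespace Pool.Agent.Lib.MP_20db89_co.AK

universe u

namespace EVMM

open HRLM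

variable {Q : Type u} {mu : Q → Q → ℕ}

/-- the direct sum of `n` copies of `E` -/
def pw (E : Rp Q mu) (n : ℕ) : Rp Q mu where
  V x := Fin n → E.V x
  acg _ := inferInstance
  mod _ := inferInstance
  fin _ := inferInstance
  map x y k := (E.map x y k).compLeft (Fin n)

/-- inclusion of a copy -/
def inc (E : Rp Q mu) (n : ℕ) (j : Fin n) (x : Q) : E.V x →ₗ[ℚ] (pw E n).V x :=
  LinearMap.single ℚ (fun _ : Fin n => E.V x) j

/-- projection to a copy -/
def prj (E : Rp Q mu) (n : ℕ) (j : Fin n) (x : Q) : (pw E n).V x →ₗ[ℚ] E.V x :=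
  (LinearMap.proj j : (Fin n → E.V x) →ₗ[ℚ] E.V x)

/-- the map with given components -/
def tup (E : Rp Q mu) (n : ℕ) {M : Type} [AddCommGroup M] [Module ℚ M] (x : Q)
    (g : Fin n → (M →ₗ[ℚ] E.V x)) : M →ₗ[ℚ] (pw E n).V x :=
  (LinearMap.pi g : M →ₗ[ℚ] (Fin n → E.V x))

variable (E : Rp Q mu) (n : ℕ)

lemma prj_inc (i j : Fin n) (x : Q) (v : E.V x) :
    prj E n i x (inc E n j x v) = if i = j then v else 0 := by
  change (Pi.single j v : Fin n → E.V x) i = _
  by_cases h : i = j
  · subst h
    rw [Pi.single_eq_same, if_pos rfl]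
  · rw [Pi.single_eq_of_ne h, if_neg h]

lemma pw_ext {x : Q} {z w : (pw E n).V x} (h : ∀ j, prj E n j x z = prj E n j x w) : z = w :=
  funext h

lemma sum_inc (x : Q) (z : (pw E n).V x) : ∑ j, inc E n j x (prj E n j x z) = z := by
  apply pw_ext
  intro i
  rw [map_sum]
  simp only [prj_inc]
  rw [Finset.sum_ite_eq Finset.univ i, if_pos (Finset.mem_univ _)]

lemma prj_tup {M : Type} [AddCommGroup M] [Module ℚ M] (x : Q)
    (g : Fin n → (M →ₗ[ℚ] E.V x)) (j : Fin n) (v : M) :
    prj E n j x (tup E n x g v) = g j v := rfl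

lemma prj_map (x y : Q) (k : Fin (mu x y)) (z : (pw E n).V x) (j : Fin n) :
    prj E n j y ((pw E n).map x y k z) = E.map x y k (prj E n j x z) := rfl

lemma map_inc (x y : Q) (k : Fin (mu x y)) (j : Fin n) (v : E.V x) :
    (pw E n).map x y k (inc E n j x v) = inc E n j y (E.map x y k v) := by
  apply pw_ext
  intro i
  rw [prj_map, prj_inc, prj_inc]
  split_ifs
  · rfl
  · exact map_zero _

/-- kernels of `n` copies of a linear map -/
lemma ker_pow {U U' W W' : Type u} [AddCommGroup U] [Module ℚ U] [AddCommGroup U'] [Module ℚ U']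
    [AddCommGroup W] [Module ℚ W] [AddCommGroup W'] [Module ℚ W'] [Module.Finite ℚ U]
    (n : ℕ) (D : U →ₗ[ℚ] W) (D' : U' →ₗ[ℚ] W') (e : U' ≃ₗ[ℚ] (Fin n → U))
    (h : ∀ u, D' u = 0 ↔ ∀ j, D (e u j) = 0) :
    Module.finrank ℚ (LinearMap.ker D') = n * Module.finrank ℚ (LinearMap.ker D) := by
  let φ : LinearMap.ker D' ≃ₗ[ℚ] (Fin n → LinearMap.ker D) :=
    { toFun := fun u j => ⟨e u.1 j, (h u.1).1 u.2 j⟩
      map_add' := by
        intro a b
        funext j
        apply Subtype.ext
        change e (a.1 + b.1) j = e a.1 j + e b.1 j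
        rw [map_add]
        rfl
      map_smul' := by
        intro c a
        funext j
        apply Subtype.ext
        change e (c • a.1) j = c • e a.1 j
        rw [map_smul]
        rfl
      invFun := fun g => ⟨e.symm fun j => (g j).1, by
        rw [LinearMap.mem_ker, h]
        intro j
        rw [e.apply_symm_apply]
        exact (g j).2⟩
      left_inv := by
        intro a
        apply Subtype.ext
        change e.symm (fun j => e a.1 j) = a.1
        exact e.symm_apply_apply a.1
      right_inv := by
        intro g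
        funext j
        apply Subtype.ext
        change e (e.symm fun j => (g j).1) j = (g j).1
        rw [e.apply_symm_apply] }
  rw [φ.finrank_eq, Module.finrank_pi_fintype]
  simp

/-- `Hom(Z, E^n)` -/
def eR (Z : Rp Q mu) : H0 Z (pw E n) ≃ₗ[ℚ] (Fin n → H0 Z E) where
  toFun f j x := prj E n j x ∘ₗ f x
  map_add' _ _ := rfl
  map_smul' _ _ := rfl
  invFun g x := tup E n x fun j => g j x
  left_inv _ := rfl
  right_inv _ := rfl

/-- `Hom(E^n, Z)` -/
def eL (Z : Rp Q mu) : H0 (pw E n) Z ≃ₗ[ℚ] (Fin n → H0 E Z) where
  toFun f j x := f x ∘ₗ inc E n j x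
  map_add' _ _ := rfl
  map_smul' _ _ := rfl
  invFun g x := ∑ j, g j x ∘ₗ prj E n j x
  left_inv f := by
    funext x
    apply LinearMap.ext
    intro z
    conv_rhs => rw [← sum_inc E n x z]
    rw [map_sum, LinearMap.sum_apply]
    rfl
  right_inv g := by
    funext j x
    apply LinearMap.ext
    intro v
    change (∑ i, g i x ∘ₗ prj E n i x) (inc E n j x v) = _
    rw [LinearMap.sum_apply, Finset.sum_eq_single j]
    · rw [LinearMap.comp_apply, prj_inc, if_pos rfl]
    · intro i _ hi
      rw [LinearMap.comp_apply, prj_inc, if_neg hi, map_zero]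
    · intro h
      exact absurd (Finset.mem_univ _) h

lemma dl_eR (Z : Rp Q mu) (f : H0 Z (pw E n)) :
    dl Z (pw E n) f = 0 ↔ ∀ j, dl Z E (eR E n Z f j) = 0 := by
  constructor
  · intro hf j
    apply mor'
    intro x y k
    apply LinearMap.ext
    intro v
    have := LinearMap.congr_fun (mor hf x y k) v
    exact congrArg (prj E n j y) this
  · intro hf
    apply mor'
    intro x y k
    apply LinearMap.ext
    intro v
    apply pw_ext
    intro j
    exact LinearMap.congr_fun (mor (hf j) x y k) v

lemma dl_eL (Z : Rp Q mu) (f : H0 (pw E n) Z) :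
    dl (pw E n) Z f = 0 ↔ ∀ j, dl E Z (eL E n Z f j) = 0 := by
  constructor
  · intro hf j
    apply mor'
    intro x y k
    apply LinearMap.ext
    intro v
    have := LinearMap.congr_fun (mor hf x y k) (inc E n j x v)
    rw [LinearMap.comp_apply, map_inc] at this
    exact this
  · intro hf
    apply mor'
    intro x y k
    apply LinearMap.ext
    intro z
    rw [LinearMap.comp_apply, LinearMap.comp_apply, ← sum_inc E n x z, map_sum, map_sum, map_sum,
      map_sum]
    apply Finset.sum_congr rfl
    intro j _
    rw [map_inc]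
    exact LinearMap.congr_fun (mor (hf j) x y k) (prj E n j x z)

section dims

variable [Fintype Q]

omit E n in
lemma finH0 (E F : Rp Q mu) : Module.finrank ℚ (H0 E F) =
    ∑ x, Module.finrank ℚ (E.V x) * Module.finrank ℚ (F.V x) := by
  rw [Module.finrank_pi_fintype]
  exact Finset.sum_congr rfl fun x _ => Module.finrank_linearMap ..

omit E n in
lemma finH1 (E F : Rp Q mu) : Module.finrank ℚ (H1 E F) =
    ∑ x, ∑ y, mu x y * (Module.finrank ℚ (E.V x) * Module.finrank ℚ (F.V y)) := by
  rw [Module.finrank_pi_fintype]
  apply Finset.sum_congr rfl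
  intro x _
  rw [Module.finrank_pi_fintype]
  apply Finset.sum_congr rfl
  intro y _
  rw [Module.finrank_pi_fintype, Finset.sum_const, Finset.card_univ, Fintype.card_fin,
    smul_eq_mul]
  congr 1
  exact Module.finrank_linearMap ..

omit E n in
lemma euler (E F : Rp Q mu) : hd E F + Module.finrank ℚ (H1 E F) =
    xd E F + Module.finrank ℚ (H0 E F) := by
  unfold hd xd
  have h1 := LinearMap.finrank_range_add_finrank_ker (dl E F)
  have h2 := Submodule.finrank_quotient_add_finrank (LinearMap.range (dl E F))
  omega

omit [Fintype Q] in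
lemma fin_pw (x : Q) :
    Module.finrank ℚ ((pw E n).V x) = n * Module.finrank ℚ (E.V x) := by
  change Module.finrank ℚ (Fin n → E.V x) = _
  rw [Module.finrank_pi_fintype]
  simp

lemma isPw_pw : IsPw E n (pw E n) := by
  refine ⟨?_, fun Z => ?_⟩
  · funext x
    change ((Module.finrank ℚ ((pw E n).V x) : ℕ) : ℤ) = (n : ℤ) * (Module.finrank ℚ (E.V x) : ℤ)
    rw [fin_pw E n x]
    push_cast
    ring
  · have a1 : hd Z (pw E n) = n * hd Z E :=
      ker_pow n (dl Z E) (dl Z (pw E n)) (eR E n Z) (dl_eR E n Z)
    have a2 : hd (pw E n) Z = n * hd E Z :=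
      ker_pow n (dl E Z) (dl (pw E n) Z) (eL E n Z) (dl_eL E n Z)
    have b1 := euler Z (pw E n)
    have b2 := euler Z E
    have b3 := euler (pw E n) Z
    have b4 := euler E Z
    have c1 : Module.finrank ℚ (H0 Z (pw E n)) = n * Module.finrank ℚ (H0 Z E) := by
      rw [finH0, finH0, Finset.mul_sum]
      exact Finset.sum_congr rfl fun x _ => by rw [fin_pw]; ring
    have c2 : Module.finrank ℚ (H0 (pw E n) Z) = n * Module.finrank ℚ (H0 E Z) := by
      rw [finH0, finH0, Finset.mul_sum]
      exact Finset.sum_congr rfl fun x _ => by rw [fin_pw]; ring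
    have c3 : Module.finrank ℚ (H1 Z (pw E n)) = n * Module.finrank ℚ (H1 Z E) := by
      rw [finH1, finH1, Finset.mul_sum]
      refine Finset.sum_congr rfl fun x _ => ?_
      rw [Finset.mul_sum]
      exact Finset.sum_congr rfl fun y _ => by rw [fin_pw]; ring
    have c4 : Module.finrank ℚ (H1 (pw E n) Z) = n * Module.finrank ℚ (H1 E Z) := by
      rw [finH1, finH1, Finset.mul_sum]
      refine Finset.sum_congr rfl fun x _ => ?_
      rw [Finset.mul_sum]
      exact Finset.sum_congr rfl fun y _ => by rw [fin_pw]; ring
    have d1 : n * hd Z E + n * Module.finrank ℚ (H1 Z E) =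
        n * xd Z E + n * Module.finrank ℚ (H0 Z E) := by
      rw [← mul_add, ← mul_add, b2]
    have d2 : n * hd E Z + n * Module.finrank ℚ (H1 E Z) =
        n * xd E Z + n * Module.finrank ℚ (H0 E Z) := by
      rw [← mul_add, ← mul_add, b4]
    rw [a1, c1, c3] at b1
    rw [a2, c2, c4] at b3
    refine ⟨a1, by omega, a2, by omega⟩

end dims

/-- a morphism `f : P → F` to a brick which is not epi, with `Ext(F, P) = 0`: an endomorphism `g`
of `P` with `f g = f` and `ker f ⊆ ker g` -/
theorem endo {P F : Rp Q mu} (hF : hd F F = 1)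
    (hx : LinearMap.range (dl F P) = ⊤) {f : H0 P F} (hf : dl P F f = 0) {b : Q}
    (hb : ¬ Function.Surjective (f b)) :
    ∃ g : H0 P P, dl P P g = 0 ∧ (∀ x v, f x (g x v) = f x v) ∧ ∀ x v, f x v = 0 → g x v = 0 := by
  choose r hr using fun x => exists_ginv (f x)
  let ζ : H1 F P := fun x y k => r y ∘ₗ f y ∘ₗ P.map x y k ∘ₗ r x - P.map x y k ∘ₗ r x
  obtain ⟨η, hη⟩ : ∃ η, dl F P η = ζ := by
    have : ζ ∈ LinearMap.range (dl F P) := by
      rw [hx]
      trivial
    exact this
  have hη' : ∀ x y (k : Fin (mu x y)), η y ∘ₗ F.map x y k - P.map x y k ∘ₗ η x =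
      r y ∘ₗ f y ∘ₗ P.map x y k ∘ₗ r x - P.map x y k ∘ₗ r x := by
    intro x y k
    have : dl F P η x y k = ζ x y k := by rw [hη]
    exact this
  have hηe : ∀ x y (k : Fin (mu x y)) (v : F.V x), η y (F.map x y k v) - P.map x y k (η x v) =
      r y (f y (P.map x y k (r x v))) - P.map x y k (r x v) := by
    intro x y k v
    exact LinearMap.congr_fun (hη' x y k) v
  have hre : ∀ x (v : P.V x), f x (r x (f x v)) = f x v := fun x v =>
    LinearMap.congr_fun (hr x) v
  have hfe : ∀ x y (k : Fin (mu x y)) (v : P.V x), f y (P.map x y k v) = F.map x y k (f x v) := by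
    intro x y k v
    exact LinearMap.congr_fun (mor hf x y k) v
  let g : H0 P P := fun x => (r x - η x) ∘ₗ f x
  have hg : dl P P g = 0 := by
    apply mor'
    intro x y k
    ext v
    change r y (f y (P.map x y k v)) - η y (f y (P.map x y k v)) =
      P.map x y k (r x (f x v) - η x (f x v))
    have h3 := hηe x y k (f x v)
    rw [map_sub, hfe x y k v]
    have h4 : f y (P.map x y k (r x (f x v))) = F.map x y k (f x v) := by
      rw [hfe, hre]
    rw [h4] at h3
    have h5 : η y (F.map x y k (f x v)) = P.map x y k (η x (f x v)) +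
        (r y (F.map x y k (f x v)) - P.map x y k (r x (f x v))) := by
      rw [← h3]
      abel
    rw [h5]
    abel
  let q : H0 F F := fun x => f x ∘ₗ η x
  have hq : dl F F q = 0 := by
    apply mor'
    intro x y k
    ext v
    change f y (η y (F.map x y k v)) = F.map x y k (f x (η x v))
    have h3 := congrArg (f y) (hηe x y k v)
    rw [map_sub, map_sub, hre, sub_self, hfe, sub_eq_zero] at h3
    exact h3
  obtain ⟨c', hc'⟩ := brick_scalar hF hq
  have hc0' : c' = 0 := by
    unfold Function.Surjective at hb
    push Not at hb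
    obtain ⟨v, hv⟩ := hb
    by_contra hne
    have h3 : q b v = c' • v := by
      rw [hc' b]
      rfl
    have h4 : f b (c'⁻¹ • η b v) = v := by
      rw [map_smul]
      change c'⁻¹ • q b v = v
      rw [h3, smul_smul, inv_mul_cancel₀ hne, one_smul]
    exact hv _ h4
  refine ⟨g, hg, ?_, ?_⟩
  · intro x v
    change f x (r x (f x v) - η x (f x v)) = f x v
    have h4 : f x (η x (f x v)) = 0 := by
      change q x (f x v) = 0
      rw [hc' x, hc0', zero_smul]
      rfl
    rw [map_sub, h4, hre, sub_zero]
  · intro x v hv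
    change (r x - η x) (f x v) = 0
    rw [hv, map_zero]

end EVMM

open HRLM EVMM

theorem specEVM : SpecEVM.{u} := by
  intro Q _ mu E F hE hF hEF _
  set n := hd E F with hn
  have hPw : IsPw E n (pw E n) := isPw_pw E n
  -- the basis
  let B : Module.Basis (Fin n) ℚ (LinearMap.ker (dl E F)) := Module.finBasis ℚ _
  let f : Fin n → H0 E F := fun j => (B j).1
  have hf : ∀ j, dl E F (f j) = 0 := fun j => (B j).2
  have hli : ∀ c : Fin n → ℚ, (∀ x v, ∑ j, c j • f j x v = 0) → c = 0 := by
    intro c hc
    have h1 : ∑ j, c j • B j = 0 := by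
      apply Subtype.ext
      rw [Submodule.coe_sum]
      funext x
      apply LinearMap.ext
      intro v
      rw [Finset.sum_apply, LinearMap.sum_apply]
      exact hc x v
    funext j
    exact Fintype.linearIndependent_iff.1 B.linearIndependent c h1 j
  let ev : H0 (pw E n) F := fun x => ∑ j, f j x ∘ₗ prj E n j x
  have hev : ∀ x (z : (pw E n).V x), ev x z = ∑ j, f j x (prj E n j x z) := by
    intro x z
    change (∑ j, f j x ∘ₗ prj E n j x) z = _
    rw [LinearMap.sum_apply]
    rfl
  have hevm : dl (pw E n) F ev = 0 := by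
    rw [dl_eL]
    intro j
    have : eL E n F ev j = f j := congrFun ((eL E n F).right_inv f) j
    rw [this]
    exact hf j
  by_cases hs : ∀ x, Function.Surjective (ev x)
  · refine ⟨pw E n, kern ev hevm, hPw, Or.inr ⟨ses_kern ev hevm hs, ?_⟩⟩
    have hbot : LinearMap.ker (dl E (kern ev hevm)) = ⊥ := by
      rw [LinearMap.ker_eq_bot']
      intro g hg
      let g' : H0 E (pw E n) := fun x => (LinearMap.ker (ev x)).subtype ∘ₗ g x
      have hg' : dl E (pw E n) g' = 0 := by
        apply mor'
        intro x y k
        apply LinearMap.ext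
        intro v
        have := LinearMap.congr_fun (mor hg x y k) v
        exact congrArg Subtype.val this
      have hcomp := (dl_eR E n E g').1 hg'
      choose c hc using fun j => brick_scalar hE.1 (hcomp j)
      have hc' : ∀ x (v : E.V x) (j : Fin n), prj E n j x (g' x v) = c j • v := by
        intro x v j
        exact LinearMap.congr_fun (hc j x) v
      have h0 : c = 0 := by
        apply hli
        intro x v
        have h1 : ev x (g' x v) = 0 := (g x v).2
        rw [hev] at h1
        simp only [hc', map_smul] at h1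
        exact h1
      funext x
      apply LinearMap.ext
      intro v
      apply Subtype.ext
      change g' x v = 0
      apply pw_ext
      intro j
      rw [hc', h0, map_zero]
      exact zero_smul ℚ v
    unfold hd
    rw [hbot]
    exact finrank_bot ℚ _
  · rw [not_forall] at hs
    obtain ⟨b, hb⟩ := hs
    have hxd : xd F (pw E n) = 0 := by
      rw [(hPw.2 F).2.1, hEF.2, mul_zero]
    have hrange : LinearMap.range (dl F (pw E n)) = ⊤ := by
      have h3 : Subsingleton (H1 F (pw E n) ⧸ LinearMap.range (dl F (pw E n))) :=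
        Module.finrank_zero_iff.1 hxd
      exact Submodule.Quotient.subsingleton_iff.1 h3
    obtain ⟨g, hg, hg1, hg2⟩ := endo hF.1 hrange hevm hb
    have hinj : ∀ x, Function.Injective (ev x) := by
      -- the matrix of `g`
      have hcomp : ∀ i j, dl E E (eR E n E (eL E n (pw E n) g j) i) = 0 := by
        intro i j
        exact (dl_eR E n E _).1 ((dl_eL E n (pw E n) g).1 hg j) i
      choose c hc using fun i j => brick_scalar hE.1 (hcomp i j)
      have hc' : ∀ i j x (v : E.V x), prj E n i x (g x (inc E n j x v)) = c i j • v := by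
        intro i j x v
        exact LinearMap.congr_fun (hc i j x) v
      have hcd : ∀ i j, c i j = if i = j then 1 else 0 := by
        intro i j
        have h1 : (fun i => c i j - if i = j then 1 else 0) = (0 : Fin n → ℚ) := by
          apply hli
          intro x v
          have h2 := hg1 x (inc E n j x v)
          rw [hev, hev] at h2
          simp only [hc', map_smul, prj_inc] at h2
          have h3 : ∑ i, f i x (if i = j then v else 0) =
              ∑ i, (if i = j then (1 : ℚ) else 0) • f i x v := by
            apply Finset.sum_congr rfl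
            intro i _
            by_cases h : i = j
            · rw [if_pos h, if_pos h, one_smul]
            · rw [if_neg h, if_neg h, map_zero, zero_smul]
          rw [h3] at h2
          have h4 : ∑ i, (c i j - if i = j then (1 : ℚ) else 0) • f i x v =
              ∑ i, c i j • f i x v - ∑ i, (if i = j then (1 : ℚ) else 0) • f i x v := by
            rw [← Finset.sum_sub_distrib]
            apply Finset.sum_congr rfl
            intro i _
            rw [← sub_smul]
          rw [h4, h2, sub_self]
        have h2 := congrFun h1 i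
        simp only [Pi.zero_apply] at h2
        linarith
      have hid : ∀ x (z : (pw E n).V x), g x z = z := by
        intro x z
        apply pw_ext
        intro i
        conv_lhs => rw [← sum_inc E n x z]
        rw [map_sum, map_sum]
        simp only [hc', hcd]
        rw [Finset.sum_eq_single i]
        · rw [if_pos rfl, one_smul]
        · intro j _ hj
          rw [if_neg (fun h => hj h.symm), zero_smul]
        · intro h
          exact absurd (Finset.mem_univ _) h
      intro x
      rw [injective_iff_map_eq_zero]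
      intro v hv
      have := hg2 x v hv
      rw [hid] at this
      exact this
    exact ⟨pw E n, cok ev hevm, hPw, Or.inl (ses_cok ev hevm hinj)⟩

end Pool.Agent.Lib.MP_20db89_co.AK
end

section
set_option autoImplicit false

namespace Pool.Agent.Lib.MP_20db89_co.AK

universe u

theorem specFIN : SpecFIN.{u} := by
  intro B W _ _ M cs k
  have hfin : {l : List B | l.length ≤ 2 * k + 1}.Finite := List.finite_length_le B (2 * k + 1)
  refine (hfin.image cs.wordProd).subset ?_
  intro t ht
  obtain ⟨_, h2⟩ := mem_reflLE'.1 ht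
  obtain ⟨ω, h3, h4⟩ := cs.exists_isReduced t
  refine ⟨ω, ?_, h4.symm⟩
  have h5 : cs.length t = ω.length := by rw [h4]; exact h3
  show ω.length ≤ 2 * k + 1
  omega

end Pool.Agent.Lib.MP_20db89_co.AK
end

section
set_option autoImplicit false

/-!
FLT: a representation with no Hom and no Ext from `Gs` is filtered by the members of `Es`.
-/

universe u

namespace Pool.Agent.Lib.MP_20db89_co.AK

namespace FLTM

variable {Q : Type u} [Fintype Q] {mu : Q → Q → ℕ}

lemma eul_sum_right (x : Q → ℤ) {n : ℕ} (c : Fin n → ℤ) (v : Fin n → (Q → ℤ)) :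
    eul mu x (∑ j, c j • v j) = ∑ j, c j * eul mu x (v j) := by
  classical
  have : ∀ s : Finset (Fin n), eul mu x (∑ j ∈ s, c j • v j) = ∑ j ∈ s, c j * eul mu x (v j) := by
    intro s
    induction s using Finset.induction_on with
    | empty => simp [eul_zero_right]
    | insert a s ha ih =>
      rw [Finset.sum_insert ha, Finset.sum_insert ha, eul_add_right, eul_smul_right, ih]
  exact this Finset.univ

omit [Fintype Q] in
lemma dm_nonneg (E : Rp Q mu) (x : Q) : 0 ≤ dm E x := Int.natCast_nonneg _

/-- total dimension -/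
noncomputable def td (Z : Rp Q mu) : ℕ := ∑ x, Module.finrank ℚ (Z.V x)

lemma td_cast (Z : Rp Q mu) : (td Z : ℤ) = ∑ x, dm Z x := by
  unfold td dm
  push_cast
  rfl

lemma claim (hEUL : SpecEUL.{u}) (hLIN : SpecLIN.{u}) (Es Gs : List (Rp Q mu))
    (hB : ∀ E ∈ Es ++ Gs, Brk E) (hX : (Es ++ Gs).Pairwise Xp)
    (hH : Es.Pairwise (fun E F => hd E F = 0)) (hl : (Es ++ Gs).length = Fintype.card Q)
    (Z : Rp Q mu) (hZ : ∀ G ∈ Gs, hd G Z = 0 ∧ xd G Z = 0) (h0 : ∀ E ∈ Es, hd E Z = 0) :
    dm Z = 0 := by
  set L := Es ++ Gs with hL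
  obtain ⟨N, c, hN, hc⟩ := (hLIN Q mu L hB hX).2 hl (dm Z)
  -- wlog N > 0
  obtain ⟨N, c, hN, hc⟩ : ∃ (N : ℤ) (c : Fin L.length → ℤ), 0 < N ∧
      N • dm Z = ∑ i, c i • dm (L.get i) := by
    rcases lt_or_gt_of_ne hN with h | h
    · refine ⟨-N, fun i => - c i, by omega, ?_⟩
      rw [neg_smul, hc, ← Finset.sum_neg_distrib]
      exact Finset.sum_congr rfl fun i _ => by rw [neg_smul]
    · exact ⟨N, c, h, hc⟩
  have hpw := List.pairwise_iff_get.1 hX
  have e1 : ∀ i j : Fin L.length, j < i → eul mu (dm (L.get i)) (dm (L.get j)) = 0 := by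
    intro i j hij
    have h1 := hEUL Q mu (L.get i) (L.get j)
    have h2 := hpw j i hij
    rw [← h1, h2.1, h2.2]
    simp
  have e2 : ∀ i : Fin L.length, eul mu (dm (L.get i)) (dm (L.get i)) = 1 := by
    intro i
    have h1 := hEUL Q mu (L.get i) (L.get i)
    have h2 := hB (L.get i) (List.get_mem L i)
    rw [← h1, h2.1, h2.2]
    simp
  have hk1 : ∀ i : Fin L.length, i.val < Es.length → L.get i ∈ Es := by
    intro i hi
    have : L.get i = Es.get ⟨i.val, hi⟩ := by
      simp only [List.get_eq_getElem, hL]
      exact List.getElem_append_left hi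
    rw [this]
    exact List.get_mem _ _
  have hk2 : ∀ i : Fin L.length, Es.length ≤ i.val → L.get i ∈ Gs := by
    intro i hi
    have hlt : i.val - Es.length < Gs.length := by
      have h1 := i.isLt
      have h2 : L.length = Es.length + Gs.length := by rw [hL, List.length_append]
      omega
    have : L.get i = Gs.get ⟨i.val - Es.length, hlt⟩ := by
      simp only [List.get_eq_getElem, hL]
      exact List.getElem_append_right hi
    rw [this]
    exact List.get_mem _ _
  have e3 : ∀ i j : Fin L.length, i < j → j.val < Es.length →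
      eul mu (dm (L.get i)) (dm (L.get j)) ≤ 0 := by
    intro i j hij hj
    have hi : i.val < Es.length := lt_trans (Fin.lt_def.1 hij) hj
    have h1 := hEUL Q mu (L.get i) (L.get j)
    have g1 : L.get i = Es.get ⟨i.val, hi⟩ := by
      simp only [List.get_eq_getElem, hL]
      exact List.getElem_append_left hi
    have g2 : L.get j = Es.get ⟨j.val, hj⟩ := by
      simp only [List.get_eq_getElem, hL]
      exact List.getElem_append_left hj
    have h2 : hd (L.get i) (L.get j) = 0 := by
      rw [g1, g2]
      exact List.pairwise_iff_get.1 hH _ _ hij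
    rw [← h1, h2]
    have : (0 : ℤ) ≤ (xd (L.get i) (L.get j) : ℤ) := Int.natCast_nonneg _
    push_cast
    omega
  have key : ∀ i : Fin L.length, c i ≤ 0 ∧ (Es.length ≤ i.val → c i = 0) := by
    intro i
    induction i using WellFoundedGT.induction with
    | ind i ih =>
    have hs : N * eul mu (dm (L.get i)) (dm Z) =
        c i + ∑ j ∈ Finset.univ.erase i, c j * eul mu (dm (L.get i)) (dm (L.get j)) := by
      rw [← eul_smul_right, hc, eul_sum_right, ← Finset.add_sum_erase Finset.univ _ (Finset.mem_univ i),
        e2, mul_one]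
    by_cases hi : i.val < Es.length
    · refine ⟨?_, fun h => absurd h (by omega)⟩
      have h1 := hEUL Q mu (L.get i) Z
      rw [h0 _ (hk1 i hi)] at h1
      have h2 : N * eul mu (dm (L.get i)) (dm Z) ≤ 0 := by
        rw [← h1]
        have : (0 : ℤ) ≤ (xd (L.get i) Z : ℤ) := Int.natCast_nonneg _
        have : ((0 : ℕ) : ℤ) - (xd (L.get i) Z : ℤ) ≤ 0 := by push_cast; omega
        exact mul_nonpos_of_nonneg_of_nonpos hN.le this
      have h3 : 0 ≤ ∑ j ∈ Finset.univ.erase i, c j * eul mu (dm (L.get i)) (dm (L.get j)) := by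
        apply Finset.sum_nonneg
        intro j hj
        have hji : j ≠ i := Finset.ne_of_mem_erase hj
        rcases lt_or_gt_of_ne hji with h | h
        · rw [e1 i j h, mul_zero]
        · by_cases hjk : j.val < Es.length
          · exact mul_nonneg_of_nonpos_of_nonpos (ih j h).1 (e3 i j h hjk)
          · rw [(ih j h).2 (by omega), zero_mul]
      linarith
    · have h1 := hEUL Q mu (L.get i) Z
      have h2 := hZ _ (hk2 i (by omega))
      rw [h2.1, h2.2] at h1
      have h3 : ∑ j ∈ Finset.univ.erase i, c j * eul mu (dm (L.get i)) (dm (L.get j)) = 0 := by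
        apply Finset.sum_eq_zero
        intro j hj
        have hji : j ≠ i := Finset.ne_of_mem_erase hj
        rcases lt_or_gt_of_ne hji with h | h
        · rw [e1 i j h, mul_zero]
        · rw [(ih j h).2 (by have := Fin.lt_def.1 h; omega), zero_mul]
      rw [h3, ← h1] at hs
      have : c i = 0 := by
        have h5 : N * (((0 : ℕ) : ℤ) - ((0 : ℕ) : ℤ)) = 0 := by simp
        rw [h5] at hs
        linarith
      exact ⟨this.le, fun _ => this⟩
  funext x
  have h1 := congrFun hc x
  simp only [Pi.smul_apply, smul_eq_mul, Finset.sum_apply] at h1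
  have h2 : ∑ i, c i * dm (L.get i) x ≤ 0 :=
    Finset.sum_nonpos fun i _ => mul_nonpos_of_nonpos_of_nonneg (key i).1 (dm_nonneg _ x)
  have h3 := dm_nonneg Z x
  have h4 : N * dm Z x ≤ 0 := by rw [h1]; exact h2
  have : dm Z x ≤ 0 := by
    by_contra h
    have : 0 < N * dm Z x := mul_pos hN (by omega)
    omega
  simp only [Pi.zero_apply]
  omega

end FLTM

open FLTM in
theorem specFLT (hEUL : SpecEUL.{u}) (hSES : SpecSES.{u}) (hKIC : SpecKIC.{u}) (hSUB : SpecSUB.{u})
    (hLIN : SpecLIN.{u}) : SpecFLT.{u} := by
  intro Q _ mu Es Gs hB hX hH hl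
  have main : ∀ (n : ℕ) (Z : Rp Q mu), td Z ≤ n → (∀ G ∈ Gs, hd G Z = 0 ∧ xd G Z = 0) →
      ∃ c : Fin Es.length → ℕ, dm Z = ∑ i, (c i : ℤ) • dm (Es.get i) := by
    intro n
    induction n with
    | zero =>
      intro Z hn _
      refine ⟨fun _ => 0, ?_⟩
      simp only [Nat.cast_zero, zero_smul, Finset.sum_const_zero]
      funext x
      have h1 : td Z = 0 := by omega
      unfold td at h1
      rw [Finset.sum_eq_zero_iff] at h1
      simp only [dm, h1 x (Finset.mem_univ x), Nat.cast_zero, Pi.zero_apply]
    | succ n ih =>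
      intro Z hn hZ
      by_cases hz : dm Z = 0
      · refine ⟨fun _ => 0, ?_⟩
        simp [hz]
      · have hex : ∃ E ∈ Es, hd E Z ≠ 0 := by
          by_contra h
          push Not at h
          exact hz (claim hEUL hLIN Es Gs hB hX hH hl Z hZ h)
        obtain ⟨E, hE, hEZ⟩ := hex
        obtain ⟨i₀, hi₀⟩ := List.mem_iff_get.1 hE
        -- a nonzero morphism
        obtain ⟨f, hf, hf0⟩ : ∃ f : H0 E Z, dl E Z f = 0 ∧ f ≠ 0 := by
          by_contra h
          push Not at h
          apply hEZ
          have : LinearMap.ker (dl E Z) = ⊥ := by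
            rw [LinearMap.ker_eq_bot']
            intro f hf
            exact h f hf
          unfold hd
          rw [this]
          simp
        obtain ⟨K, J, C, s1, s2, hJ⟩ := hKIC Q mu E Z f hf hf0
        obtain ⟨d1, S1⟩ := hSES Q mu K E J s1
        obtain ⟨d2, S2⟩ := hSES Q mu J Z C s2
        have hGE : ∀ G ∈ Gs, hd G E = 0 ∧ xd G E = 0 := by
          intro G hG
          have := (List.pairwise_append.1 hX).2.2 E hE G hG
          exact this
        have hGJ : ∀ G ∈ Gs, hd G J = 0 ∧ xd G J = 0 := by
          intro G hG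
          have a1 := (S1 G).2.2.1
          have a2 := (S2 G).1
          rw [(hGE G hG).2] at a1
          rw [(hZ G hG).1] at a2
          exact ⟨by omega, by omega⟩
        have hGK : ∀ G ∈ Gs, hd G K = 0 ∧ xd G K = 0 := by
          intro G hG
          have a1 := (S1 G).1
          rw [(hGE G hG).1] at a1
          have b1 : hd G K = 0 := by omega
          refine ⟨b1, ?_⟩
          have e1 := hEUL Q mu G K
          have e2 := hEUL Q mu G E
          have e3 := hEUL Q mu G J
          rw [d1, eul_add_right] at e2
          rw [(hGE G hG).1, (hGE G hG).2] at e2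
          rw [(hGJ G hG).1, (hGJ G hG).2] at e3
          rw [b1] at e1
          push_cast at e1 e2 e3
          omega
        have hGC : ∀ G ∈ Gs, hd G C = 0 ∧ xd G C = 0 := by
          intro G hG
          have a1 := (S2 G).2.2.1
          rw [(hZ G hG).2] at a1
          have b1 : xd G C = 0 := by omega
          have e1 := hEUL Q mu G C
          have e2 := hEUL Q mu G Z
          have e3 := hEUL Q mu G J
          rw [d2, eul_add_right] at e2
          rw [(hZ G hG).1, (hZ G hG).2] at e2
          rw [(hGJ G hG).1, (hGJ G hG).2] at e3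
          rw [b1] at e1
          push_cast at e1 e2 e3
          exact ⟨by omega, b1⟩
        have hK0 : dm K = 0 := by
          by_contra hK
          have hex : ∃ E' ∈ Es, hd E' K ≠ 0 := by
            by_contra h
            push Not at h
            exact hK (claim hEUL hLIN Es Gs hB hX hH hl K hGK h)
          obtain ⟨E', hE', hE'K⟩ := hex
          obtain ⟨i₁, hi₁⟩ := List.mem_iff_get.1 hE'
          have hE'E : hd E' E ≠ 0 := by
            have := (S1 E').1
            omega
          have hXE : Es.Pairwise Xp := (List.pairwise_append.1 hX).1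
          have heq : i₁ = i₀ := by
            by_contra hne
            rcases lt_or_gt_of_ne hne with h | h
            · have := List.pairwise_iff_get.1 hH i₁ i₀ h
              rw [hi₁, hi₀] at this
              exact hE'E this
            · have := (List.pairwise_iff_get.1 hXE i₀ i₁ h).1
              rw [hi₁, hi₀] at this
              exact hE'E this
          rw [heq, hi₀] at hi₁
          subst hi₁
          exact hJ (hSUB Q mu K E J (hB E (by simp [hE])) s1 hE'K)
        have hJE : dm J = dm E := by rw [d1, hK0, zero_add]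
        have htd : td C < td Z := by
          have h1 := td_cast Z
          have h2 := td_cast C
          have h3 := td_cast J
          rw [d2] at h1
          simp only [Pi.add_apply, Finset.sum_add_distrib] at h1
          have h4 : td J ≠ 0 := by
            intro h
            apply hJ
            unfold td at h
            rw [Finset.sum_eq_zero_iff] at h
            funext x
            simp only [dm, h x (Finset.mem_univ x), Nat.cast_zero, Pi.zero_apply]
          omega
        obtain ⟨c, hc⟩ := ih C (by omega) hGC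
        refine ⟨fun i => c i + if i = i₀ then 1 else 0, ?_⟩
        rw [d2, hJE, hc]
        have : ∀ i, (((c i + if i = i₀ then 1 else 0 : ℕ) : ℤ)) • dm (Es.get i) =
            (c i : ℤ) • dm (Es.get i) + if i = i₀ then dm (Es.get i) else 0 := by
          intro i
          push_cast
          rw [add_smul]
          by_cases h : i = i₀
          · simp [h]
          · simp [h]
        simp_rw [this]
        rw [Finset.sum_add_distrib, Finset.sum_ite_eq', if_pos (Finset.mem_univ _), hi₀, add_comm]
  intro Z hZ
  exact main (td Z) Z le_rfl hZ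

end Pool.Agent.Lib.MP_20db89_co.AK
end

section
set_option autoImplicit false

namespace Pool.Agent.Lib.MP_20db89_co.AK

namespace FRTM

open TensorProduct

variable {A I A' I' : Type} [CommRing A] [Fintype I] [DecidableEq I]
  [CommRing A'] [Fintype I'] [DecidableEq I'] (R : FRing A I) (R' : FRing A' I')

/-- the basis of the tensor product -/
noncomputable def bs : Module.Basis (I × I') ℤ (A ⊗[ℤ] A') := R.b.tensorProduct R'.b

theorem bs_repr (a : A) (a' : A') (p : I × I') :
    (bs R R').repr (a ⊗ₜ[ℤ] a') p = R.b.repr a p.1 * R'.b.repr a' p.2 := by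
  obtain ⟨i, j⟩ := p
  have h := Module.Basis.tensorProduct_repr_tmul_apply R.b R'.b a a' i j
  rw [smul_eq_mul, mul_comm] at h
  exact h

theorem bs_apply (p : I × I') : bs R R' p = R.b p.1 ⊗ₜ[ℤ] R'.b p.2 :=
  Module.Basis.tensorProduct_apply' _ _ _

theorem bs_mul (p q : I × I') : bs R R' p * bs R R' q =
    (R.b p.1 * R.b q.1) ⊗ₜ[ℤ] (R'.b p.2 * R'.b q.2) := by
  rw [bs_apply, bs_apply, Algebra.TensorProduct.tmul_mul_tmul]

/-- the tensor product of fusion rings -/
noncomputable def SS : FRing (A ⊗[ℤ] A') (I × I') where
  b := bs R R'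
  one := (R.one, R'.one)
  b_one := by
    rw [bs_apply, R.b_one, R'.b_one]
    rfl
  nonneg u v w := by
    rw [bs_mul, bs_repr]
    exact mul_nonneg (R.nonneg _ _ _) (R'.nonneg _ _ _)
  dual u v := by
    rw [bs_mul, bs_repr, R.dual, R'.dual]
    by_cases h1 : u.1 = v.1
    · by_cases h2 : u.2 = v.2
      · rw [if_pos h1, if_pos h2, if_pos (Prod.ext h1 h2), mul_one]
      · rw [if_neg h2, mul_zero, if_neg (fun e => h2 (congrArg Prod.snd e))]
    · rw [if_neg h1, zero_mul, if_neg (fun e => h1 (congrArg Prod.fst e))]

end FRTM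

theorem specFRT : SpecFRT := by
  intro A I A' I' _ _ _ _ _ _ R R'
  refine ⟨TensorProduct ℤ A A', inferInstance, FRTM.SS R R',
    (Algebra.TensorProduct.includeLeft : A →ₐ[ℤ] TensorProduct ℤ A A').toRingHom,
    (Algebra.TensorProduct.includeRight : A' →ₐ[ℤ] TensorProduct ℤ A A').toRingHom, ?_, ?_⟩
  · intro a ha p
    show 0 ≤ (FRTM.bs R R').repr (a ⊗ₜ[ℤ] (1 : A')) p
    rw [FRTM.bs_repr]
    refine mul_nonneg (ha _) ?_
    rw [← R'.b_one, R'.b.repr_self, Finsupp.single_apply]
    split_ifs <;> norm_num
  · intro a ha p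
    show 0 ≤ (FRTM.bs R R').repr ((1 : A) ⊗ₜ[ℤ] a) p
    rw [FRTM.bs_repr]
    refine mul_nonneg ?_ (ha _)
    rw [← R.b_one, R.b.repr_self, Finsupp.single_apply]
    split_ifs <;> norm_num

end Pool.Agent.Lib.MP_20db89_co.AK
end

section
set_option autoImplicit false

namespace Pool.Agent.Lib.MP_20db89_co.AK

namespace FRM

/-- the trivial fusion ring -/
noncomputable def triv : FRing ℤ Unit where
  b := Module.Basis.singleton Unit ℤ
  one := ()
  b_one := by simp
  nonneg u v w := by simp
  dual u v := by simp

theorem ch_two_eq (j : ℕ) : ch (2 : ℤ) j = j + 1 := by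
  have h : ch (2 : ℤ) j = j + 1 ∧ ch (2 : ℤ) (j + 1) = (j + 1 : ℕ) + 1 := by
    induction j with
    | zero => exact ⟨by simp [ch], by simp [ch]⟩
    | succ n ih =>
      refine ⟨ih.2, ?_⟩
      rw [FRSM.ch_two, ih.1, ih.2]
      push_cast
      ring
  exact h.1

end FRM

theorem specFR (hFRS : SpecFRS) (hFRT : SpecFRT) : SpecFR := by
  intro N
  induction N with
  | zero =>
    refine ⟨ℤ, Unit, inferInstance, inferInstance, inferInstance, FRM.triv, fun _ => 2, ?_, ?_⟩
    · intro j i
      show 0 ≤ (Module.Basis.singleton Unit ℤ).repr (ch (2 : ℤ) j) i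
      rw [Module.Basis.singleton_repr, FRM.ch_two_eq]
      positivity
    · intro m h2 h0
      omega
  | succ N ih =>
    by_cases hN : N + 1 < 2
    · obtain ⟨A, I, i1, i2, i3, R, X, h0, _⟩ := ih
      exact ⟨A, I, i1, i2, i3, R, X, h0, fun m h2 hm => by omega⟩
    obtain ⟨A, I, i1, i2, i3, R, X, h0, h⟩ := ih
    obtain ⟨A', I', j1, j2, j3, R', x, g0, g⟩ := hFRS (N + 1) (by omega)
    obtain ⟨C, k1, S, f, e, hf, he⟩ := hFRT A I A' I' R R'
    refine ⟨C, I × I', k1, inferInstance, inferInstance, S,
      fun m => if m = N + 1 then e x else f (X m), ?_, ?_⟩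
    · intro j
      have : (if 0 = N + 1 then e x else f (X 0)) = f (X 0) := if_neg (by omega)
      simp only [this]
      rw [← FRSM.ch_map]
      exact hf _ (h0 j)
    · intro m h2 hm
      by_cases hmN : m = N + 1
      · subst hmN
        simp only [if_true]
        rw [← FRSM.ch_map, g0, map_zero]
        refine ⟨rfl, fun j hj => ?_⟩
        rw [← FRSM.ch_map]
        exact he _ (g j hj)
      · have := h m h2 (by omega)
        simp only [if_neg hmN]
        rw [← FRSM.ch_map, this.1, map_zero]
        refine ⟨rfl, fun j hj => ?_⟩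
        rw [← FRSM.ch_map]
        exact hf _ (this.2 j hj)

end Pool.Agent.Lib.MP_20db89_co.AK
end

section
/-!
# Module GAP: a factorization without descents outside the chain of `L'` is at most `L'`
-/
set_option autoImplicit false

namespace Pool.Agent.Lib.MP_20db89_co.AK

universe u

namespace GAPM

open VSLM

variable {B W : Type u} [Group W] {M : CoxeterMatrix B} {cs : CoxeterSystem M W} {c : W} {n : ℕ}
  {Ex Hm : W → W → Prop}

/-- a strictly increasing list is lexicographically smaller than its other permutations -/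
theorem lex_perm {α : Type u} (f : α → ℕ) : ∀ (l l' : List α), l.Pairwise (fun a b => f a < f b) →
    l.Perm l' → l ≠ l' → ∀ x y : List α, (l ++ x).map f < (l' ++ y).map f
  | [], l', _, hp, hne => by
      exact absurd (List.nil_perm.1 hp).symm hne
  | a :: t, [], _, hp, hne => by
      exact absurd (List.perm_nil.1 hp) hne
  | a :: t, a' :: t', h, hp, hne => by
      intro x y
      rw [List.cons_append, List.cons_append, List.map_cons, List.map_cons,
        List.cons_lt_cons_iff]
      by_cases e : a = a'
      · subst e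
        right
        refine ⟨rfl, ?_⟩
        exact lex_perm f t t' (List.pairwise_cons.1 h).2 ((List.perm_cons a).1 hp)
          (fun h2 => hne (by rw [h2])) x y
      · left
        have h1 : a' ∈ a :: t := hp.symm.subset List.mem_cons_self
        rcases List.mem_cons.1 h1 with h2 | h2
        · exact absurd h2.symm e
        · exact (List.pairwise_cons.1 h).1 a' h2

theorem lex_append {α : Type u} (f : α → ℕ) : ∀ (l : List α) (x y : List α),
    x.map f < y.map f → (l ++ x).map f < (l ++ y).map f
  | [], x, y, h => h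
  | a :: t, x, y, h => by
      rw [List.cons_append, List.cons_append, List.map_cons, List.map_cons,
        List.cons_lt_cons_iff]
      exact Or.inr ⟨rfl, lex_append f t x y h⟩

theorem sl_append (l l' : List W) : sl cs (l ++ l') = sl cs l + sl cs l' := by
  unfold sl
  rw [List.map_append, List.sum_append]

theorem sl_perm {l l' : List W} (h : l.Perm l') : sl cs l = sl cs l' := by
  unfold sl
  exact (h.map _).sum_eq

theorem isFac_swap {P A A' Q : List W} (h : IsFac cs c n (P ++ A ++ Q))
    (hA' : ∀ t ∈ A', cs.IsReflection t) (hp : A.prod = A'.prod) (hl : A.length = A'.length) :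
    IsFac cs c n (P ++ A' ++ Q) := by
  refine ⟨?_, ?_, ?_⟩
  · intro t ht
    rcases List.mem_append.1 ht with ht | ht
    · rcases List.mem_append.1 ht with ht | ht
      · exact h.1 t (List.mem_append_left _ (List.mem_append_left _ ht))
      · exact hA' t ht
    · exact h.1 t (List.mem_append_right _ ht)
  · rw [List.prod_append, List.prod_append, ← hp, ← List.prod_append, ← List.prod_append]
    exact h.2.1
  · rw [List.length_append, List.length_append, ← hl, ← List.length_append, ← List.length_append]
    exact h.2.2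

/-- an element of the second chain which is a final product of the first one is at the same
position -/
theorem same_pos (hA : Ax cs c n Ex Hm) {P F F' : List W} (hF : IsFac cs c n (P ++ F))
    (hF' : IsFac cs c n (P ++ F')) {j : ℕ} (hj : j ≤ F.length)
    (h : (F.drop j).prod ∈ vs (P ++ F')) : (F.drop j).prod = (F'.drop j).prod := by
  rw [mem_vs] at h
  obtain ⟨q, hq, hq2⟩ := h
  have h1 := hF.2.2
  have h2 := hF'.2.2
  have e0 : ∀ (R : List W) (m : ℕ), (P ++ R).drop (P.length + m) = R.drop m := by
    intro R m
    rw [List.drop_append, List.drop_eq_nil_of_le (by omega : P.length ≤ P.length + m),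
      List.nil_append, Nat.add_sub_cancel_left]
  have h3 : ((P ++ F').drop q).prod = ((P ++ F).drop (P.length + j)).prod := by
    rw [hq2, e0]
  have h4 : q = P.length + j := by
    apply eq_of_drop hA hF' hF (by omega) ?_ h3
    rw [← h1, List.length_append]
    omega
  rw [h4, e0] at hq2
  exact hq2.symm

end GAPM

open VSLM GAPM in
theorem specGAP (hCMP : SpecCMP.{u}) : SpecGAP.{u} := by
  classical
  intro B W _ M cs c n Ex Hm hA L L' f hL hL' _ hord hsp
  have key : ∀ (N : ℕ) (P F F' : List W), F.length ≤ N → IsFac cs c n (P ++ F) →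
      IsFac cs c n (P ++ F') →
      (∀ x ∈ F, ∀ y ∈ F, (Ex x y ∨ Hm y x) → f x < f y) →
      (∀ (A D : List W) (a b : W), F = A ++ a :: b :: D → (b :: D).prod ∉ vs (P ++ F') →
        ¬ Hm a b ∧ (¬ Ex a b → f a < f b)) →
      sl cs F < sl cs F' ∨ (F.Perm F' ∧ (F = F' ∨ F.map f < F'.map f)) := by
    intro N
    induction N with
    | zero =>
      intro P F F' hN hF hF' _ _
      have h1 : F = [] := List.length_eq_zero_iff.1 (by omega)
      have h2 : F'.length = 0 := by
        have h3 := hF.2.2
        have h4 := hF'.2.2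
        rw [List.length_append] at h3 h4
        rw [h1, List.length_nil] at h3
        omega
      have h3 : F' = [] := List.length_eq_zero_iff.1 h2
      right
      rw [h1, h3]
      exact ⟨List.Perm.refl _, Or.inl rfl⟩
    | succ N ih =>
      intro P F F' hN hF hF' hord hsp
      have hlen : F.length = F'.length := by
        have h3 := hF.2.2
        have h4 := hF'.2.2
        rw [List.length_append] at h3 h4
        omega
      have hprod : F.prod = F'.prod := by
        have h3 := hF.2.1
        have h4 := hF'.2.1
        rw [List.prod_append] at h3 h4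
        rw [← h4] at h3
        exact mul_left_cancel h3
      rcases Nat.eq_zero_or_pos F.length with h0 | hpos
      · have h1 : F = [] := List.length_eq_zero_iff.1 h0
        have h3 : F' = [] := List.length_eq_zero_iff.1 (by omega)
        right
        rw [h1, h3]
        exact ⟨List.Perm.refl _, Or.inl rfl⟩
      · have hex : ∃ i, 1 ≤ i ∧ i ≤ F.length ∧ (F.take i).prod = (F'.take i).prod := by
          refine ⟨F.length, hpos, le_refl _, ?_⟩
          rw [List.take_length, hlen, List.take_length]
          exact hprod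
        obtain ⟨hi1, hi2, hi3⟩ := Nat.find_spec hex
        have hmin : ∀ j, j < Nat.find hex → 1 ≤ j → (F.take j).prod ≠ (F'.take j).prod := by
          intro j hj hj1 h
          exact Nat.find_min hex hj ⟨hj1, by omega, h⟩
        generalize Nat.find hex = i at hi1 hi2 hi3 hmin
        have hFs : F.take i ++ F.drop i = F := List.take_append_drop i F
        have hFs' : F'.take i ++ F'.drop i = F' := List.take_append_drop i F'
        -- the two products after the first common point
        have hdp : (F.drop i).prod = (F'.drop i).prod := by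
          have h5 : (F.take i).prod * (F.drop i).prod = (F'.take i).prod * (F'.drop i).prod := by
            rw [List.prod_take_mul_prod_drop, List.prod_take_mul_prod_drop, hprod]
          rw [hi3] at h5
          exact mul_left_cancel h5
        have hadj : (F.take i).IsChain (fun a b => f a < f b) := by
          rw [List.isChain_iff_forall_rel_of_append_cons_cons]
          intro a b A D hAD
          have e1 : F = A ++ a :: b :: (D ++ F.drop i) := by
            conv_lhs => rw [← hFs, hAD]
            simp
          have e2 : F = (A ++ [a]) ++ b :: (D ++ F.drop i) := by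
            conv_lhs => rw [e1]
            simp
          have hl1 : A.length + 2 + D.length = i := by
            have := congrArg List.length hAD
            rw [List.length_take, List.length_append, List.length_cons, List.length_cons] at this
            omega
          have hl2 : (A ++ [a]).length = A.length + 1 := by simp
          have hdrop : F.drop (A.length + 1) = b :: (D ++ F.drop i) := by
            conv_lhs => rw [e2]
            rw [← hl2, List.drop_left]
          have hnot : (b :: (D ++ F.drop i)).prod ∉ vs (P ++ F') := by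
            intro hmem
            rw [← hdrop] at hmem
            have h6 := same_pos hA hF hF' (by omega) hmem
            apply hmin (A.length + 1) (by omega) (by omega)
            have h5 : (F.take (A.length + 1)).prod * (F.drop (A.length + 1)).prod =
                (F'.take (A.length + 1)).prod * (F'.drop (A.length + 1)).prod := by
              rw [List.prod_take_mul_prod_drop, List.prod_take_mul_prod_drop, hprod]
            rw [h6] at h5
            exact mul_right_cancel h5
          obtain ⟨h7, h8⟩ := hsp A (D ++ F.drop i) a b e1 hnot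
          by_cases hE : Ex a b
          · apply hord a _ b _ (Or.inl hE)
            · rw [e1]; simp
            · rw [e1]; simp
          · exact h8 hE
        have hpw : (F.take i).Pairwise (fun a b => f a < f b) := by
          have : IsTrans W (fun a b => f a < f b) := ⟨fun a b d h1 h2 => lt_trans h1 h2⟩
          exact List.isChain_iff_pairwise.1 hadj
        have hcan : (F.take i).Pairwise (fun a b => ¬ Hm a b) := by
          refine List.Pairwise.imp_of_mem ?_ hpw
          intro a b ha hb hab hH
          have := hord b (List.mem_of_mem_take hb) a (List.mem_of_mem_take ha) (Or.inr hH)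
          omega
        have hF3 : IsFac cs c n (P ++ F.take i ++ F.drop i) := by
          rw [List.append_assoc, hFs]; exact hF
        have hF3' : IsFac cs c n (P ++ F'.take i ++ F'.drop i) := by
          rw [List.append_assoc, hFs']; exact hF'
        have hll : (F.take i).length = (F'.take i).length := by
          rw [List.length_take, List.length_take, hlen]
        have hF4 : IsFac cs c n (P ++ F'.take i ++ F.drop i) := by
          apply isFac_swap hF3 ?_ hi3 hll
          intro t ht
          exact hF'.1 t (List.mem_append_right _ (List.mem_of_mem_take ht))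
        have hF5 : IsFac cs c n (P ++ F.take i ++ F'.drop i) := by
          apply isFac_swap hF3' ?_ hi3.symm hll.symm
          intro t ht
          exact hF.1 t (List.mem_append_right _ (List.mem_of_mem_take ht))
        have hcmp := hCMP B W M cs c n Ex Hm hA P (F.take i) (F'.take i) (F.drop i) hF3 hF4 hcan
        have hrec := ih (P ++ F.take i) (F.drop i) (F'.drop i) (by
            rw [List.length_drop]; omega) hF3 hF5
          (fun x hx y hy => hord x (List.mem_of_mem_drop hx) y (List.mem_of_mem_drop hy))
          (by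
            intro A D a b hAD hnot
            have e1 : F = (F.take i ++ A) ++ a :: b :: D := by
              conv_lhs => rw [← hFs, hAD]
              simp
            apply hsp _ _ _ _ e1
            intro hmem
            apply hnot
            have hl2 : (A ++ [a]).length = A.length + 1 := by simp
            have hlA : A.length + 2 + D.length + i = F.length := by
              have := congrArg List.length hAD
              rw [List.length_drop, List.length_append, List.length_cons, List.length_cons] at this
              omega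
            have hdrop : F.drop (i + (A.length + 1)) = b :: D := by
              rw [← List.drop_drop, hAD]
              have : A ++ a :: b :: D = (A ++ [a]) ++ b :: D := by simp
              rw [this, ← hl2, List.drop_left]
            rw [← hdrop] at hmem
            have h6 := same_pos hA hF hF' (by omega) hmem
            rw [← hdrop, h6, ← List.drop_drop, mem_vs]
            refine ⟨(P ++ F.take i).length + (A.length + 1), ?_, ?_⟩
            · simp only [List.length_append, List.length_drop, List.length_take]
              omega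
            · rw [List.drop_append, List.drop_eq_nil_of_le (by omega), List.nil_append,
                Nat.add_sub_cancel_left])
        have hs1 : sl cs F = sl cs (F.take i) + sl cs (F.drop i) := by
          rw [← sl_append, hFs]
        have hs2 : sl cs F' = sl cs (F'.take i) + sl cs (F'.drop i) := by
          rw [← sl_append, hFs']
        have hle2 : sl cs (F.drop i) ≤ sl cs (F'.drop i) := by
          rcases hrec with h | ⟨h, _⟩
          · exact h.le
          · exact (sl_perm h).le
        rcases hcmp with h9 | h9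
        · left; omega
        · have h10 := sl_perm (cs := cs) h9
          rcases hrec with h11 | ⟨h11, h12⟩
          · left; omega
          · right
            constructor
            · rw [← hFs, ← hFs']
              exact h9.append h11
            · by_cases h13 : F.take i = F'.take i
              · rcases h12 with h14 | h14
                · left
                  rw [← hFs, ← hFs', h13, h14]
                · right
                  have := lex_append f (F.take i) _ _ h14
                  rw [hFs, h13, hFs'] at this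
                  exact this
              · right
                have := lex_perm f _ _ hpw h9 h13 (F.drop i) (F'.drop i)
                rw [hFs, hFs'] at this
                exact this
  exact key L.length [] L L' (le_refl _) hL hL' hord (fun A D a b h1 h2 => hsp A D a b h1 h2)

end Pool.Agent.Lib.MP_20db89_co.AK
end

section
set_option autoImplicit false

/-!
# Module HRB
-/

namespace Pool.Agent.Lib.MP_20db89_co.AK

universe u

namespace HRBM

variable {B W : Type u} [Fintype B] [DecidableEq B] [Group W] {M : CoxeterMatrix B}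
  {cs : CoxeterSystem M W} {A I : Type} [CommRing A] [Fintype I] [DecidableEq I] {r : RD cs A I}
  {ω : List B}

lemma hd_sub_xd (hEUL : SpecEUL.{u}) (hCOE : SpecCOE.{u}) {c d : W} {j k : I}
    {Ec Ed : Rp (B × I) (r.mu ω)} (hc : dm Ec = r.co (r.R.b j • r.rt c))
    (hd' : dm Ed = r.co (r.R.b k • r.rt d)) :
    (hd Ec Ed : ℤ) - (xd Ec Ed : ℤ) =
      r.R.b.repr (r.R.b j * eA r.X ω (r.rt c) (r.rt d) * r.R.b k) r.R.one := by
  rw [hEUL, hc, hd', hCOE, eA_smul_left, eA_smul_right]
  congr 2
  ring

/-- the data of a pair of members -/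
structure Pr (r : RD cs A I) (ω : List B) (c d : W) (E : W → I → Rp (B × I) (r.mu ω)) : Prop where
  num : ∀ j k : I, (hd (E c j) (E d k) : ℤ) - (xd (E c j) (E d k) : ℤ) =
    r.R.b.repr (r.R.b j * eA r.X ω (r.rt c) (r.rt d) * r.R.b k) r.R.one
  zero : ∀ j k : I, hd (E c j) (E d k) ≠ 0 → xd (E c j) (E d k) = 0
  sgn : r.R.Nn (eA r.X ω (r.rt c) (r.rt d)) ∨ r.R.Nn (- eA r.X ω (r.rt c) (r.rt d))
  xp : ∀ j k : I, Xp (E c j) (E d k)

section

variable {c d : W} {E : W → I → Rp (B × I) (r.mu ω)}

lemma b_ne (R : FRing A I) (hRNG : SpecRNG) (j : I) : R.b j ≠ 0 := by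
  intro h
  have h1 := R.b.repr_self j
  rw [h, map_zero] at h1
  have h2 := DFunLike.congr_fun h1 j
  rw [Finsupp.single_eq_same] at h2
  simp at h2

lemma nn_bb (hRNG : SpecRNG) (R : FRing A I) {e : A} (he : R.Nn e) (j k : I) :
    0 ≤ R.b.repr (R.b j * e * R.b k) R.one :=
  (hRNG A I R).2.1 _ _ ((hRNG A I R).2.1 _ _ ((hRNG A I R).2.2.2.1.1 j) he)
    ((hRNG A I R).2.2.2.1.1 k) R.one

lemma exists_right (hRNG : SpecRNG) (R : FRing A I) {e : A} (he : R.Nn e) (he0 : e ≠ 0) (j : I) :
    ∃ k, 0 < R.b.repr (R.b j * e * R.b k) R.one := by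
  have h1 : R.b j * e ≠ 0 :=
    (hRNG A I R).2.2.2.2.2.2.2.1 _ _ ((hRNG A I R).2.2.2.1.1 j) he (b_ne R hRNG j) he0
  by_contra hcon
  push Not at hcon
  apply h1
  apply R.b.repr.injective
  ext k
  rw [map_zero, Finsupp.zero_apply]
  have h2 : R.b.repr (R.b j * e) k = R.b.repr (R.b j * e * R.b k) R.one := (hRNG A I R).1 _ _
  have h3 := hcon k
  have h4 := nn_bb hRNG R he j k
  omega

lemma exists_left (hRNG : SpecRNG) (R : FRing A I) {e : A} (he : R.Nn e) (he0 : e ≠ 0) (k : I) :
    ∃ j, 0 < R.b.repr (R.b j * e * R.b k) R.one := by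
  obtain ⟨j, hj⟩ := exists_right hRNG R he he0 k
  refine ⟨j, ?_⟩
  have e1 : R.b j * e * R.b k = R.b k * e * R.b j := by ring
  rw [e1]
  exact hj

lemma neg_bb (R : FRing A I) (e : A) (j k : I) :
    R.b.repr (R.b j * (-e) * R.b k) R.one = - R.b.repr (R.b j * e * R.b k) R.one := by
  have e1 : R.b j * (-e) * R.b k = -(R.b j * e * R.b k) := by ring
  rw [e1, map_neg, Finsupp.neg_apply]

/-- `Hm` gives nonzero maps -/
lemma hm_right (hRNG : SpecRNG) (h : Pr r ω c d E) (hm : r.Hm ω c d) (j : I) :
    ∃ k, hd (E c j) (E d k) ≠ 0 := by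
  obtain ⟨k, hk⟩ := exists_right hRNG r.R hm.1 hm.2 j
  refine ⟨k, ?_⟩
  have h1 := h.num j k
  omega

lemma hm_left (hRNG : SpecRNG) (h : Pr r ω c d E) (hm : r.Hm ω c d) (k : I) :
    ∃ j, hd (E c j) (E d k) ≠ 0 := by
  obtain ⟨j, hj⟩ := exists_left hRNG r.R hm.1 hm.2 k
  refine ⟨j, ?_⟩
  have h1 := h.num j k
  omega

lemma hm_of (hRNG : SpecRNG) (h : Pr r ω c d E) {j k : I} (hne : hd (E c j) (E d k) ≠ 0) :
    r.Hm ω c d := by
  have h1 := h.num j k
  have h2 := h.zero j k hne
  have h3 : eA r.X ω (r.rt c) (r.rt d) ≠ 0 := by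
    intro h0
    rw [h0] at h1
    simp only [mul_zero, zero_mul, map_zero, Finsupp.zero_apply] at h1
    omega
  rcases h.sgn with h4 | h4
  · exact ⟨h4, h3⟩
  · exfalso
    have h5 := nn_bb hRNG r.R h4 j k
    rw [neg_bb] at h5
    omega

lemma ex_right (hRNG : SpecRNG) (h : Pr r ω c d E) (hx : r.Ex ω c d) (j : I) :
    ∃ k, xd (E c j) (E d k) ≠ 0 := by
  obtain ⟨k, hk⟩ := exists_right hRNG r.R hx.1 (neg_ne_zero.2 hx.2) j
  refine ⟨k, ?_⟩
  rw [neg_bb] at hk
  have h1 := h.num j k
  omega

lemma ex_left (hRNG : SpecRNG) (h : Pr r ω c d E) (hx : r.Ex ω c d) (k : I) :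
    ∃ j, xd (E c j) (E d k) ≠ 0 := by
  obtain ⟨j, hj⟩ := exists_left hRNG r.R hx.1 (neg_ne_zero.2 hx.2) k
  refine ⟨j, ?_⟩
  rw [neg_bb] at hj
  have h1 := h.num j k
  omega

lemma ex_of (hRNG : SpecRNG) (h : Pr r ω c d E) {j k : I} (hne : xd (E c j) (E d k) ≠ 0) :
    r.Ex ω c d := by
  have h1 := h.num j k
  have h2 : hd (E c j) (E d k) = 0 := by
    by_contra hcon
    exact hne (h.zero j k hcon)
  have h3 : eA r.X ω (r.rt c) (r.rt d) ≠ 0 := by
    intro h0
    rw [h0] at h1
    simp only [mul_zero, zero_mul, map_zero, Finsupp.zero_apply] at h1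
    omega
  rcases h.sgn with h4 | h4
  · exfalso
    have h5 := nn_bb hRNG r.R h4 j k
    omega
  · exact ⟨h4, h3⟩

end

/-- all pairs of a factorization -/
lemma pairs (hEUL : SpecEUL.{u}) (hHRN : SpecHRN.{u}) (hCOE : SpecCOE.{u}) (hFAM : SpecFAM.{u})
    (hTRI : SpecTRI.{u}) (r : RD cs A I) (hinj : Function.Injective cs.simple) {ω : List B}
    (hnd : ω.Nodup) (hall : ∀ s : B, s ∈ ω) {L : List W}
    (hL : IsFac cs (cs.wordProd ω) ω.length L) :
    ∃ E : W → I → Rp (B × I) (r.mu ω), (∀ t ∈ L, ∀ i, Brk (E t i)) ∧
      L.Pairwise (fun c d => Pr r ω c d E) := by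
  obtain ⟨E, h1, h2, h3⟩ := hFAM B W M cs A I r hinj ω hnd hall L hL
  refine ⟨E, fun t ht i => (h1 t ht i).2, ?_⟩
  have h4 := hTRI B W M cs A I r hinj ω hnd hall L hL
  refine List.Pairwise.imp_of_mem ?_ (h3.and h4)
  rintro c d hc hd' ⟨h5, h6⟩
  refine ⟨fun j k => hd_sub_xd hEUL hCOE (h1 c hc j).1 (h1 d hd' k).1, ?_, h6.2, h5⟩
  intro j k hne
  exact (hHRN _ _ (E c j) (E d k) (h1 c hc j).2 (h1 d hd' k).2 (h5 j k) hne).1

end HRBM

open HRBM in
theorem specHRB (hRNG : SpecRNG) (hEUL : SpecEUL.{u}) (hHRN : SpecHRN.{u}) (hCOE : SpecCOE.{u})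
    (hFAM : SpecFAM.{u}) (hTRI : SpecTRI.{u}) : SpecHRB.{u} := by
  intro B W _ _ _ M cs A I _ _ _ r hinj ω hnd hall L₁ L₂ L₃ a b hL hHm
  obtain ⟨E, hB, hP⟩ := pairs hEUL hHRN hCOE hFAM hTRI r hinj hnd hall hL
  -- the pairs
  have hP' := hP
  rw [show L₁ ++ a :: L₂ ++ b :: L₃ = L₁ ++ (a :: (L₂ ++ b :: L₃)) by simp] at hP'
  rw [List.pairwise_append] at hP'
  obtain ⟨-, hP2, hP1⟩ := hP'
  rw [List.pairwise_cons] at hP2
  obtain ⟨haR, hP3⟩ := hP2
  rw [List.pairwise_append] at hP3
  obtain ⟨-, hP4, hP5⟩ := hP3
  rw [List.pairwise_cons] at hP4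
  have hab : Pr r ω a b E := haR b (by simp)
  have hax2 : ∀ x ∈ L₂, Pr r ω a x E := fun x hx => haR x (by simp [hx])
  have hax3 : ∀ x ∈ L₃, Pr r ω a x E := fun x hx => haR x (by simp [hx])
  have hxa : ∀ x ∈ L₁, Pr r ω x a E := fun x hx => hP1 x hx a (by simp)
  have hxb1 : ∀ x ∈ L₁, Pr r ω x b E := fun x hx => hP1 x hx b (by simp)
  have hxb2 : ∀ x ∈ L₂, Pr r ω x b E := fun x hx => hP5 x hx b (by simp)
  have hbx : ∀ x ∈ L₃, Pr r ω b x E := fun x hx => hP4.1 x hx
  obtain ⟨i, hi⟩ := hm_right hRNG hab hHm r.R.one
  obtain ⟨-, hme⟩ := hHRN _ _ (E a r.R.one) (E b i) (hB a (by simp) _) (hB b (by simp) _)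
    (hab.xp _ _) hi
  rcases hme with ⟨hmono, _⟩ | ⟨hepi, _⟩
  · left
    refine ⟨?_, ?_, ?_⟩
    · intro x hx hEx
      obtain ⟨k, hk⟩ := ex_right hRNG (hax2 x hx) hEx r.R.one
      have h1 := (hmono (E x k)).1
      have h2 := ((hxb2 x hx).xp k i).2
      omega
    · intro x hx hEx
      obtain ⟨k, hk⟩ := ex_right hRNG (hax3 x hx) hEx r.R.one
      have h1 := (hmono (E x k)).1
      exact ex_of hRNG (hbx x hx) (j := i) (k := k) (by omega)
    · intro x hx hHx
      obtain ⟨j, hj⟩ := hm_left hRNG (hxa x hx) hHx r.R.one
      have h1 := (hmono (E x j)).2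
      exact hm_of hRNG (hxb1 x hx) (j := j) (k := i) (by omega)
  · right
    refine ⟨?_, ?_, ?_⟩
    · intro x hx hEx
      obtain ⟨j, hj⟩ := ex_left hRNG (hxb2 x hx) hEx i
      have h1 := (hepi (E x j)).1
      have h2 := ((hax2 x hx).xp r.R.one j).2
      omega
    · intro x hx hEx
      obtain ⟨j, hj⟩ := ex_left hRNG (hxb1 x hx) hEx i
      have h1 := (hepi (E x j)).1
      exact ex_of hRNG (hxa x hx) (j := j) (k := r.R.one) (by omega)
    · intro x hx hHx
      obtain ⟨k, hk⟩ := hm_right hRNG (hbx x hx) hHx i
      have h1 := (hepi (E x k)).2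
      exact hm_of hRNG (hax3 x hx) (j := r.R.one) (k := k) (by omega)

end Pool.Agent.Lib.MP_20db89_co.AK
end

section
/-!
# MP_20db89, module HUR: reflection factorizations are Hurwitz equivalent
-/
set_option autoImplicit false

namespace Pool.Agent.Lib.MP_20db89_co.AK

universe u

namespace HURM

variable {B W : Type u} [Group W] {M : CoxeterMatrix B} (cs : CoxeterSystem M W)

/-- the sum of the lengths of the products of the final segments -/
noncomputable def Ph : List W → ℕ
  | [] => 0
  | t :: L => cs.length (t :: L).prod + Ph L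

theorem Ph_append (P : List W) {R R' : List W} (hp : R'.prod = R.prod) (h : Ph cs R' < Ph cs R) :
    Ph cs (P ++ R') < Ph cs (P ++ R) := by
  induction P with
  | nil => exact h
  | cons t P ih =>
    rw [List.cons_append, List.cons_append]
    show cs.length (t :: (P ++ R')).prod + Ph cs (P ++ R') <
      cs.length (t :: (P ++ R)).prod + Ph cs (P ++ R)
    have : (t :: (P ++ R')).prod = (t :: (P ++ R)).prod := by
      simp only [List.prod_cons, List.prod_append, hp]
    rw [this]
    omega

theorem Ph_move {P Q : List W} {a b a' b' : W} (h : a' * b' = a * b)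
    (hl : cs.length (b' * Q.prod) < cs.length (b * Q.prod)) :
    Ph cs (P ++ a' :: b' :: Q) < Ph cs (P ++ a :: b :: Q) := by
  have hp : (a' :: b' :: Q).prod = (a :: b :: Q).prod := by
    simp only [List.prod_cons, ← mul_assoc, h]
  apply Ph_append cs P hp
  show cs.length (a' :: b' :: Q).prod + (cs.length (b' :: Q).prod + Ph cs Q) <
    cs.length (a :: b :: Q).prod + (cs.length (b :: Q).prod + Ph cs Q)
  rw [hp, List.prod_cons (a := b'), List.prod_cons (a := b)]
  omega

theorem wordProd_split (ω : List B) {q : ℕ} (hq : q < ω.length) :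
    cs.wordProd ω = cs.wordProd (ω.take q) * cs.simple ω[q] * cs.wordProd (ω.drop (q + 1)) := by
  conv_lhs => rw [← List.take_append_drop q ω, List.drop_eq_getElem_cons hq]
  rw [cs.wordProd_append, cs.wordProd_cons, mul_assoc]

/-- deleting two letters -/
theorem del_two {χ : List B} {i j : ℕ} (hij : i < j) (hj : j < χ.length) {c x : W}
    (hc : c = cs.wordProd (χ.take i) * cs.simple (χ[i]'(hij.trans hj)) * (cs.wordProd (χ.take i))⁻¹)
    (hx : x = cs.wordProd (χ.eraseIdx j)) : cs.length (c * x) < χ.length := by
  have hlen : (χ.eraseIdx j).length = χ.length - 1 := List.length_eraseIdx_of_lt hj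
  have hi : i < (χ.eraseIdx j).length := by omega
  have e1 := wordProd_split cs (χ.eraseIdx j) hi
  have e2 : (χ.eraseIdx j).take i = χ.take i := by
    rw [List.take_eraseIdx_eq_take_of_le]
    omega
  have e3 : (χ.eraseIdx j)[i] = χ[i]'(hij.trans hj) := List.getElem_eraseIdx_of_lt hi hij
  rw [e2, e3] at e1
  have e4 : c * x = cs.wordProd (χ.take i) * cs.wordProd ((χ.eraseIdx j).drop (i + 1)) := by
    rw [hc, hx, e1]
    have hs : cs.simple (χ[i]'(hij.trans hj)) * cs.simple (χ[i]'(hij.trans hj)) = 1 :=
      cs.simple_mul_simple_self _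
    calc cs.wordProd (χ.take i) * cs.simple (χ[i]'(hij.trans hj)) * (cs.wordProd (χ.take i))⁻¹ *
          (cs.wordProd (χ.take i) * cs.simple (χ[i]'(hij.trans hj)) *
            cs.wordProd ((χ.eraseIdx j).drop (i + 1)))
        = cs.wordProd (χ.take i) * (cs.simple (χ[i]'(hij.trans hj)) *
            cs.simple (χ[i]'(hij.trans hj))) * cs.wordProd ((χ.eraseIdx j).drop (i + 1)) := by group
      _ = _ := by rw [hs, mul_one]
  rw [e4]
  have t1 := cs.length_mul_le (cs.wordProd (χ.take i)) (cs.wordProd ((χ.eraseIdx j).drop (i + 1)))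
  have t2 := cs.length_wordProd_le (χ.take i)
  have t3 := cs.length_wordProd_le ((χ.eraseIdx j).drop (i + 1))
  rw [List.length_take] at t2
  rw [List.length_drop, hlen] at t3
  omega

/-- the path of the partial products is increasing -/
def Inc (L : List W) : Prop := ∀ (P : List W) (a : W) (Q : List W), L = P ++ a :: Q →
  cs.length Q.prod < cs.length (a * Q.prod)

theorem inc_or_peak (L : List W) (hL : ∀ t ∈ L, cs.IsReflection t) : Inc cs L ∨
    ∃ (P : List W) (a b : W) (Q : List W), L = P ++ a :: b :: Q ∧
      cs.length Q.prod < cs.length (b * Q.prod) ∧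
      cs.length (a * (b * Q.prod)) < cs.length (b * Q.prod) := by
  induction L with
  | nil =>
    left
    intro P a Q h
    have := congrArg List.length h
    simp at this
  | cons t L ih =>
    rcases ih (fun s hs => hL s (List.mem_cons_of_mem _ hs)) with h | ⟨P, a, b, Q, h1, h2, h3⟩
    · have hne := (hL t (by simp)).length_mul_right_ne L.prod
      rcases lt_or_gt_of_ne hne with h4 | h4
      · -- a peak, or `L = []`
        right
        cases L with
        | nil =>
          simp only [List.prod_nil, cs.length_one] at h4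
          omega
        | cons b Q =>
          refine ⟨[], t, b, Q, rfl, h [] b Q rfl, ?_⟩
          rw [List.prod_cons] at h4
          exact h4
      · left
        intro P a Q heq
        cases P with
        | nil =>
          rw [List.nil_append, List.cons.injEq] at heq
          obtain ⟨rfl, rfl⟩ := heq
          exact h4
        | cons p P =>
          rw [List.cons_append, List.cons.injEq] at heq
          exact h P a Q heq.2
    · right
      refine ⟨t :: P, a, b, Q, ?_, h2, h3⟩
      rw [h1, List.cons_append]

theorem HM_cons {L L' : List W} (a : W) (h : HM L L') : HM (a :: L) (a :: L') := by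
  cases h with
  | left P Q b c => exact HM.left (a :: P) Q b c
  | right P Q b c => exact HM.right (a :: P) Q b c

theorem RT_cons {L L' : List W} (a : W) (h : Relation.ReflTransGen HM L L') :
    Relation.ReflTransGen HM (a :: L) (a :: L') := by
  induction h with
  | refl => exact Relation.ReflTransGen.refl
  | tail _ h2 ih => exact ih.tail (HM_cons a h2)

/-- moving a simple reflection to the front -/
theorem to_front (i : B) (β : List W) (α : List B) :
    Relation.ReflTransGen HM (α.map cs.simple ++ cs.simple i :: β)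
      ((cs.wordProd α * cs.simple i * (cs.wordProd α)⁻¹) :: (α.map cs.simple ++ β)) := by
  induction α with
  | nil =>
    simp only [List.map_nil, List.nil_append, cs.wordProd_nil, one_mul, inv_one, mul_one]
    exact Relation.ReflTransGen.refl
  | cons k α ih =>
    rw [List.map_cons, List.cons_append]
    refine (RT_cons (cs.simple k) ih).tail ?_
    have h := HM.left ([] : List W) (α.map cs.simple ++ β) (cs.simple k)
      (cs.wordProd α * cs.simple i * (cs.wordProd α)⁻¹)
    rw [List.nil_append, List.nil_append] at h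
    have e : cs.wordProd (k :: α) * cs.simple i * (cs.wordProd (k :: α))⁻¹ =
        cs.simple k * (cs.wordProd α * cs.simple i * (cs.wordProd α)⁻¹) * (cs.simple k)⁻¹ := by
      rw [cs.wordProd_cons]
      group
    rw [e]
    exact h

theorem inc_case (hinj : Function.Injective cs.simple) (L : List W) :
    ∀ ω : List B, ω.Nodup → (∀ t ∈ L, cs.IsReflection t) → L.prod = cs.wordProd ω → Inc cs L →
      L.length = ω.length ∧ Relation.ReflTransGen HM (ω.map cs.simple) L := by
  induction L with
  | nil =>
    intro ω hω _ hp _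
    have h1 := (nodup_isReduced cs hinj hω).eq
    rw [← hp, List.prod_nil, cs.length_one] at h1
    have h2 : ω = [] := List.length_eq_zero_iff.mp h1.symm
    subst h2
    exact ⟨rfl, Relation.ReflTransGen.refl⟩
  | cons t L ih =>
    intro ω hω hL hp hinc
    have ht := hL t (by simp)
    have h1 : L.prod = t * cs.wordProd ω := by
      rw [← hp, List.prod_cons, ← mul_assoc, ht.mul_self, one_mul]
    have h2 : cs.length (t * cs.wordProd ω) < cs.length (cs.wordProd ω) := by
      rw [← h1, ← hp, List.prod_cons]
      exact hinc [] t L rfl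
    obtain ⟨q, hq, hqt, hdel⟩ := exchange_left cs ω ht h2
    have h3 : (ω.eraseIdx q).Nodup := hω.sublist (List.eraseIdx_sublist ω q)
    obtain ⟨h4, h5⟩ := ih (ω.eraseIdx q) h3 (fun s hs => hL s (List.mem_cons_of_mem _ hs))
      (h1.trans hdel) (fun P a Q h => hinc (t :: P) a Q (by rw [h, List.cons_append]))
    refine ⟨?_, ?_⟩
    · rw [List.length_cons, h4, List.length_eraseIdx_of_lt hq]
      omega
    · have h6 := to_front cs (ω[q]) ((ω.drop (q + 1)).map cs.simple) (ω.take q)
      have e1 : (ω.take q).map cs.simple ++ cs.simple ω[q] :: (ω.drop (q + 1)).map cs.simple =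
          ω.map cs.simple := by
        conv_rhs => rw [← List.take_append_drop q ω, List.drop_eq_getElem_cons hq]
        rw [List.map_append, List.map_cons]
      have e2 : (ω.take q).map cs.simple ++ (ω.drop (q + 1)).map cs.simple =
          (ω.eraseIdx q).map cs.simple := by
        rw [List.eraseIdx_eq_take_drop_succ, List.map_append]
      rw [e1, e2, ← hqt] at h6
      exact h6.trans (RT_cons t h5)

/-- the main induction -/
theorem main (hinj : Function.Injective cs.simple) {ω : List B} (hω : ω.Nodup) (n : ℕ) :
    ∀ (m : ℕ) (L : List W), L.length = n → Ph cs L = m → (∀ t ∈ L, cs.IsReflection t) →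
      L.prod = cs.wordProd ω →
      ω.length ≤ L.length ∧
        (L.length = ω.length → Relation.ReflTransGen HM (ω.map cs.simple) L) := by
  induction n using Nat.strong_induction_on with
  | _ n ihn =>
  intro m
  induction m using Nat.strong_induction_on with
  | _ m ihm =>
  intro L hn hm hL hp
  rcases inc_or_peak cs L hL with hinc | ⟨P, a, b, Q, rfl, h2, h3⟩
  · obtain ⟨h4, h5⟩ := inc_case cs hinj L ω hω hL hp hinc
    exact ⟨h4.ge, fun _ => h5⟩
  · have ha : cs.IsReflection a := hL a (by simp)
    have hb : cs.IsReflection b := hL b (by simp)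
    set x : W := b * Q.prod with hx
    have hbx : b * x = Q.prod := by rw [hx, ← mul_assoc, hb.mul_self, one_mul]
    obtain ⟨χ, hred, hχ⟩ := cs.exists_isReduced x
    have hlen : χ.length = cs.length x := by rw [hχ]; exact hred.eq.symm
    rw [← hbx] at h2
    rw [hχ] at h2 h3
    obtain ⟨i, hi, hia, hdi⟩ := exchange_left cs χ ha h3
    obtain ⟨j, hj, hjb, hdj⟩ := exchange_left cs χ hb h2
    rw [← hχ] at h2 h3 hdi hdj
    by_cases hij : i = j
    · -- `a = b`
      have hab : a = b := by
        subst hij
        rw [hia, hjb]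
      subst hab
      have hp' : (P ++ Q).prod = cs.wordProd ω := by
        rw [← hp]
        simp only [List.prod_append, List.prod_cons]
        rw [← mul_assoc a a, ha.mul_self, one_mul]
      have hlen' : (P ++ Q).length + 2 = n := by
        rw [← hn]
        simp only [List.length_append, List.length_cons]
        omega
      have h4 := (ihn _ (by omega) _ (P ++ Q) rfl rfl
        (fun t ht => hL t (by
          rcases List.mem_append.1 ht with ht | ht
          · simp [ht]
          · simp [ht])) hp').1
      refine ⟨by omega, fun h => absurd h (by omega)⟩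
    · rcases lt_or_gt_of_ne hij with h4 | h4
      · -- `i < j`: use `a` first on `b x`
        have h5 : cs.length (a * (b * x)) < χ.length := del_two cs h4 hj hia hdj
        have hHM : HM (P ++ a :: b :: Q) (P ++ (a * b * a⁻¹) :: a :: Q) := HM.left P Q a b
        have h6 : Ph cs (P ++ (a * b * a⁻¹) :: a :: Q) < Ph cs (P ++ a :: b :: Q) := by
          apply Ph_move
          · group
          · rw [← hx, ← hbx]
            omega
        have h7 := ihm _ (by omega) (P ++ (a * b * a⁻¹) :: a :: Q)
          (by rw [hHM.length_eq]; exact hn) rfl (hHM.isReflection hL)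
          (by rw [hHM.prod_eq]; exact hp)
        rw [hHM.length_eq] at h7
        exact ⟨h7.1, fun h => (h7.2 h).tail hHM.symm⟩
      · have h5 : cs.length (b * (a * x)) < χ.length := del_two cs h4 hi hjb hdi
        have hHM : HM (P ++ a :: b :: Q) (P ++ b :: (b⁻¹ * a * b) :: Q) := HM.right P Q a b
        have h6 : Ph cs (P ++ b :: (b⁻¹ * a * b) :: Q) < Ph cs (P ++ a :: b :: Q) := by
          apply Ph_move
          · group
          · have e : b⁻¹ * a * b * Q.prod = b * (a * x) := by
              rw [hb.inv, hx]
              group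
            rw [← hx, e]
            omega
        have h7 := ihm _ (by omega) (P ++ b :: (b⁻¹ * a * b) :: Q)
          (by rw [hHM.length_eq]; exact hn) rfl (hHM.isReflection hL)
          (by rw [hHM.prod_eq]; exact hp)
        rw [hHM.length_eq] at h7
        exact ⟨h7.1, fun h => (h7.2 h).tail hHM.symm⟩

end HURM

theorem specHUR : SpecHUR.{u} := by
  intro B W _ M cs hinj ω hω L hL hp
  exact HURM.main cs hinj hω L.length (HURM.Ph cs L) L rfl rfl hL hp

end Pool.Agent.Lib.MP_20db89_co.AK
end

section
set_option autoImplicit false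

/-!
# Module LIN
-/

namespace Pool.Agent.Lib.MP_20db89_co.AK

universe u

namespace LINM

variable {Q : Type u} [Fintype Q] {mu : Q → Q → ℕ}

lemma eul_sum_right {ι : Type} (s : Finset ι) (x : Q → ℤ) (c : ι → ℤ) (v : ι → Q → ℤ) :
    eul mu x (∑ i ∈ s, c i • v i) = ∑ i ∈ s, c i * eul mu x (v i) := by
  classical
  induction s using Finset.induction_on with
  | empty => simp [eul_zero_right]
  | insert a s ha ih =>
    rw [Finset.sum_insert ha, Finset.sum_insert ha, eul_add_right, eul_smul_right, ih]

lemma indep (hEUL : SpecEUL.{u}) {Es : List (Rp Q mu)} (hB : ∀ E ∈ Es, Brk E)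
    (hX : Es.Pairwise Xp) (c : Fin Es.length → ℤ) (hc : ∑ i, c i • dm (Es.get i) = 0) :
    ∀ i, c i = 0 := by
  have hlow : ∀ i j : Fin Es.length, i < j → eul mu (dm (Es.get j)) (dm (Es.get i)) = 0 := by
    intro i j hij
    have h1 : Xp (Es.get i) (Es.get j) := List.pairwise_iff_get.1 hX i j hij
    rw [← hEUL Q mu, h1.1, h1.2]
    simp
  have hdiag : ∀ i : Fin Es.length, eul mu (dm (Es.get i)) (dm (Es.get i)) = 1 := by
    intro i
    have h1 : Brk (Es.get i) := hB _ (List.get_mem Es i)
    rw [← hEUL Q mu, h1.1, h1.2]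
    simp
  -- descending induction
  have key : ∀ m : ℕ, ∀ j : Fin Es.length, Es.length - 1 - j.1 = m → c j = 0 := by
    intro m
    induction m using Nat.strong_induction_on with
    | _ m ih =>
      intro j hj
      have h1 : eul mu (dm (Es.get j)) (∑ i, c i • dm (Es.get i)) = 0 := by
        rw [hc, eul_zero_right]
      rw [eul_sum_right, Finset.sum_eq_single j, hdiag, mul_one] at h1
      · exact h1
      · intro i _ hij
        rcases lt_or_gt_of_ne hij with h2 | h2
        · rw [hlow i j h2, mul_zero]
        · have h3 : c i = 0 := by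
            have := i.2
            have h2' : j.1 < i.1 := h2
            exact ih (Es.length - 1 - i.1) (by omega) i rfl
          rw [h3, zero_mul]
      · intro h
        exact absurd (Finset.mem_univ j) h
  exact fun i => key _ i rfl

end LINM

theorem specLIN (hEUL : SpecEUL.{u}) : SpecLIN.{u} := by
  intro Q _ mu Es hB hX
  refine ⟨fun c hc => LINM.indep hEUL hB hX c hc, ?_⟩
  intro hlen d
  have h1 : ¬ LinearIndependent ℤ
      (fun o : Option (Fin Es.length) => o.elim d (fun i => dm (Es.get i))) := by
    intro h
    have h2 := h.fintype_card_le_finrank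
    rw [Module.finrank_fintype_fun_eq_card, Fintype.card_option, Fintype.card_fin] at h2
    omega
  rw [Fintype.not_linearIndependent_iff] at h1
  obtain ⟨g, hg, i, hi⟩ := h1
  rw [Fintype.sum_option] at hg
  simp only [Option.elim_none, Option.elim_some] at hg
  refine ⟨- g none, fun i => g (some i), ?_, ?_⟩
  · intro h0
    have h0' : g none = 0 := by omega
    rw [h0', zero_smul, zero_add] at hg
    have h2 := LINM.indep hEUL hB hX (fun i => g (some i)) hg
    cases i with
    | none => exact hi h0'
    | some i => exact hi (h2 i)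
  · rw [neg_smul]
    exact (eq_neg_of_add_eq_zero_right hg).symm

end Pool.Agent.Lib.MP_20db89_co.AK
end
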