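import Mathlib
import Pool.Agent.Lib.MP_20db89_co.AK.LIN

set_option autoImplicit false

/-!
# Module FAM: every factorization of `c` carries a family of exceptional bricks
-/

namespace Pool.Agent.Lib.MP_20db89_co.AK

universe u

namespace FAMM

section lists

lemma forall₂_comp {α β γ : Type*} {R : α → β → Prop} {S : β → γ → Prop} {T : α → γ → Prop}
    (h : ∀ a b c, R a b → S b c → T a c) : ∀ {l₁ : List α} {l₂ : List β} {l₃ : List γ},
    List.Forall₂ R l₁ l₂ → List.Forall₂ S l₂ l₃ → List.Forall₂ T l₁ l₃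
  | [], [], [], _, _ => List.Forall₂.nil
  | a :: l₁, b :: l₂, c :: l₃, h1, h2 => by
      rw [List.forall₂_cons] at h1 h2 ⊢
      exact ⟨h a b c h1.1 h2.1, forall₂_comp h h1.2 h2.2⟩

lemma forall₂_pairwise {α β : Type*} {R : α → β → Prop} {S : α → α → Prop} {T : β → β → Prop}
    (h : ∀ a b c d, R a c → R b d → S a b → T c d) : ∀ {l₁ : List α} {l₂ : List β},
    List.Forall₂ R l₁ l₂ → l₁.Pairwise S → l₂.Pairwise T
  | [], [], _, _ => List.Pairwise.nil
  | a :: l₁, c :: l₂, h1, h2 => by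
      rw [List.forall₂_cons] at h1
      rw [List.pairwise_cons] at h2 ⊢
      refine ⟨?_, forall₂_pairwise h h1.2 h2.2⟩
      intro d hd
      obtain ⟨i, hi, rfl⟩ := List.mem_iff_getElem.1 hd
      have hl := h1.2.length_eq
      have hi' : i < l₁.length := by omega
      exact h a l₁[i] c _ h1.1 (List.Forall₂.get h1.2 hi' hi) (h2.1 _ (List.getElem_mem _))

lemma forall₂_mem {α β : Type*} {R : α → β → Prop} {S : α → Prop} {T : β → Prop}
    (h : ∀ a c, R a c → S a → T c) : ∀ {l₁ : List α} {l₂ : List β},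
    List.Forall₂ R l₁ l₂ → (∀ a ∈ l₁, S a) → ∀ c ∈ l₂, T c
  | [], [], _, _ => by simp
  | a :: l₁, c :: l₂, h1, h2 => by
      rw [List.forall₂_cons] at h1
      intro d hd
      rcases List.mem_cons.1 hd with rfl | hd
      · exact h a _ h1.1 (h2 a (by simp))
      · exact forall₂_mem h h1.2 (fun b hb => h2 b (by simp [hb])) d hd

/-- a list is the image of any repetition free list of the same length -/
lemma exists_map {α β : Type*} [Nonempty β] : ∀ (K : List α) (Es : List β), K.Nodup →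
    Es.length = K.length → ∃ g : α → β, Es = K.map g
  | [], Es, _, h => ⟨fun _ => Classical.arbitrary β, by
      rw [List.map_nil]
      exact List.length_eq_zero_iff.1 h⟩
  | a :: K, [], _, h => by simp at h
  | a :: K, E :: Es, hK, h => by
      classical
      rw [List.nodup_cons] at hK
      obtain ⟨g, hg⟩ := exists_map K Es hK.2 (by simpa using h)
      refine ⟨fun x => if x = a then E else g x, ?_⟩
      rw [List.map_cons, if_pos rfl, hg]
      congr 1
      apply List.map_congr_left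
      intro x hx
      rw [if_neg]
      rintro rfl
      exact hK.1 hx

end lists

section quiver

variable {Q : Type u} [Fintype Q] {mu : Q → Q → ℕ}

omit [Fintype Q] in
lemma exc_sign {L L' : List (Q → ℤ)} (h : Exc mu L)
    (hs : List.Forall₂ (fun d e => e = d ∨ e = -d) L L') : Exc mu L' := by
  obtain ⟨Es, h1, h2, h3⟩ := h
  refine ⟨Es, forall₂_comp ?_ h1 hs, h2, h3⟩
  rintro E d e (h | h) (rfl | rfl)
  · exact Or.inl h
  · right; rw [h, neg_neg]
  · exact Or.inr h
  · left; exact h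

lemma exc_self (hEUL : SpecEUL.{u}) {L : List (Q → ℤ)} (h : Exc mu L) :
    ∀ d ∈ L, eul mu d d = 1 := by
  obtain ⟨Es, h1, h2, h3⟩ := h
  refine forall₂_mem ?_ h1 h2
  rintro E d hd ⟨hb1, hb2⟩
  have h4 := hEUL Q mu E E
  rw [hb1, hb2] at h4
  rcases hd with hd | hd
  · rw [← hd, ← h4]; simp
  · have : d = - dm E := by rw [hd, neg_neg]
    rw [this, eul_neg_left, eul_neg_right, neg_neg, ← h4]; simp

lemma exc_pair (hEUL : SpecEUL.{u}) {L : List (Q → ℤ)} (h : Exc mu L) :
    L.Pairwise (fun d e => eul mu e d = 0) := by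
  obtain ⟨Es, h1, h2, h3⟩ := h
  refine forall₂_pairwise ?_ h1 h3
  rintro E F d e hd he ⟨hx1, hx2⟩
  have h4 := hEUL Q mu F E
  rw [hx1, hx2] at h4
  have h5 : eul mu (dm F) (dm E) = 0 := by rw [← h4]; simp
  have hd' : d = dm E ∨ d = - dm E := by
    rcases hd with hd | hd
    · exact Or.inl hd.symm
    · right; rw [hd, neg_neg]
  have he' : e = dm F ∨ e = - dm F := by
    rcases he with he | he
    · exact Or.inl he.symm
    · right; rw [he, neg_neg]
  rcases hd' with rfl | rfl <;> rcases he' with rfl | rfl <;>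
    simp [eul_neg_left, eul_neg_right, h5]

lemma exc_swap (hMUT : SpecMUT.{u}) {P R : List (Q → ℤ)} {x y : Q → ℤ}
    (h : Exc mu (P ++ x :: y :: R)) (he : eul mu x y = 0) : Exc mu (P ++ y :: x :: R) := by
  have := (hMUT Q mu P R x y h).1
  rwa [he, zero_smul, sub_zero] at this

lemma exc_perm (hMUT : SpecMUT.{u}) {D D' : List (Q → ℤ)} (hp : D.Perm D') :
    ∀ (P R : List (Q → ℤ)), D.Pairwise (fun x y => eul mu x y = 0 ∧ eul mu y x = 0) →
      Exc mu (P ++ D ++ R) → Exc mu (P ++ D' ++ R) := by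
  induction hp with
  | nil => intro P R _ h; exact h
  | cons x hp ih =>
    intro P R hD h
    have := ih (P ++ [x]) R (List.pairwise_cons.1 hD).2 (by simpa using h)
    simpa using this
  | swap x y l =>
    intro P R hD h
    have h1 : eul mu y x = 0 := ((List.pairwise_cons.1 hD).1 x (by simp)).1
    have := exc_swap hMUT (P := P) (R := l ++ R) (x := y) (y := x) (by simpa using h) h1
    simpa using this
  | trans h1 h2 ih1 ih2 =>
    intro P R hD h
    exact ih2 P R ((h1.pairwise_iff (fun {a b} h => ⟨h.2, h.1⟩)).1 hD) (ih1 P R hD h)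

/-- the zero representation -/
def zr (Q : Type u) (mu : Q → Q → ℕ) : Rp Q mu where
  V := fun _ => PUnit
  acg := fun _ => inferInstance
  mod := fun _ => inferInstance
  fin := fun _ => inferInstance
  map := fun _ _ _ => 0

instance : Nonempty (Rp Q mu) := ⟨zr Q mu⟩

end quiver

section root

variable {B W : Type u} [Fintype B] [DecidableEq B] [Group W] {M : CoxeterMatrix B}
    {cs : CoxeterSystem M W} {A I : Type} [CommRing A] [Fintype I] [DecidableEq I]
    (r : RD cs A I) (ω : List B)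

lemma blk_eq (x : B → A) :
    r.blk x = (Finset.univ : Finset I).toList.map (fun i => r.co (r.R.b i • x)) := rfl

lemma co_neg (x : B → A) : r.co (-x) = - r.co x := by
  funext p
  simp [RD.co]

lemma eul_co (hCOE : SpecCOE.{u}) (x y : B → A) :
    eul (r.mu ω) (r.co x) (r.co y) = r.R.b.repr (eA r.X ω x y) r.R.one :=
  hCOE B W M cs A I r ω x y

lemma eul_blk (hCOE : SpecCOE.{u}) (x y : B → A) (i j : I) :
    eul (r.mu ω) (r.co (r.R.b i • x)) (r.co (r.R.b j • y)) =
      r.R.b.repr (r.R.b i * r.R.b j * eA r.X ω x y) r.R.one := by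
  rw [eul_co r ω hCOE, eA_smul_left, eA_smul_right, mul_assoc]

lemma eul_blk_self (hCOE : SpecCOE.{u}) {x : B → A} (hx : eA r.X ω x x = 1) (i j : I) :
    eul (r.mu ω) (r.co (r.R.b i • x)) (r.co (r.R.b j • x)) = if i = j then 1 else 0 := by
  rw [eul_blk r ω hCOE, hx, mul_one, r.R.dual]

lemma blk_orth (hCOE : SpecCOE.{u}) {x : B → A} (hx : eA r.X ω x x = 1) :
    (r.blk x).Pairwise (fun d e => eul (r.mu ω) d e = 0 ∧ eul (r.mu ω) e d = 0) := by
  rw [blk_eq, List.pairwise_map]
  refine List.Pairwise.imp ?_ (Finset.nodup_toList (Finset.univ : Finset I))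
  intro i j hij
  rw [eul_blk_self r ω hCOE hx, eul_blk_self r ω hCOE hx, if_neg hij, if_neg (Ne.symm hij)]
  exact ⟨rfl, rfl⟩

lemma blk_neg (x : B → A) :
    List.Forall₂ (fun d e => e = d ∨ e = -d) (r.blk x) (r.blk (-x)) := by
  rw [blk_eq, blk_eq, List.forall₂_map_left_iff, List.forall₂_map_right_iff, List.forall₂_same]
  intro i _
  right
  rw [smul_neg, co_neg]

lemma blk_smul (hRNG : SpecRNG) {z z' : A} (hz : r.R.Nn z) (hz' : r.R.Nn z') (h : z * z' = 1)
    (x : B → A) : (r.blk (z • x)).Perm (r.blk x) := by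
  obtain ⟨σ, hσ⟩ := (hRNG A I r.R).2.2.2.2.2.2.2.2 z z' hz hz' h
  have e : r.blk (z • x) = ((Finset.univ : Finset I).toList.map σ).map
      (fun i => r.co (r.R.b i • x)) := by
    rw [blk_eq, List.map_map]
    apply List.map_congr_left
    intro i _
    simp only [Function.comp]
    rw [smul_smul, mul_comm, hσ]
  rw [e, blk_eq]
  apply List.Perm.map
  rw [List.perm_ext_iff_of_nodup ((Finset.nodup_toList _).map σ.injective) (Finset.nodup_toList _)]
  intro i
  simp only [List.mem_map, Finset.mem_toList, Finset.mem_univ, true_and, iff_true]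
  exact σ.surjective i

variable {ω}

lemma eA_self (hRNG : SpecRNG) (hRTF : SpecRTF.{u}) (hall : ∀ s : B, s ∈ ω) {t : W} {x : B → A}
    (hx : r.IsRt t x) : eA r.X ω x x = 1 := by
  have h1 := (hRTF B W M cs A I r).2.2.1 t x hx
  rw [bil_eq_eA r.X ω r.symm hall] at h1
  have h2 := (hRNG A I r.R).2.2.2.2.2.1.1 (eA r.X ω x x - 1) (by linear_combination h1)
  exact sub_eq_zero.1 h2

/-- replace the block of a root vector by that of the positive root vector -/
lemma exc_root (hRNG : SpecRNG) (hRTF : SpecRTF.{u}) (hSGN : SpecSGN.{u}) (hMUT : SpecMUT.{u})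
    (hCOE : SpecCOE.{u}) (hall : ∀ s : B, s ∈ ω) {t : W} (ht : cs.IsReflection t) {v : B → A}
    (hv : r.IsRt t v) {P R : List (B × I → ℤ)} (h : Exc (r.mu ω) (P ++ r.blk v ++ R)) :
    Exc (r.mu ω) (P ++ r.blk (r.rt t) ++ R) := by
  have hS := hSGN B W M cs A I r
  obtain ⟨hrt, hpv⟩ := hS.2.2.1 t ht
  have main : ∀ v' : B → A, r.IsRt t v' → r.R.PV v' → Exc (r.mu ω) (P ++ r.blk v' ++ R) →
      Exc (r.mu ω) (P ++ r.blk (r.rt t) ++ R) := by
    intro v' hv' hpv' h'
    obtain ⟨z, z', hz, hz', hzz, he⟩ := hS.2.2.2.2.2 t (r.rt t) v' hrt hv' hpv hpv'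
    have hp : (r.blk v').Perm (r.blk (r.rt t)) := by
      rw [he]
      exact blk_smul r hRNG hz hz' hzz _
    exact exc_perm hMUT hp P R (blk_orth r ω hCOE (eA_self r hRNG hRTF hall hv')) h'
  rcases hS.1 t v hv with h1 | h1
  · exact main v hv h1 h
  · refine main (-v) ((hRTF B W M cs A I r).2.2.2.2 t v hv) h1 ?_
    refine exc_sign h ?_
    have hrefl : ∀ l : List (B × I → ℤ), List.Forall₂ (fun d e => e = d ∨ e = -d) l l := by
      intro l
      rw [List.forall₂_same]
      intro x _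
      exact Or.inl rfl
    exact List.rel_append (List.rel_append (hrefl P) (blk_neg r v)) (hrefl R)

/-- the block of a simple root -/
lemma blk_al (s : B) : r.blk (al s) = ((Finset.univ : Finset I).toList.map (fun i => (s, i))).map
    (fun p => (Pi.single p (1 : ℤ) : B × I → ℤ)) := by
  rw [blk_eq, List.map_map]
  apply List.map_congr_left
  intro i _
  funext p
  obtain ⟨t, j⟩ := p
  simp only [RD.co, Function.comp, Pi.smul_apply, smul_eq_mul, al]
  by_cases h : t = s
  · subst h
    rw [Pi.single_eq_same, mul_one, Module.Basis.repr_self]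
    by_cases h2 : j = i
    · subst h2
      simp
    · rw [Finsupp.single_eq_of_ne (fun h => h2 h), Pi.single_eq_of_ne]
      intro h3
      exact h2 (Prod.mk.injEq _ _ _ _ ▸ h3).2
  · rw [Pi.single_eq_of_ne h, mul_zero, map_zero, Pi.single_eq_of_ne]
    · rfl
    · intro h3
      exact h (Prod.mk.injEq _ _ _ _ ▸ h3).1

/-- the simple factorization is exceptional -/
lemma start₀ (hSIM : SpecSIM.{u}) (hnd : ω.Nodup) :
    Exc (r.mu ω) (ω.flatMap (fun s => r.blk (al s))) := by
  have e : ω.flatMap (fun s => r.blk (al s)) =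
      (ω.flatMap (fun s => (Finset.univ : Finset I).toList.map (fun i => (s, i)))).map
        (fun p => (Pi.single p (1 : ℤ) : B × I → ℤ)) := by
    rw [List.map_flatMap]
    apply List.flatMap_congr
    intro s _
    exact blk_al r s
  rw [e]
  apply hSIM
  · rw [List.Nodup, List.pairwise_flatMap]
    refine ⟨fun s _ => ?_, ?_⟩
    · rw [List.pairwise_map]
      refine List.Pairwise.imp ?_ (Finset.nodup_toList (Finset.univ : Finset I))
      intro i j hij h
      exact hij (Prod.mk.injEq _ _ _ _ ▸ h).2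
    · refine List.Pairwise.imp ?_ hnd
      intro s t hst x hx y hy h
      obtain ⟨i, _, rfl⟩ := List.mem_map.1 hx
      obtain ⟨j, _, rfl⟩ := List.mem_map.1 hy
      exact hst (Prod.mk.injEq _ _ _ _ ▸ h).1
  · rw [List.pairwise_flatMap]
    refine ⟨fun s _ => ?_, ?_⟩
    · rw [List.pairwise_map]
      refine List.Pairwise.imp ?_ (Finset.nodup_toList (Finset.univ : Finset I))
      intro i j _
      simp [RD.mu]
    · rw [List.pairwise_iff_getElem]
      intro m n hm hn hmn x hx y hy
      obtain ⟨i, _, rfl⟩ := List.mem_map.1 hx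
      obtain ⟨j, _, rfl⟩ := List.mem_map.1 hy
      simp only [RD.mu]
      rw [if_neg]
      rw [List.Nodup.idxOf_getElem hnd, List.Nodup.idxOf_getElem hnd]
      omega
  · intro x _
    simp [RD.mu]

lemma start₁ (hRNG : SpecRNG) (hRTF : SpecRTF.{u}) (hSGN : SpecSGN.{u}) (hMUT : SpecMUT.{u})
    (hCOE : SpecCOE.{u}) (hall : ∀ s : B, s ∈ ω) : ∀ (l : List B) (P : List (B × I → ℤ)),
    Exc (r.mu ω) (P ++ l.flatMap (fun s => r.blk (al s))) →
    Exc (r.mu ω) (P ++ (l.map cs.simple).flatMap (fun t => r.blk (r.rt t)))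
  | [], P, h => h
  | s :: l, P, h => by
      rw [List.flatMap_cons, ← List.append_assoc] at h
      have hv : r.IsRt (cs.simple s) (al s) := ⟨1, s, by simp, by simp⟩
      have h1 := exc_root r hRNG hRTF hSGN hMUT hCOE hall (cs.isReflection_simple s) hv h
      have h2 := start₁ hRNG hRTF hSGN hMUT hCOE hall l (P ++ r.blk (r.rt (cs.simple s))) h1
      rw [List.map_cons, List.flatMap_cons, ← List.append_assoc]
      exact h2

/-- the concatenation of the blocks -/
noncomputable def bl (L : List W) : List (B × I → ℤ) := L.flatMap (fun t => r.blk (r.rt t))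

lemma one_mem {L : List W} {t : W} (ht : t ∈ L) (i : I) : r.co (r.R.b i • r.rt t) ∈ bl r L := by
  unfold bl
  rw [List.mem_flatMap]
  refine ⟨t, ht, ?_⟩
  rw [blk_eq, List.mem_map]
  exact ⟨i, Finset.mem_toList.2 (Finset.mem_univ i), rfl⟩

/-- the Euler forms from a later to an earlier entry vanish -/
lemma exc_eA (hRNG : SpecRNG) (hEUL : SpecEUL.{u}) (hCOE : SpecCOE.{u}) {L : List W}
    (h : Exc (r.mu ω) (bl r L)) : L.Pairwise (fun a b => eA r.X ω (r.rt b) (r.rt a) = 0) := by
  have h1 := exc_pair hEUL h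
  unfold bl at h1
  rw [List.pairwise_flatMap] at h1
  refine List.Pairwise.imp ?_ h1.2
  intro a b hab
  apply r.R.b.repr.injective
  ext i
  rw [map_zero, Finsupp.zero_apply, (hRNG A I r.R).1]
  have h2 := hab (r.co (r.R.b i • r.rt a)) (by
      rw [blk_eq, List.mem_map]
      exact ⟨i, Finset.mem_toList.2 (Finset.mem_univ i), rfl⟩)
    (r.co (r.R.b r.R.one • r.rt b)) (by
      rw [blk_eq, List.mem_map]
      exact ⟨r.R.one, Finset.mem_toList.2 (Finset.mem_univ _), rfl⟩)
  rw [eul_blk r ω hCOE, r.R.b_one, one_mul, mul_comm] at h2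
  exact h2

/-- the reflection of a root -/
lemma reflect (hRTF : SpecRTF.{u}) (hall : ∀ s : B, s ∈ ω) {a : W} {x y : B → A}
    (hx : r.IsRt a x) (h : eA r.X ω y x = 0) :
    y - eA r.X ω x y • x = r.rho a y := by
  rw [(hRTF B W M cs A I r).2.1 a x hx y, bil_eq_eA r.X ω r.symm hall, h, add_zero]

lemma reflect' (hRTF : SpecRTF.{u}) (hall : ∀ s : B, s ∈ ω) {b : W} {x y : B → A}
    (hy : r.IsRt b y) (h : eA r.X ω y x = 0) :
    x - eA r.X ω x y • y = r.rho b x := by
  rw [(hRTF B W M cs A I r).2.1 b y hy x, bil_eq_eA r.X ω r.symm hall, h, zero_add]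

lemma step (hRNG : SpecRNG) (hRTF : SpecRTF.{u}) (hSGN : SpecSGN.{u}) (hMUT : SpecMUT.{u})
    (hEUL : SpecEUL.{u}) (hCOE : SpecCOE.{u}) (hBLK : SpecBLK.{u}) (hall : ∀ s : B, s ∈ ω)
    {L L' : List W} (hL : ∀ t ∈ L, cs.IsReflection t) (h : Exc (r.mu ω) (bl r L))
    (hm : HM L L') : Exc (r.mu ω) (bl r L') := by
  have hL' := HM.isReflection hm hL
  have hS := hSGN B W M cs A I r
  cases hm with
  | left P R a b =>
    have ha := hL a (by simp)
    have hb := hL b (by simp)
    have hx := (hS.2.2.1 a ha).1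
    have hy := (hS.2.2.1 b hb).1
    have hp := exc_eA r hRNG hEUL hCOE h
    have hyx : eA r.X ω (r.rt b) (r.rt a) = 0 := by
      rw [List.pairwise_append] at hp
      exact (List.pairwise_cons.1 hp.2.1).1 b (by simp)
    have h' : Exc (r.mu ω) (bl r P ++ r.blk (r.rt a) ++ r.blk (r.rt b) ++ bl r R) := by
      have : bl r (P ++ a :: b :: R) = bl r P ++ r.blk (r.rt a) ++ r.blk (r.rt b) ++ bl r R := by
        simp [bl]
      rw [← this]
      exact h
    have h1 := (hBLK B W M cs A I r ω (bl r P) (bl r R) (r.rt a) (r.rt b)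
      (eA_self r hRNG hRTF hall hx) (eA_self r hRNG hRTF hall hy) hyx h').1
    rw [reflect r hRTF hall hx hyx] at h1
    have hv : r.IsRt (a * b * a⁻¹) (r.rho a (r.rt b)) :=
      (hRTF B W M cs A I r).2.2.2.1 b a (r.rt b) hy
    rw [List.append_assoc (bl r P ++ _)] at h1
    have h2 := exc_root r hRNG hRTF hSGN hMUT hCOE hall (hb.conj a) hv h1
    have : bl r (P ++ (a * b * a⁻¹) :: a :: R) =
        bl r P ++ r.blk (r.rt (a * b * a⁻¹)) ++ (r.blk (r.rt a) ++ bl r R) := by
      simp [bl]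
    rw [this]
    exact h2
  | right P R a b =>
    have ha := hL a (by simp)
    have hb := hL b (by simp)
    have hx := (hS.2.2.1 a ha).1
    have hy := (hS.2.2.1 b hb).1
    have hp := exc_eA r hRNG hEUL hCOE h
    have hyx : eA r.X ω (r.rt b) (r.rt a) = 0 := by
      rw [List.pairwise_append] at hp
      exact (List.pairwise_cons.1 hp.2.1).1 b (by simp)
    have h' : Exc (r.mu ω) (bl r P ++ r.blk (r.rt a) ++ r.blk (r.rt b) ++ bl r R) := by
      have : bl r (P ++ a :: b :: R) = bl r P ++ r.blk (r.rt a) ++ r.blk (r.rt b) ++ bl r R := by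
        simp [bl]
      rw [← this]
      exact h
    have h1 := (hBLK B W M cs A I r ω (bl r P) (bl r R) (r.rt a) (r.rt b)
      (eA_self r hRNG hRTF hall hx) (eA_self r hRNG hRTF hall hy) hyx h').2
    rw [reflect' r hRTF hall hy hyx] at h1
    have hbi : b⁻¹ = b := inv_eq_of_mul_eq_one_left hb.mul_self
    have hv : r.IsRt (b⁻¹ * a * b) (r.rho b (r.rt a)) := by
      have := (hRTF B W M cs A I r).2.2.2.1 a b (r.rt a) hx
      rw [hbi] at this ⊢
      exact this
    have h2 := exc_root r hRNG hRTF hSGN hMUT hCOE hall (isReflection_conj' b ha) hv h1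
    have : bl r (P ++ b :: (b⁻¹ * a * b) :: R) =
        bl r P ++ r.blk (r.rt b) ++ r.blk (r.rt (b⁻¹ * a * b)) ++ bl r R := by
      simp [bl]
    rw [this]
    exact h2

lemma good (hRNG : SpecRNG) (hRTF : SpecRTF.{u}) (hSGN : SpecSGN.{u}) (hMUT : SpecMUT.{u})
    (hEUL : SpecEUL.{u}) (hSIM : SpecSIM.{u}) (hHUR : SpecHUR.{u}) (hCOE : SpecCOE.{u})
    (hBLK : SpecBLK.{u}) (hinj : Function.Injective cs.simple) (hnd : ω.Nodup)
    (hall : ∀ s : B, s ∈ ω) {L : List W} (hL : IsFac cs (cs.wordProd ω) ω.length L) :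
    Exc (r.mu ω) (bl r L) := by
  obtain ⟨h1, h2, h3⟩ := hL
  have h4 := (hHUR B W M cs hinj ω hnd L h1 h2).2 h3
  have h5 : Exc (r.mu ω) (bl r (ω.map cs.simple)) := by
    have := start₁ r hRNG hRTF hSGN hMUT hCOE hall ω [] (by
      rw [List.nil_append]
      exact start₀ r hSIM hnd)
    rw [List.nil_append] at this
    exact this
  have h6 : ∀ K : List W, Relation.ReflTransGen HM (ω.map cs.simple) K →
      (∀ t ∈ K, cs.IsReflection t) ∧ Exc (r.mu ω) (bl r K) := by
    intro K hK
    induction hK with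
    | refl =>
      refine ⟨?_, h5⟩
      intro t ht
      obtain ⟨s, _, rfl⟩ := List.mem_map.1 ht
      exact cs.isReflection_simple s
    | tail _ hm ih =>
      exact ⟨HM.isReflection hm ih.1, step r hRNG hRTF hSGN hMUT hEUL hCOE hBLK hall ih.1 ih.2 hm⟩
  exact (h6 L h4).2

end root

end FAMM

open FAMM in
theorem specFAM (hRNG : SpecRNG) (hRTF : SpecRTF.{u}) (hSGN : SpecSGN.{u}) (hHUR : SpecHUR.{u})
    (hEUL : SpecEUL.{u}) (hHRN : SpecHRN.{u}) (hMUT : SpecMUT.{u}) (hSIM : SpecSIM.{u})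
    (hCOE : SpecCOE.{u}) (hBLK : SpecBLK.{u}) : SpecFAM.{u} := by
  intro B W _ _ _ M cs A I _ _ _ r hinj ω hnd hall L hL
  have hexc := good r hRNG hRTF hSGN hMUT hEUL hSIM hHUR hCOE hBLK hinj hnd hall hL
  have hS := hSGN B W M cs A I r
  have hself : ∀ t ∈ L, eA r.X ω (r.rt t) (r.rt t) = 1 := fun t ht =>
    eA_self r hRNG hRTF hall (hS.2.2.1 t (hL.1 t ht)).1
  have hone : (1 : A) ≠ 0 := (hRNG A I r.R).2.2.2.2.2.1.2
  -- no repetition
  have hLnd : L.Nodup := by
    have h1 := exc_eA r hRNG hEUL hCOE hexc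
    rw [List.Nodup]
    refine List.Pairwise.imp_of_mem ?_ h1
    intro a b ha hb hab h
    rw [h, hself b hb] at hab
    exact hone hab
  -- the indexing list
  set K : List (W × I) := L.flatMap (fun t => (Finset.univ : Finset I).toList.map (fun i => (t, i)))
    with hK
  have hKnd : K.Nodup := by
    rw [hK, List.Nodup, List.pairwise_flatMap]
    refine ⟨fun s _ => ?_, ?_⟩
    · rw [List.pairwise_map]
      refine List.Pairwise.imp ?_ (Finset.nodup_toList (Finset.univ : Finset I))
      intro i j hij h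
      exact hij (Prod.mk.injEq _ _ _ _ ▸ h).2
    · refine List.Pairwise.imp ?_ hLnd
      intro s t hst x hx y hy h
      obtain ⟨i, _, rfl⟩ := List.mem_map.1 hx
      obtain ⟨j, _, rfl⟩ := List.mem_map.1 hy
      exact hst (Prod.mk.injEq _ _ _ _ ▸ h).1
  have hbl : bl r L = K.map (fun p => r.co (r.R.b p.2 • r.rt p.1)) := by
    rw [hK, List.map_flatMap]
    unfold bl
    apply List.flatMap_congr
    intro t _
    rw [blk_eq, List.map_map]
    rfl
  rw [hbl] at hexc
  obtain ⟨Es, h1, h2, h3⟩ := hexc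
  obtain ⟨g, rfl⟩ := exists_map K Es hKnd (by rw [h1.length_eq, List.length_map])
  rw [List.forall₂_map_left_iff, List.forall₂_map_right_iff, List.forall₂_same] at h1
  have hmem : ∀ t ∈ L, ∀ i : I, (t, i) ∈ K := by
    intro t ht i
    rw [hK, List.mem_flatMap]
    exact ⟨t, ht, List.mem_map.2 ⟨i, Finset.mem_toList.2 (Finset.mem_univ i), rfl⟩⟩
  rw [List.pairwise_map, hK, List.pairwise_flatMap] at h3
  have hdm : ∀ t ∈ L, ∀ i : I, dm (g (t, i)) = r.co (r.R.b i • r.rt t) := by
    intro t ht i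
    rcases h1 (t, i) (hmem t ht i) with h | h
    · exact h
    · funext p
      have e1 : dm (g (t, i)) p = - r.co (r.R.b i • r.rt t) p := congrFun h p
      have e2 : 0 ≤ dm (g (t, i)) p := by
        unfold dm
        exact Int.natCast_nonneg _
      have e3 : 0 ≤ r.co (r.R.b i • r.rt t) p := by
        have hN := (hRNG A I r.R).2.1 (r.R.b i) (r.rt t p.1) ((hRNG A I r.R).2.2.2.1.1 i)
          ((hS.2.2.1 t (hL.1 t ht)).2 p.1)
        exact hN p.2
      omega
  have hbrk : ∀ t ∈ L, ∀ i : I, Brk (g (t, i)) := fun t ht i =>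
    h2 _ (List.mem_map.2 ⟨(t, i), hmem t ht i, rfl⟩)
  refine ⟨fun t i => g (t, i), fun t ht i => ⟨hdm t ht i, hbrk t ht i⟩, ?_, ?_⟩
  · intro t ht i j hij
    have h4 := h3.1 t ht
    rw [List.pairwise_map] at h4
    -- orientation
    have key : ∀ i j : I, i ≠ j → Xp (g (t, i)) (g (t, j)) → Xp (g (t, j)) (g (t, i)) := by
      intro i j hij hx
      have e1 := hEUL (B × I) (r.mu ω) (g (t, i)) (g (t, j))
      rw [hdm t ht i, hdm t ht j, eul_blk_self r ω hCOE (hself t ht), if_neg hij] at e1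
      by_cases h5 : hd (g (t, i)) (g (t, j)) = 0
      · refine ⟨h5, ?_⟩
        rw [h5] at e1
        omega
      · have h6 := (hHRN (B × I) (r.mu ω) _ _ (hbrk t ht i) (hbrk t ht j) hx h5).1
        rw [h6] at e1
        exfalso
        omega
    have h5 : ∀ i ∈ (Finset.univ : Finset I).toList, ∀ j ∈ (Finset.univ : Finset I).toList, i ≠ j →
        Xp (g (t, i)) (g (t, j)) ∨ Xp (g (t, j)) (g (t, i)) := by
      intro i hi j hj hij
      have h6 : (Finset.univ : Finset I).toList.Pairwise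
          (fun i j => Xp (g (t, i)) (g (t, j)) ∨ Xp (g (t, j)) (g (t, i))) :=
        List.Pairwise.imp (fun h => Or.inl h) h4
      have : Std.Symm (fun i j : I => Xp (g (t, i)) (g (t, j)) ∨ Xp (g (t, j)) (g (t, i))) :=
        ⟨fun _ _ h => Or.symm h⟩
      exact h6.forall hi hj hij
    rcases h5 i (Finset.mem_toList.2 (Finset.mem_univ i)) j (Finset.mem_toList.2 (Finset.mem_univ j))
      hij with h6 | h6
    · exact h6
    · exact key j i (Ne.symm hij) h6
  · refine List.Pairwise.imp ?_ h3.2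
    intro a b hab i j
    exact hab (a, i) (List.mem_map.2 ⟨i, Finset.mem_toList.2 (Finset.mem_univ i), rfl⟩)
      (b, j) (List.mem_map.2 ⟨j, Finset.mem_toList.2 (Finset.mem_univ j), rfl⟩)

end Pool.Agent.Lib.MP_20db89_co.AK
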