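import Mathlib
import Pool.Agent.Lib.MP_20db89_co.AK.FAM
import Pool.Agent.Lib.MP_20db89_co.AK.LIN
import Pool.Agent.Lib.MP_20db89_co.AK.Spec

section
set_option autoImplicit false

/-!
# Module UNI: uniqueness of the canonical factorization
-/

namespace Pool.Agent.Lib.MP_20db89_co.AK

universe u

namespace UNIM

open FAMM

section sums

lemma sum_get {α N : Type*} [DecidableEq α] [AddCommMonoid N] (K : List α) (hK : K.Nodup) {n : ℕ}
    (hn : n = K.length) (f : α → N) :
    ∑ i : Fin n, f (K[i.1]'(by omega)) = ∑ p ∈ K.toFinset, f p := by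
  subst hn
  rw [List.sum_toFinset f hK, ← Fin.sum_univ_fun_getElem]

/-- two families with the same cone, one of them linearly independent -/
lemma cone {α V : Type*} [AddCommGroup V] (u : α → V) (K₁ K₂ : Finset α)
    (hlin : ∀ c : α → ℤ, ∑ q ∈ K₂, c q • u q = 0 → ∀ q ∈ K₂, c q = 0)
    (h12 : ∀ q ∈ K₂, ∃ c : α → ℕ, u q = ∑ p ∈ K₁, (c p : ℤ) • u p)
    (h21 : ∀ p ∈ K₁, ∃ d : α → ℕ, u p = ∑ q ∈ K₂, (d q : ℤ) • u q) :
    ∀ q ∈ K₂, ∃ p ∈ K₁, u p = u q := by
  classical
  intro q hq
  obtain ⟨c, hc⟩ := h12 q hq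
  have h21' : ∀ p : α, ∃ d : α → ℕ, p ∈ K₁ → u p = ∑ q ∈ K₂, (d q : ℤ) • u q := by
    intro p
    by_cases hp : p ∈ K₁
    · obtain ⟨d, hd⟩ := h21 p hp
      exact ⟨d, fun _ => hd⟩
    · exact ⟨fun _ => 0, fun h => absurd h hp⟩
  choose d hd using h21'
  have e1 : ∑ q' ∈ K₂, ((∑ p ∈ K₁, (c p : ℤ) * (d p q' : ℤ)) - if q' = q then 1 else 0) • u q' = 0 := by
    simp only [sub_smul, Finset.sum_sub_distrib]
    rw [sub_eq_zero]
    have e2 : ∑ q' ∈ K₂, (if q' = q then (1 : ℤ) else 0) • u q' = u q := by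
      rw [Finset.sum_eq_single q]
      · simp
      · intro b _ hb
        simp [hb]
      · intro h
        exact absurd hq h
    rw [e2, hc]
    simp only [Finset.sum_smul]
    rw [Finset.sum_comm]
    refine Finset.sum_congr rfl fun p hp => ?_
    conv_rhs => rw [hd p hp, Finset.smul_sum]
    exact Finset.sum_congr rfl fun q' _ => by rw [mul_smul]
  have h3 := hlin _ e1
  have h4 : ∑ p ∈ K₁, (c p : ℤ) * (d p q : ℤ) = 1 := by
    have := h3 q hq
    rw [if_pos rfl] at this
    linarith
  obtain ⟨p, hp, hne⟩ : ∃ p ∈ K₁, (c p : ℤ) * (d p q : ℤ) ≠ 0 := by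
    by_contra hcon
    push Not at hcon
    rw [Finset.sum_eq_zero hcon] at h4
    exact zero_ne_one h4
  have hnn : ∀ q', ∀ p ∈ K₁, (0 : ℤ) ≤ (c p : ℤ) * (d p q' : ℤ) := fun q' p _ => by positivity
  have h5 : (c p : ℤ) * (d p q : ℤ) = 1 := by
    have h6 : (c p : ℤ) * (d p q : ℤ) ≤ ∑ p ∈ K₁, (c p : ℤ) * (d p q : ℤ) :=
      Finset.single_le_sum (f := fun p => (c p : ℤ) * (d p q : ℤ)) (hnn q) hp
    rw [h4] at h6
    have := hnn q p hp
    omega
  have hcp : (c p : ℤ) ≠ 0 := by
    intro h
    rw [h, zero_mul] at h5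
    exact zero_ne_one h5
  refine ⟨p, hp, ?_⟩
  rw [hd p hp, Finset.sum_eq_single q]
  · have : (d p q : ℤ) = 1 := by
      have h6 : (c p) * (d p q) = 1 := by exact_mod_cast h5
      have := Nat.eq_one_of_mul_eq_one_left h6
      rw [this]
      rfl
    rw [this, one_smul]
  · intro q' hq' hne'
    have h6 := h3 q' hq'
    rw [if_neg hne', sub_zero] at h6
    rw [Finset.sum_eq_zero_iff_of_nonneg (hnn q')] at h6
    have h7 := h6 p hp
    rcases mul_eq_zero.1 h7 with h8 | h8
    · exact absurd h8 hcp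
    · rw [h8, zero_smul]
  · intro h
    exact absurd hq h

end sums

section main

variable {B W : Type u} [Fintype B] [DecidableEq B] [Group W] {M : CoxeterMatrix B}
    {cs : CoxeterSystem M W} {A I : Type} [CommRing A] [Fintype I] [DecidableEq I]
    (r : RD cs A I) {ω : List B}

/-- the index list -/
noncomputable def ix (I : Type) [Fintype I] (L : List W) : List (W × I) :=
  L.flatMap (fun t => (Finset.univ : Finset I).toList.map (fun i => (t, i)))

omit [Group W] in
lemma mem_ix {L : List W} {p : W × I} : p ∈ ix I L ↔ p.1 ∈ L := by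
  unfold ix
  rw [List.mem_flatMap]
  constructor
  · rintro ⟨t, ht, h⟩
    obtain ⟨i, _, rfl⟩ := List.mem_map.1 h
    exact ht
  · intro h
    exact ⟨p.1, h, List.mem_map.2 ⟨p.2, Finset.mem_toList.2 (Finset.mem_univ _), rfl⟩⟩

omit [Group W] [DecidableEq I] in
lemma ix_nodup {L : List W} (h : L.Nodup) : (ix I L).Nodup := by
  rw [ix, List.Nodup, List.pairwise_flatMap]
  refine ⟨fun s _ => ?_, ?_⟩
  · rw [List.pairwise_map]
    refine List.Pairwise.imp ?_ (Finset.nodup_toList (Finset.univ : Finset I))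
    intro i j hij h
    exact hij (Prod.mk.injEq _ _ _ _ ▸ h).2
  · refine List.Pairwise.imp ?_ h
    intro s t hst x hx y hy h
    obtain ⟨i, _, rfl⟩ := List.mem_map.1 hx
    obtain ⟨j, _, rfl⟩ := List.mem_map.1 hy
    exact hst (Prod.mk.injEq _ _ _ _ ▸ h).1

omit [Group W] [DecidableEq I] in
lemma ix_append (L L' : List W) : ix I (L ++ L') = ix I L ++ ix I L' := by
  unfold ix
  rw [List.flatMap_append]

omit [Group W] [DecidableEq I] in
lemma ix_length (L : List W) : (ix I L).length = L.length * Fintype.card I := by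
  induction L with
  | nil => simp [ix]
  | cons a L ih =>
    have : ix I (a :: L) = (Finset.univ : Finset I).toList.map (fun i => (a, i)) ++ ix I L := by
      unfold ix
      rw [List.flatMap_cons]
    rw [this, List.length_append, ih, List.length_map, Finset.length_toList, Finset.card_univ,
      List.length_cons]
    ring

/-- the vector of an index -/
noncomputable def vec (p : W × I) : B × I → ℤ := r.co (r.R.b p.2 • r.rt p.1)

variable {r}

lemma fam_brk {L : List W} {E : W → I → Rp (B × I) (r.mu ω)} (hE : IsFam r ω L E) :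
    ∀ X ∈ (ix I L).map (fun p => E p.1 p.2), Brk X := by
  intro X hX
  obtain ⟨p, hp, rfl⟩ := List.mem_map.1 hX
  exact (hE.1 p.1 (mem_ix.1 hp) p.2).2

lemma fam_pw {L : List W} {E : W → I → Rp (B × I) (r.mu ω)} (hE : IsFam r ω L E) :
    ((ix I L).map (fun p => E p.1 p.2)).Pairwise Xp := by
  rw [List.pairwise_map, ix, List.pairwise_flatMap]
  refine ⟨fun s hs => ?_, ?_⟩
  · rw [List.pairwise_map]
    refine List.Pairwise.imp ?_ (Finset.nodup_toList (Finset.univ : Finset I))
    intro i j hij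
    exact hE.2.1 s hs i j hij
  · refine List.Pairwise.imp ?_ hE.2.2
    intro s t hst x hx y hy
    obtain ⟨i, _, rfl⟩ := List.mem_map.1 hx
    obtain ⟨j, _, rfl⟩ := List.mem_map.1 hy
    exact hst i j

lemma fam_dm {L : List W} {E : W → I → Rp (B × I) (r.mu ω)} (hE : IsFam r ω L E) {p : W × I}
    (hp : p ∈ ix I L) : dm (E p.1 p.2) = vec r p := (hE.1 p.1 (mem_ix.1 hp) p.2).1

lemma fac_nodup (r : RD cs A I) (hRNG : SpecRNG) (hRTF : SpecRTF.{u}) (hSGN : SpecSGN.{u}) (hTRI : SpecTRI.{u})
    (hinj : Function.Injective cs.simple) (hnd : ω.Nodup) (hall : ∀ s : B, s ∈ ω) {L : List W}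
    (hL : IsFac cs (cs.wordProd ω) ω.length L) : L.Nodup := by
  have h1 := hTRI B W M cs A I r hinj ω hnd hall L hL
  rw [List.Nodup]
  refine List.Pairwise.imp_of_mem ?_ h1
  intro a b ha hb hab h
  have h2 := eA_self r hRNG hRTF hall ((hSGN B W M cs A I r).2.2.1 b (hL.1 b hb)).1
  rw [h] at hab
  rw [hab.1] at h2
  exact (hRNG A I r.R).2.2.2.2.2.1.2 h2.symm

/-- one half: the vectors of `F₂` are combinations of those of `F₁` -/
lemma half (hRNG : SpecRNG) (hRTF : SpecRTF.{u}) (hSGN : SpecSGN.{u}) (hEUL : SpecEUL.{u})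
    (hHRN : SpecHRN.{u}) (hPEN : SpecPEN.{u}) (hISO : SpecISO.{u}) (hFLT : SpecFLT.{u})
    (hCOE : SpecCOE.{u}) (hFAM : SpecFAM.{u}) (hTRI : SpecTRI.{u})
    (hinj : Function.Injective cs.simple) (hnd : ω.Nodup) (hall : ∀ s : B, s ∈ ω)
    [DecidableEq W]
    (F₁ F₂ G : List W) (h1 : IsFac cs (cs.wordProd ω) ω.length (F₁ ++ G))
    (h2 : IsFac cs (cs.wordProd ω) ω.length (F₂ ++ G))
    (hc : F₁.Pairwise (fun a b => ¬ r.Hm ω a b)) :
    ∀ q ∈ (ix I F₂).toFinset, ∃ c : W × I → ℕ,
      vec r q = ∑ p ∈ (ix I F₁).toFinset, (c p : ℤ) • vec r p := by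
  obtain ⟨E, hE⟩ := hFAM B W M cs A I r hinj ω hnd hall _ h1
  obtain ⟨E', hE'⟩ := hFAM B W M cs A I r hinj ω hnd hall _ h2
  have hN1 := fac_nodup r hRNG hRTF hSGN hTRI hinj hnd hall h1
  have hT := hTRI B W M cs A I r hinj ω hnd hall _ h1
  have hbrk := fam_brk hE
  have hpw := fam_pw hE
  rw [ix_append, List.map_append] at hbrk hpw
  -- no Hom in `Es`
  have horth : ((ix I F₁).map (fun p => E p.1 p.2)).Pairwise (fun X Y => hd X Y = 0) := by
    rw [List.pairwise_map, ix, List.pairwise_flatMap]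
    refine ⟨fun s hs => ?_, ?_⟩
    · rw [List.pairwise_map]
      refine List.Pairwise.imp ?_ (Finset.nodup_toList (Finset.univ : Finset I))
      intro i j hij
      exact (hE.2.1 s (List.mem_append_left _ hs) j i (Ne.symm hij)).1
    · rw [List.pairwise_append] at hT
      have hPW := (List.pairwise_append.1 hE.2.2).1
      have hand : F₁.Pairwise (fun a b => (¬ r.Hm ω a b) ∧ (eA r.X ω (r.rt b) (r.rt a) = 0 ∧
        (r.R.Nn (eA r.X ω (r.rt a) (r.rt b)) ∨ r.R.Nn (- eA r.X ω (r.rt a) (r.rt b)))) ∧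
        ∀ i j : I, Xp (E a i) (E b j)) := List.Pairwise.and hc (List.Pairwise.and hT.1 hPW)
      refine List.Pairwise.imp_of_mem ?_ hand
      intro s t hs ht ⟨hst1, hst2, hst3⟩ x hx y hy
      obtain ⟨i, _, rfl⟩ := List.mem_map.1 hx
      obtain ⟨j, _, rfl⟩ := List.mem_map.1 hy
      simp only
      have hneg : r.R.Nn (- eA r.X ω (r.rt s) (r.rt t)) := by
        rcases hst2.2 with h | h
        · have h0 : eA r.X ω (r.rt s) (r.rt t) = 0 := by
            by_contra hne
            exact hst1 ⟨h, hne⟩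
          rw [h0, neg_zero]
          exact (hRNG A I r.R).2.2.2.1.2.2
        · exact h
      have hds := (hE.1 s (List.mem_append_left _ hs) i)
      have hdt := (hE.1 t (List.mem_append_left _ ht) j)
      have e1 := hEUL (B × I) (r.mu ω) (E s i) (E t j)
      rw [hds.1, hdt.1, eul_blk r ω hCOE] at e1
      have e2 : r.R.b.repr (r.R.b i * r.R.b j * eA r.X ω (r.rt s) (r.rt t)) r.R.one ≤ 0 := by
        have hN := (hRNG A I r.R).2.1 (r.R.b i * r.R.b j) _ ((hRNG A I r.R).2.1 _ _
          ((hRNG A I r.R).2.2.2.1.1 i) ((hRNG A I r.R).2.2.2.1.1 j)) hneg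
        have := hN r.R.one
        rw [mul_neg, map_neg, Finsupp.neg_apply] at this
        linarith
      by_contra hne
      have h6 := (hHRN (B × I) (r.mu ω) _ _ hds.2 hdt.2 (hst3 i j) hne).1
      rw [h6] at e1
      rw [← e1] at e2
      have : (hd (E s i) (E t j) : ℤ) ≤ 0 := by simpa using e2
      omega
  -- number of members
  have hcard : ((ix I F₁).map (fun p => E p.1 p.2) ++ (ix I G).map (fun p => E p.1 p.2)).length =
      Fintype.card (B × I) := by
    rw [← List.map_append, ← ix_append, List.length_map, ix_length, h1.2.2, Fintype.card_prod]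
    congr 1
    rw [← List.toFinset_card_of_nodup hnd]
    have : ω.toFinset = Finset.univ := by
      ext s
      simp [hall s]
    rw [this, Finset.card_univ]
  intro q hq
  rw [List.mem_toFinset, mem_ix] at hq
  have hqL : q.1 ∈ F₂ ++ G := List.mem_append_left _ hq
  obtain ⟨c, hcc⟩ := hFLT (B × I) (r.mu ω) _ _ hbrk hpw horth hcard (E' q.1 q.2) (by
    intro X hX
    obtain ⟨p, hp, rfl⟩ := List.mem_map.1 hX
    rw [mem_ix] at hp
    have hpE := hE.1 p.1 (List.mem_append_right _ hp) p.2
    have hpE' := hE'.1 p.1 (List.mem_append_right _ hp) p.2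
    have hiso := hPEN (B × I) (r.mu ω) (E p.1 p.2) (E' p.1 p.2) (by rw [hpE.1, hpE'.1]) hpE.2 hpE'.2
    have h7 := (hISO (B × I) (r.mu ω) _ _ hiso).2 (E' q.1 q.2)
    have h8 := (List.pairwise_append.1 hE'.2.2).2.2 q.1 hq p.1 hp q.2 p.2
    rw [h7.2.2.1, h7.2.2.2]
    exact h8)
  rw [(hE'.1 q.1 hqL q.2).1] at hcc
  have hK1 : (ix I F₁).Nodup := ix_nodup (List.nodup_append.1 hN1).1
  have hlen : ((ix I F₁).map (fun p => E p.1 p.2)).length = (ix I F₁).length := List.length_map _
  refine ⟨fun p => if h : (ix I F₁).idxOf p < (ix I F₁).length then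
    c ⟨(ix I F₁).idxOf p, by rw [hlen]; exact h⟩ else 0, ?_⟩
  rw [← sum_get (ix I F₁) hK1 hlen]
  unfold vec
  rw [hcc]
  refine Finset.sum_congr rfl fun i _ => ?_
  have hi : i.1 < (ix I F₁).length := by
    have := i.2
    omega
  have hidx : (ix I F₁).idxOf ((ix I F₁)[i.1]) = i.1 := List.Nodup.idxOf_getElem hK1 _ _
  have e3 : dm (((ix I F₁).map (fun p => E p.1 p.2)).get i) =
      r.co (r.R.b ((ix I F₁)[i.1]).2 • r.rt ((ix I F₁)[i.1]).1) := by
    rw [List.get_eq_getElem, List.getElem_map]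
    have hm : (ix I F₁)[i.1] ∈ ix I F₁ := List.getElem_mem _
    rw [mem_ix] at hm
    exact (hE.1 _ (List.mem_append_left _ hm) _).1
  rw [e3]
  congr 2
  simp only [hidx]
  rw [dif_pos hi]

/-- linear independence -/
lemma indep (hRNG : SpecRNG) (hRTF : SpecRTF.{u}) (hSGN : SpecSGN.{u}) (hLIN : SpecLIN.{u})
    (hFAM : SpecFAM.{u}) (hTRI : SpecTRI.{u})
    (hinj : Function.Injective cs.simple) (hnd : ω.Nodup) (hall : ∀ s : B, s ∈ ω)
    [DecidableEq W]
    (F G : List W) (h : IsFac cs (cs.wordProd ω) ω.length (F ++ G)) (c : W × I → ℤ)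
    (hc : ∑ q ∈ (ix I F).toFinset, c q • vec r q = 0) : ∀ q ∈ (ix I F).toFinset, c q = 0 := by
  obtain ⟨E, hE⟩ := hFAM B W M cs A I r hinj ω hnd hall _ h
  have hN1 := fac_nodup r hRNG hRTF hSGN hTRI hinj hnd hall h
  have hbrk := fam_brk hE
  have hpw := fam_pw hE
  rw [ix_append, List.map_append] at hbrk hpw
  have hK1 : (ix I F).Nodup := ix_nodup (List.nodup_append.1 hN1).1
  have hlen : ((ix I F).map (fun p => E p.1 p.2)).length = (ix I F).length := List.length_map _
  have h1 := (hLIN (B × I) (r.mu ω) ((ix I F).map (fun p => E p.1 p.2))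
    (fun X hX => hbrk X (List.mem_append_left _ hX)) (List.pairwise_append.1 hpw).1).1
    (fun i => c ((ix I F)[i.1]'(by have := i.2; omega))) (by
      rw [← hc, ← sum_get (ix I F) hK1 hlen]
      refine Finset.sum_congr rfl fun i _ => ?_
      congr 1
      rw [List.get_eq_getElem, List.getElem_map]
      have hm : (ix I F)[i.1]'(by have := i.2; omega) ∈ ix I F := List.getElem_mem _
      rw [mem_ix] at hm
      exact (hE.1 _ (List.mem_append_left _ hm) _).1)
  intro q hq
  rw [List.mem_toFinset] at hq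
  obtain ⟨i, hi, rfl⟩ := List.mem_iff_getElem.1 hq
  exact h1 ⟨i, by rw [hlen]; exact hi⟩

lemma co_inj {x y : B → A} (h : r.co x = r.co y) : x = y := by
  funext s
  apply r.R.b.repr.injective
  ext i
  exact congrFun h (s, i)

lemma sub_of (hRNG : SpecRNG) (hRTF : SpecRTF.{u}) (hSGN : SpecSGN.{u}) {s t : W}
    (hs : cs.IsReflection s) (ht : cs.IsReflection t) {i : I}
    (h : vec r (s, i) = vec r (t, r.R.one)) : s = t := by
  have hS := hSGN B W M cs A I r
  have hT := hRTF B W M cs A I r
  obtain ⟨hxs, -⟩ := hS.2.2.1 s hs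
  obtain ⟨hxt, -⟩ := hS.2.2.1 t ht
  have h1 : r.R.b i • r.rt s = r.rt t := by
    have := co_inj (r := r) h
    simpa [r.R.b_one] using this
  have h2 : r.R.b i * r.R.b i = 1 := by
    have e1 := hT.2.2.1 t _ hxt
    rw [← h1, bil_smul_left, bil_smul_right, hT.2.2.1 s _ hxs] at e1
    have e2 := (hRNG A I r.R).2.2.2.2.2.1.1 (r.R.b i * r.R.b i - 1) (by linear_combination e1)
    exact sub_eq_zero.1 e2
  have h3 : r.rho t = r.rho s := by
    apply LinearMap.ext
    intro y
    rw [hT.2.1 t _ hxt y, hT.2.1 s _ hxs y, ← h1, bil_smul_left, smul_smul]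
    congr 2
    linear_combination (bil r.X (r.rt s) y) * h2
  have h4 := hS.2.2.2.2.1 (s * t⁻¹) (by
    rw [map_mul, ← h3, ← map_mul, mul_inv_cancel, map_one])
  exact mul_inv_eq_one.1 h4

end main

end UNIM

open UNIM in
theorem specUNI (hRNG : SpecRNG) (hRTF : SpecRTF.{u}) (hSGN : SpecSGN.{u}) (hEUL : SpecEUL.{u})
    (hHRN : SpecHRN.{u}) (hPEN : SpecPEN.{u}) (hISO : SpecISO.{u}) (hLIN : SpecLIN.{u})
    (hFLT : SpecFLT.{u}) (hCOE : SpecCOE.{u}) (hFAM : SpecFAM.{u}) (hTRI : SpecTRI.{u}) :
    SpecUNI.{u} := by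
  classical
  intro B W _ _ _ M cs A I _ _ _ r hinj ω hnd hall F₁ F₂ G h1 h2 _ hc1 hc2
  have key : ∀ F₁ F₂ : List W, IsFac cs (cs.wordProd ω) ω.length (F₁ ++ G) →
      IsFac cs (cs.wordProd ω) ω.length (F₂ ++ G) → F₁.Pairwise (fun a b => ¬ r.Hm ω a b) →
      F₂.Pairwise (fun a b => ¬ r.Hm ω a b) → ∀ t ∈ F₂, t ∈ F₁ := by
    intro F₁ F₂ h1 h2 hc1 hc2 t ht
    obtain ⟨p, hp, hpe⟩ := cone (vec r) (ix I F₁).toFinset (ix I F₂).toFinset
      (indep hRNG hRTF hSGN hLIN hFAM hTRI hinj hnd hall F₂ G h2)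
      (half hRNG hRTF hSGN hEUL hHRN hPEN hISO hFLT hCOE hFAM hTRI hinj hnd hall F₁ F₂ G h1 h2 hc1)
      (half hRNG hRTF hSGN hEUL hHRN hPEN hISO hFLT hCOE hFAM hTRI hinj hnd hall F₂ F₁ G h2 h1 hc2)
      (t, r.R.one) (by rw [List.mem_toFinset, mem_ix]; exact ht)
    rw [List.mem_toFinset, mem_ix] at hp
    have := sub_of hRNG hRTF hSGN (h1.1 p.1 (List.mem_append_left _ hp))
      (h2.1 t (List.mem_append_left _ ht)) (i := p.2) hpe
    rw [← this]
    exact hp
  have n1 := (List.nodup_append.1 (fac_nodup r hRNG hRTF hSGN hTRI hinj hnd hall h1)).1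
  have n2 := (List.nodup_append.1 (fac_nodup r hRNG hRTF hSGN hTRI hinj hnd hall h2)).1
  rw [List.perm_ext_iff_of_nodup n1 n2]
  intro t
  exact ⟨key F₂ F₁ h2 h1 hc2 hc1 t, key F₁ F₂ h1 h2 hc1 hc2 t⟩

end Pool.Agent.Lib.MP_20db89_co.AK
end

section
set_option autoImplicit false

/-!
# Module AXM: the axioms hold
-/

namespace Pool.Agent.Lib.MP_20db89_co.AK

universe u

namespace AXMM

open FAMM UNIM

variable {B W : Type u} [Fintype B] [DecidableEq B] [Group W] {M : CoxeterMatrix B}
    {cs : CoxeterSystem M W} {A I : Type} [CommRing A] [Fintype I] [DecidableEq I]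
    (r : RD cs A I) {ω : List B}

/-- orthogonal reflections commute -/
lemma commute (hRTF : SpecRTF.{u}) (hSGN : SpecSGN.{u}) {a b : W} {x y : B → A}
    (hx : r.IsRt a x) (hy : r.IsRt b y) (h : bil r.X x y = 0) : a * b = b * a := by
  have hT := hRTF B W M cs A I r
  have h' : bil r.X y x = 0 := by rw [bil_comm r.X r.symm, h]
  have h3 : r.rho (a * b) = r.rho (b * a) := by
    apply LinearMap.ext
    intro z
    rw [map_mul, map_mul, Module.End.mul_apply, Module.End.mul_apply, hT.2.1 b y hy z,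
      hT.2.1 a x hx z, hT.2.1 a x hx, hT.2.1 b y hy, bil_sub_right, bil_smul_right, h,
      bil_sub_right, bil_smul_right, h', mul_zero, mul_zero, sub_zero, sub_zero]
    abel
  have h4 := (hSGN B W M cs A I r).2.2.2.2.1 (a * b * (b * a)⁻¹) (by
    rw [map_mul, h3, ← map_mul, mul_inv_cancel, map_one])
  exact mul_inv_eq_one.1 h4

end AXMM

open AXMM UNIM FAMM in
theorem specAXM (hRNG : SpecRNG) (hRDE : SpecRDE.{u}) (hRTF : SpecRTF.{u}) (hSGN : SpecSGN.{u})
    (hHUR : SpecHUR.{u}) (hTRI : SpecTRI.{u}) (hHRB : SpecHRB.{u}) (hSRT : SpecSRT.{u})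
    (hUNI : SpecUNI.{u}) (hINC : SpecINC.{u}) : SpecAXM.{u} := by
  intro B W _ _ _ M cs hinj ω hnd hall
  obtain ⟨A, I, _, _, _, ⟨r⟩⟩ := hRDE B W M cs
  have hS := hSGN B W M cs A I r
  have hR := hRNG A I r.R
  have hnod : ∀ L : List W, IsFac cs (cs.wordProd ω) ω.length L → L.Nodup := fun L hL =>
    fac_nodup r hRNG hRTF hSGN hTRI hinj hnd hall hL
  have hpw : ∀ F : List W, F.Nodup → F.Pairwise (fun a b => ¬ (a ≠ b ∧ r.Hm ω a b)) →
      F.Pairwise (fun a b => ¬ r.Hm ω a b) := by
    intro F hF h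
    refine (List.Pairwise.and hF h).imp ?_
    rintro a b ⟨h1, h2⟩ h3
    exact h2 ⟨h1, h3⟩
  refine ⟨fun a b => a ≠ b ∧ r.Ex ω a b, fun a b => a ≠ b ∧ r.Hm ω a b, ?_⟩
  constructor
  · refine ⟨ω.map cs.simple, ⟨?_, rfl, List.length_map _⟩, ?_⟩
    · intro t ht
      obtain ⟨s, _, rfl⟩ := List.mem_map.1 ht
      exact cs.isReflection_simple s
    · intro t ht
      obtain ⟨s, _, rfl⟩ := List.mem_map.1 ht
      exact cs.length_simple s
  · intro L h1 h2
    exact (hHUR B W M cs hinj ω hnd L h1 h2).1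
  · intro L hL
    have h1 := hTRI B W M cs A I r hinj ω hnd hall L hL
    refine (List.Pairwise.and (hnod L hL) h1).imp_of_mem ?_
    rintro a b ha hb ⟨hab, h0, hsg⟩
    refine ⟨fun h => h.2.2 h0, fun h => h.2.2 h0, ?_⟩
    by_cases he : eA r.X ω (r.rt a) (r.rt b) = 0
    · right; right
      refine ⟨?_, fun h => h.2.2 he, fun h => h.2.2 he⟩
      refine commute r hRTF hSGN (hS.2.2.1 a (hL.1 a ha)).1 (hS.2.2.1 b (hL.1 b hb)).1 ?_
      rw [bil_eq_eA r.X ω r.symm hall, he, h0, add_zero]
    · rcases hsg with h | h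
      · right; left
        refine ⟨⟨hab, h, he⟩, fun h' => he ?_⟩
        exact hR.2.2.2.2.1 _ h h'.2.1
      · left
        refine ⟨⟨hab, h, he⟩, fun h' => he ?_⟩
        exact hR.2.2.2.2.1 _ h'.2.1 h
  · intro L₁ L₂ L₃ a b hL hab
    have hN := hnod _ hL
    have h1 := hHRB B W M cs A I r hinj ω hnd hall L₁ L₂ L₃ a b hL hab.2
    rw [List.append_assoc, List.nodup_append] at hN
    obtain ⟨n1, n2, n3⟩ := hN
    rw [List.cons_append, List.nodup_cons, List.nodup_append, List.nodup_cons] at n2
    obtain ⟨m1, m2, ⟨m3, m4⟩, m5⟩ := n2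
    rcases h1 with ⟨c1, c2, c3⟩ | ⟨c1, c2, c3⟩
    · left
      refine ⟨fun x hx h => c1 x hx h.2, fun x hx h => ⟨?_, c2 x hx h.2⟩,
        fun x hx h => ⟨?_, c3 x hx h.2⟩⟩
      · rintro rfl
        exact m3 hx
      · rintro rfl
        exact n3 x hx x (by simp) rfl
    · right
      refine ⟨fun x hx h => c1 x hx h.2, fun x hx h => ⟨?_, c2 x hx h.2⟩,
        fun x hx h => ⟨?_, c3 x hx h.2⟩⟩
      · rintro rfl
        exact n3 x hx x (by simp) rfl
      · rintro rfl
        exact m1 (by simp [hx])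
  · intro L₁ L₂ a b hL hab
    exact hSRT B W M cs A I r hinj ω hnd hall L₁ L₂ a b hL hab.2
  · intro F₁ F₂ G h1 h2 hp hc1 hc2
    exact hUNI B W M cs A I r hinj ω hnd hall F₁ F₂ G h1 h2 hp
      (hpw F₁ (List.nodup_append.1 (hnod _ h1)).1 hc1)
      (hpw F₂ (List.nodup_append.1 (hnod _ h2)).1 hc2)
  · intro a F G hL hc
    exact hINC B W M cs A I r hinj ω hnd hall a F G hL
      (hpw (a :: F) (List.nodup_append.1 (hnod _ hL)).1 hc)
  · intro x
    exact ⟨fun h => h.1 rfl, fun h => h.1 rfl⟩

end Pool.Agent.Lib.MP_20db89_co.AK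
end

section
set_option autoImplicit false

/-!
# Module SRT
-/

namespace Pool.Agent.Lib.MP_20db89_co.AK

universe u

namespace SRTM

variable {B W : Type u} [Fintype B] [DecidableEq B] [Group W] {M : CoxeterMatrix B}
  {cs : CoxeterSystem M W} {A I : Type} [CommRing A] [Fintype I] [DecidableEq I] {r : RD cs A I}

lemma pv_add (hRNG : SpecRNG) {x y : B → A} (hx : r.R.PV x) (hy : r.R.PV y) : r.R.PV (x + y) :=
  fun s => (hRNG A I r.R).2.2.1 _ _ (hx s) (hy s)

lemma pv_smul (hRNG : SpecRNG) {a : A} {x : B → A} (ha : r.R.Nn a) (hx : r.R.PV x) :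
    r.R.PV (a • x) := fun s => (hRNG A I r.R).2.1 _ _ ha (hx s)

lemma eq_zero (hRNG : SpecRNG) {x : B → A} (hx : r.R.PV x) (hy : r.R.PV (-x)) : x = 0 := by
  funext s
  exact (hRNG A I r.R).2.2.2.2.1 _ (hx s) (hy s)

lemma isRefl {t : W} {x : B → A} (h : r.IsRt t x) : cs.IsReflection t := by
  obtain ⟨w, s, h1, _⟩ := h
  exact ⟨w, s, h1⟩

/-- the sign of the image of a positive root decides the comparison of lengths -/
lemma lt_of_pv (hRNG : SpecRNG) (hRTF : SpecRTF.{u}) (hSGN : SpecSGN.{u}) {t : W} {x : B → A}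
    (ht : r.IsRt t x) (hx : r.R.PV x) {w : W} (h : r.R.PV (r.rho w x)) :
    cs.length w < cs.length (w * t) := by
  have hR := isRefl ht
  rcases lt_or_gt_of_ne (hR.length_mul_left_ne w) with h1 | h1
  · exfalso
    have h2 := ((hSGN B W M cs A I r).2.2.2.1 t x ht hx w).2 h1
    have h3 := eq_zero hRNG h h2
    exact (hSGN B W M cs A I r).2.1 _ _ ((hRTF B W M cs A I r).2.2.2.1 t w x ht) h3
  · exact h1

lemma case_one (hRNG : SpecRNG) (hRTF : SpecRTF.{u}) (hSGN : SpecSGN.{u}) {a b : W}
    {x y : B → A} {e : A} (ha : r.IsRt a x) (hx : r.R.PV x) (hb : r.IsRt b y)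
    (hxy : bil r.X x y = e) (he : r.R.Nn e) (he0 : e ≠ 0) (hg : r.R.PV (r.rho a y)) :
    cs.length (a * b * a⁻¹) < cs.length b := by
  obtain ⟨f1, f2, f3, f4, f5⟩ := hRTF B W M cs A I r
  have hainv : a⁻¹ = a := (isRefl ha).inv
  have haa : a * a = 1 := by
    have := mul_inv_cancel a
    rwa [hainv] at this
  set g := r.rho a y with hgd
  have hgy : g = y - e • x := by rw [hgd, f2 a x ha, hxy]
  have hyg : y = g + e • x := by rw [hgy, sub_add_cancel]
  have hgrt : r.IsRt (a * b * a⁻¹) g := f4 b a y hb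
  set t := a * b * a⁻¹ with ht
  have hgx : bil r.X g x = - e := by
    rw [hgy, bil_sub_left, bil_smul_left, f3 a x ha, bil_comm r.X r.symm y x, hxy]
    ring
  have htx : r.rho t x = x + e • g := by
    rw [f2 t g hgrt, hgx, neg_smul, sub_neg_eq_add]
  have hax : r.rho a x = -x := by
    rw [f2 a x ha, f3 a x ha, two_smul]
    abel
  have hag : r.rho a g = y := by
    rw [hgd, ← Module.End.mul_apply, ← map_mul, haa, map_one]
    rfl
  have h1 : cs.length t < cs.length (t * a) := by
    refine lt_of_pv hRNG hRTF hSGN ha hx ?_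
    rw [htx]
    exact pv_add hRNG hx (pv_smul hRNG he hg)
  have h2 : cs.length (a * t) < cs.length (a * t * a) := by
    refine lt_of_pv hRNG hRTF hSGN ha hx ?_
    rw [map_mul, Module.End.mul_apply, htx, map_add, map_smul, hax, hag]
    have e1 : -x + e • y = (e * e - 1) • x + e • g := by
      conv_lhs => rw [hyg]
      rw [smul_add, smul_smul, sub_smul, one_smul]
      abel
    rw [e1]
    exact pv_add hRNG (pv_smul hRNG ((hRNG A I r.R).2.2.2.2.2.2.1 e he he0) hx)
      (pv_smul hRNG he hg)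
  have e2 : a * t * a = b := by
    rw [ht, hainv]
    calc a * (a * b * a) * a = (a * a) * b * (a * a) := by group
      _ = b := by rw [haa]; simp
  have e3 : cs.length (a * t) = cs.length (t * a) := by
    have htinv : t⁻¹ = t := (isRefl hgrt).inv
    rw [← cs.length_inv (a * t), mul_inv_rev, htinv, hainv]
  rw [e2, e3] at h2
  exact h1.trans h2

lemma bil_rt (hTRI : SpecTRI.{u}) (hinj : Function.Injective cs.simple) {ω : List B}
    (hnd : ω.Nodup) (hall : ∀ s : B, s ∈ ω) {L : List W}
    (hL : IsFac cs (cs.wordProd ω) ω.length L) :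
    L.Pairwise (fun a b => bil r.X (r.rt a) (r.rt b) = eA r.X ω (r.rt a) (r.rt b)) := by
  refine (hTRI B W M cs A I r hinj ω hnd hall L hL).imp ?_
  rintro a b ⟨h1, _⟩
  rw [bil_eq_eA r.X ω r.symm hall, h1, add_zero]

end SRTM

open SRTM in
theorem specSRT (hRNG : SpecRNG) (hRTF : SpecRTF.{u}) (hSGN : SpecSGN.{u}) (hPAL : SpecPAL.{u})
    (hTRI : SpecTRI.{u}) : SpecSRT.{u} := by
  intro B W _ _ _ M cs A I _ _ _ r hinj ω hnd hall L₁ L₂ a b hL hHm
  have hR := hL.1
  have hRa : cs.IsReflection a := hR a (by simp)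
  have hRb : cs.IsReflection b := hR b (by simp)
  obtain ⟨ha, hx⟩ := (hSGN B W M cs A I r).2.2.1 a hRa
  obtain ⟨hb, hy⟩ := (hSGN B W M cs A I r).2.2.1 b hRb
  obtain ⟨he, he0⟩ := hHm
  have hbil : bil r.X (r.rt a) (r.rt b) = eA r.X ω (r.rt a) (r.rt b) := by
    have h1 := bil_rt (r := r) hTRI hinj hnd hall hL
    rw [List.pairwise_append] at h1
    exact (List.pairwise_cons.1 h1.2.1).1 b (by simp)
  set e := eA r.X ω (r.rt a) (r.rt b) with hed
  have hainv : a⁻¹ = a := hRa.inv
  have hbinv : b⁻¹ = b := hRb.inv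
  rcases (hSGN B W M cs A I r).1 _ _ ((hRTF B W M cs A I r).2.2.2.1 b a _ hb) with h1 | h1
  · exact Or.inl (case_one hRNG hRTF hSGN ha hx hb hbil he he0 h1)
  rcases (hSGN B W M cs A I r).1 _ _ ((hRTF B W M cs A I r).2.2.2.1 a b _ ha) with h2 | h2
  · right
    have h3 := case_one hRNG hRTF hSGN hb hy ha (by rw [bil_comm r.X r.symm, hbil]) he he0 h2
    rw [hbinv] at h3 ⊢
    exact h3
  -- both negative
  have hab : cs.length (a * b) < cs.length a := by
    rcases lt_or_gt_of_ne (hRb.length_mul_left_ne a) with h3 | h3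
    · exact h3
    · exfalso
      have h4 := ((hSGN B W M cs A I r).2.2.2.1 b _ hb hy a).1 h3
      exact (hSGN B W M cs A I r).2.1 _ _ ((hRTF B W M cs A I r).2.2.2.1 b a _ hb)
        (eq_zero hRNG h4 h1)
  have hba : cs.length (b * a) < cs.length b := by
    rcases lt_or_gt_of_ne (hRa.length_mul_left_ne b) with h3 | h3
    · exact h3
    · exfalso
      have h4 := ((hSGN B W M cs A I r).2.2.2.1 a _ ha hx b).1 h3
      exact (hSGN B W M cs A I r).2.1 _ _ ((hRTF B W M cs A I r).2.2.2.1 a b _ ha)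
        (eq_zero hRNG h4 h2)
  have hne : a ≠ b := by
    rintro rfl
    have h3 : eA r.X ω (r.rt a) (r.rt a) = 0 := by
      have h4 := hTRI B W M cs A I r hinj ω hnd hall _ hL
      rw [List.pairwise_append] at h4
      exact ((List.pairwise_cons.1 h4.2.1).1 a (by simp)).1
    exact he0 h3
  rw [hainv, hbinv]
  rcases hPAL B W M cs a b hRa hRb hne hab with h3 | h3
  · exact Or.inr h3
  · rcases hPAL B W M cs b a hRb hRa hne.symm hba with h4 | h4
    · exact Or.inl h4
    · rcases le_or_gt (cs.length a) (cs.length b) with h5 | h5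
      · exact Or.inl (h3.trans_le h5)
      · exact Or.inr (h4.trans h5)

end Pool.Agent.Lib.MP_20db89_co.AK
end

section
set_option autoImplicit false

/-!
# Module INC
-/

namespace Pool.Agent.Lib.MP_20db89_co.AK

universe u

namespace INCM

open SRTM

variable {B W : Type u} [Fintype B] [DecidableEq B] [Group W] {M : CoxeterMatrix B}
  {cs : CoxeterSystem M W} {A I : Type} [CommRing A] [Fintype I] [DecidableEq I] {r : RD cs A I}

lemma pv_rho (hRNG : SpecRNG) (hRTF : SpecRTF.{u}) (hSGN : SpecSGN.{u}) (F : List W) :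
    ∀ v : B → A, r.R.PV v → (∀ t ∈ F, cs.IsReflection t) →
    (∀ t ∈ F, r.R.Nn (-(bil r.X (r.rt t) v))) →
    F.Pairwise (fun s t => r.R.Nn (-(bil r.X (r.rt t) (r.rt s)))) →
    r.R.PV (r.rho F.prod⁻¹ v) := by
  induction F with
  | nil =>
    intro v hv _ _ _
    simpa using hv
  | cons t F ih =>
    intro v hv hR hN hP
    have hRt := hR t (by simp)
    obtain ⟨ht, hx⟩ := (hSGN B W M cs A I r).2.2.1 t hRt
    have htinv : t⁻¹ = t := hRt.inv
    rw [List.pairwise_cons] at hP
    have e1 : (t :: F).prod⁻¹ = F.prod⁻¹ * t := by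
      rw [List.prod_cons, mul_inv_rev, htinv]
    have e2 : r.rho t v = v + (-(bil r.X (r.rt t) v)) • r.rt t := by
      rw [(hRTF B W M cs A I r).2.1 t _ ht, neg_smul, sub_eq_add_neg]
    rw [e1, map_mul, Module.End.mul_apply, e2]
    refine ih _ (pv_add hRNG hv (pv_smul hRNG (hN t (by simp)) hx))
      (fun s hs => hR s (by simp [hs])) ?_ hP.2
    intro s hs
    have e3 : -(bil r.X (r.rt s) (v + (-(bil r.X (r.rt t) v)) • r.rt t)) =
        -(bil r.X (r.rt s) v) + (-(bil r.X (r.rt t) v)) * (-(bil r.X (r.rt s) (r.rt t))) := by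
      rw [bil_add_right, bil_smul_right]
      ring
    rw [e3]
    exact (hRNG A I r.R).2.2.1 _ _ (hN s (by simp [hs]))
      ((hRNG A I r.R).2.1 _ _ (hN t (by simp)) (hP.1 s hs))

end INCM

open SRTM INCM in
theorem specINC (hRNG : SpecRNG) (hRTF : SpecRTF.{u}) (hSGN : SpecSGN.{u}) (hTRI : SpecTRI.{u}) :
    SpecINC.{u} := by
  intro B W _ _ _ M cs A I _ _ _ r hinj ω hnd hall a F G hL hHm
  have hR := hL.1
  have hRa : cs.IsReflection a := hR a (by simp)
  obtain ⟨ha, hx⟩ := (hSGN B W M cs A I r).2.2.1 a hRa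
  have h1 := bil_rt (r := r) hTRI hinj hnd hall hL
  have h2 := hTRI B W M cs A I r hinj ω hnd hall _ hL
  have h3 : (a :: F).Pairwise (fun s t => r.R.Nn (-(bil r.X (r.rt t) (r.rt s)))) := by
    rw [List.pairwise_append] at h1 h2
    refine ((h1.1.and h2.1).and hHm).imp ?_
    rintro s t ⟨⟨h4, _, h5⟩, h6⟩
    rw [bil_comm r.X r.symm, h4]
    rcases h5 with h5 | h5
    · have h7 : eA r.X ω (r.rt s) (r.rt t) = 0 := by
        by_contra hcon
        exact h6 ⟨h5, hcon⟩
      rw [h7, neg_zero]
      exact (hRNG A I r.R).2.2.2.1.2.2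
    · exact h5
  rw [List.pairwise_cons] at h3
  have h4 := pv_rho hRNG hRTF hSGN F (r.rt a) hx (fun t ht => hR t (by simp [ht]))
    (fun t ht => h3.1 t ht) h3.2
  have h5 := lt_of_pv hRNG hRTF hSGN ha hx h4
  have e1 : cs.length (F.prod⁻¹ * a) = cs.length (a * F.prod) := by
    rw [← cs.length_inv, mul_inv_rev, inv_inv, hRa.inv]
  rw [cs.length_inv, e1] at h5
  exact h5

end Pool.Agent.Lib.MP_20db89_co.AK
end

section
set_option autoImplicit false

/-!
# Modules SUB and ISO
-/

namespace Pool.Agent.Lib.MP_20db89_co.AK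

universe u

namespace SUBM

variable {Q : Type u} {mu : Q → Q → ℕ}

/-- composition -/
def cmp {E F G : Rp Q mu} (g : H0 F G) (f : H0 E F) : H0 E G := fun x => g x ∘ₗ f x

lemma dl_apply {E F : Rp Q mu} (f : H0 E F) (x y : Q) (k : Fin (mu x y)) (v : E.V x) :
    dl E F f x y k v = f y (E.map x y k v) - F.map x y k (f x v) := rfl

lemma comm {E F : Rp Q mu} {f : H0 E F} (h : dl E F f = 0) (x y : Q) (k : Fin (mu x y))
    (v : E.V x) : f y (E.map x y k v) = F.map x y k (f x v) := by
  have h1 : dl E F f x y k v = 0 := by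
    rw [h]
    rfl
  rw [dl_apply] at h1
  exact sub_eq_zero.1 h1

lemma of_comm {E F : Rp Q mu} {f : H0 E F}
    (h : ∀ (x y : Q) (k : Fin (mu x y)) (v : E.V x), f y (E.map x y k v) = F.map x y k (f x v)) :
    dl E F f = 0 := by
  funext x y k
  ext v
  rw [dl_apply, h, sub_self]
  rfl

lemma dl_cmp {E F G : Rp Q mu} {g : H0 F G} {f : H0 E F} (hg : dl F G g = 0) (hf : dl E F f = 0) :
    dl E G (cmp g f) = 0 := by
  refine of_comm fun x y k v => ?_
  show g y (f y (E.map x y k v)) = G.map x y k (g x (f x v))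
  rw [comm hf, comm hg]

/-- the identity -/
def idm (E : Rp Q mu) : H0 E E := fun _ => LinearMap.id

lemma dl_id (E : Rp Q mu) : dl E E (idm E) = 0 := of_comm fun _ _ _ _ => rfl

/-- kernels and cokernels of isomorphic maps -/
lemma iso_dims {M N M' N' : Type u} [AddCommGroup M] [Module ℚ M] [AddCommGroup N] [Module ℚ N]
    [AddCommGroup M'] [Module ℚ M'] [AddCommGroup N'] [Module ℚ N'] (D : M →ₗ[ℚ] N)
    (D' : M' →ₗ[ℚ] N') (α : M ≃ₗ[ℚ] M') (β : N ≃ₗ[ℚ] N') (h : ∀ m, β (D m) = D' (α m)) :
    Module.finrank ℚ (LinearMap.ker D) = Module.finrank ℚ (LinearMap.ker D') ∧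
      Module.finrank ℚ (N ⧸ LinearMap.range D) = Module.finrank ℚ (N' ⧸ LinearMap.range D') := by
  constructor
  · have h1 : (LinearMap.ker D).map (α : M →ₗ[ℚ] M') = LinearMap.ker D' := by
      ext m'
      constructor
      · rintro ⟨m, hm, rfl⟩
        rw [LinearMap.mem_ker]
        have h2 : D m = 0 := hm
        show D' (α m) = 0
        rw [← h, h2, map_zero]
      · intro hm'
        refine ⟨α.symm m', ?_, by simp⟩
        have h2 : D' m' = 0 := hm'
        show D (α.symm m') = 0
        apply β.injective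
        rw [h, map_zero]
        simpa using h2
    rw [← h1]
    exact (LinearEquiv.finrank_map_eq α _).symm
  · have h1 : (LinearMap.range D).map (β : N →ₗ[ℚ] N') = LinearMap.range D' := by
      ext n'
      constructor
      · rintro ⟨_, ⟨m, rfl⟩, rfl⟩
        exact ⟨α m, (h m).symm⟩
      · rintro ⟨m', rfl⟩
        refine ⟨D (α.symm m'), ⟨_, rfl⟩, ?_⟩
        show β (D (α.symm m')) = _
        rw [h]
        simp
    exact LinearEquiv.finrank_eq (Submodule.Quotient.equiv _ _ β h1)

end SUBM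

open SUBM in
theorem specSUB : SpecSUB.{u} := by
  rintro Q _ mu K E J ⟨hE, _⟩ ⟨i, p, hi, hp, hinj, hsurj, hex⟩ hK
  obtain ⟨f, hf⟩ : ∃ f : LinearMap.ker (dl E K), f ≠ 0 := by
    by_contra hcon
    push Not at hcon
    apply hK
    have : Subsingleton (LinearMap.ker (dl E K)) :=
      ⟨fun a b => (hcon a).trans (hcon b).symm⟩
    exact Module.finrank_zero_of_subsingleton
  have hfk : dl E K f = 0 := f.2
  have hg : dl E E (cmp i f) = 0 := dl_cmp hi hfk
  have hne : (⟨cmp i f, hg⟩ : LinearMap.ker (dl E E)) ≠ 0 := by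
    intro h0
    apply hf
    apply Subtype.ext
    funext x
    ext v
    have h1 : cmp i f.1 = (0 : H0 E E) := congrArg (fun z : LinearMap.ker (dl E E) => (z : H0 E E)) h0
    have h2 : i x (f.1 x v) = 0 := by
      have h3 := congrFun h1 x
      exact congrArg (fun z : E.V x →ₗ[ℚ] E.V x => z v) h3
    have h4 : i x (f.1 x v) = i x 0 := by rw [h2, map_zero]
    exact hinj x h4
  obtain ⟨c, hc⟩ := (finrank_eq_one_iff_of_nonzero' _ hne).1 hE ⟨idm E, dl_id E⟩
  have hc' : ∀ (x : Q) (v : E.V x), c • i x (f.1 x v) = v := by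
    intro x v
    have h1 : c • cmp i f.1 = idm E := congrArg (fun z : LinearMap.ker (dl E E) => (z : H0 E E)) hc
    have h3 := congrFun h1 x
    exact congrArg (fun z : E.V x →ₗ[ℚ] E.V x => z v) h3
  funext x
  show (Module.finrank ℚ (J.V x) : ℤ) = 0
  have hsub : Subsingleton (J.V x) := by
    have h0 : ∀ w : J.V x, w = 0 := by
      intro w
      obtain ⟨v, rfl⟩ := hsurj x w
      have h1 : v ∈ LinearMap.ker (p x) := by
        rw [← hex x]
        refine ⟨c • f.1 x v, ?_⟩
        rw [map_smul]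
        exact hc' x v
      exact h1
    exact ⟨fun a b => (h0 a).trans (h0 b).symm⟩
  rw [Module.finrank_zero_of_subsingleton]
  rfl

end Pool.Agent.Lib.MP_20db89_co.AK
end

section
set_option autoImplicit false

/-!
# Module ISO
-/

namespace Pool.Agent.Lib.MP_20db89_co.AK

universe u

open SUBM in
theorem specISO : SpecISO.{u} := by
  rintro Q _ mu E F ⟨f, hf, hb⟩
  let e : ∀ x, E.V x ≃ₗ[ℚ] F.V x := fun x => LinearEquiv.ofBijective (f x) (hb x)
  have he : ∀ (x y : Q) (k : Fin (mu x y)) (v : E.V x), e y (E.map x y k v) = F.map x y k (e x v) :=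
    fun x y k v => comm hf x y k v
  refine ⟨?_, ?_⟩
  · funext x
    show (Module.finrank ℚ (E.V x) : ℤ) = (Module.finrank ℚ (F.V x) : ℤ)
    rw [LinearEquiv.finrank_eq (e x)]
  · intro Z
    have h1 := iso_dims (dl Z E) (dl Z F)
      (LinearEquiv.piCongrRight fun x => LinearEquiv.congrRight (e x))
      (LinearEquiv.piCongrRight fun x => LinearEquiv.piCongrRight fun y =>
        LinearEquiv.piCongrRight fun _ => LinearEquiv.congrRight (e y)) (by
        intro m
        funext x y k
        ext v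
        show e y (m y (Z.map x y k v) - E.map x y k (m x v)) =
          e y (m y (Z.map x y k v)) - F.map x y k (e x (m x v))
        rw [map_sub, he])
    have h2 := iso_dims (dl E Z) (dl F Z)
      (LinearEquiv.piCongrRight fun x => LinearEquiv.congrLeft (Z.V x) ℚ (e x))
      (LinearEquiv.piCongrRight fun x => LinearEquiv.piCongrRight fun y =>
        LinearEquiv.piCongrRight fun _ => LinearEquiv.congrLeft (Z.V y) ℚ (e x)) (by
        intro m
        funext x y k
        ext v
        show m y (E.map x y k ((e x).symm v)) - Z.map x y k (m x ((e x).symm v)) =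
          m y ((e y).symm (F.map x y k v)) - Z.map x y k (m x ((e x).symm v))
        congr 2
        rw [LinearEquiv.eq_symm_apply, he]
        simp)
    exact ⟨h1.1, h1.2, h2.1, h2.2⟩

end Pool.Agent.Lib.MP_20db89_co.AK
end

section
set_option autoImplicit false

/-!
# Module MUT
-/

namespace Pool.Agent.Lib.MP_20db89_co.AK

universe u

namespace MUTM

variable {Q : Type u} {mu : Q → Q → ℕ}

/-- the dimension vector up to sign -/
abbrev Sg (E : Rp Q mu) (d : Q → ℤ) : Prop := dm E = d ∨ dm E = -d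

lemma sg_mut [Fintype Q] {E F L : Rp Q mu} {x y : Q → ℤ} (hE : Sg E x) (hF : Sg F y)
    (hL : dm L = dm F - eul mu (dm E) (dm F) • dm E ∨
      dm L = -(dm F - eul mu (dm E) (dm F) • dm E)) : Sg L (y - eul mu x y • x) := by
  rcases hE with hE | hE <;> rcases hF with hF | hF <;> rcases hL with hL | hL <;>
    rw [hE, hF] at hL <;>
    (try simp only [eul_neg_left, eul_neg_right, neg_neg, neg_smul, smul_neg] at hL) <;>
    first
      | (left; rw [hL]; abel1)
      | (right; rw [hL]; abel1)
      | exact Or.inl hL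
      | exact Or.inr hL

lemma sg_mut' [Fintype Q] {E F L : Rp Q mu} {x y : Q → ℤ} (hE : Sg E x) (hF : Sg F y)
    (hL : dm L = dm E - eul mu (dm E) (dm F) • dm F ∨
      dm L = -(dm E - eul mu (dm E) (dm F) • dm F)) : Sg L (x - eul mu x y • y) := by
  rcases hE with hE | hE <;> rcases hF with hF | hF <;> rcases hL with hL | hL <;>
    rw [hE, hF] at hL <;>
    (try simp only [eul_neg_left, eul_neg_right, neg_neg, neg_smul, smul_neg] at hL) <;>
    first
      | (left; rw [hL]; abel1)
      | (right; rw [hL]; abel1)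
      | exact Or.inl hL
      | exact Or.inr hL

/-- splitting of a list -/
lemma split {P R : List (Q → ℤ)} {x y : Q → ℤ} {Es : List (Rp Q mu)}
    (h : List.Forall₂ (fun E d => Sg E d) Es (P ++ x :: y :: R)) :
    ∃ (EP ER : List (Rp Q mu)) (E F : Rp Q mu), Es = EP ++ E :: F :: ER ∧
      List.Forall₂ (fun E d => Sg E d) EP P ∧ Sg E x ∧ Sg F y ∧
      List.Forall₂ (fun E d => Sg E d) ER R := by
  induction P generalizing Es with
  | nil =>
    rw [List.nil_append] at h
    cases h with
    | cons h1 h2 =>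
      cases h2 with
      | cons h3 h4 => exact ⟨[], _, _, _, rfl, List.Forall₂.nil, h1, h3, h4⟩
  | cons a P ih =>
    rw [List.cons_append] at h
    cases h with
    | cons h1 h2 =>
      obtain ⟨EP, ER, E, F, rfl, h3, h4, h5, h6⟩ := ih h2
      exact ⟨_ :: EP, ER, E, F, rfl, List.Forall₂.cons h1 h3, h4, h5, h6⟩

lemma join {P R : List (Q → ℤ)} {x y : Q → ℤ} {EP ER : List (Rp Q mu)} {E F : Rp Q mu}
    (h1 : List.Forall₂ (fun E d => Sg E d) EP P) (h2 : Sg E x) (h3 : Sg F y)
    (h4 : List.Forall₂ (fun E d => Sg E d) ER R) :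
    List.Forall₂ (fun E d => Sg E d) (EP ++ E :: F :: ER) (P ++ x :: y :: R) := by
  induction h1 with
  | nil => exact List.Forall₂.cons h2 (List.Forall₂.cons h3 h4)
  | cons a b ih => exact List.Forall₂.cons a ih

end MUTM

theorem specMUT (hLMU : SpecLMU.{u}) (hRMU : SpecRMU.{u}) : SpecMUT.{u} := by
  rintro Q _ mu P R x y ⟨Es, hEs, hB, hX⟩
  obtain ⟨EP, ER, E, F, rfl, h1, h2, h3, h4⟩ := MUTM.split hEs
  have hE : Brk E := hB E (by simp)
  have hF : Brk F := hB F (by simp)
  rw [List.pairwise_append] at hX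
  obtain ⟨hXP, hXR, hPR⟩ := hX
  rw [List.pairwise_cons, List.pairwise_cons] at hXR
  obtain ⟨hXE, hXF, hXR⟩ := hXR
  have hEF : Xp E F := hXE F (by simp)
  constructor
  · obtain ⟨L, hL, hdm, hLE, ha, hb⟩ := hLMU Q mu E F hE hF hEF
    refine ⟨EP ++ L :: E :: ER, MUTM.join h1 (MUTM.sg_mut h2 h3 hdm) h2 h4, ?_, ?_⟩
    · intro G hG
      simp only [List.mem_append, List.mem_cons] at hG
      rcases hG with hG | rfl | rfl | hG
      · exact hB G (by simp [hG])
      · exact hL
      · exact hE
      · exact hB G (by simp [hG])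
    · rw [List.pairwise_append]
      refine ⟨hXP, ?_, ?_⟩
      · rw [List.pairwise_cons, List.pairwise_cons]
        refine ⟨?_, ?_, hXR⟩
        · intro Z hZ
          rcases List.mem_cons.1 hZ with rfl | hZ
          · exact hLE
          · exact ha Z (hXE Z (by simp [hZ])) (hXF Z hZ)
        · intro Z hZ
          exact hXE Z (by simp [hZ])
      · intro Z hZ Y hY
        simp only [List.mem_cons] at hY
        rcases hY with rfl | rfl | hY
        · exact hb Z (hPR Z hZ E (by simp)) (hPR Z hZ F (by simp))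
        · exact hPR Z hZ _ (by simp)
        · exact hPR Z hZ Y (by simp [hY])
  · obtain ⟨L, hL, hdm, hLE, ha, hb⟩ := hRMU Q mu E F hE hF hEF
    refine ⟨EP ++ F :: L :: ER, MUTM.join h1 h3 (MUTM.sg_mut' h2 h3 hdm) h4, ?_, ?_⟩
    · intro G hG
      simp only [List.mem_append, List.mem_cons] at hG
      rcases hG with hG | rfl | rfl | hG
      · exact hB G (by simp [hG])
      · exact hF
      · exact hL
      · exact hB G (by simp [hG])
    · rw [List.pairwise_append]
      refine ⟨hXP, ?_, ?_⟩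
      · rw [List.pairwise_cons, List.pairwise_cons]
        refine ⟨?_, ?_, hXR⟩
        · intro Z hZ
          rcases List.mem_cons.1 hZ with rfl | hZ
          · exact hLE
          · exact hXF Z hZ
        · intro Z hZ
          exact ha Z (hXE Z (by simp [hZ])) (hXF Z hZ)
      · intro Z hZ Y hY
        simp only [List.mem_cons] at hY
        rcases hY with rfl | rfl | hY
        · exact hPR Z hZ _ (by simp)
        · exact hb Z (hPR Z hZ E (by simp)) (hPR Z hZ F (by simp))
        · exact hPR Z hZ Y (by simp [hY])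

end Pool.Agent.Lib.MP_20db89_co.AK
end

section
set_option autoImplicit false

/-!
MP_20db89_co, AK, modules ADJ, RED, CMP
-/

namespace Pool.Agent.Lib.MP_20db89_co.AK

universe u

namespace REDM

/-- a list which is not pairwise related contains a bad pair -/
theorem exists_split {α : Type u} {R : α → α → Prop} (F : List α) (h : ¬ F.Pairwise R) :
    ∃ (F₁ : List α) (a : α) (F₂ : List α) (b : α) (F₃ : List α),
      F = F₁ ++ a :: F₂ ++ b :: F₃ ∧ ¬ R a b := by
  induction F with
  | nil => exact absurd List.Pairwise.nil h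
  | cons x F ih =>
    by_cases hF : F.Pairwise R
    · rw [List.pairwise_cons] at h
      have h1 : ¬ ∀ a' ∈ F, R x a' := fun h2 => h ⟨h2, hF⟩
      push Not at h1
      obtain ⟨b, hb, hxb⟩ := h1
      obtain ⟨s, t, rfl⟩ := List.append_of_mem hb
      exact ⟨[], x, s, b, t, by simp, hxb⟩
    · obtain ⟨F₁, a, F₂, b, F₃, rfl, hab⟩ := ih hF
      exact ⟨x :: F₁, a, F₂, b, F₃, by simp, hab⟩

theorem comm_prod {W : Type u} [Group W] {a : W} {L : List W} (h : ∀ x ∈ L, a * x = x * a) :
    a * L.prod = L.prod * a := by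
  induction L with
  | nil => simp
  | cons x L ih =>
    rw [List.prod_cons, ← mul_assoc, h x (by simp), mul_assoc, ih (fun y hy => h y (by simp [hy])),
      mul_assoc]

/-- a minimal bad pair -/
theorem exists_min_split {α : Type u} {R : α → α → Prop} (F : List α) (h : ¬ F.Pairwise R) :
    ∃ (F₁ : List α) (a : α) (F₂ : List α) (b : α) (F₃ : List α),
      F = F₁ ++ a :: F₂ ++ b :: F₃ ∧ ¬ R a b ∧ (∀ x ∈ F₂, R a x) ∧ (∀ x ∈ F₂, R x b) := by
  classical
  have hex : ∃ m : ℕ, ∃ (F₁ : List α) (a : α) (F₂ : List α) (b : α) (F₃ : List α),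
      F = F₁ ++ a :: F₂ ++ b :: F₃ ∧ ¬ R a b ∧ F₂.length = m := by
    obtain ⟨F₁, a, F₂, b, F₃, h1, h2⟩ := exists_split F h
    exact ⟨F₂.length, F₁, a, F₂, b, F₃, h1, h2, rfl⟩
  obtain ⟨F₁, a, F₂, b, F₃, h1, h2, h3⟩ := Nat.find_spec hex
  have hmin := fun m (hm : m < Nat.find hex) => Nat.find_min hex hm
  refine ⟨F₁, a, F₂, b, F₃, h1, h2, ?_, ?_⟩
  · intro x hx
    by_contra hax
    obtain ⟨s, t, rfl⟩ := List.append_of_mem hx
    refine hmin s.length ?_ ⟨F₁, a, s, x, t ++ b :: F₃, ?_, hax, rfl⟩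
    · rw [← h3]
      simp
    · rw [h1]
      simp
  · intro x hx
    by_contra hxb
    obtain ⟨s, t, rfl⟩ := List.append_of_mem hx
    refine hmin t.length ?_ ⟨F₁ ++ a :: s, x, t, b, F₃, ?_, hxb, rfl⟩
    · rw [← h3]
      simp
      omega
    · rw [h1]
      simp

end REDM

theorem specADJ : SpecADJ.{u} := by
  intro B W _ M cs c n Ex Hm hAx P F Q hF hnot
  obtain ⟨F₁, a, F₂, b, F₃, rfl, hab, hax, hxb⟩ := REDM.exists_min_split F hnot
  rw [not_not] at hab
  have hassoc : P ++ (F₁ ++ a :: F₂ ++ b :: F₃) ++ Q =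
      (P ++ F₁) ++ a :: F₂ ++ b :: (F₃ ++ Q) := by simp
  rw [hassoc] at hF
  have htri := hAx.tri _ hF
  -- the relations between `a`, `b` and the elements of `F₂`
  have h1 : ∀ x ∈ F₂, (Ex a x ∧ ¬ Hm a x) ∨ (Hm a x ∧ ¬ Ex a x) ∨
      (a * x = x * a ∧ ¬ Ex a x ∧ ¬ Hm a x) := by
    intro x hx
    have hsub : [a, x].Sublist ((P ++ F₁) ++ a :: F₂ ++ b :: (F₃ ++ Q)) := by
      have e1 : [a, x].Sublist (a :: F₂) := (List.singleton_sublist.2 hx).cons_cons a
      exact (e1.trans (List.sublist_append_right _ _)).trans (List.sublist_append_left _ _)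
    have h3 := htri.sublist hsub
    simp only [List.pairwise_cons, List.mem_singleton, forall_eq] at h3
    exact h3.1.2.2
  have h2 : ∀ x ∈ F₂, (Ex x b ∧ ¬ Hm x b) ∨ (Hm x b ∧ ¬ Ex x b) ∨
      (x * b = b * x ∧ ¬ Ex x b ∧ ¬ Hm x b) := by
    intro x hx
    have hsub : [x, b].Sublist ((P ++ F₁) ++ a :: F₂ ++ b :: (F₃ ++ Q)) := by
      have e1 : [x].Sublist ((P ++ F₁) ++ a :: F₂) :=
        ((List.singleton_sublist.2 hx).trans (List.sublist_cons_self a F₂)).trans
          (List.sublist_append_right _ _)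
      have e2 : [b].Sublist (b :: (F₃ ++ Q)) := List.singleton_sublist.2 (by simp)
      exact e1.append e2
    have h3 := htri.sublist hsub
    simp only [List.pairwise_cons, List.mem_singleton, forall_eq] at h3
    exact h3.1.2.2
  rcases hAx.hr (P ++ F₁) F₂ (F₃ ++ Q) a b hF hab with ⟨h3, -, -⟩ | ⟨h3, -, -⟩
  · have hcomm : ∀ x ∈ F₂, a * x = x * a := by
      intro x hx
      rcases h1 x hx with h | h | h
      · exact absurd h.1 (h3 x hx)
      · exact absurd h.1 (hax x hx)
      · exact h.1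
    refine ⟨F₁ ++ F₂, F₃, a, b, ?_, hab, ?_⟩
    · have e : (F₂ ++ a :: b :: F₃).Perm (a :: F₂ ++ b :: F₃) := by
        have := List.perm_middle (a := a) (l₁ := F₂) (l₂ := b :: F₃)
        simpa using this
      have := e.append_left F₁
      simpa [List.append_assoc] using this
    · have e := REDM.comm_prod hcomm
      simp only [List.prod_append, List.prod_cons, mul_assoc]
      rw [← mul_assoc a F₂.prod, e, mul_assoc]
  · have hcomm : ∀ x ∈ F₂, b * x = x * b := by
      intro x hx
      rcases h2 x hx with h | h | h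
      · exact absurd h.1 (h3 x hx)
      · exact absurd h.1 (hxb x hx)
      · exact h.1.symm
    refine ⟨F₁, F₂ ++ F₃, a, b, ?_, hab, ?_⟩
    · have e : (b :: (F₂ ++ F₃)).Perm (F₂ ++ b :: F₃) := List.perm_middle.symm
      have := (e.cons a).append_left F₁
      simpa [List.append_assoc] using this
    · have e := REDM.comm_prod hcomm
      simp only [List.prod_append, List.prod_cons, mul_assoc]
      rw [← mul_assoc b F₂.prod, e, mul_assoc]

theorem specRED : SpecRED.{u} := by
  intro B W _ M cs c n Ex Hm hAx P F Q hF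
  -- strong induction on the total length
  induction hs : sl cs F using Nat.strong_induction_on generalizing F with
  | _ N ih =>
    by_cases hcan : F.Pairwise (fun a b => ¬ Hm a b)
    · exact ⟨F, hF, rfl, rfl, hcan, fun t ht => ⟨t, ht, le_rfl⟩, Or.inl (List.Perm.refl F)⟩
    · obtain ⟨A, D, a, b, hperm, hab, hprod⟩ := specADJ B W M cs c n Ex Hm hAx P F Q hF hcan
      have hrefl : ∀ t ∈ F, cs.IsReflection t := fun t ht => hF.1 t (by simp [ht])
      have hrefl' : ∀ t ∈ A ++ a :: b :: D, cs.IsReflection t := fun t ht =>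
        hrefl t (hperm.mem_iff.1 ht)
      have hF1 : IsFac cs c n (P ++ (A ++ a :: b :: D) ++ Q) :=
        isFac_replace hF hrefl' hprod hperm.length_eq
      have hslF : sl cs F = sl cs (A ++ a :: b :: D) := by
        unfold sl
        exact ((hperm.map cs.length).sum_eq).symm
      -- a Hurwitz move
      have key : ∃ F' : List W, (∀ t ∈ F', cs.IsReflection t) ∧ F'.prod = F.prod ∧
          F'.length = F.length ∧ sl cs F' < sl cs F ∧
          ∀ t ∈ F', ∃ g ∈ F, cs.length t ≤ cs.length g := by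
        have hsrt := hAx.srt (P ++ A) (D ++ Q) a b (by
          have e : (P ++ A) ++ a :: b :: (D ++ Q) = P ++ (A ++ a :: b :: D) ++ Q := by simp
          rw [e]
          exact hF1) hab
        rcases hsrt with h | h
        · refine ⟨A ++ (a * b * a⁻¹) :: a :: D, ?_, ?_, ?_, ?_, ?_⟩
          · exact (HM.left A D a b).isReflection hrefl'
          · rw [(HM.left A D a b).prod_eq, hprod]
          · rw [(HM.left A D a b).length_eq, hperm.length_eq]
          · rw [hslF]
            unfold sl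
            simp only [List.map_append, List.map_cons, List.sum_append, List.sum_cons]
            omega
          · intro t ht
            simp only [List.mem_append, List.mem_cons] at ht
            rcases ht with ht | rfl | rfl | ht
            · exact ⟨t, hperm.mem_iff.1 (by simp [ht]), le_rfl⟩
            · exact ⟨b, hperm.mem_iff.1 (by simp), h.le⟩
            · exact ⟨_, hperm.mem_iff.1 (by simp), le_rfl⟩
            · exact ⟨t, hperm.mem_iff.1 (by simp [ht]), le_rfl⟩
        · refine ⟨A ++ b :: (b⁻¹ * a * b) :: D, ?_, ?_, ?_, ?_, ?_⟩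
          · exact (HM.right A D a b).isReflection hrefl'
          · rw [(HM.right A D a b).prod_eq, hprod]
          · rw [(HM.right A D a b).length_eq, hperm.length_eq]
          · rw [hslF]
            unfold sl
            simp only [List.map_append, List.map_cons, List.sum_append, List.sum_cons]
            omega
          · intro t ht
            simp only [List.mem_append, List.mem_cons] at ht
            rcases ht with ht | rfl | rfl | ht
            · exact ⟨t, hperm.mem_iff.1 (by simp [ht]), le_rfl⟩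
            · exact ⟨_, hperm.mem_iff.1 (by simp), le_rfl⟩
            · exact ⟨a, hperm.mem_iff.1 (by simp), h.le⟩
            · exact ⟨t, hperm.mem_iff.1 (by simp [ht]), le_rfl⟩
      obtain ⟨F', hr', hp', hl', hs', hg'⟩ := key
      have hF' : IsFac cs c n (P ++ F' ++ Q) := isFac_replace hF hr' hp' hl'
      obtain ⟨K, k1, k2, k3, k4, k5, k6⟩ := ih (sl cs F') (by omega) F' hF' rfl
      refine ⟨K, k1, k2.trans hp', k3.trans hl', k4, ?_, ?_⟩
      · intro t ht
        obtain ⟨g, hg, hg2⟩ := k5 t ht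
        obtain ⟨g2, hg3, hg4⟩ := hg' g hg
        exact ⟨g2, hg3, hg2.trans hg4⟩
      · right
        rcases k6 with h | h
        · have : sl cs K = sl cs F' := by
            unfold sl
            exact (h.map cs.length).sum_eq
          omega
        · omega

theorem specCMP : SpecCMP.{u} := by
  intro B W _ M cs c n Ex Hm hAx P F F' Q hF hF' hcan
  obtain ⟨K, k1, k2, k3, k4, -, k6⟩ := specRED B W M cs c n Ex Hm hAx P F' Q hF'
  -- the products agree
  have hprod : F.prod = F'.prod := by
    have h1 := hF.2.1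
    have h2 := hF'.2.1
    simp only [List.prod_append] at h1 h2
    have h3 : P.prod * F.prod * Q.prod = P.prod * F'.prod * Q.prod := by rw [h1, h2]
    exact mul_left_cancel (mul_right_cancel h3)
  have m1 := isFac_move hF
  have m2 := isFac_move k1
  rw [k2, ← hprod] at m2
  have hperm : F.Perm K := hAx.uniq F K _ m1 m2 (by rw [k2, hprod]) hcan k4
  have hsl : sl cs F = sl cs K := by
    unfold sl
    exact (hperm.map cs.length).sum_eq
  rcases k6 with h | h
  · exact Or.inr (hperm.trans h)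
  · left
    omega

end Pool.Agent.Lib.MP_20db89_co.AK
end

section
set_option autoImplicit false

/-!
MP_20db89_co, AK, module ORD: a numbering of the labels of a factorization
-/

namespace Pool.Agent.Lib.MP_20db89_co.AK

universe u

namespace ORDM

section nodup

variable {B W : Type u} [Group W] {M : CoxeterMatrix B} {cs : CoxeterSystem M W}
  {c : W} {n : ℕ} {Ex Hm : W → W → Prop}

/-- a factorization has no repetition -/
theorem nodup (hAx : Ax cs c n Ex Hm) {L : List W} (hL : IsFac cs c n L) : L.Nodup := by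
  by_contra hnd
  obtain ⟨P, x, Q, y, R, rfl, hxy⟩ := REDM.exists_split L hnd
  rw [not_not] at hxy
  subst hxy
  obtain ⟨h1, h2, h3⟩ := hL
  have hx : x * x = 1 := (h1 x (by simp)).mul_self
  have hx' : x⁻¹ = x := inv_eq_of_mul_eq_one_left hx
  have h4 := hAx.minlen (P ++ (Q.map (fun t => x⁻¹ * t * x)) ++ R) (by
    intro t ht
    simp only [List.mem_append, List.mem_map] at ht
    rcases ht with (ht | ⟨s, hs, rfl⟩) | ht
    · exact h1 t (by simp [ht])
    · exact isReflection_conj' x (h1 s (by simp [hs]))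
    · exact h1 t (by simp [ht])) (by
    have h5 := prod_map_conj x Q
    rw [hx'] at h5
    rw [← h2]
    simp only [List.prod_append, List.prod_cons, hx', h5]
    simp only [mul_assoc])
  rw [← h3] at h4
  simp only [List.length_append, List.length_cons, List.length_map] at h4
  omega

end nodup

section cyc

variable {W : Type u}

/-- paths of length `k` -/
def Wk (O : W → W → Prop) : ℕ → W → W → Prop
  | 0, x, y => x = y
  | k + 1, x, y => ∃ z, O x z ∧ Wk O k z y

theorem wk_append {O : W → W → Prop} {i j : ℕ} {x y z : W} (h1 : Wk O i x y) (h2 : Wk O j y z) :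
    Wk O (i + j) x z := by
  induction i generalizing x with
  | zero =>
    cases h1
    simpa using h2
  | succ i ih =>
    obtain ⟨w, hw, h3⟩ := h1
    have : i + 1 + j = (i + j) + 1 := by omega
    rw [this]
    exact ⟨w, hw, ih h3⟩

theorem wk_last {O : W → W → Prop} {k : ℕ} {x y : W} (h : Wk O (k + 1) x y) :
    ∃ z, Wk O k x z ∧ O z y := by
  induction k generalizing x with
  | zero =>
    obtain ⟨z, hz, h2⟩ := h
    cases h2
    exact ⟨x, rfl, hz⟩
  | succ k ih =>
    obtain ⟨w, hw, h3⟩ := h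
    obtain ⟨z, hz, hz2⟩ := ih h3
    exact ⟨z, ⟨w, hw, hz⟩, hz2⟩

/-- a path which does not increase the position has a backward edge -/
theorem exists_back {O : W → W → Prop} {pos : W → ℕ} (hne : ∀ x y, O x y → pos x ≠ pos y)
    {k : ℕ} {x y : W} (h : Wk O (k + 1) x y) (hpos : pos y ≤ pos x) :
    ∃ (i j : ℕ) (v w : W), i + 1 + j = k + 1 ∧ Wk O i x v ∧ O v w ∧ Wk O j w y ∧
      pos w < pos v := by
  induction k generalizing x with
  | zero =>
    obtain ⟨z, hz, h2⟩ := h
    cases h2
    exact ⟨0, 0, x, y, rfl, rfl, hz, rfl, lt_of_le_of_ne hpos (hne _ _ hz).symm⟩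
  | succ k ih =>
    obtain ⟨z, hz, h2⟩ := h
    rcases lt_or_ge (pos z) (pos x) with hlt | hge
    · exact ⟨0, k + 1, x, z, by omega, rfl, hz, h2, hlt⟩
    · obtain ⟨i, j, v, w, h3, h4, h5, h6, h7⟩ := ih h2 (hpos.trans hge)
      exact ⟨i + 1, j, v, w, by omega, ⟨z, hz, h4⟩, h5, h6, h7⟩

theorem transGen_wk {O : W → W → Prop} {x y : W} (h : Relation.TransGen O x y) :
    ∃ k, Wk O (k + 1) x y := by
  induction h with
  | single h => exact ⟨0, _, h, rfl⟩
  | tail h1 h2 ih =>
    obtain ⟨k, hk⟩ := ih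
    exact ⟨k + 1, wk_append hk (show Wk O 1 _ _ from ⟨_, h2, rfl⟩)⟩

end cyc

section acyclic

variable {B W : Type u} [Group W] {M : CoxeterMatrix B} {cs : CoxeterSystem M W}
  {c : W} {n : ℕ} {Ex Hm : W → W → Prop}

/-- the relation -/
def O (Ex Hm : W → W → Prop) (L : List W) (x y : W) : Prop :=
  x ∈ L ∧ y ∈ L ∧ x ≠ y ∧ (Ex x y ∨ Hm y x)

/-- two elements of a list, the first one before the second one -/
theorem exists_pos_split {α : Type u} [DecidableEq α] {L : List α} {x y : α} (hx : x ∈ L)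
    (hy : y ∈ L) (h : L.idxOf x < L.idxOf y) :
    ∃ L₁ L₂ L₃ : List α, L = L₁ ++ x :: L₂ ++ y :: L₃ := by
  obtain ⟨s, t, rfl, hs⟩ := List.eq_append_cons_of_mem hx
  have h1 : (s ++ x :: t).idxOf x = s.length := by
    rw [List.idxOf_append_of_notMem hs, List.idxOf_cons_self, add_zero]
  rw [h1] at h
  have hys : y ∉ s := by
    intro hys
    rw [List.idxOf_append_of_mem hys] at h
    have := List.idxOf_lt_length_of_mem hys
    omega
  have hyx : y ≠ x := by
    rintro rfl
    rw [h1] at h
    omega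
  have hyt : y ∈ t := by
    simp only [List.mem_append, List.mem_cons] at hy
    tauto
  obtain ⟨a, b, rfl⟩ := List.append_of_mem hyt
  exact ⟨s, a, b, by simp⟩

theorem acyclic (hAx : Ax cs c n Ex Hm) {L : List W} (hL : IsFac cs c n L) (x : W) :
    ¬ Relation.TransGen (O Ex Hm L) x x := by
  classical
  intro hx
  have hnd := nodup hAx hL
  have htri := hAx.tri L hL
  -- a shortest cycle
  have hex : ∃ k, ∃ x, Wk (O Ex Hm L) (k + 1) x x := by
    obtain ⟨k, hk⟩ := transGen_wk hx
    exact ⟨k, x, hk⟩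
  obtain ⟨y, hy⟩ := Nat.find_spec hex
  have hmin : ∀ m, m < Nat.find hex → ∀ z, ¬ Wk (O Ex Hm L) (m + 1) z z :=
    fun m hm z hz => Nat.find_min hex hm ⟨z, hz⟩
  set k := Nat.find hex
  have hne : ∀ a b, O Ex Hm L a b → L.idxOf a ≠ L.idxOf b := by
    rintro a b ⟨ha, hb, hab, -⟩ h
    exact hab ((List.idxOf_inj ha).1 h)
  obtain ⟨i, j, v, w, hij, h1, hvw, h2, hpos⟩ := exists_back (pos := fun a => L.idxOf a) hne hy
    le_rfl
  have hwv : Wk (O Ex Hm L) k w v := by
    have := wk_append h2 h1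
    have e : j + i = k := by omega
    rwa [e] at this
  obtain ⟨hv, hw, hne2, hvw'⟩ := hvw
  obtain ⟨L₁, L₂, L₃, hLeq⟩ := exists_pos_split hw hv hpos
  -- relations from `tri`
  rw [hLeq] at htri hL hnd
  have hmemL : ∀ z, z ∈ L ↔ z ∈ L₁ ∨ z = w ∨ z ∈ L₂ ∨ z = v ∨ z ∈ L₃ := by
    intro z
    rw [hLeq]
    simp only [List.mem_append, List.mem_cons]
    tauto
  rw [List.pairwise_append] at htri
  obtain ⟨htri1, htri2, htri3⟩ := htri
  rw [List.pairwise_append] at htri1
  obtain ⟨htri11, htri12, htri13⟩ := htri1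
  rw [List.pairwise_cons] at htri12 htri2
  have hwv2 := htri3 w (by simp) v (by simp)
  have hHm : Hm w v := by
    rcases hvw' with h | h
    · exact absurd h hwv2.1
    · exact h
  have hEx : ¬ Ex w v := by
    rcases hwv2.2.2 with h | h | h
    · exact absurd hHm h.2
    · exact h.2
    · exact h.2.1
  -- the cycle has length at least two
  obtain ⟨k', hk'⟩ : ∃ k', k = k' + 1 := by
    cases hk : k with
    | zero =>
      rw [hk] at hwv
      exact absurd hwv.symm hne2
    | succ k' => exact ⟨k', rfl⟩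
  rw [hk'] at hwv
  rcases hAx.hr L₁ L₂ L₃ w v hL hHm with ⟨a1, a2, a3⟩ | ⟨a1, a2, a3⟩
  · obtain ⟨z, hwz, hzv⟩ := hwv
    have hvz : O Ex Hm L v z := by
      obtain ⟨-, hz, hwz2, hrel⟩ := hwz
      rcases (hmemL z).1 hz with h | h | h | h | h
      · -- before `w`
        have h5 := htri13 z h w (by simp)
        have h6 : Hm z w := by
          rcases hrel with h7 | h7
          · exact absurd h7 h5.1
          · exact h7
        refine ⟨hv, hz, ?_, Or.inr (a3 z h h6)⟩
        rintro rfl
        have h8 := htri13 v h w (by simp)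
        have h9 := List.nodup_append.1 hnd
        exact h9.2.2 v (by simp [h]) v (by simp) rfl
      · exact absurd h.symm hwz2
      · have h5 := htri12.1 z h
        rcases hrel with h7 | h7
        · exact absurd h7 (a1 z h)
        · exact absurd h7 h5.2.1
      · subst h
        rcases hrel with h7 | h7
        · exact absurd h7 hEx
        · exact absurd h7 hwv2.2.1
      · have h5 := htri3 w (by simp) z (by simp [h])
        have h6 : Ex w z := by
          rcases hrel with h7 | h7
          · exact h7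
          · exact absurd h7 h5.2.1
        refine ⟨hv, hz, ?_, Or.inl (a2 z h h6)⟩
        rintro rfl
        have h9 := (List.nodup_append.1 hnd).2.1
        exact (List.nodup_cons.1 h9).1 h
    exact hmin k' (by omega) v ⟨z, hvz, hzv⟩
  · obtain ⟨z, hwz, hzv⟩ := wk_last hwv
    have hzw : O Ex Hm L z w := by
      obtain ⟨hz, -, hzv2, hrel⟩ := hzv
      rcases (hmemL z).1 hz with h | h | h | h | h
      · have h5 := htri3 z (by simp [h]) v (by simp)
        have h6 : Ex z v := by
          rcases hrel with h7 | h7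
          · exact h7
          · exact absurd h7 h5.2.1
        refine ⟨hz, hw, ?_, Or.inl (a2 z h h6)⟩
        rintro rfl
        have h9 := List.nodup_append.1 (List.nodup_append.1 hnd).1
        exact h9.2.2 z h z (by simp) rfl
      · subst h
        rcases hrel with h7 | h7
        · exact absurd h7 hEx
        · exact absurd h7 hwv2.2.1
      · have h5 := htri3 z (by simp [h]) v (by simp)
        rcases hrel with h7 | h7
        · exact absurd h7 (a1 z h)
        · exact absurd h7 h5.2.1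
      · exact absurd h hzv2
      · have h5 := htri2.1 z h
        have h6 : Hm v z := by
          rcases hrel with h7 | h7
          · exact absurd h7 h5.1
          · exact h7
        refine ⟨hz, hw, ?_, Or.inr (a3 z h h6)⟩
        rintro rfl
        have h9 := List.nodup_append.1 hnd
        exact h9.2.2 z (by simp) z (by simp [h]) rfl
    have := wk_append hwz (show Wk (O Ex Hm L) 1 z w from ⟨w, hzw, rfl⟩)
    exact hmin k' (by omega) w this

end acyclic

end ORDM

/-- ORD, with `x ≠ y`. -/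
theorem ord_ne {B W : Type u} [Group W] {M : CoxeterMatrix B} {cs : CoxeterSystem M W}
    {c : W} {n : ℕ} {Ex Hm : W → W → Prop} (hAx : Ax cs c n Ex Hm) {L : List W}
    (hL : IsFac cs c n L) :
    ∃ f : W → ℕ, (∀ x ∈ L, ∀ y ∈ L, f x = f y → x = y) ∧
      ∀ x ∈ L, ∀ y ∈ L, x ≠ y → (Ex x y ∨ Hm y x) → f x < f y := by
  classical
  let g : W → ℕ := fun x => (L.toFinset.filter
    (fun y => Relation.TransGen (ORDM.O Ex Hm L) y x)).card
  have hg : ∀ x y, ORDM.O Ex Hm L x y → g x < g y := by
    intro x y hxy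
    apply Finset.card_lt_card
    rw [Finset.ssubset_iff_of_subset]
    · refine ⟨x, ?_, ?_⟩
      · rw [Finset.mem_filter]
        exact ⟨List.mem_toFinset.2 hxy.1, Relation.TransGen.single hxy⟩
      · rw [Finset.mem_filter]
        rintro ⟨-, h⟩
        exact ORDM.acyclic hAx hL x h
    · intro z hz
      rw [Finset.mem_filter] at hz ⊢
      exact ⟨hz.1, hz.2.tail hxy⟩
  refine ⟨fun x => g x * (L.length + 1) + L.idxOf x, ?_, ?_⟩
  · intro x hx y hy h
    have h1 := List.idxOf_lt_length_of_mem hx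
    have h2 := List.idxOf_lt_length_of_mem hy
    have h3 : L.idxOf x = L.idxOf y := by
      have h' : L.idxOf x + g x * (L.length + 1) = L.idxOf y + g y * (L.length + 1) := by
        simp only at h
        omega
      have e1 := congrArg (· % (L.length + 1)) h'
      simp only [Nat.add_mul_mod_self_right] at e1
      rwa [Nat.mod_eq_of_lt (by omega), Nat.mod_eq_of_lt (by omega)] at e1
    exact (List.idxOf_inj hx).1 h3
  · intro x hx y hy hxy hrel
    have h1 := hg x y ⟨hx, hy, hxy, hrel⟩
    have h2 := List.idxOf_lt_length_of_mem hx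
    have h3 : (g x + 1) * (L.length + 1) ≤ g y * (L.length + 1) := Nat.mul_le_mul_right _ h1
    simp only
    nlinarith

theorem specORD : SpecORD.{u} := by
  intro B W _ M cs c n Ex Hm hAx L hL
  obtain ⟨f, h1, h2⟩ := ord_ne hAx hL
  refine ⟨f, h1, fun x hx y hy h => h2 x hx y hy ?_ h⟩
  rintro rfl
  rcases h with h | h
  · exact (hAx.irr x).1 h
  · exact (hAx.irr x).2 h

end Pool.Agent.Lib.MP_20db89_co.AK
end

section
/-!
# MP_20db89, module PAL: conjugating a reflection by one of its inversions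
-/
set_option autoImplicit false

namespace Pool.Agent.Lib.MP_20db89_co.AK

universe u

namespace PALM

variable {B W : Type u} [Group W] {M : CoxeterMatrix B} (cs : CoxeterSystem M W)

theorem wordProd_split (ω : List B) {q : ℕ} (hq : q < ω.length) :
    cs.wordProd ω = cs.wordProd (ω.take q) * cs.simple ω[q] * cs.wordProd (ω.drop (q + 1)) := by
  conv_lhs => rw [← List.take_append_drop q ω, List.drop_eq_getElem_cons hq]
  rw [cs.wordProd_append, cs.wordProd_cons, mul_assoc]

end PALM

open PALM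

theorem specPAL : SpecPAL.{u} := by
  intro B W _ M cs a b ha hb hab hlt
  obtain ⟨ω, hred, hω⟩ := cs.exists_isReduced a
  have hlen : ω.length = cs.length a := by rw [hω]; exact hred.eq.symm
  have ha2 : a * a = 1 := ha.mul_self
  have hb2 : b * b = 1 := hb.mul_self
  have hpos : 0 < cs.length a := by
    have := ha.odd_length
    exact this.pos
  -- the position of `a`
  have h1 : cs.length (a * cs.wordProd ω) < cs.length (cs.wordProd ω) := by
    rw [← hω, ha2, cs.length_one]
    exact hpos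
  obtain ⟨q, hq, hqa, -⟩ := exchange_left cs ω ha h1
  -- the position of `b`
  have h2 : cs.length (b * cs.wordProd ω) < cs.length (cs.wordProd ω) := by
    rw [← hω]
    have e : b * a = (a * b)⁻¹ := by rw [mul_inv_rev, ha.inv, hb.inv]
    rw [e, cs.length_inv]
    exact hlt
  obtain ⟨j, hj, hjb, -⟩ := exchange_left cs ω hb h2
  have hne : j ≠ q := by
    rintro rfl
    exact hab (by rw [hqa, hjb])
  -- `p = 2 q + 1`
  have h3 : cs.wordProd (ω.drop (q + 1)) = (cs.wordProd (ω.take q))⁻¹ := by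
    have e1 := wordProd_split cs ω hq
    rw [← hω] at e1
    have e2 : cs.wordProd (ω.take q) * cs.simple ω[q] * (cs.wordProd (ω.take q))⁻¹ =
        cs.wordProd (ω.take q) * cs.simple ω[q] * cs.wordProd (ω.drop (q + 1)) := by
      rw [← hqa, ← e1]
    exact (mul_left_cancel e2).symm
  have h4 : ω.length = 2 * q + 1 := by
    have r1 : cs.IsReduced (ω.drop (q + 1)) := hred.drop (q + 1)
    have r2 : cs.IsReduced (ω.take q) := hred.take q
    have e1 := congrArg cs.length h3
    rw [cs.length_inv, r1.eq, r2.eq, List.length_drop, List.length_take] at e1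
    omega
  rcases lt_or_gt_of_ne hne with hjq | hjq
  · left
    -- `b u = v w'`
    have hj' : j < (ω.take q).length := by rw [List.length_take]; omega
    have e1 := wordProd_split cs (ω.take q) hj'
    have e2 : (ω.take q)[j] = ω[j] := List.getElem_take ..
    have e3 : (ω.take q).take j = ω.take j := by rw [List.take_take, min_eq_left hjq.le]
    rw [e2, e3] at e1
    set v := cs.wordProd (ω.take j) with hv
    set u := cs.wordProd (ω.take q) with hu
    set z := cs.wordProd ((ω.take q).drop (j + 1)) with hz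
    have e4 : b * u = v * z := by
      rw [hjb, e1]
      have hs : cs.simple ω[j] * cs.simple ω[j] = 1 := cs.simple_mul_simple_self _
      calc v * cs.simple ω[j] * v⁻¹ * (v * cs.simple ω[j] * z)
          = v * (cs.simple ω[j] * cs.simple ω[j]) * z := by group
        _ = v * z := by rw [hs, mul_one]
    have e5 : b * a * b = (v * z) * cs.simple ω[q] * (v * z)⁻¹ := by
      rw [← e4, mul_inv_rev, hb.inv]
      conv_lhs => rw [hqa]
      group
    have l1 : cs.length v ≤ j := by
      refine (cs.length_wordProd_le _).trans ?_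
      rw [List.length_take]
      omega
    have l2 : cs.length z ≤ q - (j + 1) := by
      refine (cs.length_wordProd_le _).trans ?_
      rw [List.length_drop, List.length_take]
      omega
    have l3 : cs.length (v * z) ≤ q - 1 := by
      have := cs.length_mul_le v z
      omega
    have l4 : cs.length (b * a * b) ≤ cs.length (v * z) + 1 + cs.length (v * z) := by
      rw [e5]
      have t1 := cs.length_mul_le (v * z * cs.simple ω[q]) (v * z)⁻¹
      have t2 := cs.length_mul_le (v * z) (cs.simple ω[q])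
      rw [cs.length_simple] at t2
      rw [cs.length_inv] at t1
      omega
    omega
  · right
    have e1 := wordProd_split cs ω hj
    rw [← hω] at e1
    set v := cs.wordProd (ω.take j) with hv
    set z := cs.wordProd (ω.drop (j + 1)) with hz
    have e5 : a * b * a = z⁻¹ * cs.simple ω[j] * z := by
      have e6 : a * b * a = a⁻¹ * b * a := by rw [ha.inv]
      rw [e6, e1, hjb]
      have hs : (cs.simple ω[j])⁻¹ = cs.simple ω[j] := cs.inv_simple _
      group
    have l2 : cs.length z ≤ ω.length - (j + 1) := by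
      refine (cs.length_wordProd_le _).trans ?_
      rw [List.length_drop]
    have l4 : cs.length (a * b * a) ≤ cs.length z + 1 + cs.length z := by
      rw [e5]
      have t1 := cs.length_mul_le (z⁻¹ * cs.simple ω[j]) z
      have t2 := cs.length_mul_le z⁻¹ (cs.simple ω[j])
      rw [cs.length_simple, cs.length_inv] at t2
      omega
    omega

end Pool.Agent.Lib.MP_20db89_co.AK
end

section
set_option autoImplicit false

/-!
PEN: an exceptional brick is determined by its dimension vector.
-/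

universe u

namespace Pool.Agent.Lib.MP_20db89_co.AK

namespace PENM

open Polynomial

/-- a polynomial family of endomorphisms which is invertible at `0` is invertible outside a finite
set -/
lemma poly_det {V : Type} [AddCommGroup V] [Module ℚ V] [Module.Finite ℚ V] {n : ℕ}
    (h : Fin n → (V →ₗ[ℚ] V)) (q : Fin n → ℚ[X])
    (h0 : LinearMap.det (∑ i, (q i).eval 0 • h i) ≠ 0) :
    {l : ℚ | LinearMap.det (∑ i, (q i).eval l • h i) = 0}.Finite := by
  classical
  set b := Module.finBasis ℚ V with hb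
  set Mx : Matrix (Fin (Module.finrank ℚ V)) (Fin (Module.finrank ℚ V)) ℚ[X] :=
    ∑ i, q i • (LinearMap.toMatrix b b (h i)).map C with hM
  have key : ∀ l : ℚ, (Mx.det).eval l = LinearMap.det (∑ i, (q i).eval l • h i) := by
    intro l
    rw [← LinearMap.det_toMatrix b, ← Polynomial.coe_evalRingHom, RingHom.map_det]
    congr 1
    ext a c
    simp only [hM, RingHom.mapMatrix_apply, Matrix.map_apply, Matrix.sum_apply, Matrix.smul_apply,
      smul_eq_mul, map_sum, Polynomial.coe_evalRingHom, map_smul, Polynomial.eval_mul,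
      Polynomial.eval_C]
  have hne : Mx.det ≠ 0 := by
    intro h
    apply h0
    rw [← key, h, Polynomial.eval_zero]
  refine (Mx.det.roots.toFinset.finite_toSet).subset ?_
  intro l hl
  rw [Set.mem_ofPred_eq, ← key] at hl
  rw [Finset.mem_coe, Multiset.mem_toFinset, Polynomial.mem_roots hne]
  exact hl

/-- the adjugate of `1 + X P` applied to a vector -/
lemma adj_family {V : Type u} [AddCommGroup V] [Module ℚ V] [Module.Finite ℚ V]
    (P : V →ₗ[ℚ] V) (v : V) : ∃ (n : ℕ) (b : Fin n → V) (q : Fin n → ℚ[X]) (d : ℚ[X]),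
      (∑ i, (q i).eval 0 • b i = v) ∧
      ∀ l : ℚ, (∑ i, (q i).eval l • b i) + l • P (∑ i, (q i).eval l • b i) = d.eval l • v := by
  classical
  set b := Module.finBasis ℚ V with hb
  set n := Module.finrank ℚ V with hn
  set T : Matrix (Fin n) (Fin n) ℚ[X] := 1 + (X : ℚ[X]) • (LinearMap.toMatrix b b P).map C with hT
  set vv : Fin n → ℚ[X] := fun i => C (b.repr v i) with hvv
  set q : Fin n → ℚ[X] := T.adjugate.mulVec vv with hq
  have hTl : ∀ l : ℚ, T.map (Polynomial.eval l) = 1 + l • LinearMap.toMatrix b b P := by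
    intro l
    ext a c
    simp only [hT, Matrix.map_apply, Matrix.add_apply, Matrix.smul_apply, smul_eq_mul,
      Polynomial.eval_add, Polynomial.eval_mul, Polynomial.eval_X, Polynomial.eval_C,
      Matrix.one_apply]
    split_ifs <;> simp
  refine ⟨n, b, q, T.det, ?_, ?_⟩
  · have h1 : ∀ i, (q i).eval 0 = b.repr v i := by
      intro i
      have h2 : (T.adjugate).map (Polynomial.eval 0) = 1 := by
        have h3 : (Polynomial.evalRingHom (0 : ℚ)).mapMatrix T.adjugate =
            ((Polynomial.evalRingHom (0 : ℚ)).mapMatrix T).adjugate :=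
          RingHom.map_adjugate _ _
        have h4 : (Polynomial.evalRingHom (0 : ℚ)).mapMatrix T = 1 := by
          rw [RingHom.mapMatrix_apply, Polynomial.coe_evalRingHom, hTl 0, zero_smul, add_zero]
        rw [h4, Matrix.adjugate_one] at h3
        rw [RingHom.mapMatrix_apply, Polynomial.coe_evalRingHom] at h3
        exact h3
      have h5 : (q i).eval 0 = ((T.adjugate).map (Polynomial.eval 0)).mulVec (b.repr v) i := by
        simp only [hq, Matrix.mulVec, dotProduct, Polynomial.eval_finsetSum, Polynomial.eval_mul,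
          Matrix.map_apply, hvv, Polynomial.eval_C]
      rw [h5, h2, Matrix.one_mulVec]
    simp_rw [h1]
    exact b.sum_repr v
  · intro l
    set g : V := ∑ i, (q i).eval l • b i with hg
    have hrg : ∀ i, b.repr g i = (q i).eval l := by
      intro i
      rw [hg]
      simp [Finsupp.single_apply]
    have h1 : T.mulVec q = T.det • vv := by
      rw [hq, Matrix.mulVec_mulVec, Matrix.mul_adjugate, Matrix.smul_mulVec, Matrix.one_mulVec]
    have h2 : (1 + l • LinearMap.toMatrix b b P).mulVec (b.repr g) = T.det.eval l • (b.repr v : Fin n → ℚ) := by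
      rw [← hTl l]
      ext i
      have h3 := congrArg (fun f => (f i).eval l) h1
      simp only [Matrix.mulVec, dotProduct, Polynomial.eval_finsetSum, Polynomial.eval_mul,
        Pi.smul_apply, smul_eq_mul, hvv, Polynomial.eval_C] at h3
      simp only [Matrix.mulVec, dotProduct, Matrix.map_apply, Pi.smul_apply, smul_eq_mul, hrg]
      exact h3
    have h4 : (1 + l • LinearMap.toMatrix b b P) = LinearMap.toMatrix b b (1 + l • P) := by
      rw [map_add, map_smul, LinearMap.toMatrix_one]
    rw [h4] at h2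
    have h5 := LinearMap.toMatrix_mulVec_repr b b (1 + l • P) g
    rw [h5] at h2
    apply b.repr.injective
    ext i
    have h6 := congrFun h2 i
    simp only [LinearMap.add_apply, LinearMap.smul_apply, Module.End.one_apply] at h6
    rw [h6]
    simp

variable {Q : Type u} {mu : Q → Q → ℕ}

/-- the representation with the maps `E + l N` -/
def Mx (E : Rp Q mu) (N : H1 E E) (l : ℚ) : Rp Q mu where
  V := E.V
  acg := E.acg
  mod := E.mod
  fin := E.fin
  map x y k := E.map x y k + l • N x y k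

/-- the derivative of `dl` -/
def dN (E : Rp Q mu) (N : H1 E E) : H0 E E →ₗ[ℚ] H1 E E where
  toFun f := fun x y k => - (N x y k ∘ₗ f x)
  map_add' f g := by
    funext x y k
    simp only [Pi.add_apply, LinearMap.comp_add]
    abel
  map_smul' c f := by
    funext x y k
    simp only [Pi.smul_apply, LinearMap.comp_smul, RingHom.id_apply, smul_neg]

lemma dl_Mx (E : Rp Q mu) (N : H1 E E) (l : ℚ) (f : H0 E E) :
    dl E (Mx E N l) f = dl E E f + l • dN E N f := by
  funext x y k
  change f y ∘ₗ E.map x y k - (E.map x y k + l • N x y k) ∘ₗ f x = _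
  simp only [Pi.add_apply, Pi.smul_apply]
  change _ = (f y ∘ₗ E.map x y k - E.map x y k ∘ₗ f x) + l • (-(N x y k ∘ₗ f x))
  rw [LinearMap.add_comp, LinearMap.smul_comp, smul_neg]
  abel

lemma claim [Fintype Q] (E : Rp Q mu) (hE : Brk E) (N : H1 E E) :
    {l : ℚ | ¬ Iso E (Mx E N l)}.Finite := by
  classical
  obtain ⟨hh, hx⟩ := hE
  -- the identity
  set one : H0 E E := fun x => LinearMap.id with hone
  have hone0 : dl E E one = 0 := by
    funext x y k
    change LinearMap.id ∘ₗ E.map x y k - E.map x y k ∘ₗ LinearMap.id = 0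
    rw [LinearMap.id_comp, LinearMap.comp_id, sub_self]
  have honene : one ≠ 0 := by
    intro h
    have hsub : ∀ f : H0 E E, f = 0 := by
      intro f
      funext x
      ext v
      have h1 := congrFun h x
      have h2 := LinearMap.congr_fun h1 v
      simp only [hone, LinearMap.id_apply, Pi.zero_apply, LinearMap.zero_apply] at h2
      rw [h2, map_zero, map_zero]
    have : LinearMap.ker (dl E E) = ⊥ := by
      rw [LinearMap.ker_eq_bot']
      intro f _
      exact hsub f
    unfold hd at hh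
    rw [this] at hh
    simp at hh
  obtain ⟨τ, hτ⟩ : ∃ τ : Module.Dual ℚ (H0 E E), τ one ≠ 0 := by
    by_contra h
    push Not at h
    exact honene ((Module.forall_dual_apply_eq_zero_iff ℚ one).1 h)
  set D0 : H0 E E →ₗ[ℚ] (H1 E E × ℚ) := (dl E E).prod τ with hD0
  have hfr : Module.finrank ℚ (H0 E E) = Module.finrank ℚ (H1 E E × ℚ) := by
    have h1 := LinearMap.finrank_range_add_finrank_ker (dl E E)
    have h2 := Submodule.finrank_quotient_add_finrank (LinearMap.range (dl E E))
    unfold hd at hh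
    unfold xd at hx
    rw [Module.finrank_prod, Module.finrank_self]
    omega
  have hinj : Function.Injective D0 := by
    rw [← LinearMap.ker_eq_bot, LinearMap.ker_eq_bot']
    intro f hf
    have hf1 : dl E E f = 0 := congrArg Prod.fst hf
    have hf2 : τ f = 0 := congrArg Prod.snd hf
    have h1 := (finrank_eq_one_iff_of_nonzero' (⟨one, hone0⟩ : LinearMap.ker (dl E E))
      (by intro h; exact honene (congrArg Subtype.val h))).1 hh ⟨f, hf1⟩
    obtain ⟨c, hc⟩ := h1
    have hc' : c • one = f := congrArg Subtype.val hc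
    rw [← hc', map_smul, smul_eq_mul] at hf2
    rcases mul_eq_zero.1 hf2 with h | h
    · rw [← hc', h, zero_smul]
    · exact absurd h hτ
  have hbij : Function.Bijective D0 :=
    ⟨hinj, (LinearMap.injective_iff_surjective_of_finrank_eq_finrank hfr).1 hinj⟩
  set e := LinearEquiv.ofBijective D0 hbij with he
  set P : H0 E E →ₗ[ℚ] H0 E E := e.symm.toLinearMap ∘ₗ ((dN E N).prod 0) with hP
  obtain ⟨n, b, q, d, hq0, hql⟩ := adj_family P one
  -- the morphism
  have hmor : ∀ l : ℚ, dl E (Mx E N l) (∑ i, (q i).eval l • b i) = 0 := by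
    intro l
    set g : H0 E E := ∑ i, (q i).eval l • b i with hg
    have h1 := congrArg e (hql l)
    rw [map_add, map_smul, map_smul] at h1
    have h2 : e (P g) = ((dN E N).prod (0 : H0 E E →ₗ[ℚ] ℚ)) g := by
      rw [hP]
      simp
    rw [h2] at h1
    have h3 : ∀ f : H0 E E, e f = (dl E E f, τ f) := fun f => rfl
    rw [h3, h3] at h1
    have h4 := congrArg Prod.fst h1
    simp only [Prod.fst_add, Prod.smul_fst, hone0, smul_zero] at h4
    rw [dl_Mx]
    exact h4
  have hfin : (⋃ x : Q, {l : ℚ | LinearMap.det (∑ i, (q i).eval l • b i x) = 0}).Finite := by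
    apply Set.finite_iUnion
    intro x
    apply poly_det (fun i => b i x) q
    have : ∑ i, (q i).eval 0 • b i x = LinearMap.id := by
      have h1 := congrFun hq0 x
      rw [Finset.sum_apply] at h1
      simpa using h1
    rw [this, LinearMap.det_id]
    exact one_ne_zero
  refine hfin.subset ?_
  intro l hl
  by_contra hcon
  simp only [Set.mem_iUnion, Set.mem_ofPred_eq, not_exists] at hcon
  apply hl
  refine ⟨∑ i, (q i).eval l • b i, hmor l, ?_⟩
  intro x
  have hx : (∑ i, (q i).eval l • b i) x = ∑ i, (q i).eval l • b i x := by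
    rw [Finset.sum_apply]
    rfl
  have hu : IsUnit (∑ i, (q i).eval l • b i x) := by
    rw [LinearMap.isUnit_iff_isUnit_det]
    exact isUnit_iff_ne_zero.2 (hcon x)
  have hb := (Module.End.isUnit_iff _).1 hu
  have : Function.Bijective ((∑ i, (q i).eval l • b i) x) := by
    rw [hx]
    exact hb
  exact this

lemma iso_symm {E F : Rp Q mu} (h : Iso E F) : Iso F E := by
  obtain ⟨f, hf, hb⟩ := h
  refine ⟨fun x => ((LinearEquiv.ofBijective (f x) (hb x)).symm : F.V x →ₗ[ℚ] E.V x), ?_,
    fun x => (LinearEquiv.ofBijective (f x) (hb x)).symm.bijective⟩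
  funext x y k
  have h1 := congrFun (congrFun (congrFun hf x) y) k
  change f y ∘ₗ E.map x y k - F.map x y k ∘ₗ f x = 0 at h1
  change ((LinearEquiv.ofBijective (f y) (hb y)).symm : F.V y →ₗ[ℚ] E.V y) ∘ₗ F.map x y k -
    E.map x y k ∘ₗ ((LinearEquiv.ofBijective (f x) (hb x)).symm : F.V x →ₗ[ℚ] E.V x) = 0
  rw [sub_eq_zero] at h1 ⊢
  ext v
  obtain ⟨w, rfl⟩ := (hb x).2 v
  have h2 := LinearMap.congr_fun h1 w
  simp only [LinearMap.comp_apply] at h2
  simp only [LinearMap.comp_apply, LinearEquiv.coe_coe]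
  rw [← h2]
  have h3 : (LinearEquiv.ofBijective (f y) (hb y)).symm (f y (E.map x y k w)) = E.map x y k w :=
    (LinearEquiv.ofBijective (f y) (hb y)).symm_apply_apply (E.map x y k w)
  have h4 : (LinearEquiv.ofBijective (f x) (hb x)).symm (f x w) = w :=
    (LinearEquiv.ofBijective (f x) (hb x)).symm_apply_apply w
  rw [h3, h4]

lemma iso_trans {E F G : Rp Q mu} (h : Iso E F) (h' : Iso F G) : Iso E G := by
  obtain ⟨f, hf, hb⟩ := h
  obtain ⟨g, hg, hc⟩ := h'
  refine ⟨fun x => g x ∘ₗ f x, ?_, fun x => by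
    rw [LinearMap.coe_comp]; exact (hc x).comp (hb x)⟩
  funext x y k
  have h1 := congrFun (congrFun (congrFun hf x) y) k
  have h2 := congrFun (congrFun (congrFun hg x) y) k
  change f y ∘ₗ E.map x y k - F.map x y k ∘ₗ f x = 0 at h1
  change g y ∘ₗ F.map x y k - G.map x y k ∘ₗ g x = 0 at h2
  change (g y ∘ₗ f y) ∘ₗ E.map x y k - G.map x y k ∘ₗ (g x ∘ₗ f x) = 0
  rw [sub_eq_zero] at h1 h2 ⊢
  rw [LinearMap.comp_assoc, h1, ← LinearMap.comp_assoc, h2, LinearMap.comp_assoc]

end PENM

open PENM in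
theorem specPEN : SpecPEN.{u} := by
  intro Q _ mu E F hd hE hF
  have hfr : ∀ x, Module.finrank ℚ (E.V x) = Module.finrank ℚ (F.V x) := by
    intro x
    have h := congrFun hd x
    simp only [dm] at h
    exact_mod_cast h
  let φ : ∀ x, E.V x ≃ₗ[ℚ] F.V x := fun x => LinearEquiv.ofFinrankEq _ _ (hfr x)
  let NE : H1 E E := fun x y k =>
    ((φ y).symm : F.V y →ₗ[ℚ] E.V y) ∘ₗ F.map x y k ∘ₗ (φ x : E.V x →ₗ[ℚ] F.V x) - E.map x y k
  let NF : H1 F F := fun x y k =>
    (φ y : E.V y →ₗ[ℚ] F.V y) ∘ₗ E.map x y k ∘ₗ ((φ x).symm : F.V x →ₗ[ℚ] E.V x) - F.map x y k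
  have f1 := claim E hE NE
  have f2 := claim F hF NF
  obtain ⟨l, hl⟩ := (f1.union (f2.image (fun m => 1 - m))).exists_notMem
  rw [Set.mem_union, not_or] at hl
  obtain ⟨hl1, hl2⟩ := hl
  have i1 : Iso E (Mx E NE l) := by
    by_contra h
    exact hl1 h
  have i2 : Iso F (Mx F NF (1 - l)) := by
    by_contra h
    apply hl2
    exact ⟨1 - l, h, by ring⟩
  have i3 : Iso (Mx E NE l) (Mx F NF (1 - l)) := by
    refine ⟨fun x => (φ x : E.V x →ₗ[ℚ] F.V x), ?_, fun x => (φ x).bijective⟩
    funext x y k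
    change (φ y : E.V y →ₗ[ℚ] F.V y) ∘ₗ (E.map x y k + l • NE x y k) -
      (F.map x y k + (1 - l) • NF x y k) ∘ₗ (φ x : E.V x →ₗ[ℚ] F.V x) = 0
    ext v
    simp only [NE, NF, LinearMap.sub_apply, LinearMap.comp_apply, LinearMap.add_apply,
      LinearMap.smul_apply, LinearEquiv.coe_coe, map_add, map_smul, map_sub,
      LinearEquiv.apply_symm_apply, LinearEquiv.symm_apply_apply, LinearMap.zero_apply]
    module
  exact iso_trans i1 (iso_trans i3 (iso_symm i2))

end Pool.Agent.Lib.MP_20db89_co.AK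
end
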