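import Mathlib
import Pool.Agent.Lib.MP_20db89_co.AK.Spec

section
set_option autoImplicit false

/-!
# MP_20db89_co, module HRN: the numerical form of Happel-Ringel
-/

namespace Pool.Agent.Lib.MP_20db89_co.AK

universe u

theorem specHRN (hSES : SpecSES.{u}) (hHRL : SpecHRL.{u}) : SpecHRN.{u} := by
  intro Q _ mu E F hE hF hEF hne
  rcases hHRL Q mu E F hE hF hEF hne with ⟨C, hC⟩ | ⟨K, hK⟩
  · obtain ⟨h1, h2⟩ := hSES Q mu E F C hC
    constructor
    · have h3 := (h2 F).2.2.2.2.2
      have h4 := hF.2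
      omega
    · left
      refine ⟨fun Z => ⟨(h2 Z).2.2.2.2.2, (h2 Z).1⟩, fun x => ?_⟩
      have h3 : dm F x = dm E x + dm C x := by rw [h1]; rfl
      have h4 : 0 ≤ dm C x := by
        unfold dm
        positivity
      omega
  · obtain ⟨h1, h2⟩ := hSES Q mu K E F hK
    constructor
    · have h3 := (h2 E).2.2.1
      have h4 := hE.2
      omega
    · right
      refine ⟨fun Z => ⟨(h2 Z).2.2.1, (h2 Z).2.2.2.1⟩, fun x => ?_⟩
      have h3 : dm E x = dm K x + dm F x := by rw [h1]; rfl
      have h4 : 0 ≤ dm K x := by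
        unfold dm
        positivity
      omega

end Pool.Agent.Lib.MP_20db89_co.AK
end

section
set_option autoImplicit false

/-!
Module SES: inequalities from a short exact sequence.
-/

namespace Pool.Agent.Lib.MP_20db89_co.AK

universe u

namespace SESM

open Module

theorem abs6 {U V W U' V' W' : Type*} [AddCommGroup U] [AddCommGroup V] [AddCommGroup W]
    [AddCommGroup U'] [AddCommGroup V'] [AddCommGroup W'] [Module ℚ U] [Module ℚ V] [Module ℚ W]
    [Module ℚ U'] [Module ℚ V'] [Module ℚ W'] [Module.Finite ℚ U] [Module.Finite ℚ V]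
    [Module.Finite ℚ W] [Module.Finite ℚ U'] [Module.Finite ℚ V'] [Module.Finite ℚ W']
    (α : U →ₗ[ℚ] U') (β : V →ₗ[ℚ] V') (γ : W →ₗ[ℚ] W') (a : U →ₗ[ℚ] V) (b : V →ₗ[ℚ] W)
    (a' : U' →ₗ[ℚ] V') (b' : V' →ₗ[ℚ] W') (h1 : ∀ x, β (a x) = a' (α x))
    (h2 : ∀ x, γ (b x) = b' (β x)) (ha : Function.Injective a) (ha' : Function.Injective a')
    (hb' : Function.Surjective b') (hex : ∀ y, b y = 0 → ∃ x, a x = y) :
    finrank ℚ (LinearMap.ker α) ≤ finrank ℚ (LinearMap.ker β) ∧
    finrank ℚ (LinearMap.ker β) ≤ finrank ℚ (LinearMap.ker α) + finrank ℚ (LinearMap.ker γ) ∧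
    finrank ℚ (W' ⧸ LinearMap.range γ) ≤ finrank ℚ (V' ⧸ LinearMap.range β) := by
  have m1 : ∀ x ∈ LinearMap.ker α, a x ∈ LinearMap.ker β := by
    intro x hx
    rw [LinearMap.mem_ker] at hx ⊢
    rw [h1, hx, map_zero]
  have m2 : ∀ x ∈ LinearMap.ker β, b x ∈ LinearMap.ker γ := by
    intro x hx
    rw [LinearMap.mem_ker] at hx ⊢
    rw [h2, hx, map_zero]
  let A := a.restrict m1
  let B := b.restrict m2
  have hA : Function.Injective A := by
    intro x y hxy
    apply Subtype.ext
    apply ha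
    exact congrArg Subtype.val hxy
  refine ⟨LinearMap.finrank_le_finrank_of_injective hA, ?_, ?_⟩
  · have h3 := LinearMap.finrank_range_add_finrank_ker B
    have h4 : finrank ℚ (LinearMap.range B) ≤ finrank ℚ (LinearMap.ker γ) :=
      Submodule.finrank_le _
    have h5 : LinearMap.ker B ≤ LinearMap.range A := by
      intro y hy
      have h6 : b y.1 = 0 := congrArg Subtype.val (LinearMap.mem_ker.1 hy)
      obtain ⟨x, hx⟩ := hex y.1 h6
      have h7 : x ∈ LinearMap.ker α := by
        rw [LinearMap.mem_ker]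
        apply ha'
        rw [map_zero, ← h1, hx]
        exact LinearMap.mem_ker.1 y.2
      exact ⟨⟨x, h7⟩, Subtype.ext hx⟩
    have h6 : finrank ℚ (LinearMap.ker B) ≤ finrank ℚ (LinearMap.range A) :=
      Submodule.finrank_mono h5
    have h7 : finrank ℚ (LinearMap.range A) ≤ finrank ℚ (LinearMap.ker α) :=
      LinearMap.finrank_range_le A
    omega
  · have h3 : LinearMap.range β ≤ (LinearMap.range γ).comap b' := by
      rintro _ ⟨x, rfl⟩
      rw [Submodule.mem_comap, ← h2]
      exact ⟨_, rfl⟩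
    refine LinearMap.finrank_le_finrank_of_surjective
      (f := Submodule.mapQ (LinearMap.range β) (LinearMap.range γ) b' h3) ?_
    intro w
    obtain ⟨w, rfl⟩ := Submodule.mkQ_surjective _ w
    obtain ⟨v, rfl⟩ := hb' w
    exact ⟨(LinearMap.range β).mkQ v, Submodule.mapQ_apply _ _ _ _⟩

variable {Q : Type u} {mu : Q → Q → ℕ}

/-- composition with a morphism, degree zero -/
def po (Z : Rp Q mu) {C D : Rp Q mu} (p : H0 C D) : H0 Z C →ₗ[ℚ] H0 Z D where
  toFun f := fun x => p x ∘ₗ f x
  map_add' f g := by funext x; simp [LinearMap.comp_add]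
  map_smul' c f := by funext x; simp [LinearMap.comp_smul]

/-- composition with a morphism, degree one -/
def po1 (Z : Rp Q mu) {C D : Rp Q mu} (p : H0 C D) : H1 Z C →ₗ[ℚ] H1 Z D where
  toFun f := fun x y k => p y ∘ₗ f x y k
  map_add' f g := by funext x y k; simp [LinearMap.comp_add]
  map_smul' c f := by funext x y k; simp [LinearMap.comp_smul]

/-- precomposition with a morphism, degree zero -/
def pr (Z : Rp Q mu) {C D : Rp Q mu} (p : H0 C D) : H0 D Z →ₗ[ℚ] H0 C Z where
  toFun f := fun x => f x ∘ₗ p x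
  map_add' f g := by funext x; simp [LinearMap.add_comp]
  map_smul' c f := by funext x; simp [LinearMap.smul_comp]

/-- precomposition with a morphism, degree one -/
def pr1 (Z : Rp Q mu) {C D : Rp Q mu} (p : H0 C D) : H1 D Z →ₗ[ℚ] H1 C Z where
  toFun f := fun x y k => f x y k ∘ₗ p x
  map_add' f g := by funext x y k; simp [LinearMap.add_comp]
  map_smul' c f := by funext x y k; simp [LinearMap.smul_comp]

/-- the morphism condition -/
theorem dl_iff {C D : Rp Q mu} (p : H0 C D) : dl C D p = 0 ↔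
    ∀ x y (k : Fin (mu x y)) (v : C.V x), p y (C.map x y k v) = D.map x y k (p x v) := by
  constructor
  · intro h x y k v
    have h1 : dl C D p x y k = 0 := by rw [h]; rfl
    have h2 := LinearMap.congr_fun h1 v
    exact sub_eq_zero.1 h2
  · intro h
    funext x y k
    apply LinearMap.ext
    intro v
    exact sub_eq_zero.2 (h x y k v)

theorem po_comm (Z : Rp Q mu) {C D : Rp Q mu} (p : H0 C D) (hp : dl C D p = 0) (f : H0 Z C) :
    dl Z D (po Z p f) = po1 Z p (dl Z C f) := by
  rw [dl_iff] at hp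
  funext x y k
  apply LinearMap.ext
  intro v
  show p y (f y (Z.map x y k v)) - D.map x y k (p x (f x v)) =
    p y (f y (Z.map x y k v) - C.map x y k (f x v))
  rw [map_sub, hp]

theorem pr_comm (Z : Rp Q mu) {C D : Rp Q mu} (p : H0 C D) (hp : dl C D p = 0) (f : H0 D Z) :
    dl C Z (pr Z p f) = pr1 Z p (dl D Z f) := by
  rw [dl_iff] at hp
  funext x y k
  apply LinearMap.ext
  intro v
  show f y (p y (C.map x y k v)) - Z.map x y k (f x (p x v)) =
    f y (D.map x y k (p x v)) - Z.map x y k (f x (p x v))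
  rw [hp]

end SESM

open SESM Module in
theorem specSES : SpecSES.{u} := by
  intro Q _ mu A C D ⟨i, p, hi, hp, hinj, hsurj, hex⟩
  have hex1 : ∀ x a, p x (i x a) = 0 := by
    intro x a
    have h1 : i x a ∈ LinearMap.range (i x) := ⟨a, rfl⟩
    rw [hex] at h1
    exact h1
  have hex2 : ∀ x c, p x c = 0 → ∃ a, i x a = c := by
    intro x c hc
    have h1 : c ∈ LinearMap.ker (p x) := hc
    rw [← hex] at h1
    exact h1
  have hr : ∀ x, ∃ r : C.V x →ₗ[ℚ] A.V x, r ∘ₗ i x = LinearMap.id := fun x =>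
    LinearMap.exists_leftInverse_of_injective _ (LinearMap.ker_eq_bot.2 (hinj x))
  choose r hr using hr
  have hs : ∀ x, ∃ s : D.V x →ₗ[ℚ] C.V x, p x ∘ₗ s = LinearMap.id := fun x =>
    LinearMap.exists_rightInverse_of_surjective _ (LinearMap.range_eq_top.2 (hsurj x))
  choose s hs using hs
  have hr' : ∀ x a, r x (i x a) = a := fun x a => LinearMap.congr_fun (hr x) a
  have hs' : ∀ x d, p x (s x d) = d := fun x d => LinearMap.congr_fun (hs x) d
  refine ⟨?_, ?_⟩
  · funext x
    have h1 := LinearMap.finrank_range_add_finrank_ker (p x)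
    rw [LinearMap.range_eq_top.2 (hsurj x), finrank_top, ← hex,
      LinearMap.finrank_range_of_inj (hinj x)] at h1
    show (finrank ℚ (C.V x) : ℤ) = (finrank ℚ (A.V x) : ℤ) + (finrank ℚ (D.V x) : ℤ)
    omega
  · intro Z
    have k1 := abs6 (dl Z A) (dl Z C) (dl Z D) (po Z i) (po Z p) (po1 Z i) (po1 Z p)
      (po_comm Z i hi) (po_comm Z p hp)
      (by
        intro f g h
        funext x
        apply LinearMap.ext
        intro v
        exact hinj x (LinearMap.congr_fun (congrFun h x) v))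
      (by
        intro f g h
        funext x y k
        apply LinearMap.ext
        intro v
        exact hinj y (LinearMap.congr_fun (congrFun (congrFun (congrFun h x) y) k) v))
      (by
        intro g
        refine ⟨fun x y k => s y ∘ₗ g x y k, ?_⟩
        funext x y k
        apply LinearMap.ext
        intro v
        exact hs' y _)
      (by
        intro f hf
        refine ⟨fun x => r x ∘ₗ f x, ?_⟩
        funext x
        apply LinearMap.ext
        intro v
        obtain ⟨a, ha⟩ := hex2 x (f x v) (LinearMap.congr_fun (congrFun hf x) v)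
        show i x (r x (f x v)) = f x v
        rw [← ha, hr'])
    have k2 := abs6 (dl D Z) (dl C Z) (dl A Z) (pr Z p) (pr Z i) (pr1 Z p) (pr1 Z i)
      (pr_comm Z p hp) (pr_comm Z i hi)
      (by
        intro f g h
        funext x
        apply LinearMap.ext
        intro v
        obtain ⟨c, rfl⟩ := hsurj x v
        exact LinearMap.congr_fun (congrFun h x) c)
      (by
        intro f g h
        funext x y k
        apply LinearMap.ext
        intro v
        obtain ⟨c, rfl⟩ := hsurj x v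
        exact LinearMap.congr_fun (congrFun (congrFun (congrFun h x) y) k) c)
      (by
        intro g
        refine ⟨fun x y k => g x y k ∘ₗ r x, ?_⟩
        funext x y k
        apply LinearMap.ext
        intro v
        show g x y k (r x (i x v)) = g x y k v
        rw [hr'])
      (by
        intro f hf
        refine ⟨fun x => f x ∘ₗ s x, ?_⟩
        funext x
        apply LinearMap.ext
        intro v
        show f x (s x (p x v)) = f x v
        obtain ⟨a, ha⟩ := hex2 x (v - s x (p x v)) (by rw [map_sub, hs', sub_self])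
        have h1 : f x (i x a) = 0 := LinearMap.congr_fun (congrFun hf x) a
        rw [ha, map_sub, sub_eq_zero] at h1
        exact h1.symm)
    exact ⟨k1.1, k1.2.1, k1.2.2, k2.1, by unfold hd; omega, k2.2.2⟩

end Pool.Agent.Lib.MP_20db89_co.AK
end

section
set_option autoImplicit false

/-!
Module KIC: kernel, image and cokernel of a morphism.
-/

namespace Pool.Agent.Lib.MP_20db89_co.AK

universe u

open SESM Module in
theorem specKIC : SpecKIC.{u} := by
  intro Q _ mu E F f hf hf0
  have hm := (dl_iff f).1 hf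
  let K : Rp Q mu :=
    { V := fun x => LinearMap.ker (f x)
      acg := fun x => inferInstance
      mod := fun x => inferInstance
      fin := fun x => inferInstance
      map := fun x y k => (E.map x y k).restrict (p := LinearMap.ker (f x))
        (q := LinearMap.ker (f y)) (by
          intro v hv
          rw [LinearMap.mem_ker] at hv ⊢
          rw [hm, hv, map_zero]) }
  let J : Rp Q mu :=
    { V := fun x => LinearMap.range (f x)
      acg := fun x => inferInstance
      mod := fun x => inferInstance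
      fin := fun x => inferInstance
      map := fun x y k => (F.map x y k).restrict (p := LinearMap.range (f x))
        (q := LinearMap.range (f y)) (by
          rintro _ ⟨v, rfl⟩
          exact ⟨_, hm x y k v⟩) }
  let C : Rp Q mu :=
    { V := fun x => F.V x ⧸ LinearMap.range (f x)
      acg := fun x => inferInstance
      mod := fun x => inferInstance
      fin := fun x => inferInstance
      map := fun x y k => Submodule.mapQ (LinearMap.range (f x)) (LinearMap.range (f y))
        (F.map x y k) (by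
          rintro _ ⟨v, rfl⟩
          exact ⟨_, hm x y k v⟩) }
  refine ⟨K, J, C, ?_, ?_, ?_⟩
  · refine ⟨fun x => (LinearMap.ker (f x)).subtype, fun x => (f x).rangeRestrict, ?_, ?_, ?_, ?_, ?_⟩
    · rw [dl_iff]
      intro x y k v
      rfl
    · rw [dl_iff]
      intro x y k v
      exact Subtype.ext (hm x y k v)
    · intro x
      exact Subtype.val_injective
    · intro x
      exact LinearMap.surjective_rangeRestrict _
    · intro x
      rw [Submodule.range_subtype, LinearMap.ker_rangeRestrict]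
  · refine ⟨fun x => (LinearMap.range (f x)).subtype, fun x => (LinearMap.range (f x)).mkQ,
      ?_, ?_, ?_, ?_, ?_⟩
    · rw [dl_iff]
      intro x y k v
      rfl
    · rw [dl_iff]
      intro x y k v
      rfl
    · intro x
      exact Subtype.val_injective
    · intro x
      exact Submodule.mkQ_surjective _
    · intro x
      rw [Submodule.range_subtype, Submodule.ker_mkQ]
  · intro h
    apply hf0
    funext x
    have h1 : (finrank ℚ (LinearMap.range (f x)) : ℤ) = 0 := congrFun h x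
    have h2 : finrank ℚ (LinearMap.range (f x)) = 0 := by exact_mod_cast h1
    rw [Submodule.finrank_eq_zero, LinearMap.range_eq_bot] at h2
    exact h2

end Pool.Agent.Lib.MP_20db89_co.AK
end

section
set_option autoImplicit false

/-!
Module LMU: left mutation.
-/

namespace Pool.Agent.Lib.MP_20db89_co.AK

universe u

namespace LMUM

variable {Q : Type u} [Fintype Q] {mu : Q → Q → ℕ}

theorem eul_add_left (a b c : Q → ℤ) : eul mu (a + b) c = eul mu a c + eul mu b c := by
  unfold eul
  have h1 : ∑ x, (a + b) x * c x = ∑ x, a x * c x + ∑ x, b x * c x := by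
    rw [← Finset.sum_add_distrib]
    exact Finset.sum_congr rfl fun x _ => by rw [Pi.add_apply]; ring
  have h2 : ∑ x, ∑ y, (mu x y : ℤ) * (a + b) x * c y =
      ∑ x, ∑ y, (mu x y : ℤ) * a x * c y + ∑ x, ∑ y, (mu x y : ℤ) * b x * c y := by
    rw [← Finset.sum_add_distrib]
    refine Finset.sum_congr rfl fun x _ => ?_
    rw [← Finset.sum_add_distrib]
    exact Finset.sum_congr rfl fun y _ => by rw [Pi.add_apply]; ring
  rw [h1, h2]
  ring

theorem eul_add_right (a b c : Q → ℤ) : eul mu a (b + c) = eul mu a b + eul mu a c := by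
  unfold eul
  have h1 : ∑ x, a x * (b + c) x = ∑ x, a x * b x + ∑ x, a x * c x := by
    rw [← Finset.sum_add_distrib]
    exact Finset.sum_congr rfl fun x _ => by rw [Pi.add_apply]; ring
  have h2 : ∑ x, ∑ y, (mu x y : ℤ) * a x * (b + c) y =
      ∑ x, ∑ y, (mu x y : ℤ) * a x * b y + ∑ x, ∑ y, (mu x y : ℤ) * a x * c y := by
    rw [← Finset.sum_add_distrib]
    refine Finset.sum_congr rfl fun x _ => ?_
    rw [← Finset.sum_add_distrib]
    exact Finset.sum_congr rfl fun y _ => by rw [Pi.add_apply]; ring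
  rw [h1, h2]
  ring

theorem eul_smul_right (a b : Q → ℤ) (c : ℤ) : eul mu a (c • b) = c * eul mu a b := by
  unfold eul
  rw [mul_sub, Finset.mul_sum, Finset.mul_sum]
  congr 1
  · exact Finset.sum_congr rfl fun x _ => by rw [Pi.smul_apply, smul_eq_mul]; ring
  · refine Finset.sum_congr rfl fun x _ => ?_
    rw [Finset.mul_sum]
    exact Finset.sum_congr rfl fun y _ => by rw [Pi.smul_apply, smul_eq_mul]; ring

theorem eul_smul_left (a b : Q → ℤ) (c : ℤ) : eul mu (c • a) b = c * eul mu a b := by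
  unfold eul
  rw [mul_sub, Finset.mul_sum, Finset.mul_sum]
  congr 1
  · exact Finset.sum_congr rfl fun x _ => by rw [Pi.smul_apply, smul_eq_mul]; ring
  · refine Finset.sum_congr rfl fun x _ => ?_
    rw [Finset.mul_sum]
    exact Finset.sum_congr rfl fun y _ => by rw [Pi.smul_apply, smul_eq_mul]; ring

theorem eul_zero_right (a : Q → ℤ) : eul mu a 0 = 0 := by
  unfold eul
  simp

/-- all the inequalities of a short exact sequence -/
theorem ses (hSES : SpecSES.{u}) (hEUL : SpecEUL.{u}) {A C D : Rp Q mu} (h : Ses A C D)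
    (Z : Rp Q mu) :
    (hd Z A ≤ hd Z C ∧ hd Z C ≤ hd Z A + hd Z D ∧ xd Z D ≤ xd Z C ∧ xd Z C ≤ xd Z A + xd Z D) ∧
    (hd D Z ≤ hd C Z ∧ hd C Z ≤ hd A Z + hd D Z ∧ xd A Z ≤ xd C Z ∧ xd C Z ≤ xd A Z + xd D Z) ∧
    ((hd Z C : ℤ) - xd Z C = hd Z A - xd Z A + (hd Z D - xd Z D)) ∧
    ((hd C Z : ℤ) - xd C Z = hd A Z - xd A Z + (hd D Z - xd D Z)) := by
  obtain ⟨hdm, hZ⟩ := hSES Q mu A C D h
  obtain ⟨a1, a2, a3, a4, a5, a6⟩ := hZ Z
  have e1 := hEUL Q mu Z A
  have e2 := hEUL Q mu Z C
  have e3 := hEUL Q mu Z D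
  have e4 := hEUL Q mu A Z
  have e5 := hEUL Q mu C Z
  have e6 := hEUL Q mu D Z
  rw [hdm, eul_add_right] at e2
  rw [hdm, eul_add_left] at e5
  refine ⟨⟨a1, a2, a3, by omega⟩, ⟨a4, a5, a6, by omega⟩, by omega, by omega⟩

theorem dm_zero {L : Rp Q mu} (h : dm L = 0) : hd L L = 0 := by
  unfold hd
  have h0 : ∀ x, Module.finrank ℚ (L.V x) = 0 := by
    intro x
    have := congrFun h x
    have h2 : (Module.finrank ℚ (L.V x) : ℤ) = 0 := this
    exact_mod_cast h2
  have hs : Subsingleton (H0 L L) := by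
    have : ∀ x, Subsingleton (L.V x) := fun x => Module.finrank_zero_iff.1 (h0 x)
    constructor
    intro f g
    funext x
    apply LinearMap.ext
    intro v
    exact Subsingleton.elim _ _
  rw [Module.finrank_zero_iff]
  infer_instance

/-- the identity is a nonzero endomorphism -/
theorem one_le_hd {L : Rp Q mu} (h : dm L ≠ 0) : 1 ≤ hd L L := by
  by_contra hn
  have h0 : hd L L = 0 := by omega
  apply h
  unfold hd at h0
  rw [Submodule.finrank_eq_zero] at h0
  have h1 : (fun x => LinearMap.id : H0 L L) ∈ LinearMap.ker (dl L L) := by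
    rw [LinearMap.mem_ker]
    funext x y k
    apply LinearMap.ext
    intro v
    exact sub_self _
  rw [h0, Submodule.mem_bot] at h1
  funext x
  have h2 : (LinearMap.id : L.V x →ₗ[ℚ] L.V x) = 0 := congrFun h1 x
  have h3 : Subsingleton (L.V x) := by
    constructor
    intro v w
    have h4 := LinearMap.congr_fun h2 v
    have h5 := LinearMap.congr_fun h2 w
    simp only [LinearMap.id_coe, id_eq, LinearMap.zero_apply] at h4 h5
    rw [h4, h5]
  show (Module.finrank ℚ (L.V x) : ℤ) = 0
  rw [Module.finrank_zero_of_subsingleton]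
  rfl

end LMUM

open LMUM in
theorem specLMU (hEUL : SpecEUL.{u}) (hSES : SpecSES.{u}) (hHRN : SpecHRN.{u})
    (hUEX : SpecUEX.{u}) (hEVM : SpecEVM.{u}) : SpecLMU.{u} := by
  intro Q _ mu E F hE hF hX
  have eEE := hEUL Q mu E E
  have eFF := hEUL Q mu F F
  have eFE := hEUL Q mu F E
  have eEF := hEUL Q mu E F
  rw [hE.1, hE.2] at eEE
  rw [hF.1, hF.2] at eFF
  rw [hX.1, hX.2] at eFE
  obtain ⟨hE1, hE2⟩ := hE
  obtain ⟨hF1, hF2⟩ := hF
  obtain ⟨hX1, hX2⟩ := hX
  by_cases h0 : hd E F = 0
  · -- universal extension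
    obtain ⟨P, L, ⟨hPd, hPZ⟩, hS, hEL⟩ := hUEX Q mu E F ⟨hE1, hE2⟩ h0
    have hdm : dm L = dm F + dm P := (hSES Q mu F L P hS).1
    have sE := ses hSES hEUL hS E
    have sF := ses hSES hEUL hS F
    have sL := ses hSES hEUL hS L
    have pE := hPZ E
    have pF := hPZ F
    have pL := hPZ L
    rw [hE1, hE2, mul_one, mul_zero] at pE
    rw [hX1, hX2, mul_zero] at pF
    have hEL2 : xd E L = 0 := by omega
    rw [hEL, hEL2, mul_zero] at pL
    have hne : dm L ≠ 0 := by
      intro h
      have h1 := hEUL Q mu F L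
      rw [h, eul_zero_right] at h1
      omega
    have hLL := one_le_hd hne
    refine ⟨L, ⟨by omega, by omega⟩, Or.inl ?_, ⟨hEL, hEL2⟩, ?_, ?_⟩
    · rw [hdm, hPd, ← eEF, h0]
      funext x
      simp only [Pi.add_apply, Pi.sub_apply, Pi.smul_apply, smul_eq_mul]
      push_cast
      ring
    · rintro Z ⟨z1, z2⟩ ⟨z3, z4⟩
      have sZ := ses hSES hEUL hS Z
      have pZ := hPZ Z
      rw [z1, z2, mul_zero] at pZ
      exact ⟨by omega, by omega⟩
    · rintro Z ⟨z1, z2⟩ ⟨z3, z4⟩
      have sZ := ses hSES hEUL hS Z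
      have pZ := hPZ Z
      rw [z1, z2, mul_zero] at pZ
      exact ⟨by omega, by omega⟩
  · have he : xd E F = 0 := (hHRN Q mu E F ⟨hE1, hE2⟩ ⟨hF1, hF2⟩ ⟨hX1, hX2⟩ h0).1
    obtain ⟨P, L, ⟨hPd, hPZ⟩, hS | ⟨hS, hEL⟩⟩ :=
      hEVM Q mu E F ⟨hE1, hE2⟩ ⟨hF1, hF2⟩ ⟨hX1, hX2⟩ h0
    · -- `0 → P → F → L → 0`
      have hdm : dm F = dm P + dm L := (hSES Q mu P F L hS).1
      have sE := ses hSES hEUL hS E
      have sF := ses hSES hEUL hS F
      have sL := ses hSES hEUL hS L
      have pE := hPZ E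
      have pF := hPZ F
      have pL := hPZ L
      rw [hE1, hE2, mul_one, mul_zero] at pE
      rw [hX1, hX2, mul_zero] at pF
      have hEL2 : xd E L = 0 := by omega
      have hEL : hd E L = 0 := by omega
      rw [hEL, hEL2, mul_zero] at pL
      refine ⟨L, ⟨by omega, by omega⟩, Or.inl ?_, ⟨hEL, hEL2⟩, ?_, ?_⟩
      · rw [← eEF, he]
        have h1 : dm L = dm F - dm P := by rw [hdm]; abel
        rw [h1, hPd]
        funext x
        simp only [Pi.sub_apply, Pi.smul_apply, smul_eq_mul]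
        push_cast
        ring
      · rintro Z ⟨z1, z2⟩ ⟨z3, z4⟩
        have sZ := ses hSES hEUL hS Z
        have pZ := hPZ Z
        rw [z1, z2, mul_zero] at pZ
        exact ⟨by omega, by omega⟩
      · rintro Z ⟨z1, z2⟩ ⟨z3, z4⟩
        have sZ := ses hSES hEUL hS Z
        have pZ := hPZ Z
        rw [z1, z2, mul_zero] at pZ
        exact ⟨by omega, by omega⟩
    · -- `0 → L → P → F → 0`
      have hdm : dm P = dm L + dm F := (hSES Q mu L P F hS).1
      have sE := ses hSES hEUL hS E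
      have sF := ses hSES hEUL hS F
      have sL := ses hSES hEUL hS L
      have pE := hPZ E
      have pF := hPZ F
      have pL := hPZ L
      rw [hE1, hE2, mul_one, mul_zero] at pE
      rw [hX1, hX2, mul_zero] at pF
      have hEL2 : xd E L = 0 := by omega
      rw [hEL, hEL2, mul_zero] at pL
      refine ⟨L, ⟨by omega, by omega⟩, Or.inr ?_, ⟨hEL, hEL2⟩, ?_, ?_⟩
      · rw [← eEF, he]
        have h1 : dm L = dm P - dm F := by rw [hdm]; abel
        rw [h1, hPd]
        funext x
        simp only [Pi.sub_apply, Pi.neg_apply, Pi.smul_apply, smul_eq_mul]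
        push_cast
        ring
      · rintro Z ⟨z1, z2⟩ ⟨z3, z4⟩
        have sZ := ses hSES hEUL hS Z
        have pZ := hPZ Z
        rw [z1, z2, mul_zero] at pZ
        exact ⟨by omega, by omega⟩
      · rintro Z ⟨z1, z2⟩ ⟨z3, z4⟩
        have sZ := ses hSES hEUL hS Z
        have pZ := hPZ Z
        rw [z1, z2, mul_zero] at pZ
        exact ⟨by omega, by omega⟩

end Pool.Agent.Lib.MP_20db89_co.AK
end

section
set_option autoImplicit false

/-!
# MP_20db89: module RMU (right mutation)
-/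

namespace Pool.Agent.Lib.MP_20db89_co.AK

universe u

namespace RMUM

theorem eul_op {Q : Type u} [Fintype Q] (mu : Q → Q → ℕ) (a b : Q → ℤ) :
    eul (fun x y => mu y x) a b = eul mu b a := by
  unfold eul
  congr 1
  · exact Finset.sum_congr rfl fun x _ => mul_comm _ _
  · rw [Finset.sum_comm]
    refine Finset.sum_congr rfl fun x _ => Finset.sum_congr rfl fun y _ => ?_
    ring

end RMUM

/-- Right mutation. -/
theorem specRMU (hLMU : SpecLMU.{u}) (hDUA : SpecDUA.{u}) : SpecRMU.{u} := by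
  intro Q _ mu E F hE hF hEF
  obtain ⟨d1, d2, d3⟩ := hDUA Q mu
  obtain ⟨E₁, hE₁⟩ := d1 E
  obtain ⟨F₁, hF₁⟩ := d1 F
  have dE := d3 E E₁ hE₁
  have dF := d3 F F₁ hF₁
  have bE : Brk E₁ := ⟨(dE.2 E E₁ hE₁).1.trans hE.1, (dE.2 E E₁ hE₁).2.trans hE.2⟩
  have bF : Brk F₁ := ⟨(dF.2 F F₁ hF₁).1.trans hF.1, (dF.2 F F₁ hF₁).2.trans hF.2⟩
  have hx : Xp F₁ E₁ := ⟨(dF.2 E E₁ hE₁).1.trans hEF.1, (dF.2 E E₁ hE₁).2.trans hEF.2⟩
  obtain ⟨L₁, bL, hdm, hLF, hA, hB⟩ := hLMU Q (fun x y => mu y x) F₁ E₁ bF bE hx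
  obtain ⟨L, hL⟩ := d2 L₁
  have dL := d3 L L₁ hL
  refine ⟨L, ⟨(dL.2 L L₁ hL).1.symm.trans bL.1, (dL.2 L L₁ hL).2.symm.trans bL.2⟩, ?_, ?_, ?_, ?_⟩
  · rw [RMUM.eul_op, dE.1, dF.1, dL.1] at hdm
    exact hdm
  · exact ⟨(dL.2 F F₁ hF₁).1.symm.trans hLF.1, (dL.2 F F₁ hF₁).2.symm.trans hLF.2⟩
  · intro Z hZE hZF
    obtain ⟨Z₁, hZ₁⟩ := d1 Z
    have dZ := d3 Z Z₁ hZ₁
    have h := hB Z₁ ⟨(dZ.2 F F₁ hF₁).1.trans hZF.1, (dZ.2 F F₁ hF₁).2.trans hZF.2⟩
      ⟨(dZ.2 E E₁ hE₁).1.trans hZE.1, (dZ.2 E E₁ hE₁).2.trans hZE.2⟩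
    exact ⟨(dZ.2 L L₁ hL).1.symm.trans h.1, (dZ.2 L L₁ hL).2.symm.trans h.2⟩
  · intro Z hZE hZF
    obtain ⟨Z₁, hZ₁⟩ := d1 Z
    have h := hA Z₁ ⟨(dF.2 Z Z₁ hZ₁).1.trans hZF.1, (dF.2 Z Z₁ hZ₁).2.trans hZF.2⟩
      ⟨(dE.2 Z Z₁ hZ₁).1.trans hZE.1, (dE.2 Z Z₁ hZ₁).2.trans hZE.2⟩
    exact ⟨(dL.2 Z Z₁ hZ₁).1.symm.trans h.1, (dL.2 Z Z₁ hZ₁).2.symm.trans h.2⟩

end Pool.Agent.Lib.MP_20db89_co.AK
end

section
set_option autoImplicit false

namespace Pool.Agent.Lib.MP_20db89_co.AK

namespace RNGM

variable {A I : Type} [CommRing A] [Fintype I] [DecidableEq I] (R : FRing A I)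

theorem repr_mul (a c : A) (w : I) : R.b.repr (a * c) w =
    ∑ i, ∑ j, R.b.repr a i * R.b.repr c j * R.b.repr (R.b i * R.b j) w := by
  conv_lhs => rw [← R.b.sum_repr a, ← R.b.sum_repr c]
  simp only [Finset.sum_mul_sum, map_sum, Finsupp.coe_finsetSum, Finset.sum_apply,
    smul_mul_smul_comm, map_smul, Finsupp.smul_apply, smul_eq_mul]

theorem repr_mul_one (a c : A) : R.b.repr (a * c) R.one = ∑ i, R.b.repr a i * R.b.repr c i := by
  rw [repr_mul]
  simp only [R.dual, mul_ite, mul_one, mul_zero, Finset.sum_ite_eq, Finset.mem_univ, if_true]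

theorem repr_eq (a : A) (i : I) : R.b.repr a i = R.b.repr (a * R.b i) R.one := by
  rw [repr_mul_one]
  simp only [R.b.repr_self, Finsupp.single_apply, mul_ite, mul_one, mul_zero]
  simp

theorem nn_mul {a c : A} (ha : R.Nn a) (hc : R.Nn c) : R.Nn (a * c) := by
  intro w
  rw [repr_mul]
  exact Finset.sum_nonneg fun i _ => Finset.sum_nonneg fun j _ =>
    mul_nonneg (mul_nonneg (ha i) (hc j)) (R.nonneg i j w)

theorem nn_add {a c : A} (ha : R.Nn a) (hc : R.Nn c) : R.Nn (a + c) := by
  intro w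
  rw [map_add, Finsupp.add_apply]
  exact add_nonneg (ha w) (hc w)

theorem nn_b (i : I) : R.Nn (R.b i) := by
  intro w
  rw [R.b.repr_self, Finsupp.single_apply]
  split_ifs <;> norm_num

theorem nn_one : R.Nn 1 := R.b_one ▸ nn_b R R.one

theorem nn_zero : R.Nn 0 := by
  intro w
  simp

theorem eq_zero {a : A} (ha : R.Nn a) (h : R.Nn (-a)) : a = 0 := by
  apply R.b.repr.injective
  ext w
  have h1 := ha w
  have h2 := h w
  rw [map_neg, Finsupp.neg_apply] at h2
  rw [map_zero, Finsupp.zero_apply]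
  omega

include R in
theorem two_mul_eq {a : A} (h : 2 * a = 0) : a = 0 := by
  apply R.b.repr.injective
  ext w
  have h1 : R.b.repr (2 * a) w = 0 := by rw [h]; simp
  rw [two_mul, map_add, Finsupp.add_apply] at h1
  rw [map_zero, Finsupp.zero_apply]
  omega

include R in
theorem one_ne : (1 : A) ≠ 0 := by
  rw [← R.b_one]
  exact R.b.ne_zero R.one

theorem exists_pos {a : A} (ha : R.Nn a) (h : a ≠ 0) : ∃ i, 1 ≤ R.b.repr a i := by
  by_contra hc
  push Not at hc
  apply h
  apply R.b.repr.injective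
  ext w
  have h1 := ha w
  have h2 := hc w
  rw [map_zero, Finsupp.zero_apply]
  omega

theorem nn_sq {y : A} (hy : R.Nn y) (h : y ≠ 0) : R.Nn (y * y - 1) := by
  intro w
  rw [map_sub, Finsupp.sub_apply]
  by_cases hw : w = R.one
  · subst hw
    obtain ⟨i, hi⟩ := exists_pos R hy h
    have h1 : R.b.repr (1 : A) R.one = 1 := by
      rw [← R.b_one, R.b.repr_self, Finsupp.single_eq_same]
    rw [h1, repr_mul_one]
    have h2 : R.b.repr y i * R.b.repr y i ≤ ∑ j, R.b.repr y j * R.b.repr y j :=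
      Finset.single_le_sum (f := fun j => R.b.repr y j * R.b.repr y j)
        (fun j _ => mul_nonneg (hy j) (hy j)) (Finset.mem_univ i)
    nlinarith
  · have h1 : R.b.repr (1 : A) w = 0 := by
      rw [← R.b_one, R.b.repr_self, Finsupp.single_eq_of_ne hw]
    rw [h1, sub_zero]
    exact nn_mul R hy hy w

/-- a nonzero non-negative element dominates a basis vector -/
theorem exists_sub {a : A} (ha : R.Nn a) (h : a ≠ 0) : ∃ i, R.Nn (a - R.b i) := by
  obtain ⟨i, hi⟩ := exists_pos R ha h
  refine ⟨i, fun w => ?_⟩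
  rw [map_sub, Finsupp.sub_apply, R.b.repr_self, Finsupp.single_apply]
  split_ifs with hw
  · subst hw
    omega
  · have := ha w
    omega

theorem mul_ne {a c : A} (ha : R.Nn a) (hc : R.Nn c) (ha0 : a ≠ 0) (hc0 : c ≠ 0) :
    a * c ≠ 0 := by
  intro h0
  -- the coefficient of `1` in `(a a) (c c)` is positive
  have h1 : R.Nn ((a * a) * (c * c) - 1) := by
    have e : (a * a) * (c * c) - 1 = (a * a - 1) * (c * c - 1) + ((a * a - 1) + (c * c - 1)) := by
      ring
    rw [e]
    exact nn_add R (nn_mul R (nn_sq R ha ha0) (nn_sq R hc hc0))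
      (nn_add R (nn_sq R ha ha0) (nn_sq R hc hc0))
  have h2 : (a * a) * (c * c) - 1 = -1 := by
    have : (a * a) * (c * c) = (a * c) * (a * c) := by ring
    rw [this, h0]
    ring
  rw [h2] at h1
  exact one_ne R (eq_zero R (nn_one R) h1)

theorem perm {z z' : A} (hz : R.Nn z) (hz' : R.Nn z') (h : z * z' = 1) :
    ∃ σ : Equiv.Perm I, ∀ i : I, z * R.b i = R.b (σ i) := by
  have key : ∀ z z' : A, R.Nn z → R.Nn z' → z * z' = 1 → ∀ i : I, ∃ j : I,
      z * R.b i = R.b j := by
    intro z z' hz hz' h i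
    have hz0 : z ≠ 0 := by
      rintro rfl
      rw [zero_mul] at h
      exact one_ne R h.symm
    have hz'0 : z' ≠ 0 := by
      rintro rfl
      rw [mul_zero] at h
      exact one_ne R h.symm
    have hb : ∀ j, R.b j ≠ 0 := fun j => R.b.ne_zero j
    have hnn : R.Nn (z * R.b i) := nn_mul R hz (nn_b R i)
    obtain ⟨v, hv⟩ := exists_sub R hnn (mul_ne R hz (nn_b R i) hz0 (hb i))
    -- `d = z b_i - b_v` is zero
    set d := z * R.b i - R.b v with hd
    by_cases hd0 : d = 0
    · exact ⟨v, sub_eq_zero.mp hd0⟩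
    · exfalso
      -- `b_i = z' b_v + z' d`, both nonzero and non-negative
      have e : R.b i = z' * R.b v + z' * d := by
        have : z' * R.b v + z' * d = (z * z') * R.b i := by rw [hd]; ring
        rw [this, h, one_mul]
      have h1 : R.Nn (z' * R.b v) := nn_mul R hz' (nn_b R v)
      have h2 : R.Nn (z' * d) := nn_mul R hz' hv
      obtain ⟨p, hp⟩ := exists_pos R h1 (mul_ne R hz' (nn_b R v) hz'0 (hb v))
      obtain ⟨q, hq⟩ := exists_pos R h2 (mul_ne R hz' hv hz'0 hd0)
      have hw : ∀ w, (if i = w then (1 : ℤ) else 0) =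
          R.b.repr (z' * R.b v) w + R.b.repr (z' * d) w := by
        intro w
        have := congrArg (fun t => R.b.repr t w) e
        simp only [map_add, Finsupp.add_apply, R.b.repr_self, Finsupp.single_apply] at this
        exact this
      have e1 := hw p
      have e2 := hw q
      have n1 := h2 p
      have n2 := h1 q
      by_cases hip : i = p
      · by_cases hiq : i = q
        · subst hip
          subst hiq
          simp only [if_true] at e1
          omega
        · rw [if_neg hiq] at e2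
          omega
      · rw [if_neg hip] at e1
        omega
  choose f hf using key z z' hz hz' h
  choose g hg using key z' z hz' hz (by rw [mul_comm]; exact h)
  have hgf : ∀ i, g (f i) = i := by
    intro i
    apply R.b.injective
    rw [← hg, ← hf, ← mul_assoc, mul_comm z' z, h, one_mul]
  have hfg : ∀ i, f (g i) = i := by
    intro i
    apply R.b.injective
    rw [← hf, ← hg, ← mul_assoc, h, one_mul]
  exact ⟨⟨f, g, hgf, hfg⟩, hf⟩

end RNGM

theorem specRNG : SpecRNG := by
  intro A I _ _ _ R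
  exact ⟨RNGM.repr_eq R, fun a c ha hc => RNGM.nn_mul R ha hc, fun a c ha hc => RNGM.nn_add R ha hc,
    ⟨RNGM.nn_b R, RNGM.nn_one R, RNGM.nn_zero R⟩, fun a ha h => RNGM.eq_zero R ha h,
    ⟨fun a h => RNGM.two_mul_eq R h, RNGM.one_ne R⟩, fun y hy h => RNGM.nn_sq R hy h,
    fun a c ha hc ha0 hc0 => RNGM.mul_ne R ha hc ha0 hc0,
    fun z z' hz hz' h => RNGM.perm R hz hz' h⟩

end Pool.Agent.Lib.MP_20db89_co.AK
end

section
/-!
# Module SHG: a general criterion for shellability
-/
set_option autoImplicit false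

namespace Pool.Agent.Lib.MP_20db89_co.AK

universe u

theorem specSHG : SpecSHG.{u} := by
  classical
  intro W ι κ _ _ s v key hkey hv hcard hstep
  -- the facets
  have hfacet : ∀ G : Finset W, IsFacet {G : Finset W | ∃ i ∈ s, G ⊆ v i} G ↔ ∃ i ∈ s, v i = G := by
    intro G
    constructor
    · rintro ⟨⟨i, hi, hG⟩, hmax⟩
      exact ⟨i, hi, (hmax (v i) ⟨i, hi, Finset.Subset.refl _⟩ hG).symm⟩
    · rintro ⟨i, hi, rfl⟩
      refine ⟨⟨i, hi, Finset.Subset.refl _⟩, ?_⟩
      rintro G ⟨j, hj, hG⟩ hle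
      have h1 : (v j).card ≤ (v i).card := (hcard j hj i hi).le
      have h2 : v i = v j := Finset.eq_of_subset_of_card_le (hle.trans hG) h1
      apply Finset.Subset.antisymm hle
      rw [h2]; exact hG
  have hc : (s.image key).card = s.card := by
    apply Finset.card_image_of_injOn
    intro a ha b hb h
    exact hkey a ha b hb h
  have hg : ∀ i : Fin s.card, ∃ a ∈ s, key a = (s.image key).orderEmbOfFin hc i := by
    intro i
    have h1 := (s.image key).orderEmbOfFin_mem hc i
    rw [Finset.mem_image] at h1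
    exact h1
  choose g hgs hgk using hg
  have hginj : Function.Injective g := by
    intro i j h
    have h1 : key (g i) = key (g j) := by rw [h]
    rw [hgk, hgk] at h1
    exact ((s.image key).orderEmbOfFin hc).injective h1
  have hgsurj : ∀ a ∈ s, ∃ i, g i = a := by
    intro a ha
    have h1 : key a ∈ Set.range ((s.image key).orderEmbOfFin hc) := by
      rw [Finset.range_orderEmbOfFin]
      exact Finset.mem_coe.2 (Finset.mem_image_of_mem key ha)
    obtain ⟨i, hi⟩ := h1
    refine ⟨i, hkey _ (hgs i) a ha ?_⟩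
    rw [hgk, hi]
  have hlt : ∀ i j, key (g i) < key (g j) ↔ i < j := by
    intro i j
    rw [hgk, hgk]
    exact ((s.image key).orderEmbOfFin hc).lt_iff_lt
  refine ⟨?_, s.card, fun i => v (g i), ?_, ?_, ?_⟩
  · rintro G ⟨i, hi, hG⟩
    exact ⟨v i, (hfacet _).2 ⟨i, hi, rfl⟩, hG⟩
  · intro i j h
    exact hginj (hv _ (hgs i) _ (hgs j) h)
  · intro G
    rw [hfacet]
    constructor
    · rintro ⟨a, ha, h⟩
      obtain ⟨i, hi⟩ := hgsurj a ha
      exact ⟨i, by rw [← h, ← hi]⟩
    · rintro ⟨i, hi⟩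
      exact ⟨g i, hgs i, hi⟩
  · intro i j hij G hGi hGj
    obtain ⟨l, hl, hlk, x, hx, hxi, hsub⟩ := hstep (g j) (hgs j) (g i) (hgs i) ((hlt i j).2 hij)
    obtain ⟨l', rfl⟩ := hgsurj l hl
    refine ⟨(v (g j)).erase x, ?_, Finset.erase_subset _ _, ?_, l', (hlt _ _).1 hlk, hsub⟩
    · intro y hy
      rw [Finset.mem_erase]
      refine ⟨?_, hGj hy⟩
      rintro rfl
      exact hxi (hGi hy)
    · exact Finset.card_erase_add_one hx

end Pool.Agent.Lib.MP_20db89_co.AK
end
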