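import Mathlib
import Pool.Agent.Lib.MP_20db89_co.AK.LIN

/-!
# Module SHL: shellability of the complex of chains of factorizations
-/

set_option autoImplicit false

namespace Pool.Agent.Lib.MP_20db89_co.AK

universe u

namespace SHLM

open VSLM GAPM

variable {B W : Type u} [Group W] {M : CoxeterMatrix B} {cs : CoxeterSystem M W} {c : W} {n : ℕ}
  {Ex Hm : W → W → Prop}

theorem map_inj' {α : Type u} (f : α → ℕ) : ∀ (l l' : List α),
    (∀ x ∈ l, ∀ y ∈ l', f x = f y → x = y) → l.map f = l'.map f → l = l'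
  | [], l', _, h => by
      rw [List.map_nil] at h
      exact (List.map_eq_nil_iff.1 h.symm).symm
  | a :: t, [], _, h => by simp at h
  | a :: t, a' :: t', hf, h => by
      rw [List.map_cons, List.map_cons, List.cons.injEq] at h
      have h1 : a = a' := hf a List.mem_cons_self a' List.mem_cons_self h.1
      have h2 : t = t' := map_inj' f t t' (fun x hx y hy => hf x (List.mem_cons_of_mem _ hx) y
        (List.mem_cons_of_mem _ hy)) h.2
      rw [h1, h2]

omit [Group W] in
theorem finite_lists {T : Set W} (hT : T.Finite) (m : ℕ) :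
    {L : List W | L.length = m ∧ ∀ t ∈ L, t ∈ T}.Finite := by
  have : Finite T := hT
  refine ((List.finite_length_eq T m).image (List.map Subtype.val)).subset ?_
  rintro L ⟨h1, h2⟩
  refine ⟨L.attach.map (fun x => ⟨x.1, h2 x.1 x.2⟩), ?_, ?_⟩
  · rw [Set.mem_ofPred_eq, List.length_map, List.length_attach, h1]
  · rw [List.map_map]
    conv_rhs => rw [← List.attach_map_subtype_val L]
    rfl

/-- the numbering depends only on the set of labels -/
theorem exists_num (hORD : SpecORD.{u}) (hA : Ax cs c n Ex Hm) : ∃ F : Finset W → W → ℕ,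
    ∀ L : List W, IsFac cs c n L → ∀ S : Finset W, (∀ x, x ∈ S ↔ x ∈ L) →
    (∀ x ∈ L, ∀ y ∈ L, F S x = F S y → x = y) ∧
      ∀ x ∈ L, ∀ y ∈ L, (Ex x y ∨ Hm y x) → F S x < F S y := by
  have h : ∀ S : Finset W, ∃ f : W → ℕ, ∀ L : List W, IsFac cs c n L → (∀ x, x ∈ S ↔ x ∈ L) →
      (∀ x ∈ L, ∀ y ∈ L, f x = f y → x = y) ∧
      ∀ x ∈ L, ∀ y ∈ L, (Ex x y ∨ Hm y x) → f x < f y := by
    intro S
    by_cases hS : ∃ L : List W, IsFac cs c n L ∧ (∀ x, x ∈ S ↔ x ∈ L)
    · obtain ⟨L₀, h1, h2⟩ := hS
      obtain ⟨f, hf1, hf2⟩ := hORD B W M cs c n Ex Hm hA L₀ h1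
      refine ⟨f, fun L _ h3 => ⟨?_, ?_⟩⟩
      · intro x hx y hy
        exact hf1 x ((h2 x).1 ((h3 x).2 hx)) y ((h2 y).1 ((h3 y).2 hy))
      · intro x hx y hy
        exact hf2 x ((h2 x).1 ((h3 x).2 hx)) y ((h2 y).1 ((h3 y).2 hy))
    · exact ⟨fun _ => 0, fun L h1 h2 => absurd ⟨L, h1, h2⟩ hS⟩
  choose F hF using h
  exact ⟨F, fun L h1 S h2 => hF S L h1 h2⟩

/-- replacing two adjacent letters -/
theorem isFac_two {P Q : List W} {a b a' b' : W} (h : IsFac cs c n (P ++ a :: b :: Q))
    (ha' : cs.IsReflection a') (hb' : cs.IsReflection b') (hab : a * b = a' * b') :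
    IsFac cs c n (P ++ a' :: b' :: Q) := by
  have h1 : IsFac cs c n (P ++ [a, b] ++ Q) := by simpa using h
  have h2 : IsFac cs c n (P ++ [a', b'] ++ Q) := by
    apply isFac_swap h1
    · intro t ht
      rcases List.mem_cons.1 ht with rfl | ht
      · exact ha'
      · rcases List.mem_cons.1 ht with rfl | ht
        · exact hb'
        · exact absurd ht List.not_mem_nil
    · simpa using hab
    · rfl
  simpa using h2

theorem sl_two (P Q : List W) (a b : W) : sl cs (P ++ a :: b :: Q) =
    sl cs P + (cs.length a + (cs.length b + sl cs Q)) := by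
  unfold sl
  simp

end SHLM

open VSLM GAPM SHLM in
theorem specSHL (hORD : SpecORD.{u}) (hGAP : SpecGAP.{u}) (hVSL : SpecVSL.{u})
    (hSHG : SpecSHG.{u}) : SpecSHL.{u} := by
  classical
  intro B W _ M cs c n Ex Hm hA k hk
  obtain ⟨hv1, hv2, hv3, hv4⟩ := hVSL B W M cs c n Ex Hm hA
  obtain ⟨F, hF⟩ := exists_num hORD hA
  have hfin : {L : List W | IsFac cs c n L ∧ ∀ t ∈ L, t ∈ reflLE cs k}.Finite :=
    (finite_lists hk n).subset (fun L hL => ⟨hL.1.2.2, hL.2⟩)
  have hmem : ∀ L : List W, L ∈ hfin.toFinset ↔ IsFac cs c n L ∧ ∀ t ∈ L, t ∈ reflLE cs k := by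
    intro L
    rw [Set.Finite.mem_toFinset]
    rfl
  -- a numbering of the label sets
  let T : List (Finset W) := (hfin.toFinset.image (fun L : List W => L.toFinset)).toList
  let num : Finset W → ℕ := fun S => T.idxOf S
  have hnum : ∀ L ∈ hfin.toFinset, ∀ L' ∈ hfin.toFinset, num L.toFinset = num L'.toFinset →
      L.toFinset = L'.toFinset := by
    intro L hL L' hL' h
    have h1 : L.toFinset ∈ T := by
      rw [Finset.mem_toList]
      exact Finset.mem_image_of_mem (fun L : List W => L.toFinset) hL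
    exact (List.idxOf_inj h1).1 h
  let key : List W → ℕ ×ₗ (ℕ ×ₗ List ℕ) :=
    fun L => toLex (sl cs L, toLex (num L.toFinset, L.map (F L.toFinset)))
  have hkey : ∀ L L' : List W, key L < key L' ↔ sl cs L < sl cs L' ∨ (sl cs L = sl cs L' ∧
      (num L.toFinset < num L'.toFinset ∨ (num L.toFinset = num L'.toFinset ∧
        L.map (F L.toFinset) < L'.map (F L'.toFinset)))) := by
    intro L L'
    show toLex (sl cs L, toLex (num L.toFinset, L.map (F L.toFinset))) <
      toLex (sl cs L', toLex (num L'.toFinset, L'.map (F L'.toFinset))) ↔ _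
    rw [Prod.Lex.toLex_lt_toLex, Prod.Lex.toLex_lt_toLex]
  have hkinj : ∀ L ∈ hfin.toFinset, ∀ L' ∈ hfin.toFinset, key L = key L' → L = L' := by
    intro L hL L' hL' h
    have h0 := toLex.injective h
    rw [Prod.mk.injEq] at h0
    have h1 := toLex.injective h0.2
    rw [Prod.mk.injEq] at h1
    have h2 := hnum L hL L' hL' h1.1
    have h3 := h1.2
    rw [← h2] at h3
    have hmemS : ∀ x, x ∈ L.toFinset ↔ x ∈ L := fun x => List.mem_toFinset
    obtain ⟨h4, _⟩ := hF L ((hmem L).1 hL).1 L.toFinset hmemS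
    apply map_inj' _ L L' ?_ h3
    intro x hx y hy
    apply h4 x hx y
    rw [← hmemS, h2, List.mem_toFinset]
    exact hy
  have hmain := hSHG W (List W) (ℕ ×ₗ (ℕ ×ₗ List ℕ)) hfin.toFinset vs key hkinj
    (fun L hL L' hL' h => hv3 L L' ((hmem L).1 hL).1 ((hmem L').1 hL').1 h)
    (fun L hL L' hL' => by
      rw [hv1 L ((hmem L).1 hL).1, hv1 L' ((hmem L').1 hL').1]) ?_
  · have e : {G : Finset W | ∃ L : List W, (IsFac cs c n L ∧ ∀ t ∈ L, t ∈ reflLE cs k) ∧ G ⊆ vs L} =
        {G : Finset W | ∃ L ∈ hfin.toFinset, G ⊆ vs L} := by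
      ext G
      constructor
      · rintro ⟨L, h1, h2⟩
        exact ⟨L, (hmem L).2 h1, h2⟩
      · rintro ⟨L, h1, h2⟩
        exact ⟨L, (hmem L).1 h1, h2⟩
    rw [e]
    exact hmain
  · intro L hL L' hL' hlt
    obtain ⟨hLf, hLk⟩ := (hmem L).1 hL
    obtain ⟨hLf', hLk'⟩ := (hmem L').1 hL'
    have hmemS : ∀ x, x ∈ L.toFinset ↔ x ∈ L := fun x => List.mem_toFinset
    obtain ⟨hf1, hf2⟩ := hF L hLf L.toFinset hmemS
    -- a descent outside the chain of `L'`
    have hdesc : ∃ (P Q : List W) (a b : W), L = P ++ a :: b :: Q ∧ (b :: Q).prod ∉ vs L' ∧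
        (Hm a b ∨ (¬ Hm a b ∧ ¬ Ex a b ∧ F L.toFinset b ≤ F L.toFinset a)) := by
      by_contra hcon
      have hno : ∀ (P Q : List W) (a b : W), L = P ++ a :: b :: Q → (b :: Q).prod ∉ vs L' →
          ¬ Hm a b ∧ (¬ Ex a b → F L.toFinset a < F L.toFinset b) := by
        intro P Q a b h1 h2
        have h3 : ¬ Hm a b := fun h => hcon ⟨P, Q, a, b, h1, h2, Or.inl h⟩
        refine ⟨h3, fun h4 => ?_⟩
        by_contra h5
        exact hcon ⟨P, Q, a, b, h1, h2, Or.inr ⟨h3, h4, not_lt.1 h5⟩⟩
      have hg := hGAP B W M cs c n Ex Hm hA L L' (F L.toFinset) hLf hLf' hf1 hf2 hno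
      apply lt_asymm hlt
      rcases hg with h1 | ⟨h1, h2⟩
      · exact (hkey _ _).2 (Or.inl h1)
      · rcases h2 with h2 | h2
        · rw [h2] at hlt
          exact absurd hlt (lt_irrefl _)
        · have h3 : L.toFinset = L'.toFinset := List.toFinset_eq_of_perm _ _ h1
          rw [hkey]
          refine Or.inr ⟨sl_perm h1, Or.inr ⟨by rw [h3], ?_⟩⟩
          rw [← h3]
          exact h2
    obtain ⟨P, Q, a, b, hLe, hx, hcase⟩ := hdesc
    have hxL : (b :: Q).prod ∈ vs L := by
      rw [mem_vs]
      refine ⟨P.length + 1, ?_, ?_⟩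
      · rw [hLe, List.length_append, List.length_cons, List.length_cons]
        omega
      · have e1 : L = (P ++ [a]) ++ b :: Q := by rw [hLe]; simp
        have e2 : P.length + 1 = (P ++ [a]).length := by simp
        rw [e1, e2, List.drop_left]
    have hLf2 : IsFac cs c n (P ++ a :: b :: Q) := by rw [← hLe]; exact hLf
    have hra : cs.IsReflection a := hLf2.1 a (by simp)
    have hrb : cs.IsReflection b := hLf2.1 b (by simp)
    have hka : a ∈ reflLE cs k := hLk a (by rw [hLe]; simp)
    have hkb : b ∈ reflLE cs k := hLk b (by rw [hLe]; simp)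
    -- the general step
    have step : ∀ a' b' : W, a * b = a' * b' → a' ∈ reflLE cs k → b' ∈ reflLE cs k →
        key (P ++ a' :: b' :: Q) < key L →
        ∃ l ∈ hfin.toFinset, key l < key L ∧ ∃ x ∈ vs L, x ∉ vs L' ∧ (vs L).erase x ⊆ vs l := by
      intro a' b' hab ha' hb' hlt'
      refine ⟨P ++ a' :: b' :: Q, ?_, hlt', (b :: Q).prod, hxL, hx, ?_⟩
      · rw [hmem]
        refine ⟨isFac_two hLf2 ha'.1 hb'.1 hab, ?_⟩
        intro t ht
        rcases List.mem_append.1 ht with ht | ht
        · exact hLk t (by rw [hLe]; exact List.mem_append_left _ ht)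
        · rcases List.mem_cons.1 ht with rfl | ht
          · exact ha'
          · rcases List.mem_cons.1 ht with rfl | ht
            · exact hb'
            · exact hLk t (by rw [hLe]; simp [ht])
      · intro y hy
        rw [Finset.mem_erase] at hy
        apply hv4 P Q a b a' b' hab y ?_ hy.1
        rw [← hLe]
        exact hy.2
    have hless : ∀ t u : W, cs.IsReflection t → cs.length t < cs.length u → u ∈ reflLE cs k →
        t ∈ reflLE cs k := by
      intro t u ht hlen hu
      refine ⟨ht, ?_⟩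
      have h1 := hu.2
      have h2 : (cs.length t : ℚ) ≤ cs.length u := by exact_mod_cast hlen.le
      linarith
    rcases hcase with hH | ⟨hH, hE, hle⟩
    · rcases hA.srt P Q a b hLf2 hH with h1 | h1
      · apply step (a * b * a⁻¹) a (by group) (hless _ b (hrb.conj a) h1 hkb) hka
        rw [hkey]
        left
        rw [sl_two, hLe, sl_two]
        omega
      · have h2 : cs.IsReflection (b⁻¹ * a * b) := by
          have := hra.conj b⁻¹
          rwa [inv_inv] at this
        apply step b (b⁻¹ * a * b) (by group) hkb (hless _ a h2 h1 hka)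
        rw [hkey]
        left
        rw [sl_two, hLe, sl_two]
        omega
    · -- the labels commute
      have hpw := hA.tri _ hLf2
      have h1 := (List.pairwise_append.1 hpw).2.1
      have h2 := (List.pairwise_cons.1 h1).1 b List.mem_cons_self
      have hcomm : a * b = b * a := by
        rcases h2.2.2 with h3 | h3 | h3
        · exact absurd h3.1 hE
        · exact absurd h3.1 hH
        · exact h3.1
      have hne : a ≠ b := by
        intro hab
        subst hab
        have h3 := hLf2.2.2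
        rw [List.length_append, List.length_cons, List.length_cons] at h3
        have h4 : ((P ++ a :: a :: Q).drop P.length).prod =
            ((P ++ a :: a :: Q).drop (P.length + 2)).prod := by
          have e1 : P ++ a :: a :: Q = (P ++ [a, a]) ++ Q := by simp
          have e2 : P.length + 2 = (P ++ [a, a]).length := by simp
          rw [List.drop_left]
          conv_rhs => rw [e1, e2, List.drop_left]
          rw [List.prod_cons, List.prod_cons, ← mul_assoc, hra.mul_self, one_mul]
        have := hv2 _ _ hLf2 hLf2 P.length (P.length + 2) (by omega) (by omega) h4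
        omega
      have hflt : F L.toFinset b < F L.toFinset a := by
        refine lt_of_le_of_ne hle (fun h => hne ?_)
        exact (hf1 b (by rw [hLe]; simp) a (by rw [hLe]; simp) h).symm
      apply step b a hcomm hkb hka
      have hperm : (P ++ b :: a :: Q).Perm L := by
        rw [hLe]
        exact List.Perm.append_left _ (List.Perm.swap _ _ _)
      have h3 : (P ++ b :: a :: Q).toFinset = L.toFinset := List.toFinset_eq_of_perm _ _ hperm
      rw [hkey]
      refine Or.inr ⟨sl_perm hperm, Or.inr ⟨by rw [h3], ?_⟩⟩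
      rw [h3]
      have e4 : L.map (F L.toFinset) = (P ++ a :: b :: Q).map (F L.toFinset) :=
        congrArg (List.map (F L.toFinset)) hLe
      rw [e4]
      apply lex_append
      exact List.cons_lt_cons_iff.2 (Or.inl hflt)

end Pool.Agent.Lib.MP_20db89_co.AK
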