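import Pool.Agent.Lib.MP_20db89_co.AK.LIN

set_option autoImplicit false

/-!
# Module SIM
-/

namespace Pool.Agent.Lib.MP_20db89_co.AK

universe u

namespace SIMM

variable {Q : Type u} [DecidableEq Q] (mu : Q → Q → ℕ)

/-- the simple representation -/
def S (x : Q) : Rp Q mu where
  V := fun y => Fin (if y = x then 1 else 0) → ℚ
  acg := fun _ => inferInstance
  mod := fun _ => inferInstance
  fin := fun _ => inferInstance
  map := fun _ _ _ => 0

lemma dm_S (x : Q) : dm (S mu x) = Pi.single x 1 := by
  funext y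
  show (Module.finrank ℚ (Fin (if y = x then 1 else 0) → ℚ) : ℤ) = _
  rw [Module.finrank_fin_fun]
  by_cases h : y = x
  · subst h
    simp
  · rw [if_neg h, Pi.single_eq_of_ne h]
    rfl

lemma sub_of_ne {x y : Q} (h : y ≠ x) : Subsingleton ((S mu x).V y) := by
  show Subsingleton (Fin (if y = x then 1 else 0) → ℚ)
  rw [if_neg h]
  infer_instance

lemma hom_sub {x y a b : Q} (h : a ≠ x ∨ b ≠ y) :
    Subsingleton ((S mu x).V a →ₗ[ℚ] (S mu y).V b) := by
  constructor
  intro f g
  ext v
  rcases h with h | h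
  · have := sub_of_ne mu h
    rw [Subsingleton.elim v 0, map_zero, map_zero]
  · have := sub_of_ne mu h
    exact Subsingleton.elim _ _

lemma xd_zero {x y : Q} (h : mu x y = 0) : xd (S mu x) (S mu y) = 0 := by
  have h1 : Subsingleton (H1 (S mu x) (S mu y)) := by
    constructor
    intro f g
    funext a b k
    by_cases hab : a ≠ x ∨ b ≠ y
    · have := hom_sub mu hab
      exact Subsingleton.elim _ _
    · push Not at hab
      obtain ⟨rfl, rfl⟩ := hab
      rw [h] at k
      exact k.elim0
  have h2 : Subsingleton (H1 (S mu x) (S mu y) ⧸ LinearMap.range (dl (S mu x) (S mu y))) :=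
    Quotient.instSubsingletonQuotient _
  exact Module.finrank_zero_of_subsingleton

lemma hd_zero {x y : Q} (h : x ≠ y) : hd (S mu x) (S mu y) = 0 := by
  have h1 : Subsingleton (H0 (S mu x) (S mu y)) := by
    constructor
    intro f g
    funext a
    have : a ≠ x ∨ a ≠ y := by
      by_contra hcon
      push Not at hcon
      exact h (hcon.1.symm.trans hcon.2)
    have := hom_sub mu this
    exact Subsingleton.elim _ _
  have h2 : Subsingleton (LinearMap.ker (dl (S mu x) (S mu y))) := inferInstance
  exact Module.finrank_zero_of_subsingleton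

lemma eul_single [Fintype Q] (x : Q) (h : mu x x = 0) :
    eul mu (Pi.single x 1) (Pi.single x 1) = 1 := by
  unfold eul
  rw [Finset.sum_eq_single x, Finset.sum_eq_zero, Pi.single_eq_same]
  · norm_num
  · intro a _
    refine Finset.sum_eq_zero fun b _ => ?_
    by_cases ha : a = x
    · by_cases hb : b = x
      · subst ha
        subst hb
        rw [h]
        simp
      · rw [Pi.single_eq_of_ne hb, mul_zero]
    · rw [Pi.single_eq_of_ne ha]
      simp
  · intro a _ ha
    rw [Pi.single_eq_of_ne ha, mul_zero]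
  · intro h'
    exact absurd (Finset.mem_univ x) h'

end SIMM

theorem specSIM (hEUL : SpecEUL.{u}) : SpecSIM.{u} := by
  intro Q _ _ mu l hnd hpw hloop
  refine ⟨l.map (SIMM.S mu), ?_, ?_, ?_⟩
  · rw [List.forall₂_map_left_iff, List.forall₂_map_right_iff, List.forall₂_same]
    intro x _
    exact Or.inl (SIMM.dm_S mu x)
  · intro E hE
    obtain ⟨x, hx, rfl⟩ := List.mem_map.1 hE
    have h1 := SIMM.xd_zero mu (hloop x hx)
    refine ⟨?_, h1⟩
    have h2 := hEUL Q mu (SIMM.S mu x) (SIMM.S mu x)
    rw [SIMM.dm_S, SIMM.eul_single mu x (hloop x hx), h1] at h2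
    push_cast at h2
    omega
  · rw [List.pairwise_map]
    refine (hpw.and hnd).imp ?_
    rintro x y ⟨h1, h2⟩
    exact ⟨SIMM.hd_zero mu h2.symm, SIMM.xd_zero mu h1⟩

end Pool.Agent.Lib.MP_20db89_co.AK
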