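import Mathlib
import Pool.Agent.Lib.MP_20db89_co.AK.LIN
import Pool.Agent.Lib.MP_20db89_co.AK.Spec

section
set_option autoImplicit false

namespace Pool.Agent.Lib.MP_20db89_co.AK

universe u

namespace POSM

open BRDM CoxeterSystem

variable {B W : Type u} [Fintype B] [DecidableEq B] [Group W] {M : CoxeterMatrix B}
    {cs : CoxeterSystem M W} {A I : Type} [CommRing A] [Fintype I] [DecidableEq I]
    (r : RD cs A I)

/-- the letter in front of the alternating word of length `k + 1` -/
def lt' (i j : B) (k : ℕ) : B := if Even k then j else i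

omit [Fintype B] in
lemma lt_succ_succ (i j : B) (k : ℕ) : lt' i j (k + 2) = lt' i j k := by
  simp [lt', Nat.even_add]

omit [Fintype B] in
lemma lt_ne {i j : B} (h : i ≠ j) (k : ℕ) : lt' i j k ≠ lt' i j (k + 1) := by
  unfold lt'
  by_cases hk : Even k
  · rw [if_pos hk, if_neg (by simpa [Nat.even_add_one] using hk)]
    exact h.symm
  · rw [if_neg hk, if_pos (by simpa [Nat.even_add_one] using hk)]
    exact h

lemma X_lt {i j : B} (k : ℕ) : r.X (lt' i j k) (lt' i j (k + 1)) = r.X i j := by
  unfold lt'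
  by_cases hk : Even k
  · rw [if_pos hk, if_neg (by simpa [Nat.even_add_one] using hk)]
    exact r.symm j i
  · rw [if_neg hk, if_pos (by simpa [Nat.even_add_one] using hk)]

lemma sgm_self (X : B → B → A) (i : B) : sgm X i (al i) = -(al i : B → A) := by
  rw [sgm_apply, bil_al_same]
  module

lemma sgm_of (X : B → B → A) {i j : B} (h : i ≠ j) :
    sgm X i (al j) = (al j : B → A) + X i j • (al i : B → A) := by
  rw [sgm_apply, bil_al_al _ h]
  module

lemma alt_formula {i j : B} (hij : i ≠ j) (k : ℕ) :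
    r.rho (cs.wordProd (alternatingWord i j k)) (al i) =
      cm (r.X i j) (k + 1) • (al (lt' i j (k + 1)) : B → A) +
        cm (r.X i j) k • (al (lt' i j k) : B → A) := by
  induction k with
  | zero => simp [alternatingWord, cm_zero, cm_one, lt']
  | succ k ih =>
    rw [alternatingWord_succ', cs.wordProd_cons, map_mul, Module.End.mul_apply, ih]
    have h2 : (if Even k then j else i) = lt' i j k := rfl
    rw [h2, r.rho_simple, map_add, map_smul, map_smul, sgm_self, sgm_of _ (lt_ne hij k), X_lt,
      show k + 1 + 1 = k + 2 from rfl, lt_succ_succ, cm_add_two]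
    module

lemma pos_aux (hRNG : SpecRNG) (N : ℕ) : ∀ (w : W), cs.length w ≤ N → ∀ i : B,
    cs.length w < cs.length (w * cs.simple i) → r.R.PV (r.rho w (al i)) := by
  obtain ⟨-, hmul, hadd, ⟨-, h1, h0⟩, -⟩ := hRNG A I r.R
  have hal : ∀ i : B, r.R.PV (al i : B → A) := by
    intro i v
    rw [al]
    by_cases h : v = i
    · subst h; rw [Pi.single_eq_same]; exact h1
    · rw [Pi.single_eq_of_ne h]; exact h0
  induction N with
  | zero =>
    intro w hw i _
    have : w = 1 := cs.length_eq_zero_iff.1 (by omega)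
    rw [this, map_one, Module.End.one_apply]
    exact hal i
  | succ N ih =>
    intro w hw i hi
    by_cases hw1 : w = 1
    · subst hw1
      rw [map_one, Module.End.one_apply]
      exact hal i
    obtain ⟨j, hj⟩ := cs.exists_rightDescent_of_ne_one hw1
    have hj' : cs.length (w * cs.simple j) + 1 = cs.length w := cs.isRightDescent_iff.1 hj
    have hij : i ≠ j := by
      rintro rfl
      omega
    let P : ℕ → Prop := fun k => ∃ v : W, w = v * cs.wordProd (alternatingWord i j k) ∧
      cs.length w = cs.length v + k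
    have hP1 : P 1 := by
      refine ⟨w * cs.simple j, ?_, hj'.symm⟩
      simp [alternatingWord]
    have hbd : ∀ k, P k → k ≤ cs.length w := by
      rintro k ⟨v, _, h⟩
      omega
    classical
    have hmax := Nat.findGreatest_spec (P := P) (n := cs.length w) (hbd 1 hP1) hP1
    set k := Nat.findGreatest P (cs.length w) with hk
    have hk1 : 1 ≤ k := Nat.le_findGreatest (hbd 1 hP1) hP1
    have hnot : ¬ P (k + 1) := by
      intro h
      have := Nat.le_findGreatest (hbd _ h) h
      omega
    obtain ⟨v, hv, hlen⟩ := hmax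
    have hfront : cs.length v < cs.length (v * cs.simple (lt' i j k)) := by
      rcases cs.length_mul_simple v (lt' i j k) with h | h
      · omega
      · exfalso
        apply hnot
        refine ⟨v * cs.simple (lt' i j k), ?_, by omega⟩
        rw [alternatingWord_succ', cs.wordProd_cons]
        have h2 : (if Even k then j else i) = lt' i j k := rfl
        rw [h2, mul_assoc, ← mul_assoc (cs.simple _) (cs.simple _), cs.simple_mul_simple_self,
          one_mul]
        exact hv
    obtain ⟨k', hk'⟩ : ∃ k', k = k' + 1 := ⟨k - 1, by omega⟩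
    have hback : cs.length v < cs.length (v * cs.simple (lt' i j k')) := by
      have h1 : w = v * cs.simple (lt' i j k') * cs.wordProd (alternatingWord i j k') := by
        conv_lhs => rw [hv, hk', alternatingWord_succ', cs.wordProd_cons, ← mul_assoc]
        rfl
      have h2 := cs.length_mul_le (v * cs.simple (lt' i j k')) (cs.wordProd (alternatingWord i j k'))
      rw [← h1] at h2
      have h3 := cs.length_wordProd_le (alternatingWord i j k')
      rw [length_alternatingWord] at h3
      omega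
    have hvl : cs.length v ≤ N := by omega
    have g1 := ih v hvl _ hfront
    have g2 := ih v hvl _ hback
    have e1 : lt' i j (k + 1) = lt' i j k' := by
      rw [hk', show k' + 1 + 1 = k' + 2 from rfl, lt_succ_succ]
    have hkm : M i j ≠ 0 → k + 1 ≤ M i j := by
      intro hm
      by_contra hcon
      push Not at hcon
      rcases Nat.lt_or_ge (M i j) k with h | h
      · have hnr := cs.not_isReduced_alternatingWord i j hm h
        apply hnr
        unfold CoxeterSystem.IsReduced
        rw [length_alternatingWord]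
        have h3 := cs.length_wordProd_le (alternatingWord i j k)
        rw [length_alternatingWord] at h3
        have h2 := cs.length_mul_le v (cs.wordProd (alternatingWord i j k))
        rw [← hv] at h2
        omega
      · have hkm : k = M i j := by omega
        have hb := cs.wordProd_braidWord_eq i j
        have h4 : w * cs.simple i = v * cs.wordProd (alternatingWord i j k') := by
          rw [hv, hkm]
          change v * cs.wordProd (braidWord M i j) * _ = _
          rw [hb]
          change v * cs.wordProd (alternatingWord j i (M j i)) * _ = _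
          rw [M.symmetric j i, ← hkm, hk', alternatingWord_succ, cs.wordProd_concat]
          simp [mul_assoc]
        have h5 := cs.length_mul_le v (cs.wordProd (alternatingWord i j k'))
        rw [← h4] at h5
        have h3 := cs.length_wordProd_le (alternatingWord i j k')
        rw [length_alternatingWord] at h3
        omega
    rw [hv, map_mul, Module.End.mul_apply, alt_formula r hij, map_add, map_smul, map_smul, e1]
    have s1 : r.R.Nn (cm (r.X i j) (k + 1)) := by
      apply r.nn i j hij
      by_cases hm : M i j = 0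
      · exact Or.inl hm
      · exact Or.inr (hkm hm)
    have s2 : r.R.Nn (cm (r.X i j) k) := by
      rw [hk']
      apply r.nn i j hij
      by_cases hm : M i j = 0
      · exact Or.inl hm
      · have := hkm hm
        exact Or.inr (by omega)
    intro v'
    simp only [Pi.add_apply, Pi.smul_apply, smul_eq_mul]
    exact hadd _ _ (hmul _ _ s1 (g2 v')) (hmul _ _ s2 (g1 v'))

end POSM

theorem specPOS (hRNG : SpecRNG) : SpecPOS.{u} := by
  intro B W _ _ _ M cs A I _ _ _ r w s h
  exact POSM.pos_aux r hRNG (cs.length w) w le_rfl s h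

end Pool.Agent.Lib.MP_20db89_co.AK
end

section
set_option autoImplicit false

/-!
# Module RDE
-/

namespace Pool.Agent.Lib.MP_20db89_co.AK

universe u

namespace RDEM

variable {B : Type u} [Fintype B] [DecidableEq B] {A : Type} [CommRing A]

lemma sgm_sq (X : B → B → A) (s : B) : sgm X s * sgm X s = 1 := by
  refine LinearMap.ext fun x => ?_
  show sgm X s (sgm X s x) = x
  rw [sgm_apply X s x, sgm_apply, bil_sub_right, bil_smul_right, bil_al_same]
  have e : bil X (al s) x - bil X (al s) x * 2 = - bil X (al s) x := by ring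
  rw [e, neg_smul, sub_neg_eq_add, sub_add_cancel]

end RDEM

theorem specRDE (hFR : SpecFR) (hBRD : SpecBRD.{u}) : SpecRDE.{u} := by
  classical
  intro B W _ _ _ M cs
  obtain ⟨A, I, iA, iI, iD, R, X, h0, hX⟩ :=
    hFR (Finset.univ.sup fun s => Finset.univ.sup fun t => M s t)
  have hN : ∀ s t : B, M s t ≤ Finset.univ.sup fun s => Finset.univ.sup fun t => M s t := by
    intro s t
    exact (Finset.le_sup (f := fun t => M s t) (Finset.mem_univ t)).trans
      (Finset.le_sup (f := fun s => Finset.univ.sup fun t => M s t) (Finset.mem_univ s))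
  have h2 : ∀ s t : B, s ≠ t → M s t ≠ 0 → 2 ≤ M s t := by
    intro s t hst h
    have := M.off_diagonal s t hst
    omega
  have hsymm : ∀ s t : B, X (M s t) = X (M t s) := fun s t => by rw [M.symmetric s t]
  have hl : M.IsLiftable (fun s => sgm (fun s t => X (M s t)) s) := by
    intro s t
    by_cases hst : s = t
    · subst hst
      rw [RDEM.sgm_sq, one_pow]
    · by_cases hm : M s t = 0
      · rw [hm, pow_zero]
      · exact hBRD B A (fun s t => X (M s t)) s t (M s t) hsymm hst (h2 s t hst hm)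
          (hX _ (h2 s t hst hm) (hN s t)).1
  refine ⟨A, I, iA, iI, iD, ⟨?_⟩⟩
  exact
    { R := R
      X := fun s t => X (M s t)
      symm := hsymm
      nn := by
        intro s t hst j hj
        by_cases hm : M s t = 0
        · show R.Nn (ch (X (M s t)) j)
          rw [hm]
          exact h0 j
        · exact (hX _ (h2 s t hst hm) (hN s t)).2 j (by omega)
      zero := fun s t hst hm => (hX _ (h2 s t hst hm) (hN s t)).1
      rho := cs.lift ⟨_, hl⟩
      rho_simple := fun s => cs.lift_apply_simple hl s }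

end Pool.Agent.Lib.MP_20db89_co.AK
end

section
set_option autoImplicit false

namespace Pool.Agent.Lib.MP_20db89_co.AK

universe u

namespace RTFM

variable {B W : Type u} [Fintype B] [DecidableEq B] [Group W] {M : CoxeterMatrix B}
    {cs : CoxeterSystem M W} {A I : Type} [CommRing A] [Fintype I] [DecidableEq I]
    (r : RD cs A I)

lemma bil_sgm (s : B) (x y : B → A) : bil r.X (sgm r.X s x) (sgm r.X s y) = bil r.X x y := by
  rw [sgm_apply, sgm_apply, bil_sub_left, bil_sub_right, bil_sub_right, bil_smul_left,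
    bil_smul_right, bil_smul_left, bil_smul_right, bil_al_same, bil_comm r.X r.symm x (al s)]
  ring

lemma bil_rho (w : W) : ∀ x y : B → A, bil r.X (r.rho w x) (r.rho w y) = bil r.X x y := by
  induction w using cs.simple_induction_left with
  | one => intro x y; simp
  | mul_simple_left w i ih =>
    intro x y
    rw [map_mul, Module.End.mul_apply, Module.End.mul_apply, r.rho_simple, bil_sgm, ih]

lemma rho_inv_rho (w : W) (x : B → A) : r.rho w⁻¹ (r.rho w x) = x := by
  rw [← Module.End.mul_apply, ← map_mul, inv_mul_cancel, map_one, Module.End.one_apply]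

lemma rho_rho_inv (w : W) (x : B → A) : r.rho w (r.rho w⁻¹ x) = x := by
  rw [← Module.End.mul_apply, ← map_mul, mul_inv_cancel, map_one, Module.End.one_apply]

end RTFM

theorem specRTF : SpecRTF.{u} := by
  intro B W _ _ _ M cs A I _ _ _ r
  refine ⟨RTFM.bil_rho r, ?_, ?_, ?_, ?_⟩
  · rintro t x ⟨w, s, rfl, rfl⟩ y
    have h : bil r.X (r.rho w (al s)) y = bil r.X (al s) (r.rho w⁻¹ y) := by
      conv_lhs => rw [← RTFM.rho_rho_inv r w y, RTFM.bil_rho]
    rw [map_mul, map_mul, Module.End.mul_apply, Module.End.mul_apply, r.rho_simple, sgm_apply,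
      map_sub, map_smul, RTFM.rho_rho_inv, h]
  · rintro t x ⟨w, s, rfl, rfl⟩
    rw [RTFM.bil_rho, bil_al_same]
  · rintro t w x ⟨v, s, rfl, rfl⟩
    refine ⟨w * v, s, by group, ?_⟩
    rw [map_mul, Module.End.mul_apply]
  · rintro t x ⟨v, s, rfl, rfl⟩
    refine ⟨v * cs.simple s, s, ?_, ?_⟩
    · rw [mul_inv_rev, cs.inv_simple]
      simp only [mul_assoc]
      rw [cs.simple_mul_simple_cancel_left]
    · rw [map_mul, Module.End.mul_apply, r.rho_simple, sgm_apply, bil_al_same, ← map_neg]
      congr 1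
      module

end Pool.Agent.Lib.MP_20db89_co.AK
end

section
set_option autoImplicit false

namespace Pool.Agent.Lib.MP_20db89_co.AK

universe u

namespace SGNM

open RTFM CoxeterSystem

section ring

variable {A I : Type} [CommRing A] [Fintype I] [DecidableEq I] {R : FRing A I} {B : Type u}

lemma pv_smul (hRNG : SpecRNG) {z : A} {x : B → A} (hz : R.Nn z) (hx : R.PV x) :
    R.PV (z • x) := by
  intro v
  exact (hRNG A I R).2.1 _ _ hz (hx v)

lemma pv_al (hRNG : SpecRNG) [DecidableEq B] (s : B) : R.PV (al s : B → A) := by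
  obtain ⟨-, -, -, ⟨-, h1, h0⟩, -⟩ := hRNG A I R
  intro v
  rw [al]
  by_cases h : v = s
  · subst h; rw [Pi.single_eq_same]; exact h1
  · rw [Pi.single_eq_of_ne h]; exact h0

lemma pv_antisymm (hRNG : SpecRNG) {x : B → A} (hx : R.PV x) (hx' : R.PV (-x)) : x = 0 := by
  funext v
  exact (hRNG A I R).2.2.2.2.1 _ (hx v) (hx' v)

lemma two_ne (hRNG : SpecRNG) (R : FRing A I) : (2 : A) ≠ 0 := by
  intro h
  have h6 := (hRNG A I R).2.2.2.2.2.1
  exact h6.2 (h6.1 1 (by rw [h, zero_mul]))

end ring

variable {B W : Type u} [Fintype B] [DecidableEq B] [Group W] {M : CoxeterMatrix B}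
    {cs : CoxeterSystem M W} {A I : Type} [CommRing A] [Fintype I] [DecidableEq I]
    (r : RD cs A I)

lemma isRt_neg {t : W} {x : B → A} (h : r.IsRt t x) : r.IsRt t (-x) :=
  (specRTF.{u} B W M cs A I r).2.2.2.2 t x h

lemma rho_self {t : W} {x : B → A} (h : r.IsRt t x) : r.rho t x = -x := by
  rw [(specRTF.{u} B W M cs A I r).2.1 t x h x, (specRTF.{u} B W M cs A I r).2.2.1 t x h]
  module

lemma sign (hPOS : SpecPOS.{u}) {t : W} {x : B → A} (h : r.IsRt t x) :
    r.R.PV x ∨ r.R.PV (-x) := by
  obtain ⟨w, s, rfl, rfl⟩ := h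
  rcases cs.length_mul_simple w s with h | h
  · left
    exact hPOS B W M cs A I r w s (by omega)
  · right
    have h1 := hPOS B W M cs A I r (w * cs.simple s) s (by
      rw [mul_assoc, cs.simple_mul_simple_self, mul_one]; omega)
    rw [map_mul, Module.End.mul_apply, r.rho_simple, sgm_apply, bil_al_same] at h1
    have h2 : (al s : B → A) - (2 : A) • al s = -al s := by module
    rwa [h2, map_neg] at h1

lemma ne_zero (hRNG : SpecRNG) {t : W} {x : B → A} (h : r.IsRt t x) : x ≠ 0 := by
  rintro rfl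
  have := (specRTF.{u} B W M cs A I r).2.2.1 t 0 h
  rw [bil_zero_left] at this
  exact two_ne hRNG r.R this.symm

lemma six_aux (hRNG : SpecRNG) (hPOS : SpecPOS.{u}) {t : W} {x y : B → A} (hx : r.IsRt t x)
    (hy : r.IsRt t y) (px : r.R.PV x) (py : r.R.PV y) : ∃ z : A, r.R.Nn z ∧ y = z • x := by
  have h1 := rho_self r hy
  rw [(specRTF.{u} B W M cs A I r).2.1 t x hx y] at h1
  have h2 : (2 : A) • y = bil r.X x y • x := by
    have : y + y = bil r.X x y • x := by
      have := congrArg (fun v => v + bil r.X x y • x + y) h1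
      simp only [sub_add_cancel, neg_add_cancel_comm] at this
      rw [this]
    rw [two_smul]; exact this
  obtain ⟨w, s, rfl, rfl⟩ := hx
  set y' := r.rho w⁻¹ y with hy'
  have h3 : (2 : A) • y' = bil r.X (r.rho w (al s)) y • (al s : B → A) := by
    rw [hy', ← map_smul, h2, map_smul, rho_inv_rho]
  have h4 : y' = y' s • (al s : B → A) := by
    funext v
    by_cases hv : v = s
    · subst hv
      simp [al]
    · have h5 := congrFun h3 v
      simp only [Pi.smul_apply, smul_eq_mul, al, Pi.single_eq_of_ne hv, mul_zero] at h5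
      rw [(hRNG A I r.R).2.2.2.2.2.1.1 _ h5]
      simp [al, Pi.single_eq_of_ne hv]
  have h5 : y = y' s • r.rho w (al s) := by
    rw [← map_smul, ← h4, hy', rho_rho_inv]
  refine ⟨y' s, ?_, h5⟩
  have hroot : r.IsRt (w⁻¹ * (w * cs.simple s * w⁻¹) * w⁻¹⁻¹) y' :=
    (specRTF.{u} B W M cs A I r).2.2.2.1 _ w⁻¹ y hy
  rcases sign r hPOS hroot with h | h
  · exact h s
  · exfalso
    have h6 : r.R.PV (-y) := by
      rw [h5, ← neg_smul]
      exact pv_smul hRNG (h s) px
    exact ne_zero r hRNG hy (pv_antisymm hRNG py h6)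

lemma al_isRt (s : B) : r.IsRt (cs.simple s) (al s) := ⟨1, s, by simp, by simp⟩

lemma neg_aux (hRNG : SpecRNG) (hPOS : SpecPOS.{u}) {t : W} {x : B → A} (hx : r.IsRt t x)
    (px : r.R.PV x) (w : W) (hw : cs.length (w * t) < cs.length w) :
    r.R.PV (-(r.rho w x)) := by
  have ht : cs.IsReflection t := by
    obtain ⟨v, s, rfl, -⟩ := hx
    exact ⟨v, s, rfl⟩
  obtain ⟨l, hred, rfl⟩ := cs.exists_isReduced w
  have h1 := strong_exchange_right cs l ht hw
  obtain ⟨q, hq, hqt⟩ := List.mem_iff_getElem.1 h1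
  have hq' : q < l.length := by simpa using hq
  rw [cs.getElem_rightInvSeq l q hq', List.getElem?_eq_getElem hq', Option.map_some,
    Option.getD_some] at hqt
  -- `h = (π (drop (q + 1)))⁻¹`
  set d := cs.wordProd (l.drop (q + 1)) with hd
  have e1 : l.drop q = l[q] :: l.drop (q + 1) := List.drop_eq_getElem_cons hq'
  have e2 : l.take (q + 1) = l.take q ++ [l[q]] := by
    rw [List.take_add_one, List.getElem?_eq_getElem hq']; rfl
  have len1 : cs.length d = l.length - (q + 1) := by
    rw [hd, (hred.drop (q + 1)).eq, List.length_drop]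
  have len2 : cs.length (cs.simple l[q] * d) = l.length - q := by
    rw [hd, ← cs.wordProd_cons, ← e1, (hred.drop q).eq, List.length_drop]
  have hx' : r.IsRt t (r.rho d⁻¹ (al l[q])) := ⟨d⁻¹, l[q], by rw [inv_inv]; exact hqt.symm, rfl⟩
  have px' : r.R.PV (r.rho d⁻¹ (al l[q])) := by
    apply hPOS B W M cs A I r
    have : d⁻¹ * cs.simple l[q] = (cs.simple l[q] * d)⁻¹ := by rw [mul_inv_rev, cs.inv_simple]
    rw [this, cs.length_inv, cs.length_inv, len1, len2]
    omega
  obtain ⟨z, hz, hzx⟩ := six_aux r hRNG hPOS hx' hx px' px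
  have h2 : r.rho (cs.wordProd l) (r.rho d⁻¹ (al l[q])) =
      -(r.rho (cs.wordProd (l.take q)) (al l[q])) := by
    rw [← Module.End.mul_apply, ← map_mul]
    have : cs.wordProd l * d⁻¹ = cs.wordProd (l.take q) * cs.simple l[q] := by
      have : cs.wordProd l = cs.wordProd (l.take (q + 1)) * d := by
        rw [hd, ← cs.wordProd_append, List.take_append_drop]
      rw [this, mul_inv_cancel_right, e2, cs.wordProd_append, cs.wordProd_singleton]
    rw [this, map_mul, Module.End.mul_apply, rho_self r (al_isRt r _), map_neg]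
  have px2 : r.R.PV (r.rho (cs.wordProd (l.take q)) (al l[q])) := by
    apply hPOS B W M cs A I r
    have : cs.wordProd (l.take q) * cs.simple l[q] = cs.wordProd (l.take (q + 1)) := by
      rw [e2, cs.wordProd_append, cs.wordProd_singleton]
    rw [this, (hred.take q).eq, (hred.take (q + 1)).eq, List.length_take, List.length_take]
    omega
  rw [hzx, map_smul, h2, smul_neg, neg_neg]
  exact pv_smul hRNG hz px2

end SGNM

open SGNM RTFM in
theorem specSGN (hRNG : SpecRNG) (hPOS : SpecPOS.{u}) : SpecSGN.{u} := by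
  intro B W _ _ _ M cs A I _ _ _ r
  have four : ∀ (t : W) (x : B → A), r.IsRt t x → r.R.PV x → ∀ w : W,
      (cs.length w < cs.length (w * t) → r.R.PV (r.rho w x)) ∧
      (cs.length (w * t) < cs.length w → r.R.PV (-(r.rho w x))) := by
    intro t x hx px w
    refine ⟨fun h => ?_, fun h => neg_aux r hRNG hPOS hx px w h⟩
    have ht : cs.IsReflection t := by
      obtain ⟨v, s, rfl, -⟩ := hx
      exact ⟨v, s, rfl⟩
    have h1 := neg_aux r hRNG hPOS hx px (w * t) (by
      rw [mul_assoc, ht.mul_self, mul_one]; exact h)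
    rwa [map_mul, Module.End.mul_apply, rho_self r hx, map_neg, neg_neg] at h1
  refine ⟨fun t x h => sign r hPOS h, fun t x h => ne_zero r hRNG h, ?_, four, ?_, ?_⟩
  · intro t ht
    have hex : ∃ x : B → A, r.IsRt t x ∧ r.R.PV x := by
      obtain ⟨v, s, hvs⟩ := ht
      have hx : r.IsRt t (r.rho v (al s)) := ⟨v, s, hvs, rfl⟩
      rcases sign r hPOS hx with h | h
      · exact ⟨_, hx, h⟩
      · exact ⟨_, isRt_neg r hx, h⟩
    rw [RD.rt, dif_pos hex]
    exact hex.choose_spec
  · intro w hw
    by_contra hne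
    obtain ⟨s, hs⟩ := cs.exists_rightDescent_of_ne_one hne
    have h1 := (four (cs.simple s) (al s) (al_isRt r s) (pv_al hRNG s) w).2 hs
    rw [hw, Module.End.one_apply] at h1
    exact ne_zero r hRNG (al_isRt r s) (pv_antisymm hRNG (pv_al hRNG s) h1)
  · intro t x y hx hy px py
    obtain ⟨z, hz, hzy⟩ := six_aux r hRNG hPOS hx hy px py
    obtain ⟨z', hz', hzx⟩ := six_aux r hRNG hPOS hy hx py px
    refine ⟨z, z', hz, hz', ?_, hzy⟩
    obtain ⟨w, s, -, rfl⟩ := hx
    have h1 : r.rho w (al s) = r.rho w ((z' * z) • al s) := by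
      conv_lhs => rw [hzx, hzy]
      rw [map_smul, mul_smul]
    have h2 : (al s : B → A) = (z' * z) • al s := by
      have := congrArg (r.rho w⁻¹) h1
      rwa [rho_inv_rho, rho_inv_rho] at this
    have h3 := congrFun h2 s
    simp only [al, Pi.single_eq_same, Pi.smul_apply, smul_eq_mul, mul_one] at h3
    rw [mul_comm, ← h3]

end Pool.Agent.Lib.MP_20db89_co.AK
end

section
set_option autoImplicit false

/-!
TRI: the Euler form of the roots of a factorization is triangular, and its entries have a sign.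
-/

universe u

namespace Pool.Agent.Lib.MP_20db89_co.AK

namespace TRIM

variable {B W : Type u} [Fintype B] [DecidableEq B] [Group W] {M : CoxeterMatrix B}
  {cs : CoxeterSystem M W} {A I : Type} [CommRing A] [Fintype I] [DecidableEq I]

/-- Euler form of two members of the family -/
lemma form (hEUL : SpecEUL.{u}) (hCOE : SpecCOE.{u}) (r : RD cs A I) (ω : List B)
    (x y : B → A) (i j : I) (E F : Rp (B × I) (r.mu ω)) (hE : dm E = r.co (r.R.b i • x))
    (hF : dm F = r.co (r.R.b j • y)) :
    (hd E F : ℤ) - (xd E F : ℤ) = r.R.b.repr (eA r.X ω x y * (r.R.b i * r.R.b j)) r.R.one := by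
  rw [hEUL, hE, hF, hCOE B W M cs A I r ω, eA_smul_left, eA_smul_right]
  congr 2
  ring

lemma form_one_left (hRNG : SpecRNG) (hEUL : SpecEUL.{u}) (hCOE : SpecCOE.{u}) (r : RD cs A I)
    (ω : List B) (x y : B → A) (j : I) (E F : Rp (B × I) (r.mu ω))
    (hE : dm E = r.co (r.R.b r.R.one • x)) (hF : dm F = r.co (r.R.b j • y)) :
    (hd E F : ℤ) - (xd E F : ℤ) = r.R.b.repr (eA r.X ω x y) j := by
  rw [form hEUL hCOE r ω x y r.R.one j E F hE hF, r.R.b_one, one_mul]
  exact ((hRNG A I r.R).1 _ j).symm

lemma form_one_right (hRNG : SpecRNG) (hEUL : SpecEUL.{u}) (hCOE : SpecCOE.{u}) (r : RD cs A I)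
    (ω : List B) (x y : B → A) (i : I) (E F : Rp (B × I) (r.mu ω))
    (hE : dm E = r.co (r.R.b i • x)) (hF : dm F = r.co (r.R.b r.R.one • y)) :
    (hd E F : ℤ) - (xd E F : ℤ) = r.R.b.repr (eA r.X ω x y) i := by
  rw [form hEUL hCOE r ω x y i r.R.one E F hE hF, r.R.b_one, mul_one]
  exact ((hRNG A I r.R).1 _ i).symm

lemma eA_self (hRNG : SpecRNG) (hRTF : SpecRTF.{u}) (r : RD cs A I) (ω : List B)
    (hall : ∀ s : B, s ∈ ω) (t : W) (x : B → A) (hx : r.IsRt t x) : eA r.X ω x x = 1 := by
  have h1 := (hRTF B W M cs A I r).2.2.1 t x hx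
  rw [bil_eq_eA r.X ω r.symm hall] at h1
  have h2 : 2 * (eA r.X ω x x - 1) = 0 := by
    have : 2 * (eA r.X ω x x - 1) = (eA r.X ω x x + eA r.X ω x x) - 2 := by ring
    rw [this, h1, sub_self]
  have h3 := (hRNG A I r.R).2.2.2.2.2.1.1 _ h2
  exact sub_eq_zero.1 h3

omit [Fintype B] [DecidableEq B] in
/-- from `x ≥ b y` and `y ≥ b x` it follows that `x = b y` -/
lemma squeeze (hRNG : SpecRNG) (R : FRing A I) (b : A) (hb : R.Nn b) (hb1 : R.Nn (b * b - 1))
    (x y : B → A) (hx : R.PV x) (h1 : R.PV (x - b • y)) (h2 : R.PV (y - b • x)) : x = b • y := by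
  obtain ⟨-, hmul, hadd, -, h0, -⟩ := hRNG A I R
  funext s
  have h3 : R.Nn (-(x s - b * y s)) := by
    have e : -(x s - b * y s) = b * (y s - b * x s) + (b * b - 1) * x s := by ring
    rw [e]
    exact hadd _ _ (hmul _ _ hb (h2 s)) (hmul _ _ hb1 (hx s))
  have := h0 _ (h1 s) h3
  simp only [Pi.smul_apply, smul_eq_mul]
  exact sub_eq_zero.1 this

lemma pv_of_co (r : RD cs A I) (x y : B → A) (h : ∀ p, r.co x p ≤ r.co y p) : r.R.PV (y - x) := by
  intro s i
  have := h (s, i)
  simp only [RD.co] at this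
  rw [Pi.sub_apply, map_sub, Finsupp.sub_apply]
  omega

end TRIM

open TRIM in
theorem specTRI (hRNG : SpecRNG) (hRTF : SpecRTF.{u}) (hSGN : SpecSGN.{u}) (hEUL : SpecEUL.{u})
    (hHRN : SpecHRN.{u}) (hCOE : SpecCOE.{u}) (hFAM : SpecFAM.{u}) : SpecTRI.{u} := by
  intro B W _ _ _ M cs A I _ _ _ r hinj ω hω hall L hL
  obtain ⟨E, hE1, hE2, hE3⟩ := hFAM B W M cs A I r hinj ω hω hall L hL
  refine hE3.imp_of_mem ?_
  intro a b ha hb hX
  obtain ⟨R1, hmul, hadd, ⟨hb0, h1, h0⟩, hz, ⟨-, -⟩, hsq, -, -⟩ := hRNG A I r.R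
  have hrta := (hSGN B W M cs A I r).2.2.1 a (hL.1 a ha)
  have hrtb := (hSGN B W M cs A I r).2.2.1 b (hL.1 b hb)
  have hbne : ∀ i : I, r.R.b i ≠ 0 := by
    intro i h
    have h2 : r.R.b.repr (r.R.b i) i = 1 := by simp
    rw [h] at h2
    simp at h2
  -- first part
  have e0 : eA r.X ω (r.rt b) (r.rt a) = 0 := by
    apply r.R.b.repr.injective
    ext i
    rw [map_zero, Finsupp.zero_apply]
    have := form_one_left hRNG hEUL hCOE r ω (r.rt b) (r.rt a) i (E b r.R.one) (E a i)
      (hE1 b hb _).1 (hE1 a ha i).1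
    rw [← this, (hX i r.R.one).1, (hX i r.R.one).2]
    simp
  refine ⟨e0, ?_⟩
  by_contra hcon
  push Not at hcon
  obtain ⟨hc1, hc2⟩ := hcon
  obtain ⟨j, hj⟩ : ∃ j, r.R.b.repr (eA r.X ω (r.rt a) (r.rt b)) j < 0 := by
    by_contra h
    push Not at h
    exact hc1 h
  obtain ⟨i, hi⟩ : ∃ i, 0 < r.R.b.repr (eA r.X ω (r.rt a) (r.rt b)) i := by
    by_contra h
    push Not at h
    apply hc2
    intro i
    rw [map_neg, Finsupp.neg_apply]
    have := h i
    omega
  have inb : ∀ (t : W), t ∈ L → ∀ k l : I, xd (E t k) (E t l) = 0 := by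
    intro t ht k l
    by_cases h : k = l
    · subst h
      exact (hE1 t ht k).2.2
    · exact (hE2 t ht l k (fun h' => h h'.symm)).2
  -- the epimorphism
  have f1 := form_one_left hRNG hEUL hCOE r ω (r.rt a) (r.rt b) i (E a r.R.one) (E b i)
    (hE1 a ha _).1 (hE1 b hb i).1
  have f2 := form_one_left hRNG hEUL hCOE r ω (r.rt a) (r.rt b) j (E a r.R.one) (E b j)
    (hE1 a ha _).1 (hE1 b hb j).1
  have g1 := form_one_right hRNG hEUL hCOE r ω (r.rt a) (r.rt b) i (E a i) (E b r.R.one)
    (hE1 a ha i).1 (hE1 b hb _).1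
  have g2 := form_one_right hRNG hEUL hCOE r ω (r.rt a) (r.rt b) j (E a j) (E b r.R.one)
    (hE1 a ha j).1 (hE1 b hb _).1
  have c1 : ∀ p, dm (E b i) p ≤ dm (E a r.R.one) p := by
    have hne : hd (E a r.R.one) (E b i) ≠ 0 := by omega
    obtain ⟨-, h | h⟩ := hHRN (B × I) (r.mu ω) (E a r.R.one) (E b i) (hE1 a ha _).2 (hE1 b hb i).2
      (hX _ _) hne
    · exfalso
      have h2 := (h.1 (E b j)).1
      rw [inb b hb i j] at h2
      omega
    · exact h.2
  have c2 : ∀ p, dm (E a i) p ≤ dm (E b r.R.one) p := by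
    have hne : hd (E a i) (E b r.R.one) ≠ 0 := by omega
    obtain ⟨-, h | h⟩ := hHRN (B × I) (r.mu ω) (E a i) (E b r.R.one) (hE1 a ha _).2 (hE1 b hb _).2
      (hX _ _) hne
    · exact h.2
    · exfalso
      have h2 := (h.1 (E a j)).1
      rw [inb a ha j i] at h2
      omega
  rw [(hE1 b hb i).1, (hE1 a ha r.R.one).1, r.R.b_one, one_smul] at c1
  rw [(hE1 a ha i).1, (hE1 b hb r.R.one).1, r.R.b_one, one_smul] at c2
  have p1 := pv_of_co r _ _ c1
  have p2 := pv_of_co r _ _ c2
  have hq := hsq _ (hb0 i) (hbne i)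
  have q1 : r.rt a = r.R.b i • r.rt b :=
    squeeze hRNG r.R (r.R.b i) (hb0 i) hq _ _ hrta.2 p1 p2
  have q2 : r.rt b = r.R.b i • r.rt a :=
    squeeze hRNG r.R (r.R.b i) (hb0 i) hq _ _ hrtb.2 p2 p1
  have q3 : eA r.X ω (r.rt a) (r.rt b) = r.R.b i := by
    have q4 : eA r.X ω (r.rt a) (r.rt b) = eA r.X ω (r.rt a) (r.R.b i • r.rt a) :=
      congrArg (eA r.X ω (r.rt a)) q2
    rw [q4, eA_smul_right, eA_self hRNG hRTF r ω hall a _ hrta.1, mul_one]
  rw [q3] at hj
  exact absurd (hb0 i j) (by omega)

end Pool.Agent.Lib.MP_20db89_co.AK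
end
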