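import Pool.Agent.Lib.MP_20db89_co.AK.Spec

set_option autoImplicit false

/-!
# MP_20db89: module UEX (universal extension)
-/

namespace Pool.Agent.Lib.MP_20db89_co.AK

universe u

namespace UEXM

open Module

/-! ### Linear algebra -/

section lin
variable {A B A' B' : Type*} [AddCommGroup A] [AddCommGroup B] [AddCommGroup A'] [AddCommGroup B']
  [Module ℚ A] [Module ℚ B] [Module ℚ A'] [Module ℚ B'] [Module.Finite ℚ A] [Module.Finite ℚ B]
  [Module.Finite ℚ A'] [Module.Finite ℚ B']

/-- kernel and cokernel of a power of a linear map -/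
theorem pow_ker (D : A →ₗ[ℚ] B) (D' : A' →ₗ[ℚ] B') (n : ℕ) (α : A' ≃ₗ[ℚ] (Fin n → A))
    (β : B' ≃ₗ[ℚ] (Fin n → B)) (h : ∀ f j, β (D' f) j = D (α f j)) :
    finrank ℚ (LinearMap.ker D') = n * finrank ℚ (LinearMap.ker D) ∧
      finrank ℚ (B' ⧸ LinearMap.range D') = n * finrank ℚ (B ⧸ LinearMap.range D) := by
  have hmem : ∀ f, f ∈ LinearMap.ker D' ↔ ∀ j, α f j ∈ LinearMap.ker D := by
    intro f
    simp only [LinearMap.mem_ker]
    constructor
    · intro hf j
      rw [← h, hf, map_zero]
      rfl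
    · intro hf
      apply β.injective
      rw [map_zero]
      funext j
      rw [h, hf]
      rfl
  let K : LinearMap.ker D' ≃ₗ[ℚ] (Fin n → LinearMap.ker D) :=
    { toFun := fun f j => ⟨α f.1 j, (hmem f.1).1 f.2 j⟩
      invFun := fun g => ⟨α.symm (fun j => (g j : A)), (hmem _).2 (by
        intro j
        rw [LinearEquiv.apply_symm_apply]
        exact (g j).2)⟩
      map_add' := by
        intro f g
        funext j
        apply Subtype.ext
        simp
      map_smul' := by
        intro c f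
        funext j
        apply Subtype.ext
        simp
      left_inv := by
        intro f
        apply Subtype.ext
        simp
      right_inv := by
        intro g
        funext j
        apply Subtype.ext
        simp }
  have h1 : finrank ℚ (LinearMap.ker D') = n * finrank ℚ (LinearMap.ker D) := by
    rw [K.finrank_eq, finrank_pi_fintype]
    simp
  refine ⟨h1, ?_⟩
  have h2 := LinearMap.finrank_range_add_finrank_ker D
  have h3 := LinearMap.finrank_range_add_finrank_ker D'
  have h4 : finrank ℚ A' = n * finrank ℚ A := by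
    rw [α.finrank_eq, finrank_pi_fintype]; simp
  have h5 : finrank ℚ B' = n * finrank ℚ B := by
    rw [β.finrank_eq, finrank_pi_fintype]; simp
  have h6 := Submodule.finrank_quotient_add_finrank (LinearMap.range D)
  have h7 := Submodule.finrank_quotient_add_finrank (LinearMap.range D')
  have h8 : finrank ℚ (LinearMap.range D') = n * finrank ℚ (LinearMap.range D) := by
    rw [h4, h1, ← h2, mul_add] at h3
    omega
  rw [h5, h8, ← h6, mul_add] at h7
  omega

end lin

variable {Q : Type u} {mu : Q → Q → ℕ}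

/-- the power `E ^ n` -/
def pw (E : Rp Q mu) (n : ℕ) : Rp Q mu where
  V x := Fin n → E.V x
  acg _ := inferInstance
  mod _ := inferInstance
  fin _ := inferInstance
  map x y k := LinearMap.pi (fun j => E.map x y k ∘ₗ LinearMap.proj j)

instance [Fintype Q] (E F : Rp Q mu) : Module.Finite ℚ (H0 E F) := by
  unfold H0; infer_instance

instance [Fintype Q] (E F : Rp Q mu) : Module.Finite ℚ (H1 E F) := by
  unfold H1; infer_instance

/-- second variable, degree zero -/
def a2 (Z E : Rp Q mu) (n : ℕ) : H0 Z (pw E n) ≃ₗ[ℚ] (Fin n → H0 Z E) where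
  toFun f := fun j x => LinearMap.proj j ∘ₗ f x
  invFun g := fun x => LinearMap.pi (fun j => g j x)
  map_add' f g := by
    funext j x
    ext v
    rfl
  map_smul' c f := by
    funext j x
    ext v
    rfl
  left_inv f := by
    funext x
    rfl
  right_inv g := by
    funext j x
    rfl

/-- second variable, degree one -/
def b2 (Z E : Rp Q mu) (n : ℕ) : H1 Z (pw E n) ≃ₗ[ℚ] (Fin n → H1 Z E) where
  toFun f := fun j x y k => LinearMap.proj j ∘ₗ f x y k
  invFun g := fun x y k => LinearMap.pi (fun j => g j x y k)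
  map_add' f g := by
    funext j x y k
    ext v
    rfl
  map_smul' c f := by
    funext j x y k
    ext v
    rfl
  left_inv f := by
    funext x y k
    rfl
  right_inv g := by
    funext j x y k
    rfl

/-- first variable, one vertex -/
def lf {V W : Type} [AddCommGroup V] [Module ℚ V] [AddCommGroup W] [Module ℚ W] (n : ℕ) :
    ((Fin n → V) →ₗ[ℚ] W) ≃ₗ[ℚ] (Fin n → (V →ₗ[ℚ] W)) :=
  (LinearMap.lsum ℚ (fun _ : Fin n => V) ℚ).symm

theorem lf_apply {V W : Type} [AddCommGroup V] [Module ℚ V] [AddCommGroup W] [Module ℚ W] (n : ℕ)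
    (f : (Fin n → V) →ₗ[ℚ] W) (j : Fin n) : lf n f j = f ∘ₗ LinearMap.single ℚ (fun _ => V) j := rfl

/-- first variable, degree zero -/
def a1 (E Z : Rp Q mu) (n : ℕ) : H0 (pw E n) Z ≃ₗ[ℚ] (Fin n → H0 E Z) where
  toFun f := fun j x => lf n (f x) j
  invFun g := fun x => (lf n).symm (fun j => g j x)
  map_add' f g := by
    funext j x
    exact congrFun (map_add (lf n) (f x) (g x)) j
  map_smul' c f := by
    funext j x
    exact congrFun (map_smul (lf n) c (f x)) j
  left_inv f := by
    funext x
    exact (lf n).symm_apply_apply (f x)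
  right_inv g := by
    funext j x
    exact congrFun ((lf n).apply_symm_apply (fun j => g j x)) j

/-- first variable, degree one -/
def b1 (E Z : Rp Q mu) (n : ℕ) : H1 (pw E n) Z ≃ₗ[ℚ] (Fin n → H1 E Z) where
  toFun f := fun j x y k => lf n (f x y k) j
  invFun g := fun x y k => (lf n).symm (fun j => g j x y k)
  map_add' f g := by
    funext j x y k
    exact congrFun (map_add (lf n) (f x y k) (g x y k)) j
  map_smul' c f := by
    funext j x y k
    exact congrFun (map_smul (lf n) c (f x y k)) j
  left_inv f := by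
    funext x y k
    exact (lf n).symm_apply_apply (f x y k)
  right_inv g := by
    funext j x y k
    exact congrFun ((lf n).apply_symm_apply (fun j => g j x y k)) j

theorem pw_map_single (E : Rp Q mu) (n : ℕ) (x y : Q) (k : Fin (mu x y)) (j : Fin n) :
    (pw E n).map x y k ∘ₗ LinearMap.single ℚ (fun _ : Fin n => E.V x) j =
      LinearMap.single ℚ (fun _ : Fin n => E.V y) j ∘ₗ E.map x y k := by
  refine LinearMap.ext fun v => funext fun i => ?_
  show E.map x y k ((Pi.single j v : Fin n → E.V x) i) = (Pi.single j (E.map x y k v) : Fin n → E.V y) i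
  by_cases h : i = j
  · subst h
    simp
  · rw [Pi.single_eq_of_ne h, Pi.single_eq_of_ne h, map_zero]

theorem isPw_pw [Fintype Q] (E : Rp Q mu) (n : ℕ) : IsPw E n (pw E n) := by
  refine ⟨?_, fun Z => ?_⟩
  · funext x
    show ((finrank ℚ (Fin n → E.V x) : ℕ) : ℤ) = (n : ℤ) * (finrank ℚ (E.V x) : ℤ)
    rw [finrank_pi_fintype]
    simp
  · obtain ⟨h1, h2⟩ := pow_ker (dl Z E) (dl Z (pw E n)) n (a2 Z E n) (b2 Z E n) (by
      intro f j
      rfl)
    obtain ⟨h3, h4⟩ := pow_ker (dl E Z) (dl (pw E n) Z) n (a1 E Z n) (b1 E Z n) (by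
      intro f j
      funext x y k
      show (f y ∘ₗ (pw E n).map x y k - Z.map x y k ∘ₗ f x) ∘ₗ
        LinearMap.single ℚ (fun _ : Fin n => E.V x) j =
        (f y ∘ₗ LinearMap.single ℚ (fun _ : Fin n => E.V y) j) ∘ₗ E.map x y k -
        Z.map x y k ∘ₗ (f x ∘ₗ LinearMap.single ℚ (fun _ : Fin n => E.V x) j)
      have h := pw_map_single E n x y k j
      have e1 : (f y ∘ₗ (pw E n).map x y k - Z.map x y k ∘ₗ f x) ∘ₗ
          LinearMap.single ℚ (fun _ : Fin n => E.V x) j =
          f y ∘ₗ ((pw E n).map x y k ∘ₗ LinearMap.single ℚ (fun _ : Fin n => E.V x) j) -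
          Z.map x y k ∘ₗ (f x ∘ₗ LinearMap.single ℚ (fun _ : Fin n => E.V x) j) := rfl
      rw [e1, h]
      rfl)
    exact ⟨h1, h2, h3, h4⟩

/-! ### The universal extension -/

/-- the extension of `E ^ n` by `F` with the classes `ξ j` -/
def ext (E F : Rp Q mu) (n : ℕ) (ξ : Fin n → H1 E F) : Rp Q mu where
  V x := F.V x × (Fin n → E.V x)
  acg _ := inferInstance
  mod _ := inferInstance
  fin _ := inferInstance
  map x y k := LinearMap.prod
    (F.map x y k ∘ₗ LinearMap.fst ℚ _ _ +
      ∑ j, ξ j x y k ∘ₗ LinearMap.proj j ∘ₗ LinearMap.snd ℚ (F.V x) (Fin n → E.V x))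
    (LinearMap.pi (fun j => E.map x y k ∘ₗ LinearMap.proj j ∘ₗ
      LinearMap.snd ℚ (F.V x) (Fin n → E.V x)))

theorem ses_ext (E F : Rp Q mu) (n : ℕ) (ξ : Fin n → H1 E F) :
    Ses F (ext E F n ξ) (pw E n) := by
  refine ⟨fun x => LinearMap.inl ℚ (F.V x) (Fin n → E.V x),
    fun x => LinearMap.snd ℚ (F.V x) (Fin n → E.V x), ?_, ?_, ?_, ?_, ?_⟩
  · funext x y k
    refine LinearMap.ext fun v => ?_
    show (F.map x y k v, (0 : Fin n → E.V y)) - (F.map x y k v + (∑ j, ξ j x y k ∘ₗ LinearMap.proj j ∘ₗ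
      LinearMap.snd ℚ (F.V x) (Fin n → E.V x)) (v, 0), fun j => E.map x y k 0) = 0
    have h1 : (∑ j, ξ j x y k ∘ₗ LinearMap.proj j ∘ₗ
      LinearMap.snd ℚ (F.V x) (Fin n → E.V x)) (v, 0) = 0 := by
      rw [LinearMap.sum_apply]
      exact Finset.sum_eq_zero fun j _ => by simp
    rw [h1]
    simp only [map_zero, add_zero]
    exact sub_self _
  · funext x y k
    refine LinearMap.ext fun v => ?_
    exact sub_self _
  · intro x
    exact LinearMap.inl_injective
  · intro x v
    exact ⟨((0 : F.V x), v), rfl⟩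
  · intro x
    exact LinearMap.range_inl _ _ _

/-- the endomorphisms of a brick -/
theorem brick_end {E : Rp Q mu} (hE : hd E E = 1) {f : H0 E E} (hf : dl E E f = 0) :
    ∃ c : ℚ, ∀ (x : Q) (v : E.V x), f x v = c • v := by
  have h1 : (fun x => LinearMap.id : H0 E E) ∈ LinearMap.ker (dl E E) := by
    rw [LinearMap.mem_ker]
    funext x y k
    exact sub_self _
  have hne : (⟨fun x => LinearMap.id, h1⟩ : LinearMap.ker (dl E E)) ≠ 0 := by
    intro h0
    have h2 : (fun x => LinearMap.id : H0 E E) = 0 := congrArg Subtype.val h0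
    have h3 : ∀ g : LinearMap.ker (dl E E), g = 0 := by
      intro g
      apply Subtype.ext
      funext x
      refine LinearMap.ext fun v => ?_
      have h4 : v = 0 := by
        have := congrArg (fun φ : H0 E E => φ x v) h2
        exact this
      rw [h4]
      simp
    have h5 : Subsingleton (LinearMap.ker (dl E E)) := ⟨fun a b => by rw [h3 a, h3 b]⟩
    have h6 : hd E E = 0 := finrank_zero_of_subsingleton
    omega
  obtain ⟨c, hc⟩ := (finrank_eq_one_iff_of_nonzero' _ hne).1 hE ⟨f, LinearMap.mem_ker.2 hf⟩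
  refine ⟨c, fun x v => ?_⟩
  have h7 : c • (fun x => LinearMap.id : H0 E E) = f := congrArg Subtype.val hc
  rw [← h7]
  rfl

end UEXM

open UEXM

/-- Universal extension. -/
theorem specUEX : SpecUEX.{u} := by
  intro Q _ mu E F hE hEF
  classical
  set e := xd E F with he
  let b : Module.Basis (Fin e) ℚ (H1 E F ⧸ LinearMap.range (dl E F)) := Module.finBasis ℚ _
  choose ξ hξ using fun j => Submodule.mkQ_surjective (LinearMap.range (dl E F)) (b j)
  refine ⟨pw E e, UEXM.ext E F e ξ, isPw_pw E e, ses_ext E F e ξ, ?_⟩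
  have key : ∀ f : H0 E (UEXM.ext E F e ξ), dl E (UEXM.ext E F e ξ) f = 0 → f = 0 := by
    intro f hf
    have h1 : ∀ (x y : Q) (k : Fin (mu x y)) (v : E.V x),
        f y (E.map x y k v) = (UEXM.ext E F e ξ).map x y k (f x v) := by
      intro x y k v
      have h2 := congrArg (fun φ : H1 E (UEXM.ext E F e ξ) => φ x y k v) hf
      exact sub_eq_zero.1 h2
    let g : Fin e → H0 E E := fun j x => LinearMap.proj j ∘ₗ LinearMap.snd ℚ (F.V x) (Fin e → E.V x) ∘ₗ f x
    let f0 : H0 E F := fun x => LinearMap.fst ℚ (F.V x) (Fin e → E.V x) ∘ₗ f x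
    have hg : ∀ j, dl E E (g j) = 0 := by
      intro j
      funext x y k
      refine LinearMap.ext fun v => ?_
      have h2 : g j y (E.map x y k v) = E.map x y k (g j x v) :=
        congrFun (congrArg Prod.snd (h1 x y k v)) j
      exact sub_eq_zero.2 h2
    choose c hc using fun j => brick_end hE.1 (hg j)
    have hf0 : dl E F f0 = ∑ j, c j • ξ j := by
      funext x y k
      refine LinearMap.ext fun v => ?_
      have h2 : f0 y (E.map x y k v) = F.map x y k (f0 x v) + (∑ j, ξ j x y k ∘ₗ LinearMap.proj j ∘ₗ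
          LinearMap.snd ℚ (F.V x) (Fin e → E.V x)) (f x v) := congrArg Prod.fst (h1 x y k v)
      have h3a : ∀ w : F.V x × (Fin e → E.V x), (∑ j, ξ j x y k ∘ₗ LinearMap.proj j ∘ₗ
          LinearMap.snd ℚ (F.V x) (Fin e → E.V x)) w = ∑ j, ξ j x y k (w.2 j) := by
        intro w
        rw [LinearMap.sum_apply]
        rfl
      have h3 : ∑ j, ξ j x y k (g j x v) = ∑ j, c j • ξ j x y k v :=
        Finset.sum_congr rfl fun j _ => by rw [hc j x v, map_smul]
      have h3b : (∑ j, ξ j x y k ∘ₗ LinearMap.proj j ∘ₗ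
          LinearMap.snd ℚ (F.V x) (Fin e → E.V x)) (f x v) = ∑ j, ξ j x y k (g j x v) := h3a (f x v)
      have h4 : (∑ j, c j • ξ j) x y k v = ∑ j, c j • ξ j x y k v := by
        simp only [Finset.sum_apply, Pi.smul_apply, LinearMap.sum_apply, LinearMap.smul_apply]
      show f0 y (E.map x y k v) - F.map x y k (f0 x v) = _
      rw [h2, h3b, h3, h4, add_sub_cancel_left]
    have hc0 : ∀ j, c j = 0 := by
      have h5 : ∑ j, c j • b j = 0 := by
        have h6 : (LinearMap.range (dl E F)).mkQ (∑ j, c j • ξ j) = ∑ j, c j • b j := by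
          rw [map_sum]
          exact Finset.sum_congr rfl fun j _ => by rw [map_smul, hξ]
        rw [← h6, ← hf0, Submodule.mkQ_apply, Submodule.Quotient.mk_eq_zero]
        exact ⟨f0, rfl⟩
      exact Fintype.linearIndependent_iff.1 b.linearIndependent c h5
    have hf00 : f0 = 0 := by
      have h7 : dl E F f0 = 0 := by
        rw [hf0]
        exact Finset.sum_eq_zero fun j _ => by rw [hc0 j, zero_smul]
      have h8 : LinearMap.ker (dl E F) = ⊥ := Submodule.finrank_eq_zero.1 hEF
      have h9 : f0 ∈ LinearMap.ker (dl E F) := h7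
      rw [h8] at h9
      exact (Submodule.mem_bot ℚ).1 h9
    funext x
    refine LinearMap.ext fun v => Prod.ext ?_ (funext fun j => ?_)
    · exact congrArg (fun φ : H0 E F => φ x v) hf00
    · have h10 := hc j x v
      rw [hc0 j, zero_smul] at h10
      exact h10
  have hbot : LinearMap.ker (dl E (UEXM.ext E F e ξ)) = ⊥ := by
    rw [Submodule.eq_bot_iff]
    exact fun f hf => key f hf
  unfold hd
  rw [hbot]
  exact finrank_bot ℚ _

end Pool.Agent.Lib.MP_20db89_co.AK
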